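import Pool.Agent.Lib.GraphPart.Params2

/-!
All but a negligible fraction of the codes are regular.
-/

namespace Pool.Agent.Lib.GraphPart

open Finset

/-- regular codes -/
def RC (L e v3 : ℕ) (c : Cd) : Prop :=
  2 ^ v3 ≤ c.1 ∧ ∃ A : ℝ, (2:ℝ) ^ (L / 2 - e) / 2 ≤ A ∧
    Reg (fun j => ((j:ℝ) + 1) * ab c j / A) e v3 (1 / 2 ^ (e / 4)) ((L:ℝ) ^ 2 + 2) (2 ^ (2 * e))

lemma ab_sq (c : Cd) (j : ℕ) : ((ab c j : ℕ) : ℝ) ^ 2 = ((mm c j : ℝ) - uu c j) ^ 2 := by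
  have hab : (ab c j : ℝ) = |(mm c j : ℝ) - uu c j| := by
    unfold ab
    rw [Nat.cast_natAbs]
    push_cast
    rfl
  rw [hab, sq_abs]

lemma sqrt_bounds {N L : ℕ} (h1 : 2 ^ L ≤ N) (h2 : N < 2 ^ (L + 1)) :
    2 ^ (L / 2) ≤ Nat.sqrt N ∧ r0 N ≤ 2 ^ (L / 2 + 3) := by
  constructor
  · rw [Nat.le_sqrt, ← pow_add]
    exact (Nat.pow_le_pow_right (by norm_num) (by omega)).trans h1
  · have h3 : Nat.sqrt N < 2 ^ (L / 2 + 1) := by
      rw [Nat.sqrt_lt, ← pow_add]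
      exact h2.trans_le (Nat.pow_le_pow_right (by norm_num) (by omega))
    unfold r0
    have h4 : 2 ^ (L / 2 + 3) = 4 * 2 ^ (L / 2 + 1) := by ring
    have h5 : 1 ≤ 2 ^ (L / 2 + 1) := Nat.one_le_two_pow
    omega

/-- piece 1 -/
lemma piece1 {Lam L e v3 N : ℕ} (h : Par Lam L e v3) (h1 : 2 ^ L ≤ N) (h2 : N < 2 ^ (L + 1)) :
    2 ^ L * ((allCodes N).filter fun c => c.1 < 2 ^ v3).card ≤ pp N := by
  obtain ⟨e1, e2⟩ := h.exps
  have e3 := h.e_big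
  obtain ⟨s1, s2⟩ := sqrt_bounds h1 h2
  have hs := small_d N (2 ^ v3)
  have hm : 2 ^ (L / 2 - 3) * r0 N ≤ N := by
    calc 2 ^ (L / 2 - 3) * r0 N ≤ 2 ^ (L / 2 - 3) * 2 ^ (L / 2 + 3) := Nat.mul_le_mul_left _ s2
      _ = 2 ^ (L / 2 - 3 + (L / 2 + 3)) := by rw [← pow_add]
      _ ≤ 2 ^ L := Nat.pow_le_pow_right (by norm_num) (by omega)
      _ ≤ N := h1
  have hp := pp_ge N (2 ^ (L / 2 - 3)) hm
  have h16 : 16 * (L + 1) ≤ 2 ^ e := h.poly (by nlinarith [pow_pos (show 0 < L + 3 by omega) 4]) (by omega)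
  calc 2 ^ L * ((allCodes N).filter fun c => c.1 < 2 ^ v3).card ≤ 2 ^ L * (2 ^ v3 * (N + 1) ^ (2 * 2 ^ v3)) :=
        Nat.mul_le_mul_left _ hs
    _ ≤ 2 ^ L * (2 ^ v3 * (2 ^ (L + 1)) ^ (2 * 2 ^ v3)) := by gcongr; omega
    _ = 2 ^ (L + v3 + (L + 1) * (2 * 2 ^ v3)) := by rw [← pow_mul, ← pow_add, ← pow_add, Nat.add_assoc]
    _ ≤ 2 ^ (2 ^ (L / 2 - 3)) := by
        apply Nat.pow_le_pow_right (by norm_num)
        have f1 : L / 2 - 3 = v3 + (4 * e - 3) := by omega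
        rw [f1, pow_add]
        have f2 : 2 ^ e ≤ 2 ^ (4 * e - 3) := Nat.pow_le_pow_right (by norm_num) (by omega)
        have f3 : 1 ≤ 2 ^ v3 := Nat.one_le_two_pow
        have f4 : v3 < 2 ^ v3 := Nat.lt_two_pow_self
        calc L + v3 + (L + 1) * (2 * 2 ^ v3) ≤ L * 2 ^ v3 + 2 ^ v3 + (L + 1) * (2 * 2 ^ v3) := by nlinarith
          _ = 2 ^ v3 * (3 * (L + 1)) := by ring
          _ ≤ 2 ^ v3 * 2 ^ (4 * e - 3) := Nat.mul_le_mul_left _ (by omega)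
    _ ≤ pp N := hp

open Classical in
/-- piece 2 -/
lemma piece2 {Lam L e v3 N : ℕ} (h : Par Lam L e v3) (h1 : 2 ^ L ≤ N) :
    2 ^ L * ((allCodes N).filter fun c => 2 ^ v3 ≤ c.1 ∧
      mass (wt1 (2 ^ v3)) (lowp (2 ^ v3) c) < smin L e v3).card ≤ pp N := by
  obtain ⟨e1, e2⟩ := h.exps
  have e3 := h.e_big
  have hLam := h.hLam
  set h0 := 40 * Lam with hh0
  set T := 2 ^ (e / 4) with hT
  set y := 2 ^ (L / 2 - e / 2) with hy
  set D := 2 ^ (L / 2 - 1) with hD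
  have hNpos : 0 < N := lt_of_lt_of_le (by positivity) h1
  have hD1 : h0 * (T * (y + 2 ^ v3)) ≤ D := by
    have f1 : 2 ^ v3 ≤ y := Nat.pow_le_pow_right (by norm_num) (by omega)
    have f2 : h0 * (T * (y + 2 ^ v3)) ≤ h0 * (T * (2 * y)) := by gcongr; omega
    have f3 : 4 * h0 ≤ 2 ^ (e / 4) := by have := h.bLam; omega
    have f4 : 2 * (h0 * (T * (2 * y))) ≤ 2 * D := by
      calc 2 * (h0 * (T * (2 * y))) = (4 * h0) * T * y := by ring
        _ ≤ 2 ^ (e / 4) * 2 ^ (e / 4) * y := by gcongr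
        _ = 2 ^ (e / 4 + e / 4 + (L / 2 - e / 2)) := by rw [hy, ← pow_add, ← pow_add]
        _ ≤ 2 ^ (L / 2 - 1 + 1) := Nat.pow_le_pow_right (by norm_num) (by omega)
        _ = 2 * D := by rw [hD, pow_succ]; ring
    omega
  have hD2 : 4 * D ^ 2 ≤ N := by
    calc 4 * D ^ 2 = 2 ^ (2 + (L / 2 - 1) * 2) := by rw [hD, ← pow_mul, pow_add]; norm_num
      _ ≤ 2 ^ L := Nat.pow_le_pow_right (by norm_num) (by omega)
      _ ≤ N := h1
  have key := small_mass (N := N) (K := 2 ^ v3) (h0 := h0) (T := T) (y := y) (D := D) Nat.one_le_two_pow hD1 hD2 hNpos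
  have hsm : smin L e v3 ≤ (2 ^ v3 / h0) * y := by
    have f1 : h0 ≤ 2 ^ (e - e / 2) := by
      have f2 := h.bLam
      calc h0 ≤ 2 ^ (e / 4) := by omega
        _ ≤ _ := Nat.pow_le_pow_right (by norm_num) (by omega)
    have f3 : 2 ^ (v3 - (e - e / 2)) ≤ 2 ^ v3 / h0 := by
      rw [Nat.le_div_iff_mul_le (by omega)]
      calc 2 ^ (v3 - (e - e / 2)) * h0 ≤ 2 ^ (v3 - (e - e / 2)) * 2 ^ (e - e / 2) := Nat.mul_le_mul_left _ f1
        _ = 2 ^ v3 := by rw [← pow_add]; congr 1; omega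
    calc smin L e v3 = 2 ^ (v3 - (e - e / 2)) * 2 ^ (L / 2 - e / 2) := by
          unfold smin; rw [← pow_add]; congr 1; omega
      _ ≤ _ := Nat.mul_le_mul_right _ f3
  set Z := (allCodes N).filter fun c => 2 ^ v3 ≤ c.1 ∧ mass (wt1 (2 ^ v3)) (lowp (2 ^ v3) c) < (2 ^ v3 / h0) * y with hZ
  have hsub : ((allCodes N).filter fun c => 2 ^ v3 ≤ c.1 ∧
      mass (wt1 (2 ^ v3)) (lowp (2 ^ v3) c) < smin L e v3) ⊆ Z := by
    intro c hc
    rw [Finset.mem_filter] at hc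
    rw [hZ, Finset.mem_filter]
    exact ⟨hc.1, hc.2.1, hc.2.2.trans_le hsm⟩
  refine le_trans (Nat.mul_le_mul_left _ (Finset.card_le_card hsub)) ?_
  -- numerics
  have hL := h.L_lt
  have hTp : 2 ^ (2 * L + 5) ≤ T ^ h0 := by
    rw [hT, ← pow_mul]
    apply Nat.pow_le_pow_right (by norm_num)
    have g1 : e ≤ 8 * (e / 4) := by omega
    have g2 : 5 * Lam * e ≤ 5 * Lam * (8 * (e / 4)) := Nat.mul_le_mul_left _ g1
    have g3 : e / 4 * (40 * Lam) = 5 * Lam * (8 * (e / 4)) := by ring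
    have g4 : Lam * (e + 1) = Lam * e + Lam := by ring
    have g5 : 5 * Lam * e = 5 * (Lam * e) := by ring
    have g6 := h.hL
    rw [hh0, g3]
    omega
  have hfin : 2 ^ (2 * L + 5) * Z.card ≤ 2 ^ (L + 5) * pp N := by
    calc 2 ^ (2 * L + 5) * Z.card ≤ T ^ h0 * Z.card := Nat.mul_le_mul_right _ hTp
      _ = Z.card * T ^ h0 := Nat.mul_comm _ _
      _ ≤ 2 ^ v3 * ((D + 1) * (28 * pp N)) := key
      _ ≤ 2 ^ v3 * ((2 * D) * (32 * pp N)) := by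
          gcongr
          · have : 1 ≤ D := Nat.one_le_two_pow
            omega
          · norm_num
      _ = 2 ^ (v3 + (L / 2 - 1) + 6) * pp N := by rw [hD]; ring
      _ ≤ _ := Nat.mul_le_mul_right _ (Nat.pow_le_pow_right (by norm_num) (by omega))
  have h7 : 2 ^ (L + 5) * (2 ^ L * Z.card) ≤ 2 ^ (L + 5) * pp N := by
    calc 2 ^ (L + 5) * (2 ^ L * Z.card) = 2 ^ (2 * L + 5) * Z.card := by ring
      _ ≤ _ := hfin
  exact Nat.le_of_mul_le_mul_left h7 (by positivity)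

open Classical in
/-- piece 4 -/
lemma piece4 {Lam L e v3 N : ℕ} (h : Par Lam L e v3) (h2 : N < 2 ^ (L + 1)) :
    2 ^ L * ((allCodes N).filter fun c => ∃ j, (4 * L) * r0 N ≤ (j + 1) * mm c j ∨
      (4 * L) * r0 N ≤ (j + 1) * uu c j).card ≤ pp N := by
  have hL := h.hL
  have hLam := h.hLam
  have key := big_entry N (4 * L) (by omega)
  set Z := (allCodes N).filter fun c => ∃ j, (4 * L) * r0 N ≤ (j + 1) * mm c j ∨
      (4 * L) * r0 N ≤ (j + 1) * uu c j with hZ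
  have h3 : 2 ^ (3 * L) * (2 ^ L * Z.card) ≤ 2 ^ (3 * L) * pp N := by
    calc 2 ^ (3 * L) * (2 ^ L * Z.card) = 2 ^ (4 * L) * Z.card := by ring
      _ ≤ 2 * N * pp N := key
      _ ≤ 2 ^ (3 * L) * pp N := by
          apply Nat.mul_le_mul_right
          calc 2 * N ≤ 2 * 2 ^ (L + 1) := by omega
            _ = 2 ^ (L + 2) := by ring
            _ ≤ _ := Nat.pow_le_pow_right (by norm_num) (by omega)
  exact Nat.le_of_mul_le_mul_left h3 (by positivity)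

/-- regularity outside the exceptional sets -/
lemma regular_of_not_bad {Lam L e v3 N : ℕ} (h : Par Lam L e v3) (h1 : 2 ^ L ≤ N) (h2 : N < 2 ^ (L + 1)) {c : Cd}
    (g1 : ¬ c.1 < 2 ^ v3) (g2 : ¬ mass (wt1 (2 ^ v3)) (lowp (2 ^ v3) c) < smin L e v3)
    (g3 : ¬ badx L e v3 (mass (wt1 (2 ^ v3)) (lowp (2 ^ v3) c)) (lowp (2 ^ v3) c))
    (g4 : ¬ ∃ j, (4 * L) * r0 N ≤ (j + 1) * mm c j ∨ (4 * L) * r0 N ≤ (j + 1) * uu c j) : RC L e v3 c := by
  obtain ⟨e1, e2⟩ := h.exps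
  have e3 := h.e_big
  obtain ⟨s1, s2⟩ := sqrt_bounds h1 h2
  push Not at g1 g2 g4
  unfold badx at g3
  push Not at g3
  obtain ⟨g3a, g3b⟩ := g3
  set s := mass (wt1 (2 ^ v3)) (lowp (2 ^ v3) c) with hs
  have hspos : 0 < s := lt_of_lt_of_le (by unfold smin; positivity) g2
  have hsr : (0:ℝ) < s := by exact_mod_cast hspos
  have hτ : 0 < tau (Fin (2 ^ v3)) s := tau_pos (h.SZ g2)
  obtain ⟨m1, m2⟩ := Mone_bounds h g2
  set τ := tau (Fin (2 ^ v3)) s with hτdef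
  have hq2 : (0:ℝ) < Real.sqrt 2 := by positivity
  have hq2sq : Real.sqrt 2 ^ 2 = 2 := Real.sq_sqrt (by norm_num)
  have hq21 : (1:ℝ) ≤ Real.sqrt 2 := by rw [Real.one_le_sqrt]; norm_num
  set A : ℝ := Real.sqrt 2 / τ with hA
  have hApos : 0 < A := by positivity
  have hdiv : ∀ x : ℝ, x / A = τ * x / Real.sqrt 2 := by
    intro x; rw [hA]; field_simp
  have hle : ∀ x : ℝ, 0 ≤ x → x / A ≤ τ * x := by
    intro x hx
    rw [hdiv]
    exact div_le_self (by positivity) hq21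
  have habmax : ∀ j, ab c j ≤ max (mm c j) (uu c j) := by
    intro j
    rcases ab_le_max (c := c) (j := j) (k := ab c j) le_rfl with h5 | h5
    · exact h5.trans (le_max_left _ _)
    · exact h5.trans (le_max_right _ _)
  refine ⟨g1, A, ?_, ⟨?_, ?_, ?_, ?_⟩⟩
  · -- lower bound for A
    rw [hA, hτdef, Par.tau_eq]
    have f1 : (2:ℝ) ^ (v3 + L / 2 - e) ≤ s := by exact_mod_cast g2
    have f2 : (2:ℝ) ^ (v3 + L / 2 - e) = 2 ^ (L / 2 - e) * 2 ^ v3 := by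
      rw [← pow_add]; congr 1; omega
    have f3 : Real.sqrt 2 / (2 ^ (v3 + 1) / (s:ℝ)) = Real.sqrt 2 * s / 2 ^ (v3 + 1) := by
      field_simp
    rw [f3, div_le_div_iff₀ (by norm_num) (by positivity)]
    rw [f2] at f1
    calc (2:ℝ) ^ (L / 2 - e) * 2 ^ (v3 + 1) = (2 ^ (L / 2 - e) * 2 ^ v3) * 2 := by ring
      _ ≤ s * 2 := by gcongr
      _ ≤ Real.sqrt 2 * s * 2 := by nlinarith
  · intro j
    positivity
  · -- flatness
    intro t ht
    have f1 := g3b t ht (fun i _ => g3a i)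
    rw [card_grp ht] at f1
    have f2 : ∑ i ∈ grp e v3 t, gst (wt1 (2 ^ v3)) s i (lowp (2 ^ v3) c i) =
        2 * ∑ j ∈ range (2 ^ e), (((((t * 2 ^ e + j : ℕ) : ℝ) + 1) * ab c (t * 2 ^ e + j) / A)) ^ 2 := by
      rw [Finset.mul_sum, ← sum_grp ht (fun j => 2 * (((j:ℝ) + 1) * ab c j / A) ^ 2)]
      refine Finset.sum_congr rfl fun i _ => ?_
      unfold gst lowp wt1
      rw [hdiv, div_pow, mul_pow, mul_pow, mul_pow, mul_pow, ab_sq, hq2sq]
      push_cast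
      ring
    rw [f2] at f1
    set S := ∑ j ∈ range (2 ^ e), (((((t * 2 ^ e + j : ℕ) : ℝ) + 1) * ab c (t * 2 ^ e + j) / A)) ^ 2 with hS
    have f3 : 2 * S - 2 * ((2 ^ e : ℕ) : ℝ) = 2 * (S - 2 ^ e) := by push_cast; ring
    rw [f3, abs_mul, abs_of_pos (by norm_num : (0:ℝ) < 2)] at f1
    push_cast at f1
    have f4 : |S - 2 ^ e| ≤ 1 / 2 ^ (e / 4) * 2 ^ e := by linarith
    exact f4
  · -- first bound
    intro j hj
    have f1 := g3a ⟨j, hj⟩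
    have f2 : lowp (2 ^ v3) c ⟨j, hj⟩ = (mm c j, uu c j) := rfl
    rw [f2] at f1
    simp only at f1
    have f3 : ab c j ≤ Lf L v3 s ⟨j, hj⟩ := (habmax j).trans (max_le f1.1.le f1.2.le)
    have f4 := (wt1_mul_Lf L v3 s ⟨j, hj⟩).2
    have f5 : wt1 (2 ^ v3) ⟨j, hj⟩ = j + 1 := rfl
    rw [f5] at f4
    have f6 : (j + 1) * ab c j ≤ Mone L v3 s + 2 ^ v3 := (Nat.mul_le_mul_left _ f3).trans f4
    have f6r : ((j:ℝ) + 1) * ab c j ≤ ((Mone L v3 s + 2 ^ v3 : ℕ) : ℝ) := by exact_mod_cast f6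
    calc ((j:ℝ) + 1) * ab c j / A ≤ τ * (((j:ℝ) + 1) * ab c j) := hle _ (by positivity)
      _ ≤ τ * ((Mone L v3 s + 2 ^ v3 : ℕ) : ℝ) := by gcongr
      _ ≤ _ := m2
  · -- second bound
    intro j
    have f1 := g4 j
    have f2 : (j + 1) * ab c j ≤ (4 * L) * r0 N := by
      have := habmax j
      rcases le_total (mm c j) (uu c j) with h5 | h5
      · rw [max_eq_right h5] at this
        exact (Nat.mul_le_mul_left _ this).trans f1.2.le
      · rw [max_eq_left h5] at this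
        exact (Nat.mul_le_mul_left _ this).trans f1.1.le
    have f3 : (j + 1) * ab c j ≤ (4 * L) * 2 ^ (L / 2 + 3) := f2.trans (Nat.mul_le_mul_left _ s2)
    have f3r : ((j:ℝ) + 1) * ab c j ≤ (4 * L) * 2 ^ (L / 2 + 3) := by exact_mod_cast f3
    have f4 : τ ≤ 2 ^ (v3 + 1) / 2 ^ (v3 + L / 2 - e) := by
      rw [hτdef, Par.tau_eq]
      apply div_le_div_of_nonneg_left (by positivity) (by positivity)
      exact_mod_cast g2
    have f5 : (2:ℝ) ^ (v3 + 1) / 2 ^ (v3 + L / 2 - e) * 2 ^ (L / 2 + 3) = 2 ^ (e + 4) := by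
      rw [div_mul_eq_mul_div, div_eq_iff (by positivity), ← pow_add, ← pow_add]
      congr 1; omega
    have f6 : 64 * L ≤ 2 ^ e := h.poly (by nlinarith [pow_pos (show 0 < L + 3 by omega) 4]) (by omega)
    have f6r : 64 * (L:ℝ) ≤ 2 ^ e := by exact_mod_cast f6
    calc ((j:ℝ) + 1) * ab c j / A ≤ τ * (((j:ℝ) + 1) * ab c j) := hle _ (by positivity)
      _ ≤ (2 ^ (v3 + 1) / 2 ^ (v3 + L / 2 - e)) * ((4 * L) * 2 ^ (L / 2 + 3)) := by gcongr
      _ = (2 ^ (v3 + 1) / 2 ^ (v3 + L / 2 - e) * 2 ^ (L / 2 + 3)) * (4 * L) := by ring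
      _ = 2 ^ (e + 4) * (4 * L) := by rw [f5]
      _ = 2 ^ e * (64 * L) := by rw [pow_add]; ring
      _ ≤ 2 ^ e * 2 ^ e := by gcongr
      _ = 2 ^ (2 * e) := by rw [← pow_add]; congr 1; omega

open Classical in
/-- **Most codes are regular.** -/
theorem irregular_card {Lam L e v3 N : ℕ} (h : Par Lam L e v3) (h1 : 2 ^ L ≤ N) (h2 : N < 2 ^ (L + 1)) :
    (((allCodes N).filter fun c => ¬ RC L e v3 c).card : ℝ) ≤ 5 / 2 ^ L * pp N := by
  have q1 := piece1 h h1 h2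
  have q2 := piece2 h h1
  have q4 := piece4 h h2
  have q3 := transfer_codes N (2 ^ v3) (by positivity) (badx L e v3) (smin L e v3) (ε := 2 / 2 ^ L) (by positivity)
    (fun s hs hsN => badx_card h hs hsN h2)
  set Z1 := (allCodes N).filter fun c => c.1 < 2 ^ v3 with hZ1
  set Z2 := (allCodes N).filter fun c => 2 ^ v3 ≤ c.1 ∧
      mass (wt1 (2 ^ v3)) (lowp (2 ^ v3) c) < smin L e v3 with hZ2
  set Z3 := (allCodes N).filter fun c => 2 ^ v3 ≤ c.1 ∧ smin L e v3 ≤ mass (wt1 (2 ^ v3)) (lowp (2 ^ v3) c) ∧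
      badx L e v3 (mass (wt1 (2 ^ v3)) (lowp (2 ^ v3) c)) (lowp (2 ^ v3) c) with hZ3
  set Z4 := (allCodes N).filter fun c => ∃ j, (4 * L) * r0 N ≤ (j + 1) * mm c j ∨
      (4 * L) * r0 N ≤ (j + 1) * uu c j with hZ4
  have hsub : ((allCodes N).filter fun c => ¬ RC L e v3 c) ⊆ (Z1 ∪ Z2) ∪ (Z3 ∪ Z4) := by
    intro c hc
    rw [Finset.mem_filter] at hc
    by_contra hcon
    apply hc.2
    rw [Finset.mem_union, Finset.mem_union, Finset.mem_union] at hcon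
    push Not at hcon
    obtain ⟨⟨n1, n2⟩, n3, n4⟩ := hcon
    rw [hZ1, Finset.mem_filter] at n1
    rw [hZ2, Finset.mem_filter] at n2
    rw [hZ3, Finset.mem_filter] at n3
    rw [hZ4, Finset.mem_filter] at n4
    have k1 : ¬ c.1 < 2 ^ v3 := fun hh => n1 ⟨hc.1, hh⟩
    have k2 : ¬ mass (wt1 (2 ^ v3)) (lowp (2 ^ v3) c) < smin L e v3 := fun hh => n2 ⟨hc.1, by omega, hh⟩
    exact regular_of_not_bad h h1 h2 k1 k2 (fun hh => n3 ⟨hc.1, by omega, by omega, hh⟩) (fun hh => n4 ⟨hc.1, hh⟩)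
  have hcard : ((allCodes N).filter fun c => ¬ RC L e v3 c).card ≤ (Z1.card + Z2.card) + (Z3.card + Z4.card) :=
    (Finset.card_le_card hsub).trans ((Finset.card_union_le _ _).trans
      (Nat.add_le_add (Finset.card_union_le _ _) (Finset.card_union_le _ _)))
  have hcardr : (((allCodes N).filter fun c => ¬ RC L e v3 c).card : ℝ) ≤ ((Z1.card:ℝ) + Z2.card) + (Z3.card + Z4.card) := by
    exact_mod_cast hcard
  have hp : (0:ℝ) < 2 ^ L := by positivity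
  have q1r : (Z1.card : ℝ) ≤ 1 / 2 ^ L * pp N := by
    rw [div_mul_eq_mul_div, le_div_iff₀ hp, one_mul, mul_comm]; exact_mod_cast q1
  have q2r : (Z2.card : ℝ) ≤ 1 / 2 ^ L * pp N := by
    rw [div_mul_eq_mul_div, le_div_iff₀ hp, one_mul, mul_comm]; exact_mod_cast q2
  have q4r : (Z4.card : ℝ) ≤ 1 / 2 ^ L * pp N := by
    rw [div_mul_eq_mul_div, le_div_iff₀ hp, one_mul, mul_comm]; exact_mod_cast q4
  have e5 : 5 / (2:ℝ) ^ L * pp N = (1 / 2 ^ L * pp N + 1 / 2 ^ L * pp N) + (2 / 2 ^ L * pp N + 1 / 2 ^ L * pp N) := by ring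
  rw [e5]
  have q3r : (Z3.card : ℝ) ≤ 2 / 2 ^ L * pp N := q3
  linarith

end Pool.Agent.Lib.GraphPart
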