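import Pool.Agent.Lib.GraphPart.Final

/-!
The necessary half of the Erdos-Gallai criterion for codes.
-/

namespace Pool.Agent.Lib.GraphPart

open Finset

lemma exists_subset_map {α : Type} [DecidableEq α] (S : Finset α) (f : α → ℕ) :
    ∀ t : Multiset ℕ, t ≤ S.val.map f → ∃ A : Finset α, A ⊆ S ∧ A.val.map f = t := by
  intro t
  induction t using Multiset.induction_on with
  | empty => intro _; exact ⟨∅, Finset.empty_subset _, rfl⟩
  | cons a t ih =>
    intro h
    obtain ⟨A, hA, hAt⟩ := ih (le_trans (Multiset.le_cons_self t a) h)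
    have h1 : S.val = A.val + (S \ A).val := by
      rw [Finset.sdiff_val]
      exact (add_tsub_cancel_of_le (Finset.val_le_iff.2 hA)).symm
    have h2 : a ::ₘ t ≤ t + (S \ A).val.map f := by
      rw [h1, Multiset.map_add, hAt] at h
      exact h
    have h3 : a ∈ (S \ A).val.map f := by
      have h4 : t + {a} ≤ t + (S \ A).val.map f := by
        rw [add_comm t {a}, Multiset.singleton_add]; exact h2
      have h5 : {a} ≤ (S \ A).val.map f := (add_le_add_iff_left t).1 h4
      exact Multiset.singleton_le.1 h5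
    obtain ⟨v, hv, hva⟩ := Multiset.mem_map.1 h3
    have hv' : v ∈ S \ A := hv
    rw [Finset.mem_sdiff] at hv'
    refine ⟨insert v A, Finset.insert_subset hv'.1 hA, ?_⟩
    rw [Finset.insert_val_of_notMem hv'.2, Multiset.map_cons, hva, hAt]

lemma eg_necessary {n : ℕ} (G : SimpleGraph (Fin n)) [DecidableRel G.Adj] (A : Finset (Fin n)) (k : ℕ)
    (hA : A.card = k) :
    ∑ v ∈ A, (G.degree v + min (G.degree v) k) + k ≤ k * k + ∑ v, min (G.degree v) k := by
  classical
  have h1 : ∑ v ∈ A, G.degree v = ∑ w, (A.filter fun v => G.Adj v w).card := by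
    simp only [Finset.card_filter]
    rw [Finset.sum_comm]
    refine Finset.sum_congr rfl fun v _ => ?_
    rw [← SimpleGraph.card_neighborFinset_eq_degree, ← Finset.card_filter]
    congr 1
    ext w
    simp
  have h2 : ∑ w, (A.filter fun v => G.Adj v w).card + ∑ w ∈ A, min (G.degree w) k + k ≤
      k * k + ∑ w, min (G.degree w) k := by
    have e1 : ∀ F : Fin n → ℕ, ∑ w, F w = ∑ w ∈ A, F w + ∑ w ∈ univ \ A, F w := by
      intro F
      rw [add_comm, Finset.sum_sdiff (Finset.subset_univ A)]
    rw [e1 (fun w => (A.filter fun v => G.Adj v w).card), e1 (fun w => min (G.degree w) k)]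
    have e2 : ∑ w ∈ A, (A.filter fun v => G.Adj v w).card + k ≤ k * k := by
      have e3 : ∑ w ∈ A, ((A.filter fun v => G.Adj v w).card + 1) ≤ ∑ w ∈ A, k := by
        refine Finset.sum_le_sum fun w hw => ?_
        have e4 : (A.filter fun v => G.Adj v w) ⊆ A.erase w := by
          intro v hv
          rw [Finset.mem_filter] at hv
          rw [Finset.mem_erase]
          exact ⟨hv.2.ne, hv.1⟩
        have e5 := Finset.card_le_card e4
        rw [Finset.card_erase_of_mem hw] at e5
        have e6 : 0 < A.card := Finset.card_pos.2 ⟨w, hw⟩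
        omega
      rw [Finset.sum_add_distrib, Finset.sum_const, Finset.sum_const, hA] at e3
      simpa using e3
    have e7 : ∑ w ∈ univ \ A, (A.filter fun v => G.Adj v w).card ≤ ∑ w ∈ univ \ A, min (G.degree w) k := by
      refine Finset.sum_le_sum fun w _ => ?_
      refine le_min ?_ ?_
      · rw [← SimpleGraph.card_neighborFinset_eq_degree]
        apply Finset.card_le_card
        intro v hv
        rw [Finset.mem_filter] at hv
        rw [SimpleGraph.mem_neighborFinset]
        exact hv.2.symm
      · rw [← hA]; exact Finset.card_filter_le _ _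
    omega
  rw [Finset.sum_add_distrib, h1]
  exact h2

theorem cond_of_graphical {d : ℕ} (f : Fin d → ℕ × ℕ) (h : GraphicalMS (partsOf ⟨d, f⟩)) :
    ∀ k, 1 ≤ k → k ≤ d → (k : ℤ) ≤
      ∑ j : Fin d, (min ((j : ℕ) + 1) k : ℕ) * (((f j).1 : ℤ) - (f j).2) := by
  classical
  intro k hk hkd
  obtain ⟨G, hdec, hG⟩ := h
  set u : Fin d → ℕ := fun j => (f j).2 with hu
  set m : Fin d → ℕ := fun j => (f j).1 with hm
  have h0 : partsOf ⟨d, f⟩ = topM d u + botM d m := rfl
  -- the first k rows
  set t : Multiset ℕ := ((univ : Finset (Fin d)).filter fun i : Fin d => (i : ℕ) < k).val.map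
    (fun i : Fin d => d + tl u i) with ht
  have htle : t ≤ partsOf ⟨d, f⟩ := by
    rw [h0]
    refine le_trans ?_ (Multiset.le_add_right _ _)
    exact Multiset.map_le_map (Finset.val_le_iff.2 (Finset.filter_subset _ _))
  have hcardF : ((univ : Finset (Fin d)).filter fun i : Fin d => (i : ℕ) < k).card = k := by
    have h1 : ((univ : Finset (Fin d)).filter fun i : Fin d => (i : ℕ) < k).card = ∑ i : Fin d, if (i : ℕ) < k then 1 else 0 := by
      rw [Finset.card_filter]
    rw [h1]
    have h2 : ∑ i : Fin d, (if (i : ℕ) < k then 1 else 0) = ∑ i ∈ range d, (if i < k then 1 else 0) := by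
      rw [Finset.sum_range]
    rw [h2, ← Finset.card_filter]
    have h3 : (range d).filter (fun i => i < k) = range k := by
      ext i; simp; omega
    rw [h3, Finset.card_range]
  have htcard : Multiset.card t = k := by
    rw [ht, Multiset.card_map]; exact hcardF
  rw [← hG] at htle
  obtain ⟨A, _, hAt⟩ := exists_subset_map univ (fun v => G.degree v) t htle
  have hAcard : A.card = k := by
    rw [← htcard, ← hAt, Multiset.card_map]; rfl
  have key := eg_necessary G A k hAcard
  -- left side
  have e1 : ∑ v ∈ A, (G.degree v + min (G.degree v) k) = (t.map fun x => x + min x k).sum := by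
    rw [← hAt, Multiset.map_map]; rfl
  have e2 : (t.map fun x => x + min x k).sum = k * d + ∑ i ∈ range k, tl u i + k * k := by
    rw [ht, Multiset.map_map]
    have e3 : (Multiset.map ((fun x => x + min x k) ∘ fun i : Fin d => d + tl u i)
      ((univ : Finset (Fin d)).filter fun i : Fin d => (i : ℕ) < k).val).sum =
      ∑ i ∈ (univ : Finset (Fin d)).filter (fun i : Fin d => (i : ℕ) < k), ((d + tl u i) + min (d + tl u i) k) := rfl
    rw [e3]
    have e4 : ∑ i ∈ (univ : Finset (Fin d)).filter (fun i : Fin d => (i : ℕ) < k), ((d + tl u i) + min (d + tl u i) k) =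
        ∑ i ∈ (univ : Finset (Fin d)).filter (fun i : Fin d => (i : ℕ) < k), ((d + k) + tl u i) := by
      refine Finset.sum_congr rfl fun i _ => ?_
      rw [Nat.min_eq_right (by omega)]; ring
    rw [e4, Finset.sum_add_distrib, Finset.sum_const, hcardF]
    have e5 : ∑ i ∈ (univ : Finset (Fin d)).filter (fun i : Fin d => (i : ℕ) < k), tl u i = ∑ i ∈ range k, tl u i := by
      rw [Finset.sum_filter]
      have e6 : ∑ i : Fin d, (if (i : ℕ) < k then tl u i else 0) = ∑ i ∈ range d, (if i < k then tl u i else 0) := by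
        rw [Finset.sum_range]
      rw [e6, ← Finset.sum_filter]
      congr 1
      ext i; simp; omega
    rw [e5]
    simp only [smul_eq_mul]
    ring
  have e7 : ∑ v, min (G.degree v) k = ((partsOf ⟨d, f⟩).map fun x => min x k).sum := by
    have h9 : ((univ : Finset (Fin (Multiset.card (partsOf ⟨d, f⟩)))).val.map (fun v => G.degree v)).map
      (fun x => min x k) = (partsOf ⟨d, f⟩).map (fun x => min x k) := by rw [hG]
    rw [← h9, Multiset.map_map]; rfl
  have e8 : ((partsOf ⟨d, f⟩).map fun x => min x k).sum = d * k + ∑ j : Fin d, min ((j : ℕ) + 1) k * m j := by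
    rw [h0, Multiset.map_add, Multiset.sum_add]
    congr 1
    · unfold topM
      rw [Multiset.map_map]
      have : (Multiset.map ((fun x => min x k) ∘ fun i : Fin d => d + tl u i) (univ : Finset (Fin d)).val).sum =
        ∑ i : Fin d, min (d + tl u i) k := rfl
      rw [this]
      have h5 : ∀ i ∈ (univ : Finset (Fin d)), min (d + tl u i) k = k := by
        intro i _; exact Nat.min_eq_right (by omega)
      rw [Finset.sum_congr rfl h5, Finset.sum_const]
      simp
    · unfold botM
      have h6 : (Multiset.map (fun x => min x k) (∑ j : Fin d, Multiset.replicate (m j) ((j : ℕ) + 1))) =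
          ∑ j : Fin d, Multiset.map (fun x => min x k) (Multiset.replicate (m j) ((j : ℕ) + 1)) := by
        exact map_sum (Multiset.mapAddMonoidHom (fun x => min x k)) _ _
      rw [h6, Multiset.sum_sum]
      refine Finset.sum_congr rfl fun j _ => ?_
      rw [Multiset.map_replicate, Multiset.sum_replicate, smul_eq_mul]; ring
  rw [e1, e2, e7, e8, sum_tl] at key
  have e9 : ∑ j : Fin d, (min ((j : ℕ) + 1) k : ℕ) * (((f j).1 : ℤ) - (f j).2) =
      (∑ j : Fin d, min ((j : ℕ) + 1) k * m j : ℕ) - (∑ j : Fin d, min ((j : ℕ) + 1) k * u j : ℕ) := by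
    push_cast
    rw [← Finset.sum_sub_distrib]
    refine Finset.sum_congr rfl fun j _ => ?_
    simp only [hm, hu]
    ring
  rw [e9]
  have e10 : k * d = d * k := Nat.mul_comm _ _
  rw [e10] at key
  have e11 : (∑ j : Fin d, min ((j : ℕ) + 1) k * u j) + k ≤ ∑ j : Fin d, min ((j : ℕ) + 1) k * m j := by
    omega
  have e12 : ((∑ j : Fin d, min ((j : ℕ) + 1) k * u j : ℕ) : ℤ) + k ≤ (∑ j : Fin d, min ((j : ℕ) + 1) k * m j : ℕ) := by
    exact_mod_cast e11
  linarith

lemma cond_of_graphical' {c : Cd} (h : GraphicalMS (partsOf c)) : DomCond c := by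
  obtain ⟨d, f⟩ := c
  intro k hk hk'
  have h1 := cond_of_graphical f h k hk hk'
  have h2 : ((∑ j : Fin d, ((min ((j : ℕ) + 1) k : ℕ) : ℤ) * (((f j).1 : ℤ) - (f j).2) : ℤ) : ℝ) =
      ∑ j ∈ range d, (min (j + 1) k : ℕ) * ((mm ⟨d, f⟩ j : ℝ) - uu ⟨d, f⟩ j) := by
    rw [Finset.sum_range]
    push_cast
    refine Finset.sum_congr rfl fun j _ => ?_
    unfold mm uu
    simp
  have h3 : ((k : ℤ) : ℝ) ≤ ((∑ j : Fin d, ((min ((j : ℕ) + 1) k : ℕ) : ℤ) * (((f j).1 : ℤ) - (f j).2) : ℤ) : ℝ) := by
    exact_mod_cast h1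
  rw [h2] at h3
  exact_mod_cast h3

theorem graphical_iff {n : ℕ} {c : Cd} (hc : c ∈ allCodes (2 * n)) :
    GraphicalMS (partsOf c) ↔ DomCond c :=
  ⟨cond_of_graphical', graphical_of_cond' hc⟩

end Pool.Agent.Lib.GraphPart
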