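import Pool.Agent.Lib.GraphPart.Realize

/-!
Durfee coding of partitions: a partition with Durfee square of side `d` is given by
two functions `m, u : Fin d → ℕ` (multiplicities of the parts below the square, and of
the columns to the right of it).
-/

namespace Pool.Agent.Lib.GraphPart

open Finset

/-- tail sums -/
def tl {d : ℕ} (u : Fin d → ℕ) (t : ℕ) : ℕ := ∑ j : Fin d, if t ≤ (j : ℕ) then u j else 0

lemma tl_ge {d : ℕ} (u : Fin d → ℕ) {t : ℕ} (h : d ≤ t) : tl u t = 0 := by
  unfold tl
  apply Finset.sum_eq_zero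
  intro j _
  rw [if_neg]
  have := j.2
  omega

lemma tl_step {d : ℕ} (u : Fin d → ℕ) (t : Fin d) : tl u t = u t + tl u (t + 1) := by
  unfold tl
  have : u t = ∑ j : Fin d, if j = t then u j else 0 := by simp
  rw [this, ← Finset.sum_add_distrib]
  refine Finset.sum_congr rfl fun j _ => ?_
  by_cases h : j = t
  · subst h; simp
  · have h' : (j : ℕ) ≠ t := fun h2 => h (Fin.ext h2)
    rw [if_neg h]
    by_cases h3 : (t : ℕ) ≤ j
    · rw [if_pos h3, if_pos (by omega)]; simp
    · rw [if_neg h3, if_neg (by omega)]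

lemma tl_anti {d : ℕ} (u : Fin d → ℕ) : Antitone (tl u) := by
  intro s t hst
  unfold tl
  refine Finset.sum_le_sum fun j _ => ?_
  split_ifs <;> omega

lemma tl_inj {d : ℕ} {u u' : Fin d → ℕ} (h : ∀ t : Fin d, tl u t = tl u' t) : u = u' := by
  have h' : ∀ t, tl u t = tl u' t := by
    intro t
    rcases Nat.lt_or_ge t d with h1 | h1
    · exact h ⟨t, h1⟩
    · rw [tl_ge u h1, tl_ge u' h1]
  funext t
  have h1 := tl_step u t
  have h2 := tl_step u' t
  rw [h' t, h' (t + 1)] at h1
  omega

/-- the rows meeting the Durfee square -/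
def topM (d : ℕ) (u : Fin d → ℕ) : Multiset ℕ := (univ : Finset (Fin d)).val.map (fun i : Fin d => d + tl u i)

/-- the rows below the Durfee square -/
def botM (d : ℕ) (m : Fin d → ℕ) : Multiset ℕ := ∑ j : Fin d, Multiset.replicate (m j) ((j : ℕ) + 1)

/-- the multiset of parts attached to a code -/
def partsOf (c : Σ d : ℕ, (Fin d → ℕ × ℕ)) : Multiset ℕ :=
  topM c.1 (fun j => (c.2 j).2) + botM c.1 (fun j => (c.2 j).1)

lemma mem_topM {d : ℕ} {u : Fin d → ℕ} {x : ℕ} (h : x ∈ topM d u) : d ≤ x := by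
  unfold topM at h
  obtain ⟨i, _, rfl⟩ := Multiset.mem_map.1 h
  omega

lemma mem_botM {d : ℕ} {m : Fin d → ℕ} {x : ℕ} (h : x ∈ botM d m) : 1 ≤ x ∧ x ≤ d := by
  unfold botM at h
  rw [Multiset.mem_sum] at h
  obtain ⟨j, _, hj⟩ := h
  rw [Multiset.eq_of_mem_replicate hj]
  have := j.2
  omega

lemma card_topM (d : ℕ) (u : Fin d → ℕ) : Multiset.card (topM d u) = d := by
  simp [topM]

lemma sum_if_le (d k : ℕ) (j : Fin d) :
    (∑ i ∈ range k, if i ≤ (j : ℕ) then 1 else 0) = min ((j : ℕ) + 1) k := by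
  rw [← Finset.card_filter]
  have : (range k).filter (fun i => i ≤ (j : ℕ)) = range (min ((j : ℕ) + 1) k) := by
    ext i; simp; omega
  rw [this, Finset.card_range]

lemma sum_tl (d k : ℕ) (u : Fin d → ℕ) :
    ∑ i ∈ range k, tl u i = ∑ j : Fin d, min ((j : ℕ) + 1) k * u j := by
  unfold tl
  rw [Finset.sum_comm]
  refine Finset.sum_congr rfl fun j _ => ?_
  rw [← sum_if_le d k j, Finset.sum_mul]
  refine Finset.sum_congr rfl fun i _ => ?_
  split_ifs <;> simp

lemma sum_topM (d : ℕ) (u : Fin d → ℕ) : (topM d u).sum = d ^ 2 + ∑ j : Fin d, ((j : ℕ) + 1) * u j := by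
  unfold topM
  have h1 : ((univ : Finset (Fin d)).val.map (fun i : Fin d => d + tl u i)).sum = ∑ i : Fin d, (d + tl u i) := rfl
  rw [h1, Finset.sum_add_distrib]
  have h2 : ∑ i : Fin d, tl u i = ∑ i ∈ range d, tl u i := by
    rw [Finset.sum_range]
  rw [h2, sum_tl d d u]
  congr 1
  · simp [sq]
  · refine Finset.sum_congr rfl fun j _ => ?_
    rw [Nat.min_eq_left]
    have := j.2
    omega

lemma sum_botM (d : ℕ) (m : Fin d → ℕ) : (botM d m).sum = ∑ j : Fin d, ((j : ℕ) + 1) * m j := by
  unfold botM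
  rw [Multiset.sum_sum]
  refine Finset.sum_congr rfl fun j _ => ?_
  simp [mul_comm]

/-- codes with Durfee side `d` of partitions of `N` -/
def codes (d N : ℕ) : Finset (Fin d → ℕ × ℕ) :=
  (Fintype.piFinset fun _ => range (N + 1) ×ˢ range (N + 1)).filter
    (fun f => d ^ 2 + ∑ j : Fin d, ((j : ℕ) + 1) * ((f j).1 + (f j).2) = N)

lemma mem_codes {d N : ℕ} {f : Fin d → ℕ × ℕ} :
    f ∈ codes d N ↔ d ^ 2 + ∑ j : Fin d, ((j : ℕ) + 1) * ((f j).1 + (f j).2) = N := by
  unfold codes
  rw [Finset.mem_filter, and_iff_right_iff_imp]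
  intro h
  rw [Fintype.mem_piFinset]
  intro j
  have h1 : ((j : ℕ) + 1) * ((f j).1 + (f j).2) ≤ ∑ j : Fin d, ((j : ℕ) + 1) * ((f j).1 + (f j).2) :=
    Finset.single_le_sum (f := fun j : Fin d => ((j : ℕ) + 1) * ((f j).1 + (f j).2))
      (fun _ _ => Nat.zero_le _) (Finset.mem_univ j)
  have h2 : (f j).1 + (f j).2 ≤ ((j : ℕ) + 1) * ((f j).1 + (f j).2) := Nat.le_mul_of_pos_left _ (by omega)
  rw [Finset.mem_product, Finset.mem_range, Finset.mem_range]
  omega

/-- all codes of partitions of `N` -/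
def allCodes (N : ℕ) : Finset (Σ d : ℕ, (Fin d → ℕ × ℕ)) := (range (N + 1)).sigma fun d => codes d N

lemma mem_allCodes {N : ℕ} {c : Σ d : ℕ, (Fin d → ℕ × ℕ)} : c ∈ allCodes N ↔ c.2 ∈ codes c.1 N := by
  unfold allCodes
  rw [Finset.mem_sigma, and_iff_right_iff_imp]
  intro h
  rw [mem_codes] at h
  rw [Finset.mem_range]
  have : c.1 ≤ c.1 ^ 2 := Nat.le_self_pow (by norm_num) _
  omega

lemma partsOf_sum {N : ℕ} {c : Σ d : ℕ, (Fin d → ℕ × ℕ)} (hc : c ∈ allCodes N) : (partsOf c).sum = N := by
  rw [mem_allCodes, mem_codes] at hc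
  unfold partsOf
  rw [Multiset.sum_add, sum_topM, sum_botM, ← hc, add_assoc, ← Finset.sum_add_distrib]
  congr 1
  refine Finset.sum_congr rfl fun j _ => by ring

lemma partsOf_pos {c : Σ d : ℕ, (Fin d → ℕ × ℕ)} {x : ℕ} (hx : x ∈ partsOf c) : 0 < x := by
  unfold partsOf at hx
  rcases Multiset.mem_add.1 hx with h | h
  · unfold topM at h
    obtain ⟨i, _, rfl⟩ := Multiset.mem_map.1 h
    have := i.2
    omega
  · exact (mem_botM h).1

/-- number of elements at least `t` -/
def cge (s : Multiset ℕ) (t : ℕ) : ℕ := Multiset.countP (fun x => t ≤ x) s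

lemma cge_add (s s' : Multiset ℕ) (t : ℕ) : cge (s + s') t = cge s t + cge s' t :=
  Multiset.countP_add _ _ _

lemma cge_topM_le {d t : ℕ} (u : Fin d → ℕ) (h : t ≤ d) : cge (topM d u) t = d := by
  unfold cge
  rw [Multiset.countP_eq_card.2, card_topM]
  intro x hx
  exact h.trans (mem_topM hx)

lemma cge_botM_gt {d t : ℕ} (m : Fin d → ℕ) (h : d < t) : cge (botM d m) t = 0 := by
  unfold cge
  rw [Multiset.countP_eq_zero]
  intro x hx
  have := (mem_botM hx).2
  omega

lemma cge_le_card (s : Multiset ℕ) (t : ℕ) : cge s t ≤ Multiset.card s := Multiset.countP_le_card _ _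

lemma cge_botM {d : ℕ} (m : Fin d → ℕ) (t : Fin d) : cge (botM d m) ((t : ℕ) + 1) = tl m t := by
  unfold cge botM tl
  rw [← Multiset.coe_countPAddMonoidHom, map_sum]
  refine Finset.sum_congr rfl fun j _ => ?_
  rw [Multiset.coe_countPAddMonoidHom]
  by_cases h : (t : ℕ) ≤ j
  · rw [if_pos h, Multiset.countP_eq_card.2, Multiset.card_replicate]
    intro x hx
    rw [Multiset.eq_of_mem_replicate hx]
    omega
  · rw [if_neg h, Multiset.countP_eq_zero]
    intro x hx
    rw [Multiset.eq_of_mem_replicate hx]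
    omega

lemma topM_inj {d : ℕ} {u u' : Fin d → ℕ} (h : topM d u = topM d u') : u = u' := by
  apply tl_inj
  intro t
  by_contra hne
  -- general claim
  have key : ∀ (v w : Fin d → ℕ), topM d v = topM d w → tl v t < tl w t → False := by
    intro v w hvw hlt
    have h1 : cge (topM d v) (d + tl w t) = cge (topM d w) (d + tl w t) := by rw [hvw]
    unfold cge topM at h1
    rw [Multiset.countP_map, Multiset.countP_map] at h1
    have h2 : Multiset.card (Multiset.filter (fun i : Fin d => d + tl w t ≤ d + tl v i) univ.val) ≤ (t : ℕ) := by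
      have : Multiset.filter (fun i : Fin d => d + tl w t ≤ d + tl v i) univ.val =
        (univ.filter (fun i : Fin d => d + tl w t ≤ d + tl v i)).val := rfl
      rw [this, Finset.card_val]
      calc (univ.filter (fun i : Fin d => d + tl w t ≤ d + tl v i)).card ≤ (Finset.Iio t).card := by
            apply Finset.card_le_card
            intro i hi
            rw [Finset.mem_filter] at hi
            rw [Finset.mem_Iio]
            by_contra hcon
            have h4 : (t : ℕ) ≤ i := by
              rw [not_lt] at hcon; exact hcon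
            have h5 := tl_anti v h4
            omega
        _ = t := by simp
    have h3 : (t : ℕ) + 1 ≤ Multiset.card (Multiset.filter (fun i : Fin d => d + tl w t ≤ d + tl w i) univ.val) := by
      have : Multiset.filter (fun i : Fin d => d + tl w t ≤ d + tl w i) univ.val =
        (univ.filter (fun i : Fin d => d + tl w t ≤ d + tl w i)).val := rfl
      rw [this, Finset.card_val]
      calc (t : ℕ) + 1 = (Finset.Iic t).card := by simp
        _ ≤ _ := by
            apply Finset.card_le_card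
            intro i hi
            rw [Finset.mem_filter]
            rw [Finset.mem_Iic] at hi
            refine ⟨Finset.mem_univ _, ?_⟩
            have h5 := tl_anti w (show (i : ℕ) ≤ t from hi)
            omega
    omega
  rcases lt_or_gt_of_ne hne with h1 | h1
  · exact key u u' h h1
  · exact key u' u h.symm h1

lemma partsOf_injective : Function.Injective partsOf := by
  rintro ⟨d, f⟩ ⟨d', f'⟩ h
  have hd : ∀ (d d' : ℕ) (f : Fin d → ℕ × ℕ) (f' : Fin d' → ℕ × ℕ),
      partsOf ⟨d, f⟩ = partsOf ⟨d', f'⟩ → ¬ d < d' := by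
    intro d d' f f' h hlt
    have h1 : cge (partsOf ⟨d, f⟩) d' = cge (partsOf ⟨d', f'⟩) d' := by rw [h]
    unfold partsOf at h1
    rw [cge_add, cge_add] at h1
    simp only at h1
    rw [cge_botM_gt _ hlt, cge_topM_le _ le_rfl] at h1
    have h2 := cge_le_card (topM d fun j => (f j).2) d'
    rw [card_topM] at h2
    omega
  have hdd : d = d' := by
    have h1 := hd d d' f f' h
    have h2 := hd d' d f' f h.symm
    omega
  subst hdd
  have hm : (fun j => (f j).1) = (fun j => (f' j).1) := by
    apply tl_inj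
    intro t
    rw [← cge_botM, ← cge_botM]
    have h1 : cge (partsOf ⟨d, f⟩) ((t : ℕ) + 1) = cge (partsOf ⟨d, f'⟩) ((t : ℕ) + 1) := by rw [h]
    unfold partsOf at h1
    rw [cge_add, cge_add] at h1
    simp only at h1
    rw [cge_topM_le _ (by have := t.2; omega), cge_topM_le _ (by have := t.2; omega)] at h1
    omega
  have hu : (fun j => (f j).2) = (fun j => (f' j).2) := by
    apply topM_inj
    unfold partsOf at h
    simp only at h
    rw [hm] at h
    exact add_right_cancel h
  congr 1
  funext j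
  exact Prod.ext (congrFun hm j) (congrFun hu j)

end Pool.Agent.Lib.GraphPart
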