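import Pool.Agent.Lib.GraphPart.Code

/-!
Every multiset of positive integers has a code; graphical codes.
-/

namespace Pool.Agent.Lib.GraphPart

open Finset

lemma cge_succ (s : Multiset ℕ) (t : ℕ) : cge s t = cge s (t + 1) + Multiset.count t s := by
  unfold cge
  induction s using Multiset.induction with
  | empty => simp
  | cons a s ih =>
    rw [Multiset.countP_cons, Multiset.countP_cons, Multiset.count_cons, ih]
    by_cases h1 : t = a
    · subst h1; simp; omega
    · by_cases h2 : t ≤ a
      · rw [if_pos h2, if_pos (by omega), if_neg h1]; omega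
      · rw [if_neg h2, if_neg (by omega), if_neg h1]; omega

lemma exists_durfee (s : Multiset ℕ) : ∃ d, d ≤ cge s d ∧ cge s (d + 1) ≤ d := by
  classical
  set P : ℕ → Prop := fun t => t ≤ cge s t with hP
  refine ⟨Nat.findGreatest P (Multiset.card s), ?_, ?_⟩
  · have h0 : P 0 := Nat.zero_le _
    exact Nat.findGreatest_spec (P := P) (Nat.zero_le _) h0
  · set d := Nat.findGreatest P (Multiset.card s) with hd
    rcases Nat.lt_or_ge (Multiset.card s) (d + 1) with h | h
    · have := cge_le_card s (d + 1)
      omega
    · have h1 := Nat.findGreatest_is_greatest (P := P) (show Nat.findGreatest P (Multiset.card s) < d + 1 by omega) h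
      simp only [hP] at h1
      omega

lemma exists_top (d : ℕ) (s : Multiset ℕ) (hcard : Multiset.card s = d) (hs : ∀ x ∈ s, d ≤ x) :
    ∃ u : Fin d → ℕ, topM d u = s := by
  classical
  set l := s.sort (· ≥ ·) with hl
  have hls : (l : Multiset ℕ) = s := Multiset.sort_eq s (· ≥ ·)
  have hlen : l.length = d := by rw [← hcard, ← hls]; simp
  have hsort : l.Pairwise (· ≥ ·) := Multiset.pairwise_sort s (· ≥ ·)
  set R : ℕ → ℕ := fun i => if h : i < l.length then l[i] else d with hR
  have hRin : ∀ i (h : i < l.length), R i = l[i] := by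
    intro i h; simp only [hR]; rw [dif_pos h]
  have hRout : ∀ i, d ≤ i → R i = d := by
    intro i h; simp only [hR]; rw [dif_neg (by omega)]
  have hRge : ∀ i, d ≤ R i := by
    intro i
    by_cases h : i < l.length
    · rw [hRin i h]
      apply hs
      rw [← hls]
      exact Multiset.mem_coe.2 (List.getElem_mem h)
    · rw [hRout i (by omega)]
  have hRanti : Antitone R := by
    apply antitone_nat_of_succ_le
    intro i
    by_cases h : i + 1 < l.length
    · rw [hRin _ h, hRin i (by omega)]
      exact List.pairwise_iff_getElem.1 hsort i (i + 1) (by omega) h (by omega)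
    · rw [hRout (i + 1) (by omega)]
      exact hRge i
  refine ⟨fun j => R j - R (j + 1), ?_⟩
  set u : Fin d → ℕ := fun j => R j - R (j + 1) with hu
  have htl : ∀ n t, t + n = d → d + tl u t = R t := by
    intro n
    induction n with
    | zero =>
      intro t ht
      rw [tl_ge u (by omega), hRout t (by omega)]; rfl
    | succ n ih =>
      intro t ht
      have h1 := ih (t + 1) (by omega)
      have h2 := tl_step u ⟨t, by omega⟩
      simp only [hu] at h2
      have h3 := hRanti (show t ≤ t + 1 by omega)
      simp only [hu] at h1 ⊢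
      omega
  unfold topM
  have h4 : (fun i : Fin d => d + tl u i) = fun i : Fin d => R i := by
    funext i
    exact htl (d - i) i (by have := i.2; omega)
  rw [h4, Fin.univ_val_map, ← hls]
  congr 1
  apply List.ext_getElem
  · simp [hlen]
  · intro i h1 h2
    rw [List.getElem_ofFn]
    exact hRin i h2

lemma exists_bot (d : ℕ) (s : Multiset ℕ) (hs : ∀ x ∈ s, 1 ≤ x ∧ x ≤ d) :
    ∃ m : Fin d → ℕ, botM d m = s := by
  classical
  refine ⟨fun j => Multiset.count ((j : ℕ) + 1) s, ?_⟩
  ext a
  unfold botM
  rw [Multiset.count_sum']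
  simp only [Multiset.count_replicate]
  by_cases ha : 1 ≤ a ∧ a ≤ d
  · rw [Finset.sum_eq_single (⟨a - 1, by omega⟩ : Fin d)]
    · simp only
      rw [if_pos (by omega)]
      congr 1
      omega
    · intro j _ hj
      rw [if_neg]
      intro h
      apply hj
      apply Fin.ext
      simp only
      omega
    · intro h; exact absurd (Finset.mem_univ _) h
  · have h1 : a ∉ s := fun h => ha (hs a h)
    rw [Multiset.count_eq_zero_of_notMem h1]
    apply Finset.sum_eq_zero
    intro j _
    rw [if_neg]
    have := j.2
    omega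

lemma partsOf_surjective (s : Multiset ℕ) (hs : ∀ x ∈ s, 0 < x) : ∃ c, partsOf c = s := by
  classical
  obtain ⟨d, h1, h2⟩ := exists_durfee s
  have hcount := cge_succ s d
  set g := cge s (d + 1) with hg
  set A := s.filter (fun x => d + 1 ≤ x) with hA
  set B := s.filter (fun x => ¬ (d + 1 ≤ x)) with hB
  have hAB : A + B = s := Multiset.filter_add_not _ s
  have hcardA : Multiset.card A = g := by
    rw [hg, hA]; unfold cge
    rw [Multiset.countP_eq_card_filter]
  have hrep : Multiset.replicate (d - g) d ≤ B := by
    rw [← Multiset.le_count_iff_replicate_le, hB, Multiset.count_filter_of_pos (by omega)]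
    omega
  obtain ⟨B', hB'⟩ := Multiset.le_iff_exists_add.1 hrep
  obtain ⟨u, hu⟩ := exists_top d (A + Multiset.replicate (d - g) d)
    (by rw [Multiset.card_add, hcardA, Multiset.card_replicate]; omega)
    (by
      intro x hx
      rcases Multiset.mem_add.1 hx with h | h
      · have := (Multiset.mem_filter.1 h).2
        omega
      · rw [Multiset.eq_of_mem_replicate h])
  obtain ⟨m, hm⟩ := exists_bot d B' (by
      intro x hx
      have h3 : x ∈ B := by rw [hB']; exact Multiset.mem_add.2 (Or.inr hx)
      have h4 := Multiset.mem_filter.1 h3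
      have := hs x h4.1
      omega)
  refine ⟨⟨d, fun j => (m j, u j)⟩, ?_⟩
  unfold partsOf
  simp only
  rw [hu, hm, add_assoc, ← hB', hAB]

/-- The degree sequence property for multisets. -/
def GraphicalMS (s : Multiset ℕ) : Prop :=
  ∃ G : SimpleGraph (Fin (Multiset.card s)), ∃ _ : DecidableRel G.Adj,
    (univ : Finset (Fin (Multiset.card s))).val.map (fun v => G.degree v) = s

lemma graphicalMS_of_realizable {V : Type} [Fintype V] (D : V → ℕ) (s : Multiset ℕ)
    (h : Realizable D) (hs : (univ : Finset V).val.map D = s) : GraphicalMS s := by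
  classical
  obtain ⟨G, hG⟩ := h
  have hcard : Fintype.card V = Multiset.card s := by
    rw [← hs, Multiset.card_map]; rfl
  let e : V ≃ Fin (Multiset.card s) := Fintype.equivFinOfCardEq hcard
  have key : ∀ (k : ℕ) (e : V ≃ Fin k), (univ : Finset (Fin k)).val.map
      (fun v => (G.comap e.symm).degree v) = (univ : Finset V).val.map D := by
    intro k e
    have h1 : ∀ v : Fin k, (G.comap e.symm).degree v = D (e.symm v) := by
      intro v
      rw [← hG (e.symm v), ← SimpleGraph.card_neighborFinset_eq_degree]
      apply Finset.card_bij (fun w _ => e.symm w)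
      · intro w hw
        rw [SimpleGraph.mem_neighborFinset, SimpleGraph.comap_adj] at hw
        simp [hw]
      · intro w _ w' _ hww
        exact e.symm.injective hww
      · intro w hw
        refine ⟨e w, ?_, by simp⟩
        rw [SimpleGraph.mem_neighborFinset, SimpleGraph.comap_adj]
        simpa using hw
    have h2 : (fun v => (G.comap e.symm).degree v) = D ∘ e.symm := funext h1
    rw [h2, ← Multiset.map_map]
    congr 1
    have h3 : (univ : Finset (Fin k)).map e.symm.toEmbedding = (univ : Finset V) :=
      Finset.map_univ_equiv e.symm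
    rw [← h3]
    rfl
  exact ⟨G.comap e.symm, inferInstance, (key _ e).trans hs⟩

/-- The signed counts condition on codes implies that the partition is graphical. -/
theorem graphical_of_cond {d N : ℕ} (f : Fin d → ℕ × ℕ) (hf : f ∈ codes d (2 * N))
    (h : ∀ k, 1 ≤ k → k ≤ d → (k : ℤ) ≤
      ∑ j : Fin d, (min ((j : ℕ) + 1) k : ℕ) * (((f j).1 : ℤ) - (f j).2)) :
    GraphicalMS (partsOf ⟨d, f⟩) := by
  classical
  set m : Fin d → ℕ := fun j => (f j).1 with hm
  set u : Fin d → ℕ := fun j => (f j).2 with hu
  set W := Σ j : Fin d, Fin (m j) with hW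
  set b : W → ℕ := fun x => (x.1 : ℕ) + 1 with hb
  set r : ℕ → ℕ := fun i => if i < d then 1 + tl u i else 0 with hr
  have hcb : ∀ i, cb b i = tl m i := by
    intro i
    unfold cb tl
    rw [Finset.card_filter, Fintype.sum_sigma]
    refine Finset.sum_congr rfl fun j _ => ?_
    simp only [hb]
    by_cases h1 : i ≤ (j : ℕ)
    · simp [h1, show i < (j : ℕ) + 1 by omega]
    · simp [h1, show ¬ i < (j : ℕ) + 1 by omega]
  have hDl : ∀ k, k ≤ d → Dl r b k =
      ∑ j : Fin d, (min ((j : ℕ) + 1) k : ℕ) * ((m j : ℤ) - u j) - k := by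
    intro k hk
    unfold Dl
    have e1 : ∑ i ∈ range k, ((cb b i : ℤ) - r i) =
        (∑ i ∈ range k, tl m i : ℕ) - (∑ i ∈ range k, tl u i : ℕ) - k := by
      push_cast
      rw [← Finset.sum_sub_distrib]
      have : (k : ℤ) = ∑ i ∈ range k, (1 : ℤ) := by simp
      rw [this, ← Finset.sum_sub_distrib]
      refine Finset.sum_congr rfl fun i hi => ?_
      have hi' := Finset.mem_range.1 hi
      rw [hcb]
      simp only [hr]
      rw [if_pos (by omega)]
      push_cast; ring
    rw [e1, sum_tl, sum_tl]
    push_cast
    rw [← Finset.sum_sub_distrib]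
    congr 1
    refine Finset.sum_congr rfl fun j _ => by ring
  rw [mem_codes] at hf
  -- parity
  have hpar : ∃ e : ℕ, Dl r b d = 2 * e := by
    have h1 : 0 ≤ Dl r b d := by
      rw [hDl d le_rfl]
      rcases Nat.eq_zero_or_pos d with h0 | h0
      · subst h0; simp
      · have := h d h0 le_rfl
        simp only [hm, hu]
        linarith
    have h2 : Dl r b d = 2 * ((N : ℤ) - ∑ j : Fin d, ((j : ℕ) + 1 : ℤ) * u j) - d ^ 2 - d := by
      rw [hDl d le_rfl]
      have h3 : ((2 * N : ℕ) : ℤ) = d ^ 2 + ∑ j : Fin d, ((j : ℕ) + 1 : ℤ) * ((m j : ℤ) + u j) := by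
        rw [← hf]
        push_cast
        rfl
      push_cast at h3
      have h4 : ∑ j : Fin d, ((min ((j : ℕ) + 1) d : ℕ) : ℤ) * ((m j : ℤ) - u j) =
          ∑ j : Fin d, ((j : ℕ) + 1 : ℤ) * ((m j : ℤ) + u j) - 2 * ∑ j : Fin d, ((j : ℕ) + 1 : ℤ) * u j := by
        rw [Finset.mul_sum, ← Finset.sum_sub_distrib]
        refine Finset.sum_congr rfl fun j _ => ?_
        rw [Nat.min_eq_left (by have := j.2; omega)]
        push_cast
        ring
      rw [h4]
      linarith
    obtain ⟨z, hz⟩ := Int.eq_ofNat_of_zero_le h1
    have h5 : Even ((d : ℤ) ^ 2 + d) := by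
      have := Int.even_mul_succ_self (d : ℤ)
      have h6 : (d : ℤ) ^ 2 + d = d * (d + 1) := by ring
      rw [h6]; exact this
    obtain ⟨q, hq⟩ := h5
    refine ⟨z / 2, ?_⟩
    rw [hz]
    omega
  obtain ⟨e, he⟩ := hpar
  have hreal := real_of_cond d e r b ?_ ?_ ?_ ?_ ?_ he
  · apply graphicalMS_of_realizable (degF d r b) _ hreal
    have h1 : (univ : Finset (Fin d ⊕ W)).val = (univ : Finset (Fin d)).val.map Sum.inl +
        (univ : Finset W).val.map Sum.inr := by
      rw [← Finset.univ_disjSum_univ]
      rfl
    have h0 : partsOf ⟨d, f⟩ = topM d u + botM d m := rfl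
    have hinl : (degF d r b ∘ Sum.inl) = fun i : Fin d => (d - 1) + r i := rfl
    have hinr : (degF d r b ∘ Sum.inr) = b := rfl
    rw [h1, Multiset.map_add, Multiset.map_map, Multiset.map_map, h0, hinl, hinr]
    congr 1
    · unfold topM
      apply Multiset.map_congr rfl
      intro i _
      simp only [hr]
      rw [if_pos i.2]
      have := i.2
      omega
    · ext a
      unfold botM
      rw [Multiset.count_sum', Multiset.count_map]
      simp only [Multiset.count_replicate]
      have h2 : Multiset.filter (fun x : W => a = b x) univ.val = (univ.filter (fun x : W => a = b x)).val := rfl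
      rw [h2, Finset.card_val, Finset.card_filter, Fintype.sum_sigma]
      refine Finset.sum_congr rfl fun j _ => ?_
      simp only [hb]
      by_cases h3 : a = (j : ℕ) + 1
      · simp [h3]
      · have h4 : ¬ ((j : ℕ) + 1 = a) := fun h5 => h3 h5.symm
        simp [h3, h4]
  · intro x
    simp only [hb]
    have := x.1.2
    omega
  · apply antitone_nat_of_succ_le
    intro i
    simp only [hr]
    have := tl_anti u (show i ≤ i + 1 by omega)
    split_ifs <;> omega
  · intro i hi
    simp only [hr]
    rw [if_neg (by omega)]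
  · intro i hi
    simp only [hr]
    rw [if_pos hi]; omega
  · intro k hk
    rw [hDl k hk]
    rcases Nat.eq_zero_or_pos k with h0 | h0
    · subst h0; simp
    · have := h k h0 hk
      simp only [hm, hu]
      linarith

end Pool.Agent.Lib.GraphPart
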