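import Pool.Agent.Lib.GraphPart.Code2

/-!
Elementary estimates for the number of partitions.
-/

namespace Pool.Agent.Lib.GraphPart

open Finset

/-- number of partitions -/
def pp (N : ℕ) : ℕ := Fintype.card (N.Partition)

/-- number of partitions of `N - r`, or zero if `r > N` -/
def pz (N r : ℕ) : ℕ := if r ≤ N then pp (N - r) else 0

lemma pp_pos (N : ℕ) : 0 < pp N := Fintype.card_pos

lemma sum_eq_sum_count (s : Multiset ℕ) (N : ℕ) (h : ∀ x ∈ s, x ≤ N) :
    s.sum = ∑ j ∈ range (N + 1), j * Multiset.count j s := by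
  induction s using Multiset.induction with
  | empty => simp
  | cons a s ih =>
    rw [Multiset.sum_cons, ih (fun x hx => h x (Multiset.mem_cons_of_mem hx))]
    simp only [Multiset.count_cons]
    simp only [Nat.mul_add, Finset.sum_add_distrib]
    rw [add_comm]
    congr 1
    rw [Finset.sum_eq_single a]
    · simp
    · intro j _ hj
      simp [hj]
    · intro h2
      exfalso
      apply h2
      rw [Finset.mem_range]
      have := h a (Multiset.mem_cons_self a s)
      omega

/-- adding copies of a part -/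
lemma card_count_ge {N j k : ℕ} (hj : 1 ≤ j) (h : j * k ≤ N) :
    (univ.filter fun P : N.Partition => k ≤ Multiset.count j P.parts).card = pp (N - j * k) := by
  unfold pp
  rw [← Finset.card_univ]
  symm
  refine Finset.card_bij (fun (P : (N - j * k).Partition) _ =>
    (⟨P.parts + Multiset.replicate k j, ?_, ?_⟩ : N.Partition)) ?_ ?_ ?_
  · intro x hx
    rcases Multiset.mem_add.1 hx with h1 | h1
    · exact P.parts_pos h1
    · rw [Multiset.eq_of_mem_replicate h1]; omega
  · rw [Multiset.sum_add, P.parts_sum, Multiset.sum_replicate, smul_eq_mul, mul_comm k j]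
    omega
  · intro P _
    rw [Finset.mem_filter]
    refine ⟨Finset.mem_univ _, ?_⟩
    simp
  · intro P _ Q _ hPQ
    have := congrArg Nat.Partition.parts hPQ
    simp only at this
    exact Nat.Partition.ext (add_right_cancel this)
  · intro Q hQ
    rw [Finset.mem_filter] at hQ
    have hle : Multiset.replicate k j ≤ Q.parts := Multiset.le_count_iff_replicate_le.1 hQ.2
    obtain ⟨R, hR⟩ := Multiset.le_iff_exists_add.1 hle
    refine ⟨⟨R, ?_, ?_⟩, Finset.mem_univ _, ?_⟩
    · intro x hx
      apply Q.parts_pos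
      rw [hR]; exact Multiset.mem_add.2 (Or.inr hx)
    · have := Q.parts_sum
      rw [hR, Multiset.sum_add, Multiset.sum_replicate, smul_eq_mul, mul_comm k j] at this
      omega
    · apply Nat.Partition.ext
      simp only
      rw [hR, add_comm]

lemma card_count_ge' {N j k : ℕ} (hj : 1 ≤ j) :
    (univ.filter fun P : N.Partition => k ≤ Multiset.count j P.parts).card = pz N (j * k) := by
  unfold pz
  split_ifs with h
  · exact card_count_ge hj h
  · rw [Finset.card_eq_zero, Finset.filter_eq_empty_iff]
    intro P _ hk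
    apply h
    have hle : Multiset.replicate k j ≤ P.parts := Multiset.le_count_iff_replicate_le.1 hk
    obtain ⟨R, hR⟩ := Multiset.le_iff_exists_add.1 hle
    have := P.parts_sum
    rw [hR, Multiset.sum_add, Multiset.sum_replicate, smul_eq_mul, mul_comm k j] at this
    omega

lemma sum_indicator_le (m K : ℕ) (h : m ≤ K) : (∑ k ∈ range K, if k + 1 ≤ m then 1 else 0) = m := by
  rw [← Finset.card_filter]
  have : (range K).filter (fun k => k + 1 ≤ m) = range m := by
    ext k; simp; omega
  rw [this, Finset.card_range]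

lemma count_le (N : ℕ) (P : N.Partition) (j : ℕ) (hj : 1 ≤ j) : Multiset.count j P.parts ≤ N := by
  have hle : Multiset.replicate (Multiset.count j P.parts) j ≤ P.parts :=
    Multiset.le_count_iff_replicate_le.1 le_rfl
  obtain ⟨R, hR⟩ := Multiset.le_iff_exists_add.1 hle
  have h1 := P.parts_sum
  have h2 : (Multiset.replicate (Multiset.count j P.parts) j).sum ≤ N := by
    calc (Multiset.replicate (Multiset.count j P.parts) j).sum ≤
        (Multiset.replicate (Multiset.count j P.parts) j).sum + R.sum := Nat.le_add_right _ _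
      _ = P.parts.sum := by rw [← Multiset.sum_add, ← hR]
      _ = N := h1
  rw [Multiset.sum_replicate, smul_eq_mul] at h2
  calc _ = Multiset.count j P.parts * 1 := by ring
    _ ≤ Multiset.count j P.parts * j := Nat.mul_le_mul_left _ hj
    _ ≤ N := h2

/-- The classical identity, as a double sum. -/
theorem main_identity (N : ℕ) :
    N * pp N = ∑ j ∈ range N, ∑ k ∈ range N, (j + 1) * pz N ((j + 1) * (k + 1)) := by
  have h1 : N * pp N = ∑ P : N.Partition, P.parts.sum := by
    simp [Nat.Partition.parts_sum, pp, mul_comm]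
  rw [h1]
  have h2 : ∀ P : N.Partition, P.parts.sum = ∑ j ∈ range N, (j + 1) * ∑ k ∈ range N,
      (if k + 1 ≤ Multiset.count (j + 1) P.parts then 1 else 0) := by
    intro P
    rw [sum_eq_sum_count P.parts N (fun x hx => P.le_of_mem_parts hx), Finset.sum_range_succ']
    simp only [zero_mul, add_zero]
    refine Finset.sum_congr rfl fun j _ => ?_
    rw [sum_indicator_le _ _ (count_le N P (j + 1) (by omega))]
  simp only [h2]
  rw [Finset.sum_comm]
  refine Finset.sum_congr rfl fun j _ => ?_
  simp only [Finset.mul_sum]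
  rw [Finset.sum_comm]
  refine Finset.sum_congr rfl fun k _ => ?_
  rw [← Finset.mul_sum, ← card_count_ge' (by omega : 1 ≤ j + 1), Finset.card_filter]

lemma pp_mono : Monotone pp := by
  apply monotone_nat_of_le_succ
  intro N
  have h := card_count_ge (N := N + 1) (j := 1) (k := 1) le_rfl (by omega)
  simp only [mul_one, Nat.add_sub_cancel] at h
  rw [← h]
  unfold pp
  rw [← Finset.card_univ]
  exact Finset.card_filter_le _ _

lemma pz_anti (N : ℕ) {r s : ℕ} (h : r ≤ s) : pz N s ≤ pz N r := by
  unfold pz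
  by_cases h1 : s ≤ N
  · rw [if_pos h1, if_pos (by omega)]
    exact pp_mono (by omega)
  · rw [if_neg h1]; exact Nat.zero_le _

lemma pz_zero (N : ℕ) : pz N 0 = pp N := by simp [pz]

lemma pz_add (N r s : ℕ) (h : r ≤ N) : pz N (r + s) = pz (N - r) s := by
  unfold pz
  by_cases h1 : r + s ≤ N
  · rw [if_pos h1, if_pos (by omega), Nat.sub_sub]
  · rw [if_neg h1, if_neg (by omega)]

/-- First decay bound. -/
lemma decay1 (N r : ℕ) : r * (r + 1) * pz N r ≤ 2 * N * pp N := by
  by_cases hr : r ≤ N
  · have h1 := main_identity N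
    have h2 : ∑ j ∈ range r, (j + 1) * pz N r ≤ N * pp N := by
      rw [h1]
      calc ∑ j ∈ range r, (j + 1) * pz N r ≤ ∑ j ∈ range r, ∑ k ∈ range N, (j + 1) * pz N ((j + 1) * (k + 1)) := by
            refine Finset.sum_le_sum fun j hj => ?_
            have hj' := Finset.mem_range.1 hj
            have h3 : (j + 1) * pz N ((j + 1) * (0 + 1)) ≤ ∑ k ∈ range N, (j + 1) * pz N ((j + 1) * (k + 1)) :=
              Finset.single_le_sum (f := fun k => (j + 1) * pz N ((j + 1) * (k + 1)))
                (fun _ _ => Nat.zero_le _) (Finset.mem_range.2 (by omega))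
            refine le_trans ?_ h3
            apply Nat.mul_le_mul_left
            apply pz_anti
            omega
        _ ≤ _ := by
            apply Finset.sum_le_sum_of_subset
            intro j hj
            rw [Finset.mem_range] at hj ⊢
            omega
    rw [← Finset.sum_mul] at h2
    have h4 : (∑ j ∈ range r, (j + 1)) * 2 = r * (r + 1) := by
      have h5 := Finset.sum_range_id_mul_two (r + 1)
      rw [Finset.sum_range_succ'] at h5
      simp only [add_zero] at h5
      rw [h5]
      simp [mul_comm]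
    calc r * (r + 1) * pz N r = 2 * ((∑ j ∈ range r, (j + 1)) * pz N r) := by rw [← h4]; ring
      _ ≤ 2 * (N * pp N) := by omega
      _ = _ := by ring
  · unfold pz
    rw [if_neg hr]
    simp

/-- Second decay bound. -/
lemma decay2 (N h : ℕ) : h ^ 4 * pz N (2 * h) ≤ 4 * N ^ 2 * pp N := by
  by_cases hh : h ≤ N
  · have h1 := decay1 (N - h) h
    have h2 := decay1 N h
    rw [two_mul, pz_add N h h hh]
    have h3 : pz N h = pp (N - h) := by unfold pz; rw [if_pos hh]
    rw [h3] at h2
    calc h ^ 4 * pz (N - h) h ≤ (h * (h + 1)) * (h * (h + 1) * pz (N - h) h) := by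
          have : h ^ 4 ≤ (h * (h + 1)) * (h * (h + 1)) := by
            have e1 : h ^ 4 = (h * h) * (h * h) := by ring
            have e2 : h * h ≤ h * (h + 1) := Nat.mul_le_mul_left _ (by omega)
            rw [e1]
            exact Nat.mul_le_mul e2 e2
          calc h ^ 4 * pz (N - h) h ≤ (h * (h + 1)) * (h * (h + 1)) * pz (N - h) h :=
                Nat.mul_le_mul_right _ this
            _ = _ := by ring
      _ ≤ (h * (h + 1)) * (2 * (N - h) * pp (N - h)) := Nat.mul_le_mul_left _ h1
      _ ≤ (h * (h + 1)) * (2 * N * pp (N - h)) := by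
          apply Nat.mul_le_mul_left
          apply Nat.mul_le_mul_right
          omega
      _ = 2 * N * (h * (h + 1) * pp (N - h)) := by ring
      _ ≤ 2 * N * (2 * N * pp N) := Nat.mul_le_mul_left _ h2
      _ = _ := by ring
  · unfold pz
    rw [if_neg (by omega)]
    simp

lemma main_identity_ext (N K : ℕ) (hK : N ≤ K) :
    N * pp N = ∑ j ∈ range K, ∑ k ∈ range K, (j + 1) * pz N ((j + 1) * (k + 1)) := by
  rw [main_identity]
  have hz : ∀ r, N < r → pz N r = 0 := by
    intro r hr; unfold pz; rw [if_neg (by omega)]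
  have h1 : ∀ j, ∑ k ∈ range N, (j + 1) * pz N ((j + 1) * (k + 1)) =
      ∑ k ∈ range K, (j + 1) * pz N ((j + 1) * (k + 1)) := by
    intro j
    apply Finset.sum_subset (Finset.range_mono hK)
    intro k _ hk
    rw [Finset.mem_range, not_lt] at hk
    rw [hz]
    · simp
    · nlinarith
  simp only [h1]
  apply Finset.sum_subset (Finset.range_mono hK)
  intro j _ hj
  rw [Finset.mem_range, not_lt] at hj
  apply Finset.sum_eq_zero
  intro k _
  rw [hz]
  · simp
  · nlinarith

lemma sum_inv_sq (r n : ℕ) : ∑ k ∈ range n, (r / (k + 1)) ^ 2 ≤ 2 * r ^ 2 := by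
  have h1 : ∀ n : ℕ, 1 ≤ n → ∑ k ∈ range n, (1 : ℝ) / ((k : ℝ) + 1) ^ 2 ≤ 2 - 1 / (n : ℝ) := by
    intro n hn
    induction n, hn using Nat.le_induction with
    | base => norm_num
    | succ n hn ih =>
      rw [Finset.sum_range_succ]
      have hn' : (0:ℝ) < n := by exact_mod_cast hn
      have : (1:ℝ) / ((n:ℝ) + 1) ^ 2 ≤ 1 / n - 1 / (n + 1) := by
        rw [div_sub_div _ _ (by positivity) (by positivity), div_le_div_iff₀ (by positivity) (by positivity)]
        nlinarith
      push_cast
      linarith
  have h2 : ∑ k ∈ range n, (1 : ℝ) / ((k : ℝ) + 1) ^ 2 ≤ 2 := by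
    rcases Nat.eq_zero_or_pos n with h | h
    · subst h; simp
    · have := h1 n h
      have h3 : (0:ℝ) ≤ 1 / (n : ℝ) := by positivity
      linarith
  have h3 : ((∑ k ∈ range n, (r / (k + 1)) ^ 2 : ℕ) : ℝ) ≤ ((2 * r ^ 2 : ℕ) : ℝ) := by
    push_cast
    calc ∑ k ∈ range n, (((r / (k + 1) : ℕ) : ℝ)) ^ 2 ≤ ∑ k ∈ range n, (r:ℝ) ^ 2 * (1 / ((k : ℝ) + 1) ^ 2) := by
          refine Finset.sum_le_sum fun k _ => ?_
          have h4 : ((r / (k + 1) : ℕ) : ℝ) ≤ (r : ℝ) / ((k + 1 : ℕ) : ℝ) := Nat.cast_div_le
          push_cast at h4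
          calc (((r / (k + 1) : ℕ) : ℝ)) ^ 2 ≤ ((r : ℝ) / ((k : ℝ) + 1)) ^ 2 := by gcongr
            _ = _ := by rw [div_pow]; ring
      _ = (r:ℝ) ^ 2 * ∑ k ∈ range n, (1 / ((k : ℝ) + 1) ^ 2) := by rw [Finset.mul_sum]
      _ ≤ (r:ℝ) ^ 2 * 2 := by gcongr
      _ = _ := by ring
  exact_mod_cast h3

/-- one-dimensional comparison -/
lemma shift_bound (N r c : ℕ) (hc : 1 ≤ c) :
    ∑ j ∈ range N, (j + 1) * pz N ((j + 1) * c) ≤
      (r / c) ^ 2 * pp N + (8 * (r / c) ^ 2 + 8) * pz N r +
        2 * ∑ i ∈ range N, (i + 1) * pz N (r + (i + 1) * c) := by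
  set q := r / c with hq
  set a := q + 1 with ha
  have hac : r ≤ a * c := by
    have := Nat.lt_div_mul_add (a := r) (b := c) (by omega)
    rw [ha, Nat.add_mul]
    rw [← hq] at this
    omega
  have hterm : ∀ j ∈ range N, (j + 1) * pz N ((j + 1) * c) ≤
      (if j < q then (j + 1) * pp N else 0) + (if j < 2 * a then 2 * a * pz N r else 0) +
      (if 2 * a ≤ j then 2 * ((j - a) + 1) * pz N (r + ((j - a) + 1) * c) else 0) := by
    intro j _
    by_cases h1 : j < q
    · rw [if_pos h1]
      have : pz N ((j + 1) * c) ≤ pp N := by rw [← pz_zero]; exact pz_anti N (Nat.zero_le _)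
      have h2 := Nat.mul_le_mul_left (j + 1) this
      omega
    · rw [if_neg h1]
      have h3 : r < (j + 1) * c := by
        rw [← Nat.div_lt_iff_lt_mul (by omega)]
        omega
      by_cases h2 : j < 2 * a
      · rw [if_pos h2, if_neg (by omega)]
        have h4 : pz N ((j + 1) * c) ≤ pz N r := pz_anti N h3.le
        have h5 : (j + 1) * pz N ((j + 1) * c) ≤ (2 * a) * pz N r := Nat.mul_le_mul (by omega) h4
        omega
      · rw [if_neg h2, if_pos (by omega)]
        have h4 : pz N ((j + 1) * c) ≤ pz N (r + ((j - a) + 1) * c) := by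
          apply pz_anti
          have : (j + 1) * c = a * c + ((j - a) + 1) * c := by
            rw [← Nat.add_mul]
            congr 1
            omega
          omega
        have h5 : (j + 1) * pz N ((j + 1) * c) ≤ (2 * ((j - a) + 1)) * pz N (r + ((j - a) + 1) * c) :=
          Nat.mul_le_mul (by omega) h4
        omega
  refine (Finset.sum_le_sum hterm).trans ?_
  rw [Finset.sum_add_distrib, Finset.sum_add_distrib]
  refine Nat.add_le_add (Nat.add_le_add ?_ ?_) ?_
  · -- first part
    have h1 : ∑ j ∈ range N, (if j < q then (j + 1) * pp N else 0) ≤ (∑ j ∈ range q, (j + 1)) * pp N := by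
      rw [← Finset.sum_filter, Finset.sum_mul]
      apply Finset.sum_le_sum_of_subset
      intro j hj
      rw [Finset.mem_filter] at hj
      rw [Finset.mem_range]; exact hj.2
    refine h1.trans (Nat.mul_le_mul_right _ ?_)
    calc ∑ j ∈ range q, (j + 1) ≤ ∑ _j ∈ range q, q := by
          refine Finset.sum_le_sum fun j hj => ?_
          have := Finset.mem_range.1 hj
          omega
      _ = q ^ 2 := by simp [sq]
  · have h1 : ∑ j ∈ range N, (if j < 2 * a then 2 * a * pz N r else 0) ≤
        ∑ _j ∈ range (2 * a), 2 * a * pz N r := by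
      rw [← Finset.sum_filter]
      apply Finset.sum_le_sum_of_subset
      intro j hj
      rw [Finset.mem_filter] at hj
      rw [Finset.mem_range]; exact hj.2
    refine h1.trans ?_
    rw [Finset.sum_const, Finset.card_range, smul_eq_mul]
    have h2 : 2 * a * (2 * a) ≤ 8 * q ^ 2 + 8 := by
      rw [ha]
      have : 2 * q ≤ q ^ 2 + 1 := by
        rcases Nat.eq_zero_or_pos q with h | h
        · rw [h]; omega
        · rcases Nat.lt_or_ge q 2 with h3 | h3
          · have : q = 1 := by omega
            rw [this]; norm_num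
          · nlinarith
      nlinarith
    calc 2 * a * (2 * a * pz N r) = (2 * a * (2 * a)) * pz N r := by ring
      _ ≤ _ := Nat.mul_le_mul_right _ h2
  · rw [← Finset.sum_filter, Finset.mul_sum]
    have h1 : ∑ j ∈ (range N).filter (fun j => 2 * a ≤ j), 2 * ((j - a) + 1) * pz N (r + ((j - a) + 1) * c) =
        ∑ i ∈ ((range N).filter (fun j => 2 * a ≤ j)).image (fun j => j - a), 2 * (i + 1) * pz N (r + (i + 1) * c) := by
      rw [Finset.sum_image]
      intro x hx y hy hxy
      rw [Finset.mem_coe, Finset.mem_filter] at hx hy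
      simp only at hxy
      omega
    rw [h1]
    calc _ ≤ ∑ i ∈ range N, 2 * (i + 1) * pz N (r + (i + 1) * c) := by
          apply Finset.sum_le_sum_of_subset
          intro i hi
          obtain ⟨j, hj, rfl⟩ := Finset.mem_image.1 hi
          rw [Finset.mem_filter, Finset.mem_range] at hj
          rw [Finset.mem_range]
          omega
      _ = _ := by
          refine Finset.sum_congr rfl fun i _ => by ring

/-- The number of partitions does not drop by more than a constant factor when `N` is
decreased by at most half of its square root. -/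
theorem ratio_lower (N r : ℕ) (h : 4 * r ^ 2 ≤ N) (hN : 0 < N) : pp N ≤ 28 * pp (N - r) := by
  have hr : r ≤ N := by
    have : r ≤ r ^ 2 := Nat.le_self_pow (by norm_num) _
    omega
  have h1 := main_identity_ext N N le_rfl
  rw [Finset.sum_comm] at h1
  have h2 : ∀ k ∈ range N, ∑ j ∈ range N, (j + 1) * pz N ((j + 1) * (k + 1)) ≤
      (r / (k + 1)) ^ 2 * pp N + (8 * (r / (k + 1)) ^ 2 + 8) * pz N r +
        2 * ∑ i ∈ range N, (i + 1) * pz N (r + (i + 1) * (k + 1)) :=
    fun k _ => shift_bound N r (k + 1) (by omega)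
  have h3 := Finset.sum_le_sum h2
  rw [← h1, Finset.sum_add_distrib, Finset.sum_add_distrib] at h3
  have e1 : ∑ k ∈ range N, (r / (k + 1)) ^ 2 * pp N ≤ 2 * r ^ 2 * pp N := by
    rw [← Finset.sum_mul]
    exact Nat.mul_le_mul_right _ (sum_inv_sq r N)
  have e2 : ∑ k ∈ range N, (8 * (r / (k + 1)) ^ 2 + 8) * pz N r ≤ (16 * r ^ 2 + 8 * N) * pz N r := by
    rw [← Finset.sum_mul]
    apply Nat.mul_le_mul_right
    rw [Finset.sum_add_distrib, ← Finset.mul_sum]
    have := sum_inv_sq r N
    simp
    omega
  have e3 : ∑ k ∈ range N, 2 * ∑ i ∈ range N, (i + 1) * pz N (r + (i + 1) * (k + 1)) =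
      2 * ((N - r) * pp (N - r)) := by
    rw [main_identity_ext (N - r) N (by omega), ← Finset.mul_sum, Finset.sum_comm]
    congr 1
    refine Finset.sum_congr rfl fun j _ => ?_
    refine Finset.sum_congr rfl fun k _ => ?_
    rw [pz_add N r _ hr]
  rw [e3] at h3
  have hpz : pz N r = pp (N - r) := by unfold pz; rw [if_pos hr]
  rw [hpz] at h3 e2
  have h4 : N * pp N ≤ 2 * r ^ 2 * pp N + (16 * r ^ 2 + 8 * N) * pp (N - r) + 2 * ((N - r) * pp (N - r)) := by
    omega
  have h5 : (N - r) * pp (N - r) ≤ N * pp (N - r) := Nat.mul_le_mul_right _ (by omega)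
  have h6 : 4 * r ^ 2 * pp N ≤ N * pp N := Nat.mul_le_mul_right _ h
  have h7 : 4 * r ^ 2 * pp (N - r) ≤ N * pp (N - r) := Nat.mul_le_mul_right _ h
  have h8 : N * pp N ≤ N * (28 * pp (N - r)) := by nlinarith
  exact Nat.le_of_mul_le_mul_left h8 hN

end Pool.Agent.Lib.GraphPart
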