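import Pool.Agent.Lib.GraphPart.Transfer

/-!
Rare events for codes: large entries, small Durfee square, small low part.
-/

namespace Pool.Agent.Lib.GraphPart

open Finset

/-- halving length -/
def r0 (N : ℕ) : ℕ := 2 * Nat.sqrt N + 2

lemma r0_sq (N : ℕ) : 4 * N ≤ r0 N * r0 N := by
  unfold r0
  have := Nat.lt_succ_sqrt N
  have h : Nat.sqrt N + 1 = Nat.succ (Nat.sqrt N) := rfl
  nlinarith

lemma pz_half {N M : ℕ} (h : M ≤ N) : 2 * pz M (r0 N) ≤ pp M := by
  have h1 := decay1 M (r0 N)
  have h2 := r0_sq N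
  rcases Nat.eq_zero_or_pos M with h0 | h0
  · subst h0
    unfold pz
    rw [if_neg (by unfold r0; omega)]
    simp
  · have h3 : (2 * M) * (2 * pz M (r0 N)) ≤ (2 * M) * pp M := by
      calc (2 * M) * (2 * pz M (r0 N)) = (4 * M) * pz M (r0 N) := by ring
        _ ≤ (r0 N * (r0 N + 1)) * pz M (r0 N) := by
            apply Nat.mul_le_mul_right
            nlinarith
        _ ≤ _ := h1
    exact Nat.le_of_mul_le_mul_left h3 (by omega)

/-- iterated halving -/
lemma pz_pow (N : ℕ) : ∀ m, 2 ^ m * pz N (m * r0 N) ≤ pp N := by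
  intro m
  induction m with
  | zero => simp [pz_zero]
  | succ m ih =>
    by_cases h : m * r0 N ≤ N
    · have h1 := pz_add N (m * r0 N) (r0 N) h
      have h2 := pz_half (N := N) (M := N - m * r0 N) (Nat.sub_le _ _)
      have h3 : pz N (m * r0 N) = pp (N - m * r0 N) := by unfold pz; rw [if_pos h]
      rw [show (m + 1) * r0 N = m * r0 N + r0 N by ring, h1]
      rw [h3] at ih
      calc 2 ^ (m + 1) * pz (N - m * r0 N) (r0 N) = 2 ^ m * (2 * pz (N - m * r0 N) (r0 N)) := by ring
        _ ≤ 2 ^ m * pp (N - m * r0 N) := Nat.mul_le_mul_left _ h2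
        _ ≤ _ := ih
    · have h3 : pz N ((m + 1) * r0 N) = 0 := by
        unfold pz
        rw [if_neg]
        have : m * r0 N ≤ (m + 1) * r0 N := Nat.mul_le_mul_right _ (by omega)
        omega
      rw [h3]; simp

lemma pp_ge (N m : ℕ) (h : m * r0 N ≤ N) : 2 ^ m ≤ pp N := by
  have h1 := pz_pow N m
  have h2 : 1 ≤ pz N (m * r0 N) := by
    unfold pz; rw [if_pos h]; exact pp_pos _
  calc 2 ^ m = 2 ^ m * 1 := by ring
    _ ≤ 2 ^ m * pz N (m * r0 N) := Nat.mul_le_mul_left _ h2
    _ ≤ pp N := h1

open Classical in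
/-- large entries are rare -/
lemma big_entry (N m : ℕ) (hm : 1 ≤ m) :
    2 ^ m * ((allCodes N).filter fun c => ∃ j, m * r0 N ≤ (j + 1) * mm c j ∨ m * r0 N ≤ (j + 1) * uu c j).card ≤
      2 * N * pp N := by
  have hr : 0 < r0 N := by unfold r0; omega
  have hmr : 0 < m * r0 N := Nat.mul_pos (by omega) hr
  -- for one index
  have h1 : ∀ j, 2 ^ m * ((allCodes N).filter fun c => m * r0 N ≤ (j + 1) * mm c j).card ≤ pp N := by
    intro j
    set k := (m * r0 N + j) / (j + 1) with hk
    have hk1 : 1 ≤ k := by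
      rw [hk, Nat.le_div_iff_mul_le (by omega)]; omega
    have hk2 : m * r0 N ≤ (j + 1) * k := by
      rw [hk]
      have := Nat.div_add_mod (m * r0 N + j) (j + 1)
      have h2 := Nat.mod_lt (m * r0 N + j) (show 0 < j + 1 by omega)
      omega
    have hsub : ((allCodes N).filter fun c => m * r0 N ≤ (j + 1) * mm c j) ⊆
        ((allCodes N).filter fun c => k ≤ mm c j) := by
      intro c hc
      rw [Finset.mem_filter] at hc ⊢
      refine ⟨hc.1, ?_⟩
      rw [hk]
      have h3 : m * r0 N + j < (mm c j + 1) * (j + 1) := by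
        have : (mm c j + 1) * (j + 1) = (j + 1) * mm c j + (j + 1) := by ring
        have := hc.2
        omega
      have h4 : (mm c j + 1) * (j + 1) = (j + 1) * (mm c j + 1) := Nat.mul_comm _ _
      have := Nat.div_lt_of_lt_mul (m := m * r0 N + j) (n := j + 1) (k := mm c j + 1) (by omega)
      omega
    calc 2 ^ m * ((allCodes N).filter fun c => m * r0 N ≤ (j + 1) * mm c j).card ≤
        2 ^ m * ((allCodes N).filter fun c => k ≤ mm c j).card := Nat.mul_le_mul_left _ (Finset.card_le_card hsub)
      _ ≤ 2 ^ m * pz N ((j + 1) * k) := Nat.mul_le_mul_left _ (cnt_mm N j k hk1)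
      _ ≤ 2 ^ m * pz N (m * r0 N) := Nat.mul_le_mul_left _ (pz_anti N hk2)
      _ ≤ pp N := pz_pow N m
  have h2 : ∀ j, 2 ^ m * ((allCodes N).filter fun c => m * r0 N ≤ (j + 1) * uu c j).card ≤ pp N := by
    intro j
    refine le_trans (le_of_eq ?_) (h1 j)
    congr 1
    refine Finset.card_bij' (fun c _ => cj c) (fun c _ => cj c) ?_ ?_ ?_ ?_
    · intro c hc
      rw [Finset.mem_filter] at hc ⊢
      exact ⟨cj_mem hc.1, by rw [mm_cj]; exact hc.2⟩
    · intro c hc
      rw [Finset.mem_filter] at hc ⊢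
      exact ⟨cj_mem hc.1, by rw [uu_cj]; exact hc.2⟩
    · intro c _; exact cj_cj c
    · intro c _; exact cj_cj c
  have hsub : ((allCodes N).filter fun c => ∃ j, m * r0 N ≤ (j + 1) * mm c j ∨ m * r0 N ≤ (j + 1) * uu c j) ⊆
      (range N).biUnion fun j => ((allCodes N).filter fun c => m * r0 N ≤ (j + 1) * mm c j) ∪
        ((allCodes N).filter fun c => m * r0 N ≤ (j + 1) * uu c j) := by
    intro c hc
    rw [Finset.mem_filter] at hc
    obtain ⟨hc1, j, hj⟩ := hc
    have hjd : j < c.1 := by
      by_contra hcon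
      have e1 : mm c j = 0 := by unfold mm; rw [dif_neg hcon]
      have e2 : uu c j = 0 := by unfold uu; rw [dif_neg hcon]
      rw [e1, e2] at hj
      simp only [Nat.mul_zero, or_self] at hj
      omega
    have hdN : c.1 ≤ N := by
      have := durfee_sq_le hc1
      have h2 : c.1 ≤ c.1 ^ 2 := Nat.le_self_pow (by norm_num) _
      omega
    rw [Finset.mem_biUnion]
    refine ⟨j, Finset.mem_range.2 (by omega), ?_⟩
    rw [Finset.mem_union, Finset.mem_filter, Finset.mem_filter]
    rcases hj with hj | hj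
    · exact Or.inl ⟨hc1, hj⟩
    · exact Or.inr ⟨hc1, hj⟩
  calc _ ≤ 2 ^ m * ∑ j ∈ range N, ((((allCodes N).filter fun c => m * r0 N ≤ (j + 1) * mm c j) ∪
        ((allCodes N).filter fun c => m * r0 N ≤ (j + 1) * uu c j))).card :=
        Nat.mul_le_mul_left _ ((Finset.card_le_card hsub).trans Finset.card_biUnion_le)
    _ ≤ ∑ _j ∈ range N, (pp N + pp N) := by
        rw [Finset.mul_sum]
        refine Finset.sum_le_sum fun j _ => ?_
        calc _ ≤ 2 ^ m * (((allCodes N).filter fun c => m * r0 N ≤ (j + 1) * mm c j).card +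
              ((allCodes N).filter fun c => m * r0 N ≤ (j + 1) * uu c j).card) :=
              Nat.mul_le_mul_left _ (Finset.card_union_le _ _)
          _ ≤ _ := by rw [Nat.mul_add]; exact Nat.add_le_add (h1 j) (h2 j)
    _ = 2 * N * pp N := by rw [Finset.sum_const, Finset.card_range, smul_eq_mul]; ring

/-- few codes have a small Durfee square -/
lemma small_d (N K : ℕ) : ((allCodes N).filter fun c => c.1 < K).card ≤ K * (N + 1) ^ (2 * K) := by
  classical
  have h1 : ((allCodes N).filter fun c => c.1 < K) ⊆ (range K).sigma fun d => codes d N := by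
    intro c hc
    rw [Finset.mem_filter, mem_allCodes] at hc
    rw [Finset.mem_sigma, Finset.mem_range]
    exact ⟨hc.2, hc.1⟩
  refine (Finset.card_le_card h1).trans ?_
  rw [Finset.card_sigma]
  calc ∑ d ∈ range K, (codes d N).card ≤ ∑ _d ∈ range K, (N + 1) ^ (2 * K) := by
        refine Finset.sum_le_sum fun d hd => ?_
        have hd' := Finset.mem_range.1 hd
        unfold codes
        refine (Finset.card_filter_le _ _).trans ?_
        rw [Fintype.card_piFinset]
        simp only [Finset.card_product, Finset.card_range, Finset.prod_const, Finset.card_univ, Fintype.card_fin]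
        rw [← sq, ← pow_mul]
        exact Nat.pow_le_pow_right (by omega) (by omega)
    _ = _ := by rw [Finset.sum_const, Finset.card_range, smul_eq_mul]

end Pool.Agent.Lib.GraphPart
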