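import Pool.Agent.Lib.GraphPart.SignLemma

/-!
The average over sign patterns as an operator, and an exponential maximal inequality.
-/

namespace Pool.Agent.Lib.GraphPart

open Finset

/-- the average over all sign patterns on `range d` -/
noncomputable def Ex (d : ℕ) (F : Finset ℕ → ℝ) : ℝ := (∑ T ∈ (range d).powerset, F T) / 2 ^ d

lemma Ex_zero (F : Finset ℕ → ℝ) : Ex 0 F = F ∅ := by simp [Ex]

lemma Ex_succ (d : ℕ) (F : Finset ℕ → ℝ) :
    Ex (d + 1) F = (Ex d F + Ex d (fun T => F (insert d T))) / 2 := by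
  unfold Ex
  rw [sum_powerset_range_succ, pow_succ]
  field_simp

lemma Ex_const (d : ℕ) (c : ℝ) : Ex d (fun _ => c) = c := by
  unfold Ex
  rw [Finset.sum_const, Finset.card_powerset, Finset.card_range, nsmul_eq_mul]
  push_cast
  field_simp

lemma Ex_mono {d : ℕ} {F G : Finset ℕ → ℝ} (h : ∀ T ∈ (range d).powerset, F T ≤ G T) : Ex d F ≤ Ex d G := by
  unfold Ex
  gcongr with T hT
  exact h T hT

lemma Ex_congr {d : ℕ} {F G : Finset ℕ → ℝ} (h : ∀ T ∈ (range d).powerset, F T = G T) : Ex d F = Ex d G := by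
  unfold Ex
  rw [Finset.sum_congr rfl h]

lemma Ex_add (d : ℕ) (F G : Finset ℕ → ℝ) : Ex d (fun T => F T + G T) = Ex d F + Ex d G := by
  unfold Ex
  rw [Finset.sum_add_distrib, add_div]

lemma Ex_sub (d : ℕ) (F G : Finset ℕ → ℝ) : Ex d (fun T => F T - G T) = Ex d F - Ex d G := by
  unfold Ex
  rw [Finset.sum_sub_distrib, sub_div]

lemma Ex_mul_left (d : ℕ) (c : ℝ) (F : Finset ℕ → ℝ) : Ex d (fun T => c * F T) = c * Ex d F := by
  unfold Ex
  rw [← Finset.mul_sum, mul_div_assoc]

lemma Ex_mul_right (d : ℕ) (c : ℝ) (F : Finset ℕ → ℝ) : Ex d (fun T => F T * c) = Ex d F * c := by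
  unfold Ex
  rw [← Finset.sum_mul, mul_div_right_comm]

lemma Ex_sum {ι : Type} (d : ℕ) (s : Finset ι) (F : ι → Finset ℕ → ℝ) :
    Ex d (fun T => ∑ i ∈ s, F i T) = ∑ i ∈ s, Ex d (F i) := by
  unfold Ex
  rw [Finset.sum_comm, Finset.sum_div]

lemma Ex_nonneg {d : ℕ} {F : Finset ℕ → ℝ} (h : ∀ T ∈ (range d).powerset, 0 ≤ F T) : 0 ≤ Ex d F := by
  unfold Ex
  exact div_nonneg (Finset.sum_nonneg h) (by positivity)

lemma abs_Ex_sub_le {d : ℕ} {F G : Finset ℕ → ℝ} {κ : ℝ} (h : ∀ T ∈ (range d).powerset, |F T - G T| ≤ κ) :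
    |Ex d F - Ex d G| ≤ κ := by
  rw [← Ex_sub, abs_le]
  constructor
  · rw [← Ex_const d (-κ)]
    exact Ex_mono fun T hT => (abs_le.1 (h T hT)).1
  · rw [← Ex_const d κ]
    exact Ex_mono fun T hT => (abs_le.1 (h T hT)).2

lemma Ex_split (n m : ℕ) (F : Finset ℕ → ℝ) :
    Ex (n + m) F = Ex n (fun T0 => Ex m (fun T1 => F (T0 ∪ shift n T1))) := by
  unfold Ex
  rw [sum_powerset_add, pow_add, ← Finset.sum_div, div_div, mul_comm ((2:ℝ) ^ n)]

lemma Ex_harris (d : ℕ) {F G : Finset ℕ → ℝ} (hF : Monotone F) (hG : Monotone G) :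
    Ex d F * Ex d G ≤ Ex d (fun T => F T * G T) := by
  have h := harris d F G hF hG
  unfold Ex
  rw [div_mul_div_comm, div_le_div_iff₀ (by positivity) (by positivity)]
  have h2 : (0:ℝ) < 2 ^ d := by positivity
  nlinarith

lemma Ex_prod_harris (d : ℕ) (B : ℕ) (F : ℕ → Finset ℕ → ℝ) (hF : ∀ b, Monotone (F b))
    (h0 : ∀ b T, 0 ≤ F b T) :
    ∏ b ∈ range B, Ex d (F b) ≤ Ex d (fun T => ∏ b ∈ range B, F b T) := by
  induction B with
  | zero => simp [Ex_const]
  | succ B ih =>
    simp only [Finset.prod_range_succ]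
    have hm : Monotone (fun T => ∏ b ∈ range B, F b T) := by
      intro T T' hT
      exact Finset.prod_le_prod (fun b _ => h0 b T) (fun b _ => hF b hT)
    refine le_trans ?_ (Ex_harris d hm (hF B))
    exact mul_le_mul_of_nonneg_right ih (Ex_nonneg fun T _ => h0 B T)

/-- A function depending only on the signs in `[q, q+n)`. -/
lemma Ex_window {q n r : ℕ} {F f : Finset ℕ → ℝ}
    (h : ∀ T0 ∈ (range q).powerset, ∀ T1 ∈ (range n).powerset, ∀ T2 ∈ (range r).powerset,
      F ((T0 ∪ shift q T1) ∪ shift (q + n) T2) = f T1) :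
    Ex (q + n + r) F = Ex n f := by
  rw [Ex_split (q + n) r, Ex_split q n]
  have h1 : ∀ T0 ∈ (range q).powerset, Ex n (fun T1 => Ex r (fun T2 => F ((T0 ∪ shift q T1) ∪ shift (q + n) T2))) =
      Ex n f := by
    intro T0 h0
    refine Ex_congr fun T1 hT1 => ?_
    rw [← Ex_const r (f T1)]
    exact Ex_congr fun T2 hT2 => h T0 h0 T1 hT1 T2 hT2
  rw [Ex_congr h1, Ex_const]

open Classical in
/-- Exponential maximal inequality, one-sided. -/
lemma max_exp_aux (a : ℕ → ℝ) (i0 : ℕ) (b : ℝ) {lam : ℝ} (hlam : 0 ≤ lam) :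
    ∀ (n : ℕ) (y : ℝ), Ex n (fun T => if ∃ i, i0 ≤ i ∧ i ≤ n ∧ b ≤ y + wk a T i n then (1:ℝ) else 0) ≤
      Real.exp (lam * (y - b) + lam ^ 2 / 2 * ∑ j ∈ Ico i0 n, a j ^ 2) := by
  intro n
  induction n with
  | zero =>
    intro y
    rw [Ex_zero]
    split_ifs with h
    · obtain ⟨i, h1, h2, h3⟩ := h
      have hi : i = 0 := by omega
      subst hi
      simp only [wk, Finset.Ico_self, Finset.sum_empty, add_zero] at h3
      rw [Finset.Ico_eq_empty (by omega), Finset.sum_empty, mul_zero, add_zero]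
      exact Real.one_le_exp (mul_nonneg hlam (by linarith))
    · positivity
  | succ n ih =>
    intro y
    by_cases hyb : b ≤ y
    · have h1 : (1:ℝ) ≤ Real.exp (lam * (y - b) + lam ^ 2 / 2 * ∑ j ∈ Ico i0 (n + 1), a j ^ 2) := by
        apply Real.one_le_exp
        have : 0 ≤ ∑ j ∈ Ico i0 (n + 1), a j ^ 2 := Finset.sum_nonneg fun _ _ => sq_nonneg _
        have h2 := mul_nonneg hlam (sub_nonneg.2 hyb)
        positivity
      refine le_trans ?_ h1
      refine le_trans (Ex_mono (G := fun _ => 1) fun T _ => ?_) (Ex_const (n + 1) 1).le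
      split_ifs <;> norm_num
    · by_cases hi0 : i0 ≤ n
      · rw [Ex_succ]
        have e1 : Ex n (fun T => if ∃ i, i0 ≤ i ∧ i ≤ n + 1 ∧ b ≤ y + wk a T i (n + 1) then (1:ℝ) else 0) =
            Ex n (fun T => if ∃ i, i0 ≤ i ∧ i ≤ n ∧ b ≤ (y - a n) + wk a T i n then (1:ℝ) else 0) := by
          refine Ex_congr fun T hT => ?_
          congr 1
          rw [eq_iff_iff]
          constructor
          · rintro ⟨i, h1, h2, h3⟩
            have h4 : i ≤ n := by
              by_contra hcon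
              have : i = n + 1 := by omega
              subst this
              simp only [wk, Finset.Ico_self, Finset.sum_empty, add_zero] at h3
              exact hyb h3
            rw [wk_succ a T h4, sg_of_subset_range hT] at h3
            exact ⟨i, h1, h4, by linarith⟩
          · rintro ⟨i, h1, h2, h3⟩
            refine ⟨i, h1, by omega, ?_⟩
            rw [wk_succ a T h2, sg_of_subset_range hT]
            linarith
        have e2 : Ex n (fun T => if ∃ i, i0 ≤ i ∧ i ≤ n + 1 ∧ b ≤ y + wk a (insert n T) i (n + 1) then (1:ℝ) else 0) =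
            Ex n (fun T => if ∃ i, i0 ≤ i ∧ i ≤ n ∧ b ≤ (y + a n) + wk a T i n then (1:ℝ) else 0) := by
          refine Ex_congr fun T hT => ?_
          congr 1
          rw [eq_iff_iff]
          constructor
          · rintro ⟨i, h1, h2, h3⟩
            have h4 : i ≤ n := by
              by_contra hcon
              have : i = n + 1 := by omega
              subst this
              simp only [wk, Finset.Ico_self, Finset.sum_empty, add_zero] at h3
              exact hyb h3
            rw [wk_succ a _ h4, sg_insert_self, wk_insert] at h3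
            exact ⟨i, h1, h4, by linarith⟩
          · rintro ⟨i, h1, h2, h3⟩
            refine ⟨i, h1, by omega, ?_⟩
            rw [wk_succ a _ h2, sg_insert_self, wk_insert]
            linarith
        rw [e1, e2, Finset.sum_Ico_succ_top hi0]
        have h1 := ih (y - a n)
        have h2 := ih (y + a n)
        set V := ∑ j ∈ Ico i0 n, a j ^ 2 with hV
        have h3 : Real.cosh (lam * a n) ≤ Real.exp ((lam * a n) ^ 2 / 2) := Real.cosh_le_exp_half_sq _
        rw [Real.cosh_eq] at h3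
        have h4 : Real.exp (lam * (y - a n - b) + lam ^ 2 / 2 * V) =
            Real.exp (lam * (y - b) + lam ^ 2 / 2 * V) * Real.exp (-(lam * a n)) := by
          rw [← Real.exp_add]; congr 1; ring
        have h5 : Real.exp (lam * (y + a n - b) + lam ^ 2 / 2 * V) =
            Real.exp (lam * (y - b) + lam ^ 2 / 2 * V) * Real.exp (lam * a n) := by
          rw [← Real.exp_add]; congr 1; ring
        have h6 : Real.exp (lam * (y - b) + lam ^ 2 / 2 * (V + a n ^ 2)) =
            Real.exp (lam * (y - b) + lam ^ 2 / 2 * V) * Real.exp ((lam * a n) ^ 2 / 2) := by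
          rw [← Real.exp_add]; congr 1; ring
        rw [h6]
        rw [h4] at h1
        rw [h5] at h2
        have h7 : 0 < Real.exp (lam * (y - b) + lam ^ 2 / 2 * V) := Real.exp_pos _
        nlinarith
      · have h1 : Ex (n + 1) (fun T => if ∃ i, i0 ≤ i ∧ i ≤ n + 1 ∧ b ≤ y + wk a T i (n + 1) then (1:ℝ) else 0) =
            Ex (n + 1) (fun _ => 0) := by
          refine Ex_congr fun T _ => ?_
          rw [if_neg]
          rintro ⟨i, h2, h3, h4⟩
          have : i = n + 1 := by omega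
          subst this
          simp only [wk, Finset.Ico_self, Finset.sum_empty, add_zero] at h4
          exact hyb h4
        rw [h1, Ex_const]
        positivity

open Classical in
/-- Exponential maximal inequality. -/
lemma max_exp (a : ℕ → ℝ) (i0 n : ℕ) {x V : ℝ} (hx : 0 ≤ x) (hV0 : 0 < V)
    (hV : ∑ j ∈ Ico i0 n, a j ^ 2 ≤ V) :
    Ex n (fun T => if ∃ i, i0 ≤ i ∧ i ≤ n ∧ x ≤ |wk a T i n| then (1:ℝ) else 0) ≤
      2 * Real.exp (-(x ^ 2) / (2 * V)) := by
  have key : ∀ a' : ℕ → ℝ, ∑ j ∈ Ico i0 n, a' j ^ 2 ≤ V →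
      Ex n (fun T => if ∃ i, i0 ≤ i ∧ i ≤ n ∧ x ≤ 0 + wk a' T i n then (1:ℝ) else 0) ≤
      Real.exp (-(x ^ 2) / (2 * V)) := by
    intro a' ha'
    refine (max_exp_aux a' i0 x (lam := x / V) (by positivity) n 0).trans ?_
    apply Real.exp_le_exp.2
    have h1 : (x / V) ^ 2 / 2 * ∑ j ∈ Ico i0 n, a' j ^ 2 ≤ (x / V) ^ 2 / 2 * V := by gcongr
    have h2 : x / V * (0 - x) + (x / V) ^ 2 / 2 * V = -(x ^ 2) / (2 * V) := by
      field_simp; ring
    linarith
  have h1 := key a hV
  have h2 := key (fun j => - a j) (by simpa using hV)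
  have h3 : ∀ T i, wk (fun j => - a j) T i n = - wk a T i n := by
    intro T i
    unfold wk
    rw [← Finset.sum_neg_distrib]
    exact Finset.sum_congr rfl fun j _ => by ring
  refine le_trans ?_ (le_trans (add_le_add h1 h2) (by linarith))
  rw [← Ex_add]
  refine Ex_mono fun T _ => ?_
  by_cases h4 : ∃ i, i0 ≤ i ∧ i ≤ n ∧ x ≤ |wk a T i n|
  · rw [if_pos h4]
    obtain ⟨i, h5, h6, h7⟩ := h4
    rcases le_abs.1 h7 with h8 | h8
    · have : ∃ i, i0 ≤ i ∧ i ≤ n ∧ x ≤ 0 + wk a T i n := ⟨i, h5, h6, by linarith⟩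
      rw [if_pos this]
      split_ifs <;> norm_num
    · have : ∃ i, i0 ≤ i ∧ i ≤ n ∧ x ≤ 0 + wk (fun j => - a j) T i n := ⟨i, h5, h6, by rw [h3]; linarith⟩
      rw [if_pos this]
      split_ifs <;> norm_num
  · rw [if_neg h4]
    split_ifs <;> norm_num

open Classical in
/-- Hoeffding's inequality for signed sums. -/
lemma hoeffding (a : ℕ → ℝ) (n : ℕ) {x V : ℝ} (hx : 0 ≤ x) (hV0 : 0 < V)
    (hV : ∑ j ∈ range n, a j ^ 2 ≤ V) :
    Ex n (fun T => if x ≤ |wk a T 0 n| then (1:ℝ) else 0) ≤ 2 * Real.exp (-(x ^ 2) / (2 * V)) := by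
  refine le_trans (Ex_mono fun T _ => ?_) (max_exp a 0 n hx hV0 (by rw [Nat.Ico_zero_eq_range]; exact hV))
  by_cases h : x ≤ |wk a T 0 n|
  · have : ∃ i, 0 ≤ i ∧ i ≤ n ∧ x ≤ |wk a T i n| := ⟨0, le_rfl, Nat.zero_le _, h⟩
    rw [if_pos h, if_pos this]
  · rw [if_neg h]
    split_ifs <;> norm_num

open Classical in
/-- union bound -/
lemma Ex_union (d : ℕ) {ι : Type} (s : Finset ι) (P : ι → Finset ℕ → Prop) :
    Ex d (fun T => if ∃ i ∈ s, P i T then (1:ℝ) else 0) ≤
      ∑ i ∈ s, Ex d (fun T => if P i T then (1:ℝ) else 0) := by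
  rw [← Ex_sum]
  refine Ex_mono fun T _ => ?_
  by_cases h : ∃ i ∈ s, P i T
  · rw [if_pos h]
    obtain ⟨i, hi, hP⟩ := h
    calc (1:ℝ) = (if P i T then (1:ℝ) else 0) := by rw [if_pos hP]
      _ ≤ _ := Finset.single_le_sum (f := fun i => if P i T then (1:ℝ) else 0)
        (fun _ _ => by split_ifs <;> norm_num) hi
  · rw [if_neg h]
    exact Finset.sum_nonneg fun _ _ => by split_ifs <;> norm_num

end Pool.Agent.Lib.GraphPart
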