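import Pool.Agent.Lib.GraphPart.Signs

/-!
The main estimate on signed walks.
-/

namespace Pool.Agent.Lib.GraphPart

open Finset

/-- The shifted copy of a pattern. -/
def shift (n : ℕ) (T : Finset ℕ) : Finset ℕ := T.image (fun j => n + j)

lemma shift_insert (n m : ℕ) (T : Finset ℕ) : shift n (insert m T) = insert (n + m) (shift n T) := by
  unfold shift; rw [Finset.image_insert]

lemma sum_powerset_add (n m : ℕ) : ∀ (F : Finset ℕ → ℝ),
    ∑ T ∈ (range (n + m)).powerset, F T =
      ∑ T0 ∈ (range n).powerset, ∑ T1 ∈ (range m).powerset, F (T0 ∪ shift n T1) := by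
  induction m with
  | zero => intro F; simp [shift]
  | succ m ih =>
    intro F
    rw [← Nat.add_assoc, sum_powerset_range_succ, ih, ih, ← Finset.sum_add_distrib]
    refine Finset.sum_congr rfl fun T0 _ => ?_
    rw [sum_powerset_range_succ]
    congr 1
    refine Finset.sum_congr rfl fun T1 _ => ?_
    rw [shift_insert, Finset.union_insert]

lemma sg_union_low {n j : ℕ} (hj : j < n) (T0 T1 : Finset ℕ) : sg (T0 ∪ shift n T1) j = sg T0 j := by
  unfold sg shift
  congr 1
  rw [eq_iff_iff, Finset.mem_union]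
  constructor
  · rintro (h | h)
    · exact h
    · obtain ⟨i, _, hi⟩ := Finset.mem_image.1 h
      omega
  · exact Or.inl

lemma sg_union_high {n : ℕ} (j : ℕ) {T0 : Finset ℕ} (h0 : T0 ∈ (range n).powerset) (T1 : Finset ℕ) :
    sg (T0 ∪ shift n T1) (n + j) = sg T1 j := by
  unfold sg shift
  congr 1
  rw [eq_iff_iff, Finset.mem_union]
  constructor
  · rintro (h | h)
    · have := Finset.mem_powerset.1 h0 h
      simp at this
    · obtain ⟨i, hi, hi2⟩ := Finset.mem_image.1 h
      have : i = j := by omega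
      exact this ▸ hi
  · intro h
    exact Or.inr (Finset.mem_image.2 ⟨j, h, rfl⟩)

lemma wk_union_low (a : ℕ → ℝ) (i n : ℕ) (T0 T1 : Finset ℕ) :
    wk a (T0 ∪ shift n T1) i n = wk a T0 i n := by
  unfold wk
  refine Finset.sum_congr rfl fun j hj => ?_
  rw [sg_union_low (Finset.mem_Ico.1 hj).2]

lemma wk_union_high (a : ℕ → ℝ) (n i m : ℕ) {T0 : Finset ℕ} (h0 : T0 ∈ (range n).powerset)
    (T1 : Finset ℕ) :
    wk a (T0 ∪ shift n T1) (n + i) (n + m) = wk (fun j => a (n + j)) T1 i m := by
  unfold wk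
  rw [Nat.add_comm n i, Nat.add_comm n m, ← Finset.sum_Ico_add]
  refine Finset.sum_congr rfl fun j _ => ?_
  rw [sg_union_high j h0]

lemma wk_split (a : ℕ → ℝ) (T : Finset ℕ) {i n k : ℕ} (h1 : i ≤ n) (h2 : n ≤ k) :
    wk a T i k = wk a T i n + wk a T n k := by
  unfold wk
  rw [Finset.sum_Ico_consecutive _ h1 h2]

/-- the weighted sum of the signed steps. -/
noncomputable def Sk (a : ℕ → ℝ) (T : Finset ℕ) (d k : ℕ) : ℝ :=
  ∑ j ∈ range d, (min (j + 1) k : ℕ) * (sg T j * a j)

lemma Sk_eq (a : ℕ → ℝ) (T : Finset ℕ) (d : ℕ) : ∀ k, k ≤ d → Sk a T d k = ∑ i ∈ range k, wk a T i d := by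
  intro k
  induction k with
  | zero => intro _; simp [Sk]
  | succ k ih =>
    intro hk
    rw [Finset.sum_range_succ, ← ih (by omega)]
    unfold Sk wk
    have : ∑ j ∈ Ico k d, sg T j * a j = ∑ j ∈ range d, (if k ≤ j then sg T j * a j else 0) := by
      rw [← Finset.sum_filter]
      congr 1
      ext j
      simp [and_comm]
    rw [this, ← Finset.sum_add_distrib]
    refine Finset.sum_congr rfl fun j _ => ?_
    split_ifs with h
    · rw [Nat.min_eq_right (by omega : k + 1 ≤ j + 1), Nat.min_eq_right (by omega : k ≤ j + 1)]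
      push_cast; ring
    · rw [Nat.min_eq_left (by omega : j + 1 ≤ k + 1), Nat.min_eq_left (by omega : j + 1 ≤ k)]
      ring

lemma wk_mono {a : ℕ → ℝ} (ha : ∀ j, 0 ≤ a j) {T T' : Finset ℕ} (h : T ⊆ T') (i n : ℕ) :
    wk a T i n ≤ wk a T' i n :=
  Finset.sum_le_sum fun j _ => mul_le_mul_of_nonneg_right (sg_mono h j) (ha j)

lemma Sk_mono {a : ℕ → ℝ} (ha : ∀ j, 0 ≤ a j) {T T' : Finset ℕ} (h : T ⊆ T') (d k : ℕ) :
    Sk a T d k ≤ Sk a T' d k :=
  Finset.sum_le_sum fun j _ =>
    mul_le_mul_of_nonneg_left (mul_le_mul_of_nonneg_right (sg_mono h j) (ha j)) (Nat.cast_nonneg _)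

lemma monotone_ind {P : Finset ℕ → Prop} [DecidablePred P] (h : ∀ T T', T ⊆ T' → P T → P T') :
    Monotone (fun T => if P T then (1:ℝ) else 0) := by
  intro T T' hT
  by_cases h1 : P T
  · simp [h1, h T T' hT h1]
  · simp only [h1, if_false]
    split_ifs <;> norm_num

open Classical in
/-- Lower bound for the number of sign patterns for which all the sums `Sk` with
`1 ≤ k ≤ n + m` are at least `k`. -/
theorem sign_lemma (b : ℕ → ℕ) (n m : ℕ) {x0 L t : ℝ} (hx0 : 0 < x0) (hL : 0 < L) (ht : 0 < t)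
    (H1 : ∑ j ∈ range n, (b j : ℝ) ^ 2 ≤ L ^ 2 / 2) (H1' : x0 ^ 2 ≤ L ^ 2 / 2)
    (H2 : 2 * x0 ^ 2 ≤ ∑ j ∈ range m, (b (n + j) : ℝ) ^ 2)
    (H3 : 2 * ∑ j ∈ range m, (b (n + j) : ℝ) ^ 2 ≤ t ^ 2)
    (H4 : 2 * (((n + m : ℕ) : ℝ) * (t + 1)) ^ 2 ≤ ∑ j ∈ range n, (((j + 1 : ℕ) : ℝ) * b j) ^ 2) :
    2 ^ (n + m) * (x0 / (2 * L)) ≤ (24 * 48) * ∑ T ∈ (range (n + m)).powerset,
      (if ∀ k, 1 ≤ k → k ≤ n + m → (k : ℝ) ≤ Sk (fun j => (b j : ℝ)) T (n + m) k
        then (1 : ℝ) else 0) := by
  set a : ℕ → ℝ := fun j => (b j : ℝ) with ha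
  have ha0 : ∀ j, 0 ≤ a j := fun j => Nat.cast_nonneg _
  set d := n + m with hd
  have hm : 0 < m := by
    rcases Nat.eq_zero_or_pos m with h | h
    · subst h
      simp at H2
      nlinarith [sq_nonneg x0, pow_pos hx0 2]
    · exact h
  have hdpos : 0 < d := by omega
  -- the two increasing events
  set FA : Finset ℕ → ℝ := fun T => if ∀ i, i ≤ n → 0 < wk a T i d then (1:ℝ) else 0 with hFA
  set FB : Finset ℕ → ℝ := fun T => if ∀ k, n ≤ k → k ≤ d → (k:ℝ) ≤ Sk a T d k then (1:ℝ) else 0 with hFB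
  have mA : Monotone FA := monotone_ind fun T T' h h1 i hi => (h1 i hi).trans_le (wk_mono ha0 h i d)
  have mB : Monotone FB := monotone_ind fun T T' h h1 k hk hk' => (h1 k hk hk').trans (Sk_mono ha0 h d k)
  have hH := harris d FA FB mA mB
  -- bound for FA
  have bA : 2 ^ d * (x0 / (2 * L)) ≤ 24 * ∑ T ∈ (range d).powerset, FA T := by
    rw [hd, sum_powerset_add]
    have h1 : ∀ T0 ∈ (range n).powerset, ∀ T1 ∈ (range m).powerset,
        (if ∀ i, i < n → 0 < x0 + wk a T0 i n then (1:ℝ) else 0) *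
        (if x0 ≤ wk (fun j => a (n + j)) T1 0 m then (1:ℝ) else 0) ≤ FA (T0 ∪ shift n T1) := by
      intro T0 hT0 T1 hT1
      have hnn : 0 ≤ FA (T0 ∪ shift n T1) := by simp only [hFA]; split_ifs <;> norm_num
      by_cases c1 : ∀ i, i < n → 0 < x0 + wk a T0 i n
      · by_cases c2 : x0 ≤ wk (fun j => a (n + j)) T1 0 m
        · rw [if_pos c1, if_pos c2, mul_one]
          simp only [hFA]
          rw [if_pos]
          intro i hi
          rw [wk_split a _ hi (by omega : n ≤ d)]
          have h3 := wk_union_high a n 0 m hT0 T1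
          rw [Nat.add_zero, ← hd] at h3
          rw [h3, wk_union_low]
          rcases Nat.lt_or_ge i n with h4 | h4
          · have := c1 i h4
            linarith
          · have : i = n := by omega
            subst this
            simp [wk] at c2 ⊢
            linarith
        · rw [if_neg c2, mul_zero]; exact hnn
      · rw [if_neg c1, zero_mul]; exact hnn
    have h2 := Finset.sum_le_sum fun T0 hT0 => Finset.sum_le_sum (h1 T0 hT0)
    have h3 : ∑ T0 ∈ (range n).powerset, ∑ T1 ∈ (range m).powerset,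
        (if ∀ i, i < n → 0 < x0 + wk a T0 i n then (1:ℝ) else 0) *
        (if x0 ≤ wk (fun j => a (n + j)) T1 0 m then (1:ℝ) else 0) =
        (∑ T0 ∈ (range n).powerset, (if ∀ i, i < n → 0 < x0 + wk a T0 i n then (1:ℝ) else 0)) *
        ∑ T1 ∈ (range m).powerset, (if x0 ≤ wk (fun j => a (n + j)) T1 0 m then (1:ℝ) else 0) := by
      rw [Finset.sum_mul_sum]
    rw [h3] at h2
    have h4 := persist a hL n hx0 H1 H1'
    have h5 := paley_zygmund (fun j => a (n + j)) m hx0 H2
    set P := ∑ T0 ∈ (range n).powerset, (if ∀ i, i < n → 0 < x0 + wk a T0 i n then (1:ℝ) else 0)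
    set Q := ∑ T1 ∈ (range m).powerset, (if x0 ≤ wk (fun j => a (n + j)) T1 0 m then (1:ℝ) else 0)
    have hx : 0 < x0 / (2 * L) := by positivity
    have h6 : (2:ℝ) ^ n * (x0 / (2 * L)) * 2 ^ m ≤ P * (24 * Q) :=
      mul_le_mul h4 h5 (by positivity) (le_trans (by positivity) h4)
    calc (2:ℝ) ^ (n + m) * (x0 / (2 * L)) = 2 ^ n * (x0 / (2 * L)) * 2 ^ m := by rw [pow_add]; ring
      _ ≤ P * (24 * Q) := h6
      _ = 24 * (P * Q) := by ring
      _ ≤ _ := by gcongr
  -- bound for FB
  have bB : (2:ℝ) ^ d ≤ 48 * ∑ T ∈ (range d).powerset, FB T := by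
    rw [hd, sum_powerset_add]
    set c : ℕ → ℝ := fun j => ((j + 1 : ℕ) : ℝ) * b j with hc
    set θ : ℝ := (d : ℝ) * (t + 1) with hθ
    have hθpos : 0 < θ := by positivity
    have h1 : ∀ T0 ∈ (range n).powerset, ∀ T1 ∈ (range m).powerset,
        (if θ ≤ wk c T0 0 n then (1:ℝ) else 0) *
        (1 - (if ∃ i, i < m ∧ t ≤ |0 + wk (fun j => a (n + j)) T1 i m| then (1:ℝ) else 0)) ≤
          FB (T0 ∪ shift n T1) := by
      intro T0 hT0 T1 hT1
      have hnn : 0 ≤ FB (T0 ∪ shift n T1) := by simp only [hFB]; split_ifs <;> norm_num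
      by_cases c1 : θ ≤ wk c T0 0 n
      · by_cases c2 : ∃ i, i < m ∧ t ≤ |0 + wk (fun j => a (n + j)) T1 i m|
        · rw [if_pos c2]; simp only [sub_self, mul_zero]; exact hnn
        · rw [if_pos c1, if_neg c2]
          simp only [hFB]
          rw [if_pos]
          · norm_num
          intro k hk hk'
          rw [Sk_eq a _ d k hk']
          push Not at c2
          -- the bound on the top part
          have top : ∀ i, n ≤ i → i ≤ d → -t ≤ wk a (T0 ∪ shift n T1) i d := by
            intro i hi hi'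
            rcases Nat.lt_or_ge i d with h5 | h5
            · have h6 := c2 (i - n) (by omega)
              rw [zero_add] at h6
              have h7 := wk_union_high a n (i - n) m hT0 T1
              rw [show n + (i - n) = i by omega, ← hd] at h7
              rw [h7]
              exact (neg_le_of_abs_le h6.le)
            · have : i = d := by omega
              subst this
              simp [wk]; exact ht.le
          have e1 : ∑ i ∈ range k, wk a (T0 ∪ shift n T1) i d =
              ∑ i ∈ range n, wk a (T0 ∪ shift n T1) i d +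
              ∑ i ∈ Ico n k, wk a (T0 ∪ shift n T1) i d := by
            rw [Finset.range_eq_Ico, Finset.range_eq_Ico, Finset.sum_Ico_consecutive _ (by omega) hk]
          have e2 : ∑ i ∈ range n, wk a (T0 ∪ shift n T1) i d =
              ∑ i ∈ range n, wk a T0 i n + n * wk a (T0 ∪ shift n T1) n d := by
            have : (n : ℝ) * wk a (T0 ∪ shift n T1) n d =
              ∑ _i ∈ range n, wk a (T0 ∪ shift n T1) n d := by simp
            rw [this, ← Finset.sum_add_distrib]
            refine Finset.sum_congr rfl fun i hi => ?_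
            have hi' := Finset.mem_range.1 hi
            rw [wk_split a _ hi'.le (by omega : n ≤ d), wk_union_low]
          have e3 : ∑ i ∈ range n, wk a T0 i n = wk c T0 0 n := by
            rw [← Sk_eq a T0 n n le_rfl]
            unfold Sk wk
            rw [Nat.Ico_zero_eq_range]
            refine Finset.sum_congr rfl fun j hj => ?_
            have hj' := Finset.mem_range.1 hj
            rw [Nat.min_eq_left (by omega : j + 1 ≤ n)]
            simp only [hc, ha]
            ring
          rw [e1, e2, e3]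
          have f1 : -t ≤ wk a (T0 ∪ shift n T1) n d := top n le_rfl (by omega)
          have f2 : ((k - n : ℕ) : ℝ) * (-t) ≤ ∑ i ∈ Ico n k, wk a (T0 ∪ shift n T1) i d := by
            have := Finset.card_nsmul_le_sum (Ico n k) (fun i => wk a (T0 ∪ shift n T1) i d) (-t)
              (fun i hi => top i (Finset.mem_Ico.1 hi).1 (by have := (Finset.mem_Ico.1 hi).2; omega))
            simpa [nsmul_eq_mul] using this
          have f3 : (n:ℝ) * (-t) ≤ n * wk a (T0 ∪ shift n T1) n d :=
            mul_le_mul_of_nonneg_left f1 (Nat.cast_nonneg _)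
          have f4 : ((k - n : ℕ) : ℝ) = (k:ℝ) - n := by
            rw [Nat.cast_sub hk]
          have f5 : (k:ℝ) ≤ d := by exact_mod_cast hk'
          rw [f4] at f2
          have f6 : (k:ℝ) * t ≤ d * t := by gcongr
          have f7 : (d:ℝ) * (t + 1) = d * t + d := by ring
          simp only [hθ] at c1
          nlinarith
      · rw [if_neg c1, zero_mul]; exact hnn
    have h2 := Finset.sum_le_sum fun T0 hT0 => Finset.sum_le_sum (h1 T0 hT0)
    have h3 : ∑ T0 ∈ (range n).powerset, ∑ T1 ∈ (range m).powerset,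
        (if θ ≤ wk c T0 0 n then (1:ℝ) else 0) *
        (1 - (if ∃ i, i < m ∧ t ≤ |0 + wk (fun j => a (n + j)) T1 i m| then (1:ℝ) else 0)) =
        (∑ T0 ∈ (range n).powerset, (if θ ≤ wk c T0 0 n then (1:ℝ) else 0)) *
        (2 ^ m - ∑ T1 ∈ (range m).powerset,
          (if ∃ i, i < m ∧ t ≤ |0 + wk (fun j => a (n + j)) T1 i m| then (1:ℝ) else 0)) := by
      rw [← Finset.sum_mul_sum, Finset.sum_sub_distrib, card_powerset_range]
    rw [h3] at h2
    have h4 := paley_zygmund c n hθpos H4
    have h5 := maximal (fun j => a (n + j)) ht m 0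
    set P := ∑ T0 ∈ (range n).powerset, (if θ ≤ wk c T0 0 n then (1:ℝ) else 0) with hP
    set Q := ∑ T1 ∈ (range m).powerset,
          (if ∃ i, i < m ∧ t ≤ |0 + wk (fun j => a (n + j)) T1 i m| then (1:ℝ) else 0) with hQ
    have h6 : t ^ 2 * Q ≤ 2 ^ m * (t ^ 2 / 2) := by
      refine h5.trans ?_
      gcongr
      simp only [ha]
      nlinarith
    have h7 : Q ≤ 2 ^ m / 2 := by
      have : t ^ 2 * Q ≤ t ^ 2 * (2 ^ m / 2) := by linarith
      exact le_of_mul_le_mul_left this (by positivity)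
    have h8 : (2:ℝ) ^ m / 2 ≤ 2 ^ m - Q := by linarith
    have hPnn : (0:ℝ) ≤ P := Finset.sum_nonneg fun _ _ => by split_ifs <;> norm_num
    calc (2:ℝ) ^ (n + m) = 2 * (2 ^ n * (2 ^ m / 2)) := by rw [pow_add]; ring
      _ ≤ 2 * ((24 * P) * (2 ^ m - Q)) := by gcongr
      _ = 48 * (P * (2 ^ m - Q)) := by ring
      _ ≤ _ := by gcongr
  -- the product
  have hAB : ∑ T ∈ (range d).powerset, FA T * FB T ≤ ∑ T ∈ (range d).powerset,
      (if ∀ k, 1 ≤ k → k ≤ d → (k : ℝ) ≤ Sk a T d k then (1 : ℝ) else 0) := by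
    refine Finset.sum_le_sum fun T _ => ?_
    simp only [hFA, hFB]
    by_cases c1 : ∀ i, i ≤ n → 0 < wk a T i d
    · by_cases c2 : ∀ k, n ≤ k → k ≤ d → (k:ℝ) ≤ Sk a T d k
      · rw [if_pos c1, if_pos c2, if_pos]
        · norm_num
        intro k hk hk'
        rcases Nat.lt_or_ge n k with h | h
        · exact c2 k h.le hk'
        · rw [Sk_eq a T d k hk']
          have : ∀ i ∈ range k, (1:ℝ) ≤ wk a T i d := by
            intro i hi
            have hi' := Finset.mem_range.1 hi
            have h0 := c1 i (by omega)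
            have hint : wk a T i d = ((∑ j ∈ Ico i d, (if j ∈ T then (b j : ℤ) else -(b j : ℤ)) : ℤ) : ℝ) := by
              unfold wk sg
              push_cast
              refine Finset.sum_congr rfl fun j _ => ?_
              split_ifs <;> simp [ha]
            rw [hint] at h0 ⊢
            have h1 : (0:ℤ) < ∑ j ∈ Ico i d, (if j ∈ T then (b j : ℤ) else -(b j : ℤ)) := by
              exact_mod_cast h0
            exact_mod_cast h1
          calc (k:ℝ) = ∑ _i ∈ range k, (1:ℝ) := by simp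
            _ ≤ _ := Finset.sum_le_sum this
      · rw [if_neg c2, mul_zero]; split_ifs <;> norm_num
    · rw [if_neg c1, zero_mul]; split_ifs <;> norm_num
  set SA := ∑ T ∈ (range d).powerset, FA T with hSA
  set SB := ∑ T ∈ (range d).powerset, FB T with hSB
  have h2d : (0:ℝ) < 2 ^ d := by positivity
  have hx : 0 < x0 / (2 * L) := by positivity
  have g1 : (2:ℝ) ^ d * (x0 / (2 * L)) * 2 ^ d ≤ (24 * SA) * (48 * SB) :=
    mul_le_mul bA bB (by positivity) (le_trans (by positivity) bA)
  have g2 : (2:ℝ) ^ d * (2 ^ d * (x0 / (2 * L))) ≤ 2 ^ d * ((24 * 48) * ∑ T ∈ (range d).powerset, FA T * FB T) := by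
    nlinarith
  have g3 := le_of_mul_le_mul_left g2 h2d
  refine g3.trans ?_
  gcongr

end Pool.Agent.Lib.GraphPart
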