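import Pool.Agent.Lib.GraphPart.Good2
import Pool.Agent.Lib.GraphPart.SignLemma

/-!
Assembly: lower bound for the number of graphical partitions.
-/

namespace Pool.Agent.Lib.GraphPart

open Finset

/-- choose for every `j` whether the two multiplicities are exchanged -/
def sw (T : Finset ℕ) (c : Cd) : Cd := ⟨c.1, fun i => if (i : ℕ) ∈ T then c.2 i else (c.2 i).swap⟩

lemma sw_sw (T : Finset ℕ) (c : Cd) : sw T (sw T c) = c := by
  unfold sw
  obtain ⟨d, f⟩ := c
  simp only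
  congr 1
  funext i
  by_cases h : (i : ℕ) ∈ T <;> simp [h]

lemma mm_sw (T : Finset ℕ) (c : Cd) (j : ℕ) : mm (sw T c) j = if j ∈ T then mm c j else uu c j := by
  unfold mm uu sw
  by_cases h : j < c.1
  · by_cases h2 : j ∈ T <;> simp [h, h2]
  · simp [h]

lemma uu_sw (T : Finset ℕ) (c : Cd) (j : ℕ) : uu (sw T c) j = if j ∈ T then uu c j else mm c j := by
  unfold mm uu sw
  by_cases h : j < c.1
  · by_cases h2 : j ∈ T <;> simp [h, h2]
  · simp [h]

lemma sw_mem {N : ℕ} {c : Cd} (T : Finset ℕ) (hc : c ∈ allCodes N) : sw T c ∈ allCodes N := by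
  rw [mem_allCodes'] at hc ⊢
  have h1 : (sw T c).1 = c.1 := rfl
  rw [h1, ← hc]
  congr 1
  refine Finset.sum_congr rfl fun j _ => ?_
  rw [mm_sw, uu_sw]
  split_ifs <;> ring

/-- The dominance condition for a code. -/
def DomCond (c : Cd) : Prop := ∀ k, 1 ≤ k → k ≤ c.1 → (k : ℝ) ≤
  ∑ j ∈ range c.1, (min (j + 1) k : ℕ) * ((mm c j : ℝ) - uu c j)

lemma graphical_of_cond' {n : ℕ} {c : Cd} (hc : c ∈ allCodes (2 * n)) (h : DomCond c) :
    GraphicalMS (partsOf c) := by
  obtain ⟨d, f⟩ := c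
  apply graphical_of_cond f (mem_allCodes.1 hc)
  intro k hk hk'
  have h1 := h k hk hk'
  have h2 : ((∑ j : Fin d, ((min ((j : ℕ) + 1) k : ℕ) : ℤ) * (((f j).1 : ℤ) - (f j).2) : ℤ) : ℝ) =
      ∑ j ∈ range d, (min (j + 1) k : ℕ) * ((mm ⟨d, f⟩ j : ℝ) - uu ⟨d, f⟩ j) := by
    rw [Finset.sum_range]
    push_cast
    refine Finset.sum_congr rfl fun j _ => ?_
    unfold mm uu
    simp
  have h3 : ((k : ℤ) : ℝ) ≤ ((∑ j : Fin d, ((min ((j : ℕ) + 1) k : ℕ) : ℤ) * (((f j).1 : ℤ) - (f j).2) : ℤ) : ℝ) := by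
    rw [h2]; exact_mod_cast h1
  exact_mod_cast h3

/-- symmetric difference acts on patterns -/
lemma sum_symmDiff (d : ℕ) (M : Finset ℕ) (hM : M ⊆ range d) (F : Finset ℕ → ℝ) :
    ∑ T ∈ (range d).powerset, F (symmDiff T M) = ∑ T ∈ (range d).powerset, F T := by
  refine Finset.sum_nbij' (fun T => symmDiff T M) (fun T => symmDiff T M) ?_ ?_ ?_ ?_ ?_
  · intro T hT
    rw [Finset.mem_powerset] at hT ⊢
    intro x hx
    rw [Finset.mem_symmDiff] at hx
    rcases hx with h | h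
    · exact hT h.1
    · exact hM h.1
  · intro T hT
    rw [Finset.mem_powerset] at hT ⊢
    intro x hx
    rw [Finset.mem_symmDiff] at hx
    rcases hx with h | h
    · exact hT h.1
    · exact hM h.1
  · intro T _
    simp
  · intro T _
    simp
  · intro T _; rfl

open Classical in
lemma sum_sw_eq (c : Cd) :
    ∑ T ∈ (range c.1).powerset, (if DomCond (sw T c) then (1:ℝ) else 0) =
    ∑ T ∈ (range c.1).powerset, (if ∀ k, 1 ≤ k → k ≤ c.1 → (k : ℝ) ≤ Sk (fun j => (ab c j : ℝ)) T c.1 k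
        then (1 : ℝ) else 0) := by
  set M : Finset ℕ := (range c.1).filter fun j => mm c j < uu c j with hM
  rw [← sum_symmDiff c.1 M (Finset.filter_subset _ _)
    (fun T => if ∀ k, 1 ≤ k → k ≤ c.1 → (k : ℝ) ≤ Sk (fun j => (ab c j : ℝ)) T c.1 k
        then (1 : ℝ) else 0)]
  refine Finset.sum_congr rfl fun T _ => ?_
  congr 1
  rw [eq_iff_iff]
  unfold DomCond
  have h1 : (sw T c).1 = c.1 := rfl
  rw [h1]
  have h2 : ∀ k, ∑ j ∈ range c.1, ((min (j + 1) k : ℕ) : ℝ) * ((mm (sw T c) j : ℝ) - uu (sw T c) j) =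
      Sk (fun j => (ab c j : ℝ)) (symmDiff T M) c.1 k := by
    intro k
    unfold Sk
    refine Finset.sum_congr rfl fun j hj => ?_
    congr 1
    rw [mm_sw, uu_sw]
    have hab : (ab c j : ℝ) = |(mm c j : ℝ) - uu c j| := by
      unfold ab
      rw [Nat.cast_natAbs]
      push_cast
      rfl
    simp only [hab]
    by_cases h3 : mm c j < uu c j
    · have hMj : j ∈ M := Finset.mem_filter.2 ⟨hj, h3⟩
      have h4 : (mm c j : ℝ) < uu c j := by exact_mod_cast h3
      rw [abs_of_neg (by linarith)]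
      unfold sg
      by_cases h5 : j ∈ T
      · have h6 : j ∉ symmDiff T M := by
          rw [Finset.mem_symmDiff]; tauto
        rw [if_pos h5, if_pos h5, if_neg h6]; ring
      · have h6 : j ∈ symmDiff T M := by
          rw [Finset.mem_symmDiff]; tauto
        rw [if_neg h5, if_neg h5, if_pos h6]; ring
    · have hMj : j ∉ M := fun h => h3 (Finset.mem_filter.1 h).2
      have h4 : (uu c j : ℝ) ≤ mm c j := by exact_mod_cast (not_lt.1 h3)
      rw [abs_of_nonneg (by linarith)]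
      unfold sg
      by_cases h5 : j ∈ T
      · have h6 : j ∈ symmDiff T M := by
          rw [Finset.mem_symmDiff]; tauto
        rw [if_pos h5, if_pos h5, if_pos h6]; ring
      · have h6 : j ∉ symmDiff T M := by
          rw [Finset.mem_symmDiff]; tauto
        rw [if_neg h5, if_neg h5, if_neg h6]; ring
  simp only [h2]

open Classical in
/-- averaging over exchanges -/
lemma sum_avg (N : ℕ) :
    ∑ c ∈ allCodes N, (1 / 2 ^ c.1 : ℝ) * ∑ T ∈ (range c.1).powerset, (if DomCond (sw T c) then (1:ℝ) else 0) =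
    ∑ c ∈ allCodes N, (if DomCond c then (1:ℝ) else 0) := by
  have h1 : ∀ c ∈ allCodes N, (1 / 2 ^ c.1 : ℝ) * ∑ T ∈ (range c.1).powerset, (if DomCond (sw T c) then (1:ℝ) else 0) =
      ∑ T ∈ (range N).powerset, (if T ⊆ range c.1 then (1 / 2 ^ c.1 : ℝ) * (if DomCond (sw T c) then (1:ℝ) else 0) else 0) := by
    intro c hc
    rw [Finset.mul_sum, ← Finset.sum_filter]
    refine Finset.sum_congr ?_ fun _ _ => rfl
    ext T
    rw [Finset.mem_filter, Finset.mem_powerset, Finset.mem_powerset]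
    constructor
    · intro h
      refine ⟨h.trans (Finset.range_mono ?_), h⟩
      have := durfee_sq_le hc
      have h2 : c.1 ≤ c.1 ^ 2 := Nat.le_self_pow (by norm_num) _
      omega
    · exact fun h => h.2
  rw [Finset.sum_congr rfl h1, Finset.sum_comm]
  have h2 : ∀ T ∈ (range N).powerset, ∑ c ∈ allCodes N,
      (if T ⊆ range c.1 then (1 / 2 ^ c.1 : ℝ) * (if DomCond (sw T c) then (1:ℝ) else 0) else 0) =
      ∑ c ∈ allCodes N, (if T ⊆ range c.1 then (1 / 2 ^ c.1 : ℝ) * (if DomCond c then (1:ℝ) else 0) else 0) := by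
    intro T _
    refine Finset.sum_nbij' (sw T) (sw T) (fun c hc => sw_mem T hc) (fun c hc => sw_mem T hc)
      (fun c _ => sw_sw T c) (fun c _ => sw_sw T c) (fun c _ => ?_)
    rfl
  rw [Finset.sum_congr rfl h2, Finset.sum_comm]
  refine Finset.sum_congr rfl fun c hc => ?_
  rw [← Finset.sum_filter]
  have h3 : (range N).powerset.filter (fun T => T ⊆ range c.1) = (range c.1).powerset := by
    ext T
    rw [Finset.mem_filter, Finset.mem_powerset, Finset.mem_powerset]
    constructor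
    · exact fun h => h.2
    · intro h
      refine ⟨h.trans (Finset.range_mono ?_), h⟩
      have := durfee_sq_le hc
      have h2 : c.1 ≤ c.1 ^ 2 := Nat.le_self_pow (by norm_num) _
      omega
  rw [h3, Finset.sum_const, Finset.card_powerset, Finset.card_range, nsmul_eq_mul]
  push_cast
  field_simp

open Classical in
/-- The probability estimate for one good code. -/
lemma good_code {N D1 D2 κ : ℕ} {c : Cd} (hc : c ∈ allCodes N) (hG : Gd N D1 D2 κ c)
    (hN : 0 < N) (hκ : 1 ≤ κ) (hκ2 : 128 * (2 ^ 25 * κ ^ 2) ≤ D2 - D1)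
    (hD1 : Nat.sqrt N ≤ 1024 * (D1 + 1)) :
    2 ^ c.1 * ((κ : ℝ) / (256 * Real.sqrt N)) ≤ (24 * 48) * ∑ T ∈ (range c.1).powerset,
      (if ∀ k, 1 ≤ k → k ≤ c.1 → (k : ℝ) ≤ Sk (fun j => (ab c j : ℝ)) T c.1 k
        then (1 : ℝ) else 0) := by
  obtain ⟨hG1, hG2, hG3⟩ := hG
  set d := c.1 with hd
  have hdN : d ≤ N := by
    have := durfee_sq_le hc
    rw [← hd] at this
    have h2 : d ≤ d ^ 2 := Nat.le_self_pow (by norm_num) _
    omega
  have hds : d ≤ Nat.sqrt N := by
    rw [Nat.le_sqrt]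
    have := durfee_sq_le hc
    rw [sq] at this
    exact this
  set w : ℕ → ℕ := fun i => ∑ j ∈ Ico i d, (ab c j) ^ 2 with hw
  have hwanti : ∀ i, i < d → w i = (ab c i) ^ 2 + w (i + 1) := by
    intro i hi
    simp only [hw]
    rw [Finset.sum_eq_sum_Ico_succ_bot hi]
  have hx : xc D1 D2 c ≤ w D1 := by
    unfold xc
    rw [Finset.card_eq_sum_ones]
    calc ∑ _j ∈ (Ico D1 D2).filter (fun j => j < c.1 ∧ mm c j ≠ uu c j), 1 ≤
        ∑ j ∈ (Ico D1 D2).filter (fun j => j < c.1 ∧ mm c j ≠ uu c j), (ab c j) ^ 2 := by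
          refine Finset.sum_le_sum fun j hj => ?_
          have := (Finset.mem_filter.1 hj).2.2
          have h1 : 1 ≤ ab c j := by
            unfold ab
            omega
          exact Nat.one_le_pow _ _ h1
      _ ≤ w D1 := by
          apply Finset.sum_le_sum_of_subset
          intro j hj
          rw [Finset.mem_filter, Finset.mem_Ico] at hj
          rw [Finset.mem_Ico]
          exact ⟨hj.1.1, hj.2.1⟩
  have hwD : 2 ^ 25 * κ ^ 2 ≤ w D1 := by omega
  have hκsq : 1 ≤ κ ^ 2 := Nat.one_le_pow _ _ hκ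
  have hD1d : D1 < d := by
    by_contra hcon
    have : w D1 = 0 := by
      simp only [hw]
      rw [Finset.Ico_eq_empty (by omega)]; simp
    rw [this] at hwD
    omega
  -- the splitting index
  set P : ℕ → Prop := fun i => κ ^ 2 ≤ w i with hP
  set n := Nat.findGreatest P d with hn
  have hPD1 : P D1 := by
    simp only [hP]
    omega
  have hnD : D1 ≤ n := Nat.le_findGreatest hD1d.le hPD1
  have hPn : κ ^ 2 ≤ w n := Nat.findGreatest_spec (P := P) hD1d.le hPD1
  have hnd : n < d := by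
    have h1 : n ≤ d := Nat.findGreatest_le d
    rcases Nat.lt_or_ge n d with h | h
    · exact h
    · have : n = d := by omega
      rw [this] at hPn
      simp only [hw, Finset.Ico_self, Finset.sum_empty] at hPn
      omega
  have hn1 : w (n + 1) < κ ^ 2 := by
    have h1 := Nat.findGreatest_is_greatest (P := P) (show Nat.findGreatest P d < n + 1 by omega) (by omega : n + 1 ≤ d)
    simp only [hP] at h1
    omega
  have hwn : w n ≤ 2 * κ ^ 2 := by
    rw [hwanti n hnd]
    have h1 : (ab c n) ^ 2 ≤ κ ^ 2 := Nat.pow_le_pow_left (hG3 n hnD hnd) 2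
    omega
  have hsplit : w D1 = ∑ j ∈ Ico D1 n, (ab c j) ^ 2 + w n := by
    simp only [hw]
    rw [Finset.sum_Ico_consecutive _ hnD hnd.le]
  obtain ⟨m, hm⟩ : ∃ m, d = n + m := ⟨d - n, by omega⟩
  have hwnm : ((w n : ℕ) : ℝ) = ∑ j ∈ range m, (ab c (n + j) : ℝ) ^ 2 := by
    simp only [hw]
    push_cast
    rw [Finset.sum_Ico_eq_sum_range, show d - n = m by omega]
  have hNr : (0:ℝ) < N := by exact_mod_cast hN
  have hsqrt : 0 < Real.sqrt N := Real.sqrt_pos.2 hNr
  have hsq : Real.sqrt N ^ 2 = N := Real.sq_sqrt hNr.le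
  have hκr : (0:ℝ) < κ := by exact_mod_cast hκ
  have hG2r : ∑ j ∈ range N, (ab c j : ℝ) ^ 2 ≤ 2048 * N := by exact_mod_cast hG2
  have hwnN : ((w n : ℕ) : ℝ) ≤ 2048 * N := by
    refine le_trans ?_ hG2r
    simp only [hw]
    push_cast
    apply Finset.sum_le_sum_of_subset_of_nonneg
    · intro j hj
      rw [Finset.mem_Ico] at hj
      rw [Finset.mem_range]; omega
    · intro _ _ _; positivity
  have hPnr : (κ:ℝ) ^ 2 ≤ ((w n : ℕ) : ℝ) := by exact_mod_cast hPn
  have hwnr : ((w n : ℕ) : ℝ) ≤ 2 * (κ:ℝ) ^ 2 := by exact_mod_cast hwn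
  have key := sign_lemma (fun j => ab c j) n m (x0 := (κ:ℝ) / 2) (L := 64 * Real.sqrt N) (t := 2 * κ)
    (by positivity) (by positivity) (by positivity) ?_ ?_ ?_ ?_ ?_
  · rw [← hm] at key
    refine le_trans (le_of_eq ?_) key
    congr 1
    field_simp
    ring
  · have : (64 * Real.sqrt N) ^ 2 / 2 = 2048 * N := by rw [mul_pow, hsq]; ring
    rw [this]
    refine le_trans ?_ hG2r
    apply Finset.sum_le_sum_of_subset_of_nonneg
    · exact Finset.range_mono (by omega)
    · intro _ _ _; positivity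
  · have : (64 * Real.sqrt N) ^ 2 / 2 = 2048 * N := by rw [mul_pow, hsq]; ring
    rw [this]
    nlinarith
  · rw [← hwnm]
    nlinarith
  · rw [← hwnm]
    nlinarith
  · -- main inequality
    rw [← hm]
    have h1 : (((D1 + 1) ^ 2 * (w D1 - w n) : ℕ) : ℝ) ≤ ∑ j ∈ range n, (((j + 1 : ℕ) : ℝ) * (ab c j : ℝ)) ^ 2 := by
      have h2 : (D1 + 1) ^ 2 * (w D1 - w n) ≤ ∑ j ∈ range n, ((j + 1) * ab c j) ^ 2 := by
        have h3 : w D1 - w n = ∑ j ∈ Ico D1 n, (ab c j) ^ 2 := by omega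
        rw [h3, Finset.mul_sum]
        calc ∑ j ∈ Ico D1 n, (D1 + 1) ^ 2 * (ab c j) ^ 2 ≤ ∑ j ∈ Ico D1 n, ((j + 1) * ab c j) ^ 2 := by
              refine Finset.sum_le_sum fun j hj => ?_
              rw [mul_pow]
              apply Nat.mul_le_mul_right
              apply Nat.pow_le_pow_left
              have := (Finset.mem_Ico.1 hj).1
              omega
          _ ≤ _ := by
              apply Finset.sum_le_sum_of_subset
              intro j hj
              rw [Finset.mem_Ico] at hj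
              rw [Finset.mem_range]; exact hj.2
      exact_mod_cast h2
    refine le_trans ?_ h1
    have h4 : d ≤ 1024 * (D1 + 1) := hds.trans hD1
    have h5 : 2 * (d * (3 * κ)) ^ 2 ≤ (D1 + 1) ^ 2 * (w D1 - w n) := by
      calc 2 * (d * (3 * κ)) ^ 2 ≤ 2 * ((1024 * (D1 + 1)) * (3 * κ)) ^ 2 := by gcongr
        _ = (D1 + 1) ^ 2 * (18874368 * κ ^ 2) := by ring
        _ ≤ (D1 + 1) ^ 2 * (w D1 - w n) := by
            apply Nat.mul_le_mul_left
            omega
    calc 2 * ((d:ℝ) * (2 * κ + 1)) ^ 2 ≤ 2 * ((d:ℝ) * (3 * κ)) ^ 2 := by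
          have : (1:ℝ) ≤ κ := by exact_mod_cast hκ
          gcongr
          linarith
      _ = ((2 * (d * (3 * κ)) ^ 2 : ℕ) : ℝ) := by push_cast; ring
      _ ≤ _ := by exact_mod_cast h5

open Classical in
/-- counting form -/
theorem count_cond (N D1 D2 κ h : ℕ) (hDD : D1 < D2) (hD : 512 * D2 ≤ Nat.sqrt N) (hN : 0 < N)
    (hh : 2 * h ≤ (D1 + 1) * (κ + 1)) (hbig : 4096 * Nat.sqrt N * N ^ 2 ≤ h ^ 4) (hhp : 0 < h)
    (hκ : 1 ≤ κ) (hκ2 : 128 * (2 ^ 25 * κ ^ 2) ≤ D2 - D1)
    (hD1 : Nat.sqrt N ≤ 1024 * (D1 + 1)) :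
    (pp N : ℝ) * ((κ : ℝ) / (2 ^ 27 * Real.sqrt N)) ≤ ∑ c ∈ allCodes N, (if DomCond c then (1:ℝ) else 0) := by
  have hmg := many_good N D1 D2 κ h hDD hD hN hh hbig hhp
  rw [← sum_avg]
  have hNr : (0:ℝ) < N := by exact_mod_cast hN
  have hsqrt : 0 < Real.sqrt N := Real.sqrt_pos.2 hNr
  have h1 : ∀ c ∈ (allCodes N).filter (fun c => Gd N D1 D2 κ c), (κ : ℝ) / (2 ^ 19 * Real.sqrt N) ≤
      (1 / 2 ^ c.1 : ℝ) * ∑ T ∈ (range c.1).powerset, (if DomCond (sw T c) then (1:ℝ) else 0) := by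
    intro c hc
    rw [Finset.mem_filter] at hc
    have h2 := good_code hc.1 hc.2 hN hκ hκ2 hD1
    rw [← sum_sw_eq] at h2
    set S := ∑ T ∈ (range c.1).powerset, (if DomCond (sw T c) then (1:ℝ) else 0) with hS
    have h2p : (0:ℝ) < 2 ^ c.1 := by positivity
    have h3 : (κ : ℝ) / (256 * Real.sqrt N) ≤ (24 * 48) * ((1 / 2 ^ c.1) * S) := by
      have h4 : (24 * 48 : ℝ) * ((1 / 2 ^ c.1) * S) = ((24 * 48) * S) / 2 ^ c.1 := by ring
      rw [h4, le_div_iff₀ h2p]
      linarith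
    have h5 : (κ : ℝ) / (2 ^ 19 * Real.sqrt N) ≤ (κ : ℝ) / (256 * Real.sqrt N) / (24 * 48) := by
      rw [div_div]
      apply div_le_div_of_nonneg_left (by positivity) (by positivity)
      nlinarith
    have h6 : (κ : ℝ) / (256 * Real.sqrt N) / (24 * 48) ≤ (1 / 2 ^ c.1) * S := by
      rw [div_le_iff₀ (by norm_num)]
      linarith
    linarith
  calc (pp N : ℝ) * ((κ : ℝ) / (2 ^ 27 * Real.sqrt N)) ≤
      ((256 * ((allCodes N).filter fun c => Gd N D1 D2 κ c).card : ℕ) : ℝ) * ((κ : ℝ) / (2 ^ 27 * Real.sqrt N)) := by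
        gcongr
    _ = ∑ _c ∈ (allCodes N).filter (fun c => Gd N D1 D2 κ c), (κ : ℝ) / (2 ^ 19 * Real.sqrt N) := by
        rw [Finset.sum_const, nsmul_eq_mul]
        push_cast
        field_simp
        ring
    _ ≤ ∑ c ∈ (allCodes N).filter (fun c => Gd N D1 D2 κ c),
          (1 / 2 ^ c.1 : ℝ) * ∑ T ∈ (range c.1).powerset, (if DomCond (sw T c) then (1:ℝ) else 0) :=
        Finset.sum_le_sum h1
    _ ≤ _ := by
        apply Finset.sum_le_sum_of_subset_of_nonneg (Finset.filter_subset _ _)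
        intro c _ _
        apply mul_nonneg (by positivity)
        exact Finset.sum_nonneg fun _ _ => by split_ifs <;> norm_num

end Pool.Agent.Lib.GraphPart
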