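import Mathlib

/-!
Moments of the difference of two independent geometric variables.
-/

namespace Pool.Agent.Lib.GraphPart

open Finset

/-- majorant of the fourth power -/
noncomputable def c4 (a : ℕ) : ℝ := 24 * ((a + 4).choose 4 : ℝ)

lemma choose_one (a : ℕ) : (((a + 1).choose 1 : ℕ) : ℝ) = a + 1 := by
  rw [Nat.choose_one_right]; push_cast; ring

lemma choose_two (a : ℕ) : (((a + 2).choose 2 : ℕ) : ℝ) = (a + 2) * (a + 1) / 2 := by
  have h : (a + 2).choose 2 * 2 = (a + 2) * (a + 1) := by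
    have := Nat.add_one_mul_choose_eq (a + 1) 1
    rw [Nat.choose_one_right] at this
    linarith
  have hr : (((a + 2).choose 2 : ℕ) : ℝ) * 2 = ((a:ℝ) + 2) * (a + 1) := by exact_mod_cast h
  linarith

lemma pow_four_le_c4 (a : ℕ) : (a:ℝ) ^ 4 ≤ c4 a := by
  unfold c4
  have h1 := Nat.add_one_mul_choose_eq (a + 3) 3
  have h2 := Nat.add_one_mul_choose_eq (a + 2) 2
  have h3 := choose_two a
  have h1r : ((a:ℝ) + 3 + 1) * ((a + 3).choose 3 : ℕ) = ((a + 3 + 1).choose (3 + 1) : ℕ) * (3 + 1) := by exact_mod_cast h1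
  have h2r : ((a:ℝ) + 2 + 1) * ((a + 2).choose 2 : ℕ) = ((a + 2 + 1).choose (2 + 1) : ℕ) * (2 + 1) := by exact_mod_cast h2
  have e1 : a + 3 + 1 = a + 4 := rfl
  have e2 : a + 2 + 1 = a + 3 := rfl
  rw [e1] at h1r
  rw [e2] at h2r
  norm_num at h1r h2r
  have h4 : 24 * (((a + 4).choose 4 : ℕ) : ℝ) = (a + 4) * (a + 3) * ((a + 2) * (a + 1)) := by
    rw [h3] at h2r
    have h5 : (((a + 3).choose 3 : ℕ) : ℝ) = (a + 3) * ((a + 2) * (a + 1) / 2) / 3 := by linarith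
    rw [h5] at h1r
    linarith
  rw [h4]
  have ha : (0:ℝ) ≤ a := Nat.cast_nonneg a
  nlinarith [pow_nonneg ha 2, pow_nonneg ha 3]

lemma diff_pow_le (a b : ℕ) : ((a:ℝ) - b) ^ 4 ≤ c4 a + c4 b := by
  have h1 := pow_four_le_c4 a
  have h2 := pow_four_le_c4 b
  have ha : (0:ℝ) ≤ a := Nat.cast_nonneg a
  have hb : (0:ℝ) ≤ b := Nat.cast_nonneg b
  have h3 : ((a:ℝ) - b) ^ 4 ≤ (a:ℝ) ^ 4 + (b:ℝ) ^ 4 := by
    have h4 : ((a:ℝ) - b) ^ 2 ≤ (a:ℝ) ^ 2 + (b:ℝ) ^ 2 := by nlinarith [mul_nonneg ha hb]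
    have h5 : ((a:ℝ) ^ 2 + (b:ℝ) ^ 2 - 2 * a * b) ^ 2 = ((a:ℝ) - b) ^ 4 := by ring
    rcases le_total a b with h | h
    · have h6 : (a:ℝ) ≤ b := by exact_mod_cast h
      have h7 : ((a:ℝ) - b) ^ 4 = ((b:ℝ) - a) ^ 4 := by ring
      rw [h7]
      have h8 : ((b:ℝ) - a) ^ 4 ≤ (b:ℝ) ^ 4 := pow_le_pow_left₀ (by linarith) (by linarith) 4
      have := pow_nonneg ha 4
      linarith
    · have h6 : (b:ℝ) ≤ a := by exact_mod_cast h
      have h8 : ((a:ℝ) - b) ^ 4 ≤ (a:ℝ) ^ 4 := pow_le_pow_left₀ (by linarith) (by linarith) 4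
      have := pow_nonneg hb 4
      linarith
  linarith

/-- one-dimensional sums -/
lemma hasSum_poly {q : ℝ} (h0 : 0 ≤ q) (h1 : q < 1) (A B C D : ℝ) :
    HasSum (fun a : ℕ => (1 - q) * q ^ a * (A + B * a + C * (a:ℝ) ^ 2 + D * c4 a))
      (A - B + C + (B - 3 * C) * (1 / (1 - q)) + 2 * C * (1 / (1 - q)) ^ 2 + 24 * D * (1 / (1 - q)) ^ 4) := by
  have hn : ‖q‖ < 1 := by rw [Real.norm_eq_abs, abs_of_nonneg h0]; exact h1
  have hq : 1 - q ≠ 0 := by linarith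
  have g0 := hasSum_choose_mul_geometric_of_norm_lt_one 0 hn
  have g1 := hasSum_choose_mul_geometric_of_norm_lt_one 1 hn
  have g2 := hasSum_choose_mul_geometric_of_norm_lt_one 2 hn
  have g4 := hasSum_choose_mul_geometric_of_norm_lt_one 4 hn
  have key := ((((g0.mul_left ((1 - q) * (A - B + C))).add (g1.mul_left ((1 - q) * (B - 3 * C)))).add
    (g2.mul_left ((1 - q) * (2 * C)))).add (g4.mul_left ((1 - q) * (24 * D))))
  have e1 : (fun a : ℕ => (1 - q) * q ^ a * (A + B * a + C * (a:ℝ) ^ 2 + D * c4 a)) =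
      fun a : ℕ => (1 - q) * (A - B + C) * (((a + 0).choose 0 : ℕ) * q ^ a) +
        (1 - q) * (B - 3 * C) * (((a + 1).choose 1 : ℕ) * q ^ a) +
        (1 - q) * (2 * C) * (((a + 2).choose 2 : ℕ) * q ^ a) +
        (1 - q) * (24 * D) * (((a + 4).choose 4 : ℕ) * q ^ a) := by
    funext a
    rw [choose_one, choose_two, Nat.choose_zero_right]
    unfold c4
    push_cast
    ring
  have e2 : A - B + C + (B - 3 * C) * (1 / (1 - q)) + 2 * C * (1 / (1 - q)) ^ 2 + 24 * D * (1 / (1 - q)) ^ 4 =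
      (1 - q) * (A - B + C) * (1 / (1 - q) ^ (0 + 1)) + (1 - q) * (B - 3 * C) * (1 / (1 - q) ^ (1 + 1)) +
        (1 - q) * (2 * C) * (1 / (1 - q) ^ (2 + 1)) + (1 - q) * (24 * D) * (1 / (1 - q) ^ (4 + 1)) := by
    field_simp
    ring
  rw [e1, e2]
  exact key

/-- the two-dimensional sums are bounded by the full expectation -/
lemma pair_sum_le {q : ℝ} (h0 : 0 ≤ q) (h1 : q < 1) (k0 k1 k2 : ℝ)
    (hf : ∀ a b : ℕ, 0 ≤ k0 + k1 * ((a:ℝ) - b) ^ 2 + k2 * (c4 a + c4 b)) (L : ℕ) :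
    ∑ p ∈ range L ×ˢ range L, (1 - q) ^ 2 * q ^ (p.1 + p.2) *
      (k0 + k1 * ((p.1:ℝ) - p.2) ^ 2 + k2 * (c4 p.1 + c4 p.2)) ≤
      k0 + k1 * (2 * (1 / (1 - q)) * (1 / (1 - q) - 1)) + k2 * (48 * (1 / (1 - q)) ^ 4) := by
  set r := 1 / (1 - q) with hr
  have hq : 0 < 1 - q := by linarith
  rw [Finset.sum_product_right]
  set P : ℕ → ℝ := fun b => (k0 + k1 - 3 * k1 * r + 2 * k1 * r ^ 2 + 24 * k2 * r ^ 4) +
    (2 * k1 - 2 * k1 * r) * b + k1 * (b:ℝ) ^ 2 + k2 * c4 b with hP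
  have hin : ∀ b : ℕ, ∑ a ∈ range L, (1 - q) ^ 2 * q ^ (a + b) *
      (k0 + k1 * ((a:ℝ) - b) ^ 2 + k2 * (c4 a + c4 b)) ≤ (1 - q) * q ^ b * P b := by
    intro b
    have h2 := hasSum_poly h0 h1 (k0 + k1 * (b:ℝ) ^ 2 + k2 * c4 b) (-(2 * k1 * b)) k1 k2
    rw [← hr] at h2
    have h3 : ∑ a ∈ range L, (1 - q) * q ^ a * ((k0 + k1 * (b:ℝ) ^ 2 + k2 * c4 b) + -(2 * k1 * b) * a +
        k1 * (a:ℝ) ^ 2 + k2 * c4 a) ≤ P b := by
      refine (sum_le_hasSum (range L) (fun a _ => ?_) h2).trans (le_of_eq ?_)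
      · have := hf a b
        have e : (k0 + k1 * (b:ℝ) ^ 2 + k2 * c4 b) + -(2 * k1 * b) * a + k1 * (a:ℝ) ^ 2 + k2 * c4 a =
            k0 + k1 * ((a:ℝ) - b) ^ 2 + k2 * (c4 a + c4 b) := by ring
        rw [e]
        positivity
      · simp only [hP]
        ring
    calc ∑ a ∈ range L, (1 - q) ^ 2 * q ^ (a + b) * (k0 + k1 * ((a:ℝ) - b) ^ 2 + k2 * (c4 a + c4 b)) =
        (1 - q) * q ^ b * ∑ a ∈ range L, (1 - q) * q ^ a * ((k0 + k1 * (b:ℝ) ^ 2 + k2 * c4 b) + -(2 * k1 * b) * a +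
          k1 * (a:ℝ) ^ 2 + k2 * c4 a) := by
          rw [Finset.mul_sum]
          refine Finset.sum_congr rfl fun a _ => ?_
          rw [pow_add]; ring
      _ ≤ _ := mul_le_mul_of_nonneg_left h3 (by positivity)
  have hPn : ∀ b : ℕ, 0 ≤ (1 - q) * q ^ b * P b := by
    intro b
    refine le_trans (Finset.sum_nonneg fun a _ => ?_) (hin b)
    have := hf a b
    positivity
  refine (Finset.sum_le_sum fun b _ => hin b).trans ?_
  have h4 := hasSum_poly h0 h1 (k0 + k1 - 3 * k1 * r + 2 * k1 * r ^ 2 + 24 * k2 * r ^ 4) (2 * k1 - 2 * k1 * r) k1 k2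
  rw [← hr] at h4
  refine (sum_le_hasSum (range L) (fun b _ => hPn b) h4).trans (le_of_eq ?_)
  ring

lemma r_bounds {x : ℝ} (hx0 : 0 < x) (hx1 : x ≤ 1) :
    x ^ 2 * ((1 / (1 - Real.exp (-x))) * (1 / (1 - Real.exp (-x)) - 1)) ≤ 1 ∧
    1 - x ≤ x ^ 2 * ((1 / (1 - Real.exp (-x))) * (1 / (1 - Real.exp (-x)) - 1)) ∧
    x * (1 / (1 - Real.exp (-x))) ≤ 2 := by
  set q := Real.exp (-x) with hq
  have hq0 : 0 < q := Real.exp_pos _
  have hq1 : 1 - x ≤ q := Real.one_sub_le_exp_neg x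
  have hq2 : q ≤ 1 / (1 + x) := by
    rw [le_div_iff₀ (by linarith)]
    have h1 : 1 + x ≤ Real.exp x := by linarith [Real.add_one_le_exp x]
    have h2 : q * Real.exp x = 1 := by rw [hq, ← Real.exp_add]; simp
    nlinarith
  have h3 : 1 / (1 + x) < 1 := by rw [div_lt_one (by linarith)]; linarith
  have hpos : 0 < 1 - q := by linarith
  have e1 : x ^ 2 * ((1 / (1 - q)) * (1 / (1 - q) - 1)) = x ^ 2 * q / (1 - q) ^ 2 := by
    field_simp; ring
  rw [e1]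
  refine ⟨?_, ?_, ?_⟩
  · rw [div_le_one (by positivity)]
    -- x e^{-x/2} ≤ 1 - e^{-x}
    set y := Real.exp (-(x / 2)) with hy
    have hy0 : 0 < y := Real.exp_pos _
    have hyq : y ^ 2 = q := by rw [hy, hq, ← Real.exp_nat_mul]; congr 1; push_cast; ring
    have h4 : x / 2 ≤ Real.sinh (x / 2) := Real.self_le_sinh_iff.2 (by linarith)
    rw [Real.sinh_eq] at h4
    have h5 : Real.exp (x / 2) * y = 1 := by rw [hy, ← Real.exp_add]; simp
    have h6 : x * y ≤ 1 - q := by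
      rw [← hyq]
      have h7 : x ≤ Real.exp (x / 2) - y := by linarith
      calc x * y ≤ (Real.exp (x / 2) - y) * y := mul_le_mul_of_nonneg_right h7 hy0.le
        _ = 1 - y ^ 2 := by rw [sub_mul, h5]; ring
    calc x ^ 2 * q = (x * y) ^ 2 := by rw [mul_pow, hyq]
      _ ≤ (1 - q) ^ 2 := by gcongr
  · have h4 : 1 - q ≤ x := by linarith
    have h5 : q ≤ x ^ 2 * q / (1 - q) ^ 2 := by
      rw [le_div_iff₀ (by positivity)]
      have : (1 - q) ^ 2 ≤ x ^ 2 := by gcongr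
      nlinarith
    linarith
  · rw [mul_one_div, div_le_iff₀ hpos]
    have h4 : x / (1 + x) ≤ 1 - q := by
      have : x / (1 + x) = 1 - 1 / (1 + x) := by field_simp; ring
      rw [this]; linarith
    have h5 : x / 2 ≤ x / (1 + x) := by
      apply div_le_div_of_nonneg_left hx0.le (by linarith) (by linarith)
    linarith

/-- exponential moment, upper -/
lemma exp_moment_up {x lam : ℝ} (hx0 : 0 < x) (hx1 : x ≤ 1) (hl : 0 ≤ lam) {L : ℕ} (hL : lam * (x * L) ^ 2 ≤ 1) :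
    ∑ p ∈ range L ×ˢ range L, (1 - Real.exp (-x)) ^ 2 * Real.exp (-x) ^ (p.1 + p.2) *
      Real.exp (lam * (x * ((p.1:ℝ) - p.2)) ^ 2) ≤ Real.exp (2 * lam + 768 * lam ^ 2) := by
  set q := Real.exp (-x) with hq
  have hq0 : 0 < q := Real.exp_pos _
  have hq1 : q < 1 := by rw [hq, Real.exp_lt_one_iff]; linarith
  obtain ⟨r1, _, r3⟩ := r_bounds hx0 hx1
  rw [← hq] at r1 r3
  have h1 : ∀ p ∈ range L ×ˢ range L, (1 - q) ^ 2 * q ^ (p.1 + p.2) * Real.exp (lam * (x * ((p.1:ℝ) - p.2)) ^ 2) ≤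
      (1 - q) ^ 2 * q ^ (p.1 + p.2) *
      (1 + (lam * x ^ 2) * ((p.1:ℝ) - p.2) ^ 2 + (lam ^ 2 * x ^ 4) * (c4 p.1 + c4 p.2)) := by
    intro p hp
    rw [Finset.mem_product, Finset.mem_range, Finset.mem_range] at hp
    apply mul_le_mul_of_nonneg_left _ (by positivity)
    set y := lam * (x * ((p.1:ℝ) - p.2)) ^ 2 with hy
    have hy0 : 0 ≤ y := by positivity
    have hy1 : y ≤ 1 := by
      refine le_trans ?_ hL
      rw [hy]
      apply mul_le_mul_of_nonneg_left _ hl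
      rw [mul_pow, mul_pow]
      apply mul_le_mul_of_nonneg_left _ (by positivity)
      have ha : (0:ℝ) ≤ p.1 := Nat.cast_nonneg _
      have hb : (0:ℝ) ≤ p.2 := Nat.cast_nonneg _
      have ha' : (p.1:ℝ) ≤ L := by exact_mod_cast hp.1.le
      have hb' : (p.2:ℝ) ≤ L := by exact_mod_cast hp.2.le
      apply sq_le_sq'
      · linarith
      · linarith
    have h2 := Real.abs_exp_sub_one_sub_id_le (x := y) (by rw [abs_of_nonneg hy0]; exact hy1)
    have h3 := (abs_le.1 h2).2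
    have h4 : y ^ 2 ≤ (lam ^ 2 * x ^ 4) * (c4 p.1 + c4 p.2) := by
      have e1 : y ^ 2 = (lam ^ 2 * x ^ 4) * ((p.1:ℝ) - p.2) ^ 4 := by rw [hy]; ring
      rw [e1]
      exact mul_le_mul_of_nonneg_left (diff_pow_le _ _) (by positivity)
    have e2 : y = (lam * x ^ 2) * ((p.1:ℝ) - p.2) ^ 2 := by rw [hy]; ring
    linarith
  refine (Finset.sum_le_sum h1).trans ?_
  refine (pair_sum_le hq0.le hq1 1 (lam * x ^ 2) (lam ^ 2 * x ^ 4) (fun a b => ?_) L).trans ?_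
  · have : 0 ≤ c4 a + c4 b := le_trans (by positivity) (diff_pow_le a b)
    positivity
  · set r := 1 / (1 - q) with hr
    have hr0 : 0 ≤ r := by
      have : 0 < 1 - q := by linarith
      positivity
    have e1 : lam * x ^ 2 * (2 * r * (r - 1)) = 2 * lam * (x ^ 2 * (r * (r - 1))) := by ring
    have e2 : lam ^ 2 * x ^ 4 * (48 * r ^ 4) = 48 * lam ^ 2 * (x * r) ^ 4 := by ring
    rw [e1, e2]
    have h2 : 2 * lam * (x ^ 2 * (r * (r - 1))) ≤ 2 * lam * 1 := by gcongr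
    have h3 : (x * r) ^ 4 ≤ 2 ^ 4 := by gcongr
    have h4 : 48 * lam ^ 2 * (x * r) ^ 4 ≤ 48 * lam ^ 2 * 2 ^ 4 := by gcongr
    have h5 := Real.add_one_le_exp (2 * lam + 768 * lam ^ 2)
    linarith

/-- exponential moment, lower -/
lemma exp_moment_low {x lam : ℝ} (hx0 : 0 < x) (hx1 : x ≤ 1) (hl : 0 ≤ lam) {L : ℕ} (hL : lam * (x * L) ^ 2 ≤ 1) :
    ∑ p ∈ range L ×ˢ range L, (1 - Real.exp (-x)) ^ 2 * Real.exp (-x) ^ (p.1 + p.2) *
      Real.exp (-(lam * (x * ((p.1:ℝ) - p.2)) ^ 2)) ≤ Real.exp (-(2 * lam * (1 - x)) + 768 * lam ^ 2) := by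
  set q := Real.exp (-x) with hq
  have hq0 : 0 < q := Real.exp_pos _
  have hq1 : q < 1 := by rw [hq, Real.exp_lt_one_iff]; linarith
  obtain ⟨_, r2, r3⟩ := r_bounds hx0 hx1
  rw [← hq] at r2 r3
  have h1 : ∀ p ∈ range L ×ˢ range L, (1 - q) ^ 2 * q ^ (p.1 + p.2) * Real.exp (-(lam * (x * ((p.1:ℝ) - p.2)) ^ 2)) ≤
      (1 - q) ^ 2 * q ^ (p.1 + p.2) *
      (1 + (-(lam * x ^ 2)) * ((p.1:ℝ) - p.2) ^ 2 + (lam ^ 2 * x ^ 4) * (c4 p.1 + c4 p.2)) := by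
    intro p hp
    rw [Finset.mem_product, Finset.mem_range, Finset.mem_range] at hp
    apply mul_le_mul_of_nonneg_left _ (by positivity)
    set y := lam * (x * ((p.1:ℝ) - p.2)) ^ 2 with hy
    have hy0 : 0 ≤ y := by positivity
    have hy1 : y ≤ 1 := by
      refine le_trans ?_ hL
      rw [hy]
      apply mul_le_mul_of_nonneg_left _ hl
      rw [mul_pow, mul_pow]
      apply mul_le_mul_of_nonneg_left _ (by positivity)
      have ha : (0:ℝ) ≤ p.1 := Nat.cast_nonneg _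
      have hb : (0:ℝ) ≤ p.2 := Nat.cast_nonneg _
      have ha' : (p.1:ℝ) ≤ L := by exact_mod_cast hp.1.le
      have hb' : (p.2:ℝ) ≤ L := by exact_mod_cast hp.2.le
      apply sq_le_sq'
      · linarith
      · linarith
    have h2 := Real.abs_exp_sub_one_sub_id_le (x := -y) (by rw [abs_neg, abs_of_nonneg hy0]; exact hy1)
    have h3 := (abs_le.1 h2).2
    have h4 : y ^ 2 ≤ (lam ^ 2 * x ^ 4) * (c4 p.1 + c4 p.2) := by
      have e1 : y ^ 2 = (lam ^ 2 * x ^ 4) * ((p.1:ℝ) - p.2) ^ 4 := by rw [hy]; ring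
      rw [e1]
      exact mul_le_mul_of_nonneg_left (diff_pow_le _ _) (by positivity)
    have e2 : y = (lam * x ^ 2) * ((p.1:ℝ) - p.2) ^ 2 := by rw [hy]; ring
    rw [neg_sq] at h3
    linarith
  refine (Finset.sum_le_sum h1).trans ?_
  refine (pair_sum_le hq0.le hq1 1 (-(lam * x ^ 2)) (lam ^ 2 * x ^ 4) (fun a b => ?_) L).trans ?_
  · set z := lam * x ^ 2 * ((a:ℝ) - b) ^ 2 with hz
    have h2 : z ^ 2 ≤ lam ^ 2 * x ^ 4 * (c4 a + c4 b) := by
      have e1 : z ^ 2 = (lam ^ 2 * x ^ 4) * ((a:ℝ) - b) ^ 4 := by rw [hz]; ring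
      rw [e1]
      exact mul_le_mul_of_nonneg_left (diff_pow_le _ _) (by positivity)
    have e3 : -(lam * x ^ 2) * ((a:ℝ) - b) ^ 2 = -z := by rw [hz]; ring
    rw [e3]
    nlinarith [sq_nonneg (z - 1)]
  · set r := 1 / (1 - q) with hr
    have hr0 : 0 ≤ r := by
      have : 0 < 1 - q := by linarith
      positivity
    have e1 : -(lam * x ^ 2) * (2 * r * (r - 1)) = -(2 * lam * (x ^ 2 * (r * (r - 1)))) := by ring
    have e2 : lam ^ 2 * x ^ 4 * (48 * r ^ 4) = 48 * lam ^ 2 * (x * r) ^ 4 := by ring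
    rw [e1, e2]
    have h2 : 2 * lam * (1 - x) ≤ 2 * lam * (x ^ 2 * (r * (r - 1))) := by gcongr
    have h3 : (x * r) ^ 4 ≤ 2 ^ 4 := by gcongr
    have h4 : 48 * lam ^ 2 * (x * r) ^ 4 ≤ 48 * lam ^ 2 * 2 ^ 4 := by gcongr
    have h5 := Real.add_one_le_exp (-(2 * lam * (1 - x)) + 768 * lam ^ 2)
    linarith

end Pool.Agent.Lib.GraphPart
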