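import Pool.Agent.Lib.GraphPart.Growth3
import Pool.Agent.Lib.GraphPart.Moments

/-!
Concentration of the sum of squares over a group of coordinates.
-/

namespace Pool.Agent.Lib.GraphPart

set_option linter.unusedSectionVars false

open Finset

section
variable {ι : Type} [Fintype ι] [DecidableEq ι]

/-- the rate -/
noncomputable def tau (ι : Type) [Fintype ι] (s : ℕ) : ℝ := ((2 * Fintype.card ι : ℕ) : ℝ) / s

lemma qq_eq (wt : ι → ℕ) (s : ℕ) (i : ι) : qq wt s i = Real.exp (-(tau ι s * wt i)) := rfl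

/-- the statistic of one coordinate -/
noncomputable def gst (wt : ι → ℕ) (s : ℕ) (i : ι) (p : ℕ × ℕ) : ℝ := (tau ι s * wt i * ((p.1:ℝ) - p.2)) ^ 2

/-- Markov bound -/
lemma markov_bound {wt : ι → ℕ} {W s bm : ℕ} (h : SZ wt W s bm) {J : Finset ι} {B0 : ℕ} (hT : TR wt s J B0)
    (L : ι → ℕ) (hL : ∑ i ∈ J, wt i * (2 * L i) ≤ bm) (ψ : ι → ℕ × ℕ → ℝ) (thr K : ℝ)
    (hK : ∀ i ∈ J, ∑ p ∈ range (L i) ×ˢ range (L i),
        (1 - qq wt s i) ^ 2 * qq wt s i ^ (p.1 + p.2) * Real.exp (ψ i p) ≤ Real.exp K) :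
    (((XS wt s).filter (fun x => (∀ i ∈ J, (x i).1 < L i ∧ (x i).2 < L i) ∧ thr ≤ ∑ i ∈ J, ψ i (x i))).card : ℝ) ≤
      32 * (B0 + 1) * rr wt s * Real.exp (J.card * K - thr) := by
  classical
  have hp := product_bound h hT L hL (fun i p => Real.exp (ψ i p)) (fun i p => (Real.exp_pos _).le)
  have h1 : (((XS wt s).filter (fun x => (∀ i ∈ J, (x i).1 < L i ∧ (x i).2 < L i) ∧ thr ≤ ∑ i ∈ J, ψ i (x i))).card : ℝ) ≤
      Real.exp (-thr) * ∑ x ∈ (XS wt s).filter (fun x => ∀ i ∈ J, (x i).1 < L i ∧ (x i).2 < L i),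
        ∏ i ∈ J, Real.exp (ψ i (x i)) := by
    rw [← Finset.filter_filter, Finset.card_filter]
    push_cast
    rw [Finset.mul_sum]
    refine Finset.sum_le_sum fun x _ => ?_
    rw [← Real.exp_sum, ← Real.exp_add]
    split_ifs with hc
    · apply Real.one_le_exp; linarith
    · exact (Real.exp_pos _).le
  refine h1.trans ?_
  have h2 : ∏ i ∈ J, ∑ p ∈ range (L i) ×ˢ range (L i),
        (1 - qq wt s i) ^ 2 * qq wt s i ^ (p.1 + p.2) * Real.exp (ψ i p) ≤ Real.exp (J.card * K) := by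
    calc _ ≤ ∏ _i ∈ J, Real.exp K := Finset.prod_le_prod (fun i _ => Finset.sum_nonneg fun p _ => by
            have := qq_pos wt s i
            positivity) hK
      _ = _ := by rw [Finset.prod_const, ← Real.exp_nat_mul]
  calc Real.exp (-thr) * ∑ x ∈ (XS wt s).filter (fun x => ∀ i ∈ J, (x i).1 < L i ∧ (x i).2 < L i),
        ∏ i ∈ J, Real.exp (ψ i (x i)) ≤ Real.exp (-thr) * (32 * (B0 + 1) * rr wt s * Real.exp (J.card * K)) := by
        apply mul_le_mul_of_nonneg_left _ (Real.exp_pos _).le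
        refine hp.trans ?_
        gcongr
    _ = 32 * (B0 + 1) * rr wt s * (Real.exp (-thr) * Real.exp (J.card * K)) := by ring
    _ = _ := by rw [← Real.exp_add]; congr 2; ring

/-- **Flatness of one group.** -/
theorem flat_card {wt : ι → ℕ} {W s bm : ℕ} (h : SZ wt W s bm) {J : Finset ι} {B0 : ℕ} (hT : TR wt s J B0)
    (L : ι → ℕ) (hL : ∑ i ∈ J, wt i * (2 * L i) ≤ bm) {lam η : ℝ} (hl : 0 < lam) (hlη : 1536 * lam ≤ η)
    (hη1 : η ≤ 1) (hx : ∀ i ∈ J, 4 * (tau ι s * wt i) ≤ η) (hxL : ∀ i ∈ J, lam * (tau ι s * wt i * L i) ^ 2 ≤ 1) :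
    (((XS wt s).filter (fun x => (∀ i ∈ J, (x i).1 < L i ∧ (x i).2 < L i) ∧
      2 * η * J.card ≤ |∑ i ∈ J, gst wt s i (x i) - 2 * J.card|)).card : ℝ) ≤
      64 * (B0 + 1) * rr wt s * Real.exp (-(lam * η * J.card)) := by
  classical
  have hτ : 0 < tau ι s := tau_pos h
  have hxpos : ∀ i, 0 < tau ι s * wt i := fun i => mul_pos hτ (by exact_mod_cast h.wt.pos i)
  have hx1 : ∀ i ∈ J, tau ι s * wt i ≤ 1 := fun i hi => by
    have := hx i hi; have := hxpos i; linarith
  have hJ : (0:ℝ) ≤ J.card := Nat.cast_nonneg _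
  -- upper
  have up := markov_bound h hT L hL (fun i p => lam * gst wt s i p) (lam * (2 * J.card + 2 * η * J.card))
    (2 * lam + 768 * lam ^ 2) (by
      intro i hi
      have := exp_moment_up (hxpos i) (hx1 i hi) hl.le (hxL i hi)
      simp only [gst, qq_eq]
      exact this)
  have low := markov_bound h hT L hL (fun i p => -(lam * gst wt s i p)) (-(lam * (2 * J.card - 2 * η * J.card)))
    (-(2 * lam * (1 - η / 4)) + 768 * lam ^ 2) (by
      intro i hi
      have := exp_moment_low (hxpos i) (hx1 i hi) hl.le (hxL i hi)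
      simp only [gst, qq_eq]
      refine this.trans (Real.exp_le_exp.2 ?_)
      have h2 := hx i hi
      have : 2 * lam * (1 - η / 4) ≤ 2 * lam * (1 - tau ι s * wt i) := by
        apply mul_le_mul_of_nonneg_left _ (by positivity)
        linarith
      linarith)
  have e1 : (J.card : ℝ) * (2 * lam + 768 * lam ^ 2) - lam * (2 * J.card + 2 * η * J.card) ≤ -(lam * η * J.card) := by
    have : 768 * lam ^ 2 ≤ lam * η := by nlinarith
    nlinarith [mul_nonneg hJ (sub_nonneg.2 this)]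
  have e2 : (J.card : ℝ) * (-(2 * lam * (1 - η / 4)) + 768 * lam ^ 2) - -(lam * (2 * J.card - 2 * η * J.card)) ≤
      -(lam * η * J.card) := by
    have : 768 * lam ^ 2 ≤ lam * η / 2 := by nlinarith
    nlinarith [mul_nonneg hJ (sub_nonneg.2 this)]
  have hrr : (0:ℝ) ≤ 32 * (B0 + 1) * rr wt s := by positivity
  have up' := up.trans (mul_le_mul_of_nonneg_left (Real.exp_le_exp.2 e1) hrr)
  have low' := low.trans (mul_le_mul_of_nonneg_left (Real.exp_le_exp.2 e2) hrr)
  have hsub : ((XS wt s).filter (fun x => (∀ i ∈ J, (x i).1 < L i ∧ (x i).2 < L i) ∧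
      2 * η * J.card ≤ |∑ i ∈ J, gst wt s i (x i) - 2 * J.card|)) ⊆
      ((XS wt s).filter (fun x => (∀ i ∈ J, (x i).1 < L i ∧ (x i).2 < L i) ∧
        lam * (2 * J.card + 2 * η * J.card) ≤ ∑ i ∈ J, lam * gst wt s i (x i))) ∪
      ((XS wt s).filter (fun x => (∀ i ∈ J, (x i).1 < L i ∧ (x i).2 < L i) ∧
        -(lam * (2 * J.card - 2 * η * J.card)) ≤ ∑ i ∈ J, -(lam * gst wt s i (x i)))) := by
    intro x hx'
    rw [Finset.mem_filter] at hx'
    rw [Finset.mem_union, Finset.mem_filter, Finset.mem_filter]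
    rcases le_abs.1 hx'.2.2 with h3 | h3
    · left
      refine ⟨hx'.1, hx'.2.1, ?_⟩
      rw [← Finset.mul_sum]
      apply mul_le_mul_of_nonneg_left _ hl.le
      linarith
    · right
      refine ⟨hx'.1, hx'.2.1, ?_⟩
      rw [Finset.sum_neg_distrib, ← Finset.mul_sum, neg_le_neg_iff]
      apply mul_le_mul_of_nonneg_left _ hl.le
      linarith
  have hcard := (Finset.card_le_card hsub).trans (Finset.card_union_le _ _)
  have hcardr : (((XS wt s).filter (fun x => (∀ i ∈ J, (x i).1 < L i ∧ (x i).2 < L i) ∧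
      2 * η * J.card ≤ |∑ i ∈ J, gst wt s i (x i) - 2 * J.card|)).card : ℝ) ≤
      (((XS wt s).filter (fun x => (∀ i ∈ J, (x i).1 < L i ∧ (x i).2 < L i) ∧
        lam * (2 * J.card + 2 * η * J.card) ≤ ∑ i ∈ J, lam * gst wt s i (x i))).card : ℝ) +
      (((XS wt s).filter (fun x => (∀ i ∈ J, (x i).1 < L i ∧ (x i).2 < L i) ∧
        -(lam * (2 * J.card - 2 * η * J.card)) ≤ ∑ i ∈ J, -(lam * gst wt s i (x i)))).card : ℝ) := by
    exact_mod_cast hcard
  linarith

/-- entries are bounded with high probability -/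
theorem big_card {wt : ι → ℕ} {W s bm : ℕ} (h : SZ wt W s bm) (L : ι → ℕ) {Lam : ℝ}
    (hL : ∀ i, L i * wt i ≤ bm) (hLam : ∀ i, Lam ≤ tau ι s * (L i * wt i)) :
    (((XS wt s).filter (fun x => ∃ i, L i ≤ (x i).1 ∨ L i ≤ (x i).2)).card : ℝ) ≤
      32 * Fintype.card ι * Real.exp (-Lam) * rr wt s := by
  classical
  have hbs : bm ≤ s := by have := h.b1; omega
  have hsub : ((XS wt s).filter (fun x => ∃ i, L i ≤ (x i).1 ∨ L i ≤ (x i).2)) ⊆
      (univ : Finset ι).biUnion fun i => (((XS wt s).filter fun x => L i ≤ (x i).1) ∪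
        ((XS wt s).filter fun x => L i ≤ (x i).2)) := by
    intro x hx
    rw [Finset.mem_filter] at hx
    obtain ⟨hx1, i, hi⟩ := hx
    rw [Finset.mem_biUnion]
    refine ⟨i, Finset.mem_univ i, ?_⟩
    rw [Finset.mem_union, Finset.mem_filter, Finset.mem_filter]
    rcases hi with hi | hi
    · exact Or.inl ⟨hx1, hi⟩
    · exact Or.inr ⟨hx1, hi⟩
  have h1 := (Finset.card_le_card hsub).trans Finset.card_biUnion_le
  have h2 : ∀ i ∈ (univ : Finset ι), (((((XS wt s).filter fun x => L i ≤ (x i).1) ∪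
        ((XS wt s).filter fun x => L i ≤ (x i).2)).card : ℕ) : ℝ) ≤ 32 * Real.exp (-Lam) * rr wt s := by
    intro i _
    have h3 := Finset.card_union_le ((XS wt s).filter fun x => L i ≤ (x i).1) ((XS wt s).filter fun x => L i ≤ (x i).2)
    rw [card_ge_fst h.wt.pos i s (L i) ((hL i).trans hbs), card_ge_snd h.wt.pos i s (L i) ((hL i).trans hbs)] at h3
    have h3r : (((((XS wt s).filter fun x => L i ≤ (x i).1) ∪
        ((XS wt s).filter fun x => L i ≤ (x i).2)).card : ℕ) : ℝ) ≤ rr wt (s - L i * wt i) + rr wt (s - L i * wt i) := by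
      exact_mod_cast h3
    have h4 := ratio h (v := s - L i * wt i) (by have := hL i; omega)
    have h5 : (((s - L i * wt i : ℕ) : ℝ) - s) = -((L i:ℝ) * wt i) := by
      rw [Nat.cast_sub ((hL i).trans hbs)]; push_cast; ring
    rw [h5] at h4
    have h6 : Real.exp (((2 * Fintype.card ι : ℕ) : ℝ) / s * (-((L i:ℝ) * wt i))) ≤ Real.exp (-Lam) := by
      apply Real.exp_le_exp.2
      have := hLam i
      unfold tau at this
      linarith
    have h7 : (0:ℝ) ≤ rr wt s := Nat.cast_nonneg _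
    calc _ ≤ _ := h3r
      _ ≤ 16 * Real.exp (-Lam) * rr wt s + 16 * Real.exp (-Lam) * rr wt s := by
          have h8 : 16 * Real.exp (((2 * Fintype.card ι : ℕ) : ℝ) / s * (-((L i:ℝ) * wt i))) * rr wt s ≤
              16 * Real.exp (-Lam) * rr wt s := by gcongr
          linarith
      _ = _ := by ring
  have h1r : (((XS wt s).filter (fun x => ∃ i, L i ≤ (x i).1 ∨ L i ≤ (x i).2)).card : ℝ) ≤
      ∑ i : ι, (((((XS wt s).filter fun x => L i ≤ (x i).1) ∪
        ((XS wt s).filter fun x => L i ≤ (x i).2)).card : ℕ) : ℝ) := by exact_mod_cast h1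
  refine h1r.trans ((Finset.sum_le_sum h2).trans (le_of_eq ?_))
  rw [Finset.sum_const, Finset.card_univ, nsmul_eq_mul]
  ring

end

end Pool.Agent.Lib.GraphPart
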