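import Pool.Agent.Lib.GraphPart.Kolm2

/-!
Iterated Gaussian integrals of monotone functions, replacement of block sums, shift inequality.
-/

namespace Pool.Agent.Lib.GraphPart

open Finset MeasureTheory ProbabilityTheory
open scoped NNReal

/-- Integrate out the coordinates `0, ..., U-1` against independent standard Gaussian variables. -/
noncomputable def GI : ℕ → ((ℕ → ℝ) → ℝ) → (ℕ → ℝ) → ℝ
  | 0, F, x => F x
  | (U + 1), F, x => GI U (fun y => ∫ g, F (Function.update y U g) ∂gam) x

/-- nonnegative bounded monotone functions -/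
structure MB (C : ℝ) (F : (ℕ → ℝ) → ℝ) : Prop where
  mono : Monotone F
  nn : ∀ x, 0 ≤ F x
  le : ∀ x, F x ≤ C

lemma MB.slice_mono {C : ℝ} {F : (ℕ → ℝ) → ℝ} (h : MB C F) (y : ℕ → ℝ) (U : ℕ) :
    Monotone (fun g => F (Function.update y U g)) := by
  intro g g' hg
  apply h.mono
  exact update_le_update_iff.2 ⟨hg, fun _ _ => le_rfl⟩

lemma integrable_mono_bdd {μ : Measure ℝ} [IsProbabilityMeasure μ] {φ : ℝ → ℝ} (hφ : Monotone φ)
    {C : ℝ} (h0 : ∀ x, 0 ≤ φ x) (h1 : ∀ x, φ x ≤ C) : Integrable φ μ :=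
  Integrable.of_bound hφ.measurable.aestronglyMeasurable C
    (Filter.Eventually.of_forall fun x => by
      rw [Real.norm_eq_abs, abs_of_nonneg (h0 x)]; exact h1 x)

lemma MB.slice_int {C : ℝ} {F : (ℕ → ℝ) → ℝ} (h : MB C F) (y : ℕ → ℝ) (U : ℕ) :
    Integrable (fun g => F (Function.update y U g)) gam :=
  integrable_mono_bdd (h.slice_mono y U) (fun _ => h.nn _) (fun _ => h.le _)

lemma MB.intg {C : ℝ} {F : (ℕ → ℝ) → ℝ} (h : MB C F) (U : ℕ) :
    MB C (fun y => ∫ g, F (Function.update y U g) ∂gam) where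
  mono := by
    intro y y' hy
    refine integral_mono (h.slice_int y U) (h.slice_int y' U) fun g => ?_
    apply h.mono
    exact update_le_update_iff.2 ⟨le_rfl, fun j _ => hy j⟩
  nn := fun y => integral_nonneg fun g => h.nn _
  le := fun y => by
    calc ∫ g, F (Function.update y U g) ∂gam ≤ ∫ _g : ℝ, C ∂gam :=
          integral_mono (h.slice_int y U) (integrable_const C) fun g => h.le _
      _ = C := by simp

lemma GI_mono {C C' : ℝ} : ∀ (U : ℕ) {F G : (ℕ → ℝ) → ℝ}, MB C F → MB C' G → (∀ x, F x ≤ G x) →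
    ∀ x, GI U F x ≤ GI U G x := by
  intro U
  induction U with
  | zero => intro F G _ _ h x; exact h x
  | succ U ih =>
    intro F G hF hG h x
    refine ih (hF.intg U) (hG.intg U) (fun y => ?_) x
    exact integral_mono (hF.slice_int y U) (hG.slice_int y U) fun g => h _

lemma GI_mul (K : ℝ) : ∀ (U : ℕ) (F : (ℕ → ℝ) → ℝ) (x : ℕ → ℝ),
    GI U (fun y => K * F y) x = K * GI U F x := by
  intro U
  induction U with
  | zero => intro F x; rfl
  | succ U ih =>
    intro F x
    unfold GI
    rw [← ih]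
    congr 1
    funext y
    rw [integral_const_mul]

lemma GI_const (c : ℝ) : ∀ (U : ℕ) (x : ℕ → ℝ), GI U (fun _ => c) x = c := by
  intro U
  induction U with
  | zero => intro x; rfl
  | succ U ih =>
    intro x
    unfold GI
    simp [ih]

lemma GI_nonneg {C : ℝ} (U : ℕ) {F : (ℕ → ℝ) → ℝ} (hF : MB C F) (x : ℕ → ℝ) : 0 ≤ GI U F x := by
  have hC : 0 ≤ C := le_trans (hF.nn x) (hF.le x)
  have := GI_mono U (F := fun _ => 0) (G := F) (C := 0) ⟨fun _ _ _ => le_rfl, fun _ => le_rfl, fun _ => le_rfl⟩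
    hF hF.nn x
  rwa [GI_const] at this

lemma GI_le {C : ℝ} (U : ℕ) {F : (ℕ → ℝ) → ℝ} (hF : MB C F) (x : ℕ → ℝ) : GI U F x ≤ C := by
  have hC : 0 ≤ C := le_trans (hF.nn x) (hF.le x)
  have := GI_mono U (F := F) (G := fun _ => C) (C' := C) hF ⟨fun _ _ _ => le_rfl, fun _ => hC, fun _ => le_rfl⟩
    hF.le x
  rwa [GI_const] at this

/-- the vector of block sums -/
noncomputable def bvec (X : ℕ → Finset ℕ → ℝ) (U : ℕ) (T : Finset ℕ) (x : ℕ → ℝ) : ℕ → ℝ :=
  fun u => if u < U then X u T else x u

/-- Replacement of block sums by Gaussian variables. -/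
theorem replace_blocks (a : ℕ → ℝ) (p : ℕ → ℕ) (ρ κ : ℕ → ℝ) (hp : Monotone p)
    (hκ : ∀ u, ∀ φ : ℝ → ℝ, Monotone φ → (∀ x, 0 ≤ φ x) → (∀ x, φ x ≤ 1) →
      |Ex (p (u + 1) - p u) (fun T => φ (ρ u * wk (fun j => a (p u + j)) T 0 (p (u + 1) - p u))) -
        ∫ z, φ z ∂gam| ≤ κ u) :
    ∀ (U : ℕ) (F : (ℕ → ℝ) → ℝ), MB 1 F → ∀ x : ℕ → ℝ,
      |Ex (p U) (fun T => F (bvec (fun u T => ρ u * wk a T (p u) (p (u + 1))) U T x)) - GI U F x| ≤
        ∑ u ∈ range U, κ u := by
  intro U
  induction U with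
  | zero =>
    intro F _ x
    have h1 : ∀ T, bvec (fun u T => ρ u * wk a T (p u) (p (u + 1))) 0 T x = x := by
      intro T; funext u; simp [bvec]
    simp only [h1, Ex_const, GI, sub_self, abs_zero, Finset.range_zero, Finset.sum_empty, le_refl]
  | succ U ih =>
    intro F hF x
    set X : ℕ → Finset ℕ → ℝ := fun u T => ρ u * wk a T (p u) (p (u + 1)) with hX
    obtain ⟨m, hm⟩ : ∃ m, p (U + 1) = p U + m := ⟨p (U + 1) - p U, by have := hp (show U ≤ U + 1 by omega); omega⟩
    have hm' : p (U + 1) - p U = m := by omega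
    rw [Finset.sum_range_succ]
    set F' : (ℕ → ℝ) → ℝ := fun y => ∫ g, F (Function.update y U g) ∂gam with hF'
    have hGI : GI (U + 1) F x = GI U F' x := rfl
    have h1 := ih F' (hF.intg U) x
    have h2 : |Ex (p (U + 1)) (fun T => F (bvec X (U + 1) T x)) - Ex (p U) (fun T => F' (bvec X U T x))| ≤ κ U := by
      rw [hm, Ex_split]
      refine abs_Ex_sub_le fun T0 hT0 => ?_
      have e1 : ∀ T1 : Finset ℕ, bvec X (U + 1) (T0 ∪ shift (p U) T1) x =
          Function.update (bvec X U T0 x) U (ρ U * wk (fun j => a (p U + j)) T1 0 m) := by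
        intro T1
        funext u
        by_cases hu : u = U
        · subst hu
          rw [Function.update_self]
          simp only [bvec, hX]
          rw [if_pos (by omega), hm]
          have := wk_union_high a (p u) 0 m hT0 T1
          rw [Nat.add_zero] at this
          rw [this]
        · rw [Function.update_of_ne hu]
          simp only [bvec, hX]
          by_cases hu2 : u < U
          · rw [if_pos (by omega), if_pos hu2]
            congr 1
            have h3 : p (u + 1) ≤ p U := hp (by omega)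
            unfold wk
            refine Finset.sum_congr rfl fun j hj => ?_
            rw [sg_union_low]
            have := (Finset.mem_Ico.1 hj).2
            omega
          · rw [if_neg (by omega), if_neg hu2]
      simp only [e1]
      have h3 := hκ U (fun g => F (Function.update (bvec X U T0 x) U g)) (hF.slice_mono _ U)
        (fun _ => hF.nn _) (fun _ => hF.le _)
      rw [hm'] at h3
      exact h3
    rw [hGI]
    calc _ ≤ _ := abs_sub_le _ _ _
      _ ≤ κ U + ∑ u ∈ range U, κ u := add_le_add h2 h1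
      _ = _ := by ring

/-- One-dimensional shift inequality. -/
lemma shift_one {p q : ℝ} (hpq : p.HolderConjugate q) {φ : ℝ → ℝ} (hφ : Monotone φ) {C : ℝ}
    (h0 : ∀ x, 0 ≤ φ x) (h1 : ∀ x, φ x ≤ C) (c : ℝ) :
    ∫ g, φ (g + c) ∂gam ≤ (∫ g, φ g ^ p ∂gam) ^ (1 / p) * Real.exp ((q - 1) * c ^ 2 / 2) := by
  have hq0 : 0 < q := hpq.symm.pos
  -- change of measure
  have e1 : ∫ g, φ (g + c) ∂gam = ∫ g, φ g * Real.exp (c * g - c ^ 2 / 2) ∂gam := by
    have h2 : ∫ g, φ (g + c) ∂gam = ∫ g, φ g ∂(gaussianReal c 1) := by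
      have h3 := gaussianReal_map_add_const (μ := 0) (v := 1) c
      rw [zero_add] at h3
      rw [← h3, integral_map (by fun_prop) hφ.measurable.aestronglyMeasurable]
    rw [h2, integral_gaussianReal_eq_integral_smul one_ne_zero,
      integral_gaussianReal_eq_integral_smul one_ne_zero]
    refine integral_congr_ae (Filter.Eventually.of_forall fun x => ?_)
    simp only [smul_eq_mul, gaussianPDFReal]
    have h4 : Real.exp (-(x - c) ^ 2 / (2 * (1:ℝ≥0))) =
        Real.exp (-(x - 0) ^ 2 / (2 * (1:ℝ≥0))) * Real.exp (c * x - c ^ 2 / 2) := by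
      rw [← Real.exp_add]
      congr 1
      push_cast
      ring
    rw [h4]; ring
  rw [e1]
  have i1 : MemLp φ (ENNReal.ofReal p) gam := MemLp.of_bound hφ.measurable.aestronglyMeasurable C
    (Filter.Eventually.of_forall fun x => by
      rw [Real.norm_eq_abs, abs_of_nonneg (h0 x)]; exact h1 x)
  have e2 : ∀ x : ℝ, Real.exp (c * x - c ^ 2 / 2) ^ q = Real.exp (-(q * c ^ 2 / 2)) * Real.exp ((q * c) * x) := by
    intro x
    rw [← Real.exp_mul, ← Real.exp_add]
    congr 1; ring
  have i2 : MemLp (fun g : ℝ => Real.exp (c * g - c ^ 2 / 2)) (ENNReal.ofReal q) gam := by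
    rw [← integrable_norm_rpow_iff (by fun_prop) (by simp [hq0]) (by simp)]
    rw [ENNReal.toReal_ofReal hq0.le]
    have h5 : (fun x : ℝ => ‖Real.exp (c * x - c ^ 2 / 2)‖ ^ q) =
        fun x => Real.exp (-(q * c ^ 2 / 2)) * Real.exp ((q * c) * x) := by
      funext x
      rw [Real.norm_eq_abs, abs_of_pos (Real.exp_pos _), e2]
    rw [h5]
    exact (integrable_exp_mul_gaussianReal (q * c)).const_mul _
  refine (integral_mul_le_Lp_mul_Lq_of_nonneg hpq (Filter.Eventually.of_forall h0)
    (Filter.Eventually.of_forall fun x => (Real.exp_pos _).le) i1 i2).trans (le_of_eq ?_)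
  congr 1
  simp only [e2]
  rw [integral_const_mul]
  have h6 : ∫ x, Real.exp ((q * c) * x) ∂gam = Real.exp ((q * c) ^ 2 / 2) := by
    have h7 := congrFun (mgf_id_gaussianReal (μ := 0) (v := 1)) (q * c)
    simp only [mgf, id] at h7
    rw [h7]
    congr 1
    push_cast
    ring
  rw [h6, ← Real.exp_add, ← Real.exp_mul]
  congr 1
  field_simp
  ring

lemma MB.rpow {C : ℝ} {F : (ℕ → ℝ) → ℝ} (h : MB C F) {p : ℝ} (hp : 0 ≤ p) : MB (C ^ p) (fun x => F x ^ p) where
  mono := fun _ _ hx => Real.rpow_le_rpow (h.nn _) (h.mono hx) hp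
  nn := fun _ => Real.rpow_nonneg (h.nn _) _
  le := fun _ => Real.rpow_le_rpow (h.nn _) (h.le _) hp

/-- add `c` to the first `U` coordinates -/
noncomputable def addc (U : ℕ) (c : ℝ) (x : ℕ → ℝ) : ℕ → ℝ := fun u => if u < U then x u + c else x u

lemma addc_mono (U : ℕ) (c : ℝ) : Monotone (addc U c) := by
  intro x y h u
  unfold addc
  split_ifs
  · linarith [h u]
  · exact h u

lemma MB.comp_addc {C : ℝ} {F : (ℕ → ℝ) → ℝ} (h : MB C F) (U : ℕ) (c : ℝ) :
    MB C (fun x => F (addc U c x)) where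
  mono := h.mono.comp (addc_mono U c)
  nn := fun _ => h.nn _
  le := fun _ => h.le _

/-- Shift inequality for iterated Gaussian integrals. -/
theorem shift_GI {p q : ℝ} (hpq : p.HolderConjugate q) (c : ℝ) :
    ∀ (U : ℕ) {C : ℝ} {F : (ℕ → ℝ) → ℝ}, MB C F → ∀ x : ℕ → ℝ,
      GI U (fun y => F (addc U c y)) x ≤
        (GI U (fun y => F y ^ p) x) ^ (1 / p) * Real.exp (U * ((q - 1) * c ^ 2 / 2)) := by
  have hp0 : 0 < p := hpq.pos
  intro U
  induction U with
  | zero =>
    intro C F hF x
    have h1 : addc 0 c x = x := by funext u; simp [addc]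
    simp only [GI, h1, Nat.cast_zero, zero_mul, Real.exp_zero, mul_one]
    rw [← Real.rpow_mul (hF.nn x), mul_one_div_cancel hp0.ne', Real.rpow_one]
  | succ U ih =>
    intro C F hF x
    set K := Real.exp ((q - 1) * c ^ 2 / 2) with hK
    have hKpos : 0 < K := Real.exp_pos _
    have hC : 0 ≤ C := le_trans (hF.nn x) (hF.le x)
    set G : (ℕ → ℝ) → ℝ := fun y => (∫ g, F (Function.update y U g) ^ p ∂gam) ^ (1 / p) with hG
    have hFp : MB (C ^ p) (fun x => F x ^ p) := hF.rpow hp0.le
    have hG1 : MB ((C ^ p) ^ (1 / p)) G := (hFp.intg U).rpow (by positivity)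
    have hGp : ∀ y, G y ^ p = ∫ g, F (Function.update y U g) ^ p ∂gam := by
      intro y
      simp only [hG]
      rw [← Real.rpow_mul (integral_nonneg fun g => Real.rpow_nonneg (hF.nn _) _), one_div_mul_cancel hp0.ne',
        Real.rpow_one]
    have step : ∀ y, ∫ g, F (addc (U + 1) c (Function.update y U g)) ∂gam ≤ K * G (addc U c y) := by
      intro y
      have e1 : ∀ g, addc (U + 1) c (Function.update y U g) = Function.update (addc U c y) U (g + c) := by
        intro g
        funext u
        by_cases hu : u = U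
        · subst hu
          simp [addc]
        · rw [Function.update_of_ne hu]
          simp only [addc]
          rw [Function.update_of_ne hu]
          by_cases h2 : u < U
          · rw [if_pos (by omega), if_pos h2]
          · rw [if_neg (by omega), if_neg h2]
      simp only [e1]
      have h3 := shift_one hpq (hF.slice_mono (addc U c y) U) (fun _ => hF.nn _) (fun _ => hF.le _) c
      refine h3.trans (le_of_eq ?_)
      simp only [hG, hK]
      ring
    have hL : MB C (fun y => ∫ g, F (addc (U + 1) c (Function.update y U g)) ∂gam) :=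
      (hF.comp_addc (U + 1) c).intg U
    have hR : MB (K * (C ^ p) ^ (1 / p)) (fun y => K * G (addc U c y)) :=
      ⟨fun _ _ h => mul_le_mul_of_nonneg_left ((hG1.comp_addc U c).mono h) hKpos.le,
        fun _ => mul_nonneg hKpos.le (hG1.nn _),
        fun _ => mul_le_mul_of_nonneg_left (hG1.le _) hKpos.le⟩
    have h4 : GI (U + 1) (fun y => F (addc (U + 1) c y)) x ≤ GI U (fun y => K * G (addc U c y)) x :=
      GI_mono U hL hR step x
    rw [GI_mul] at h4
    have h5 := ih hG1 x
    simp only [hGp] at h5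
    have h6 : GI U (fun y => ∫ g, F (Function.update y U g) ^ p ∂gam) x = GI (U + 1) (fun y => F y ^ p) x := rfl
    rw [h6] at h5
    refine h4.trans ?_
    calc K * GI U (fun y => G (addc U c y)) x ≤
        K * ((GI (U + 1) (fun y => F y ^ p) x) ^ (1 / p) * Real.exp (U * ((q - 1) * c ^ 2 / 2))) :=
          mul_le_mul_of_nonneg_left h5 hKpos.le
      _ = (GI (U + 1) (fun y => F y ^ p) x) ^ (1 / p) * (K * Real.exp (U * ((q - 1) * c ^ 2 / 2))) := by ring
      _ = _ := by
          congr 1
          rw [hK, ← Real.exp_add]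
          congr 1
          push_cast
          ring

end Pool.Agent.Lib.GraphPart
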