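import Pool.Agent.Lib.GraphPart.Count

/-!
Estimates for codes.
-/

namespace Pool.Agent.Lib.GraphPart

open Finset

/-- abbreviation for the type of codes -/
abbrev Cd := Σ d : ℕ, (Fin d → ℕ × ℕ)

lemma card_allCodes (N : ℕ) : (allCodes N).card = pp N := by
  unfold pp
  rw [← Finset.card_univ]
  refine Finset.card_bij (fun c hc => (⟨partsOf c, fun {x} hx => partsOf_pos hx, partsOf_sum hc⟩ : N.Partition))
    ?_ ?_ ?_
  · intro c _; exact Finset.mem_univ _
  · intro c hc c' hc' h
    exact partsOf_injective (congrArg Nat.Partition.parts h)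
  · intro P _
    obtain ⟨c, hc⟩ := partsOf_surjective P.parts (fun x hx => P.parts_pos hx)
    have hmem : c ∈ allCodes N := by
      rw [mem_allCodes, mem_codes]
      have h1 := P.parts_sum
      rw [← hc] at h1
      unfold partsOf at h1
      rw [Multiset.sum_add, sum_topM, sum_botM, add_assoc, ← Finset.sum_add_distrib] at h1
      rw [← h1]
      congr 1
      refine Finset.sum_congr rfl fun j _ => by ring
    refine ⟨c, hmem, ?_⟩
    apply Nat.Partition.ext
    exact hc

/-- multiplicity below the square -/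
def mm (c : Cd) (j : ℕ) : ℕ := if h : j < c.1 then (c.2 ⟨j, h⟩).1 else 0

/-- multiplicity to the right of the square -/
def uu (c : Cd) (j : ℕ) : ℕ := if h : j < c.1 then (c.2 ⟨j, h⟩).2 else 0

lemma mem_allCodes' {N : ℕ} {c : Cd} : c ∈ allCodes N ↔
    c.1 ^ 2 + ∑ j ∈ range c.1, (j + 1) * (mm c j + uu c j) = N := by
  rw [mem_allCodes, mem_codes, Finset.sum_range]
  have : ∑ i : Fin c.1, ((i : ℕ) + 1) * (mm c i + uu c i) =
      ∑ j : Fin c.1, ((j : ℕ) + 1) * ((c.2 j).1 + (c.2 j).2) := by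
    refine Finset.sum_congr rfl fun j _ => ?_
    unfold mm uu
    rw [dif_pos j.2, dif_pos j.2]
  rw [this]

/-- change the entry at `j` -/
def chg (c : Cd) (j : ℕ) (g : ℕ × ℕ → ℕ × ℕ) : Cd :=
  ⟨c.1, fun i => if (i : ℕ) = j then g (c.2 i) else c.2 i⟩

lemma mm_chg (c : Cd) (j : ℕ) (g : ℕ × ℕ → ℕ × ℕ) (hj : j < c.1) (i : ℕ) :
    mm (chg c j g) i = if i = j then (g (mm c j, uu c j)).1 else mm c i := by
  unfold mm uu chg
  by_cases h : i = j
  · subst h; simp [hj]
  · simp [h]

lemma uu_chg (c : Cd) (j : ℕ) (g : ℕ × ℕ → ℕ × ℕ) (hj : j < c.1) (i : ℕ) :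
    uu (chg c j g) i = if i = j then (g (mm c j, uu c j)).2 else uu c i := by
  unfold mm uu chg
  by_cases h : i = j
  · subst h; simp [hj]
  · simp [h]

lemma chg_sum (c : Cd) (j : ℕ) (g : ℕ × ℕ → ℕ × ℕ) (hj : j < c.1) :
    ∑ i ∈ range c.1, (i + 1) * (mm (chg c j g) i + uu (chg c j g) i) + (j + 1) * (mm c j + uu c j) =
    ∑ i ∈ range c.1, (i + 1) * (mm c i + uu c i) +
      (j + 1) * ((g (mm c j, uu c j)).1 + (g (mm c j, uu c j)).2) := by
  have e1 : ∑ i ∈ range c.1, (i + 1) * (mm (chg c j g) i + uu (chg c j g) i) =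
      ∑ i ∈ (range c.1).erase j, (i + 1) * (mm c i + uu c i) +
      (j + 1) * ((g (mm c j, uu c j)).1 + (g (mm c j, uu c j)).2) := by
    rw [← Finset.sum_erase_add _ _ (Finset.mem_range.2 hj)]
    congr 1
    · refine Finset.sum_congr rfl fun i hi => ?_
      have hi' := Finset.ne_of_mem_erase hi
      rw [mm_chg c j g hj, uu_chg c j g hj, if_neg hi', if_neg hi']
    · rw [mm_chg c j g hj, uu_chg c j g hj, if_pos rfl, if_pos rfl]
  have e2 : ∑ i ∈ range c.1, (i + 1) * (mm c i + uu c i) =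
      ∑ i ∈ (range c.1).erase j, (i + 1) * (mm c i + uu c i) + (j + 1) * (mm c j + uu c j) := by
    rw [← Finset.sum_erase_add _ _ (Finset.mem_range.2 hj)]
  rw [e1, e2]; ring

lemma mm_le {N : ℕ} {c : Cd} (hc : c ∈ allCodes N) (j : ℕ) : (j + 1) * mm c j ≤ N := by
  by_cases h : j < c.1
  · rw [mem_allCodes'] at hc
    have h1 : (j + 1) * (mm c j + uu c j) ≤ ∑ j ∈ range c.1, (j + 1) * (mm c j + uu c j) :=
      Finset.single_le_sum (f := fun j => (j + 1) * (mm c j + uu c j)) (fun _ _ => Nat.zero_le _)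
        (Finset.mem_range.2 h)
    have h2 : (j + 1) * mm c j ≤ (j + 1) * (mm c j + uu c j) := Nat.mul_le_mul_left _ (by omega)
    omega
  · unfold mm; rw [dif_neg h]; simp

lemma cnt_mm (N j k : ℕ) (hk : 1 ≤ k) :
    ((allCodes N).filter fun c => k ≤ mm c j).card ≤ pz N ((j + 1) * k) := by
  unfold pz
  split_ifs with h
  · rw [← card_allCodes]
    apply Finset.card_le_card_of_injOn (fun c => chg c j (fun x => (x.1 - k, x.2)))
    · intro c hc
      rw [Finset.mem_coe, Finset.mem_filter] at hc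
      have hj : j < c.1 := by
        by_contra hcon
        have : mm c j = 0 := by unfold mm; rw [dif_neg hcon]
        omega
      rw [Finset.mem_coe]
      show chg c j (fun x => (x.1 - k, x.2)) ∈ _
      rw [mem_allCodes']
      have h1 := chg_sum c j (fun x => (x.1 - k, x.2)) hj
      have h2 := mem_allCodes'.1 hc.1
      have h3 : (chg c j (fun x => (x.1 - k, x.2))).1 = c.1 := rfl
      rw [h3]
      simp only at h1
      have h4 : (j + 1) * (mm c j + uu c j) = (j + 1) * (mm c j - k + uu c j) + (j + 1) * k := by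
        rw [← Nat.mul_add]; congr 1; omega
      omega
    · intro c hc c' hc' hcc
      rw [Finset.mem_coe, Finset.mem_filter] at hc hc'
      replace hcc : chg c j (fun x => (x.1 - k, x.2)) = chg c' j (fun x => (x.1 - k, x.2)) := hcc
      have hd0 := congrArg Sigma.fst hcc
      have hd : c.1 = c'.1 := hd0
      obtain ⟨d, f⟩ := c
      obtain ⟨d', f'⟩ := c'
      simp only at hd
      subst hd
      have hj : j < d := by
        by_contra hcon
        have : mm ⟨d, f⟩ j = 0 := by unfold mm; rw [dif_neg hcon]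
        omega
      congr 1
      funext i
      have h1 : (if (i : ℕ) = j then ((f i).1 - k, (f i).2) else f i) =
          (if (i : ℕ) = j then ((f' i).1 - k, (f' i).2) else f' i) := by
        have h0 := eq_of_heq (Sigma.mk.inj_iff.1 hcc).2
        exact congrFun h0 i
      by_cases h5 : (i : ℕ) = j
      · rw [if_pos h5, if_pos h5] at h1
        have hm : k ≤ (f i).1 := by
          have := hc.2
          unfold mm at this
          rw [dif_pos hj] at this
          have hi : i = ⟨j, hj⟩ := Fin.ext h5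
          rw [hi]; exact this
        have hm' : k ≤ (f' i).1 := by
          have := hc'.2
          unfold mm at this
          rw [dif_pos hj] at this
          have hi : i = ⟨j, hj⟩ := Fin.ext h5
          rw [hi]; exact this
        have h6 := congrArg Prod.fst h1
        have h7 := congrArg Prod.snd h1
        simp only at h6 h7
        apply Prod.ext
        · omega
        · exact h7
      · rw [if_neg h5, if_neg h5] at h1
        exact h1
  · rw [Nat.le_zero, Finset.card_eq_zero, Finset.filter_eq_empty_iff]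
    intro c hc hcon
    apply h
    calc (j + 1) * k ≤ (j + 1) * mm c j := Nat.mul_le_mul_left _ hcon
      _ ≤ N := mm_le hc j

/-- the conjugate code -/
def cj (c : Cd) : Cd := ⟨c.1, fun i => (c.2 i).swap⟩

lemma cj_cj (c : Cd) : cj (cj c) = c := by
  unfold cj; simp

lemma mm_cj (c : Cd) (j : ℕ) : mm (cj c) j = uu c j := by
  unfold mm uu cj; simp

lemma uu_cj (c : Cd) (j : ℕ) : uu (cj c) j = mm c j := by
  unfold mm uu cj; simp

lemma cj_mem {N : ℕ} {c : Cd} (hc : c ∈ allCodes N) : cj c ∈ allCodes N := by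
  rw [mem_allCodes'] at hc ⊢
  have h1 : (cj c).1 = c.1 := rfl
  rw [h1, ← hc]
  congr 1
  refine Finset.sum_congr rfl fun j _ => ?_
  rw [mm_cj, uu_cj]; ring

lemma sum_cj {α : Type} [AddCommMonoid α] (N : ℕ) (F : Cd → α) :
    ∑ c ∈ allCodes N, F (cj c) = ∑ c ∈ allCodes N, F c :=
  Finset.sum_nbij' cj cj (fun _ h => cj_mem h) (fun _ h => cj_mem h)
    (fun c _ => cj_cj c) (fun c _ => cj_cj c) (fun _ _ => rfl)

lemma sum_odd (m K : ℕ) (h : m ≤ K) : (∑ k ∈ range K, if k + 1 ≤ m then (2 * k + 1) else 0) = m ^ 2 := by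
  rw [← Finset.sum_filter]
  have : (range K).filter (fun k => k + 1 ≤ m) = range m := by
    ext k; simp; omega
  rw [this]
  induction m with
  | zero => simp
  | succ m ih =>
    rw [Finset.sum_range_succ, ih (by omega)]
    · ring
    · ext k; simp; omega

/-- second moment of the multiplicities -/
lemma second_mm (N : ℕ) : ∑ c ∈ allCodes N, ∑ j ∈ range N, (mm c j) ^ 2 ≤ 2 * N * pp N := by
  have h1 : ∀ c ∈ allCodes N, ∑ j ∈ range N, (mm c j) ^ 2 =
      ∑ j ∈ range N, ∑ k ∈ range N, (if k + 1 ≤ mm c j then (2 * k + 1) else 0) := by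
    intro c hc
    refine Finset.sum_congr rfl fun j _ => ?_
    rw [sum_odd]
    have h2 := mm_le hc j
    calc mm c j = 1 * mm c j := by ring
      _ ≤ (j + 1) * mm c j := Nat.mul_le_mul_right _ (by omega)
      _ ≤ N := h2
  rw [Finset.sum_congr rfl h1, Finset.sum_comm]
  have h3 : ∀ j ∈ range N, ∑ c ∈ allCodes N, ∑ k ∈ range N, (if k + 1 ≤ mm c j then (2 * k + 1) else 0) ≤
      ∑ k ∈ range N, 2 * ((k + 1) * pz N ((k + 1) * (j + 1))) := by
    intro j _
    rw [Finset.sum_comm]
    refine Finset.sum_le_sum fun k _ => ?_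
    rw [← Finset.sum_filter, Finset.sum_const, smul_eq_mul]
    have h4 := cnt_mm N j (k + 1) (by omega)
    rw [mul_comm (j + 1) (k + 1)] at h4
    calc _ ≤ pz N ((k + 1) * (j + 1)) * (2 * k + 1) := Nat.mul_le_mul_right _ h4
      _ ≤ pz N ((k + 1) * (j + 1)) * (2 * (k + 1)) := Nat.mul_le_mul_left _ (by omega)
      _ = _ := by ring
  refine (Finset.sum_le_sum h3).trans ?_
  have h5 := main_identity N
  rw [Finset.sum_comm] at h5
  have h6 : ∑ j ∈ range N, ∑ k ∈ range N, 2 * ((k + 1) * pz N ((k + 1) * (j + 1))) = 2 * (N * pp N) := by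
    rw [h5, Finset.mul_sum]
    refine Finset.sum_congr rfl fun j _ => ?_
    rw [Finset.mul_sum]
  rw [h6]
  exact le_of_eq (by ring)

lemma second_uu (N : ℕ) : ∑ c ∈ allCodes N, ∑ j ∈ range N, (uu c j) ^ 2 ≤ 2 * N * pp N := by
  have h := second_mm N
  rw [← sum_cj N (fun c => ∑ j ∈ range N, (mm c j) ^ 2)] at h
  simpa only [mm_cj] using h

/-- the difference of the two multiplicities -/
def ab (c : Cd) (j : ℕ) : ℕ := ((mm c j : ℤ) - uu c j).natAbs

lemma ab_sq_le (c : Cd) (j : ℕ) : (ab c j) ^ 2 ≤ (mm c j) ^ 2 + (uu c j) ^ 2 := by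
  unfold ab
  have h : ((((mm c j : ℤ) - uu c j).natAbs ^ 2 : ℕ) : ℤ) ≤ (((mm c j) ^ 2 + (uu c j) ^ 2 : ℕ) : ℤ) := by
    push_cast
    rw [sq_abs]
    have h1 : (0 : ℤ) ≤ mm c j := by positivity
    have h2 : (0 : ℤ) ≤ uu c j := by positivity
    nlinarith [mul_nonneg h1 h2]
  exact_mod_cast h

lemma second_ab (N : ℕ) : ∑ c ∈ allCodes N, ∑ j ∈ range N, (ab c j) ^ 2 ≤ 4 * N * pp N := by
  calc ∑ c ∈ allCodes N, ∑ j ∈ range N, (ab c j) ^ 2 ≤
      ∑ c ∈ allCodes N, ∑ j ∈ range N, ((mm c j) ^ 2 + (uu c j) ^ 2) :=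
        Finset.sum_le_sum fun c _ => Finset.sum_le_sum fun j _ => ab_sq_le c j
    _ = ∑ c ∈ allCodes N, ∑ j ∈ range N, (mm c j) ^ 2 + ∑ c ∈ allCodes N, ∑ j ∈ range N, (uu c j) ^ 2 := by
        simp only [Finset.sum_add_distrib]
    _ ≤ 2 * N * pp N + 2 * N * pp N := Nat.add_le_add (second_mm N) (second_uu N)
    _ = _ := by ring

lemma ab_le_max {c : Cd} {j k : ℕ} (h : k ≤ ab c j) : k ≤ mm c j ∨ k ≤ uu c j := by
  unfold ab at h
  omega

lemma durfee_sq_le {N : ℕ} {c : Cd} (hc : c ∈ allCodes N) : c.1 ^ 2 ≤ N := by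
  rw [mem_allCodes'] at hc; omega

end Pool.Agent.Lib.GraphPart
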