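import Pool.Agent.Lib.GraphPart.Good

/-!
A positive proportion of codes is good.
-/

namespace Pool.Agent.Lib.GraphPart

open Finset

lemma tail_inv_sq (K : ℕ) (hK : 1 ≤ K) (n : ℕ) :
    ∑ k ∈ (range n).filter (fun k => K ≤ k), (1 : ℝ) / ((k : ℝ) + 1) ^ 2 ≤ 1 / (K : ℝ) := by
  have hKr : (0:ℝ) < K := by exact_mod_cast hK
  have h1 : ∀ n, K ≤ n → ∑ k ∈ Ico K n, (1 : ℝ) / ((k : ℝ) + 1) ^ 2 ≤ 1 / (K : ℝ) - 1 / (n : ℝ) := by
    intro n hn
    induction n, hn using Nat.le_induction with
    | base => simp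
    | succ n hn ih =>
      rw [Finset.sum_Ico_succ_top hn]
      have hn' : (0:ℝ) < n := by
        have : 1 ≤ n := hK.trans hn
        exact_mod_cast this
      have : (1:ℝ) / ((n:ℝ) + 1) ^ 2 ≤ 1 / n - 1 / (n + 1) := by
        rw [div_sub_div _ _ (by positivity) (by positivity), div_le_div_iff₀ (by positivity) (by positivity)]
        nlinarith
      push_cast
      linarith
  have h2 : (range n).filter (fun k => K ≤ k) = Ico K n := by
    ext k; simp [and_comm]
  rw [h2]
  rcases Nat.lt_or_ge n K with h | h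
  · rw [Finset.Ico_eq_empty (by omega)]
    simp
  · have := h1 n h
    have h3 : (0:ℝ) ≤ 1 / (n:ℝ) := by positivity
    linarith

lemma row_sum (N j : ℕ) (hj : j < Nat.sqrt N) :
    ∑ k ∈ range N, (j + 1) * pz N ((j + 1) * (k + 1)) ≤ 10 * Nat.sqrt N * pp N := by
  set s := Nat.sqrt N with hs
  have hs1 : 1 ≤ s := by omega
  have hN2 : N ≤ 4 * s ^ 2 := by
    have := Nat.lt_succ_sqrt N
    rw [← hs] at this
    have h2 : s + 1 ≤ 2 * s := by omega
    calc N ≤ (s + 1) * (s + 1) := this.le
      _ ≤ (2 * s) * (2 * s) := Nat.mul_le_mul h2 h2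
      _ = _ := by ring
  set K := s / (j + 1) + 1 with hK
  have hK1 : 1 ≤ K := Nat.succ_pos _
  have hKs : s ≤ (j + 1) * K := by
    have := Nat.lt_div_mul_add (a := s) (b := j + 1) (by omega)
    rw [hK]
    nlinarith
  have hKs2 : (j + 1) * K ≤ 2 * s := by
    have := Nat.div_mul_le_self s (j + 1)
    rw [hK]
    nlinarith
  have hreal : ((∑ k ∈ range N, (j + 1) * pz N ((j + 1) * (k + 1)) : ℕ) : ℝ) ≤ ((10 * s * pp N : ℕ) : ℝ) := by
    push_cast
    have hterm : ∀ k ∈ range N, ((j : ℝ) + 1) * (pz N ((j + 1) * (k + 1)) : ℝ) ≤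
        (if k < K then ((j:ℝ) + 1) * pp N else 0) +
        (if K ≤ k then (2 * (N:ℝ) * pp N / ((j:ℝ) + 1)) * (1 / ((k : ℝ) + 1) ^ 2) else 0) := by
      intro k _
      by_cases h : k < K
      · rw [if_pos h, if_neg (by omega), add_zero]
        have : (pz N ((j + 1) * (k + 1)) : ℝ) ≤ pp N := by
          have h1 := pz_anti N (Nat.zero_le ((j + 1) * (k + 1)))
          rw [pz_zero] at h1
          exact_mod_cast h1
        gcongr
      · rw [if_neg h, if_pos (by omega), zero_add]
        have h1 := decay1 N ((j + 1) * (k + 1))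
        have h2 : ((((j + 1) * (k + 1)) * ((j + 1) * (k + 1) + 1) * pz N ((j + 1) * (k + 1)) : ℕ) : ℝ) ≤ ((2 * N * pp N : ℕ) : ℝ) := by
          exact_mod_cast h1
        push_cast at h2
        have h3 : (0:ℝ) ≤ (pz N ((j + 1) * (k + 1)) : ℝ) := Nat.cast_nonneg _
        have h4 : (((j:ℝ) + 1) * ((k:ℝ) + 1)) ^ 2 * (pz N ((j + 1) * (k + 1)) : ℝ) ≤ 2 * N * pp N := by
          refine le_trans ?_ h2
          gcongr
          nlinarith [show (0:ℝ) ≤ (j:ℝ) by positivity, show (0:ℝ) ≤ (k:ℝ) by positivity,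
            mul_nonneg (show (0:ℝ) ≤ (j:ℝ) by positivity) (show (0:ℝ) ≤ (k:ℝ) by positivity)]
        have h5 : (2 * (N:ℝ) * pp N / ((j:ℝ) + 1)) * (1 / ((k : ℝ) + 1) ^ 2) =
            (2 * (N:ℝ) * pp N) / (((j:ℝ) + 1) * ((k : ℝ) + 1) ^ 2) := by
          field_simp
        rw [h5, le_div_iff₀ (by positivity)]
        calc ((j : ℝ) + 1) * (pz N ((j + 1) * (k + 1)) : ℝ) * (((j:ℝ) + 1) * ((k : ℝ) + 1) ^ 2)
            = (((j:ℝ) + 1) * ((k:ℝ) + 1)) ^ 2 * (pz N ((j + 1) * (k + 1)) : ℝ) := by ring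
          _ ≤ _ := h4
    refine (Finset.sum_le_sum hterm).trans ?_
    rw [Finset.sum_add_distrib]
    have e1 : ∑ k ∈ range N, (if k < K then ((j:ℝ) + 1) * pp N else 0) ≤ 2 * s * pp N := by
      calc ∑ k ∈ range N, (if k < K then ((j:ℝ) + 1) * pp N else 0) ≤ ∑ k ∈ range K, ((j:ℝ) + 1) * pp N := by
            rw [← Finset.sum_filter]
            apply Finset.sum_le_sum_of_subset_of_nonneg
            · intro k hk
              rw [Finset.mem_filter] at hk
              exact Finset.mem_range.2 hk.2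
            · intro _ _ _; positivity
        _ = (((j + 1) * K : ℕ) : ℝ) * pp N := by
            rw [Finset.sum_const, Finset.card_range, nsmul_eq_mul]; push_cast; ring
        _ ≤ ((2 * s : ℕ) : ℝ) * pp N := by
            gcongr
        _ = _ := by push_cast; ring
    have e2 : ∑ k ∈ range N, (if K ≤ k then (2 * (N:ℝ) * pp N / ((j:ℝ) + 1)) * (1 / ((k : ℝ) + 1) ^ 2) else 0) ≤
        8 * (s:ℝ) * (pp N : ℝ) := by
      rw [← Finset.sum_filter, ← Finset.mul_sum]
      have h1 := tail_inv_sq K hK1 N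
      have hKr : (0:ℝ) < K := by exact_mod_cast hK1
      have hsr : (0:ℝ) < s := by exact_mod_cast hs1
      calc (2 * (N:ℝ) * pp N / ((j:ℝ) + 1)) * ∑ k ∈ (range N).filter (fun k => K ≤ k), (1 : ℝ) / ((k : ℝ) + 1) ^ 2
          ≤ (2 * (N:ℝ) * pp N / ((j:ℝ) + 1)) * (1 / (K:ℝ)) := by gcongr
        _ = (2 * (N:ℝ) * pp N) / (((j:ℝ) + 1) * K) := by field_simp
        _ ≤ (2 * (N:ℝ) * pp N) / s := by
            apply div_le_div_of_nonneg_left (by positivity) hsr
            exact_mod_cast hKs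
        _ ≤ 8 * (s:ℝ) * (pp N : ℝ) := by
            rw [div_le_iff₀ hsr]
            have : (N:ℝ) ≤ 4 * (s:ℝ) ^ 2 := by exact_mod_cast hN2
            have hp : (0:ℝ) ≤ pp N := Nat.cast_nonneg _
            nlinarith [mul_le_mul_of_nonneg_right this hp]
    linarith
  exact_mod_cast hreal

lemma sum_mm (N D : ℕ) (hD : D ≤ Nat.sqrt N) :
    ∑ c ∈ allCodes N, ∑ j ∈ range D, (j + 1) * mm c j ≤ 10 * D * Nat.sqrt N * pp N := by
  rw [Finset.sum_comm]
  have h1 : ∀ j ∈ range D, ∑ c ∈ allCodes N, (j + 1) * mm c j ≤ 10 * Nat.sqrt N * pp N := by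
    intro j hj
    have hj' := Finset.mem_range.1 hj
    refine le_trans ?_ (row_sum N j (by omega))
    have h2 : ∀ c ∈ allCodes N, (j + 1) * mm c j = ∑ k ∈ range N, (j + 1) * (if k + 1 ≤ mm c j then 1 else 0) := by
      intro c hc
      rw [← Finset.mul_sum, sum_indicator_le]
      have h2 := mm_le hc j
      calc mm c j = 1 * mm c j := by ring
        _ ≤ (j + 1) * mm c j := Nat.mul_le_mul_right _ (by omega)
        _ ≤ N := h2
    rw [Finset.sum_congr rfl h2, Finset.sum_comm]
    refine Finset.sum_le_sum fun k _ => ?_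
    rw [← Finset.mul_sum, ← Finset.card_filter]
    exact Nat.mul_le_mul_left _ (cnt_mm N j (k + 1) (by omega))
  refine (Finset.sum_le_sum h1).trans ?_
  rw [Finset.sum_const, Finset.card_range, smul_eq_mul]
  exact le_of_eq (by ring)

lemma sum_uu (N D : ℕ) (hD : D ≤ Nat.sqrt N) :
    ∑ c ∈ allCodes N, ∑ j ∈ range D, (j + 1) * uu c j ≤ 10 * D * Nat.sqrt N * pp N := by
  have h := sum_mm N D hD
  rw [← sum_cj N (fun c => ∑ j ∈ range D, (j + 1) * mm c j)] at h
  simpa only [mm_cj] using h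

/-- few partitions have a small Durfee square -/
lemma small_durfee (N D : ℕ) (hD : 256 * D ≤ Nat.sqrt N) (hN : 0 < N) :
    8 * ((allCodes N).filter fun c => c.1 ≤ D).card ≤ pp N := by
  set s := Nat.sqrt N with hs
  set A := (allCodes N).filter fun c => c.1 ≤ D with hA
  have hDs : D ≤ s := by omega
  have hss : s * s ≤ N := Nat.sqrt_le N
  have hDD : 65536 * D ^ 2 ≤ N := by
    calc 65536 * D ^ 2 = (256 * D) * (256 * D) := by ring
      _ ≤ s * s := Nat.mul_le_mul hD hD
      _ ≤ N := hss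
  have h1 : A.card * (N - D ^ 2) ≤ 20 * D * s * pp N := by
    calc A.card * (N - D ^ 2) = ∑ _c ∈ A, (N - D ^ 2) := by rw [Finset.sum_const, smul_eq_mul]
      _ ≤ ∑ c ∈ A, (∑ j ∈ range D, (j + 1) * mm c j + ∑ j ∈ range D, (j + 1) * uu c j) := by
          refine Finset.sum_le_sum fun c hc => ?_
          rw [hA, Finset.mem_filter] at hc
          have h2 := mem_allCodes'.1 hc.1
          have h3 : c.1 ^ 2 ≤ D ^ 2 := Nat.pow_le_pow_left hc.2 2
          have h4 : ∑ j ∈ range c.1, (j + 1) * (mm c j + uu c j) ≤ ∑ j ∈ range D, (j + 1) * (mm c j + uu c j) :=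
            Finset.sum_le_sum_of_subset (Finset.range_mono hc.2)
          have h5 : ∑ j ∈ range D, (j + 1) * (mm c j + uu c j) =
              ∑ j ∈ range D, (j + 1) * mm c j + ∑ j ∈ range D, (j + 1) * uu c j := by
            rw [← Finset.sum_add_distrib]
            refine Finset.sum_congr rfl fun j _ => by ring
          omega
      _ ≤ ∑ c ∈ allCodes N, (∑ j ∈ range D, (j + 1) * mm c j + ∑ j ∈ range D, (j + 1) * uu c j) :=
          Finset.sum_le_sum_of_subset (Finset.filter_subset _ _)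
      _ = ∑ c ∈ allCodes N, ∑ j ∈ range D, (j + 1) * mm c j +
            ∑ c ∈ allCodes N, ∑ j ∈ range D, (j + 1) * uu c j := Finset.sum_add_distrib
      _ ≤ 10 * D * s * pp N + 10 * D * s * pp N := Nat.add_le_add (sum_mm N D hDs) (sum_uu N D hDs)
      _ = _ := by ring
  have h2 : 65535 * N ≤ 65536 * (N - D ^ 2) := by omega
  have h3 : A.card * (65535 * N) ≤ 5120 * N * pp N := by
    calc A.card * (65535 * N) ≤ A.card * (65536 * (N - D ^ 2)) := Nat.mul_le_mul_left _ h2
      _ = 65536 * (A.card * (N - D ^ 2)) := by ring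
      _ ≤ 65536 * (20 * D * s * pp N) := Nat.mul_le_mul_left _ h1
      _ = 5120 * ((256 * D) * s) * pp N := by ring
      _ ≤ 5120 * (s * s) * pp N := by gcongr
      _ ≤ 5120 * N * pp N := by gcongr
  have h4 : N * (65535 * A.card) ≤ N * (5120 * pp N) := by nlinarith
  have h5 := Nat.le_of_mul_le_mul_left h4 hN
  omega

/-- For small `j`, the two multiplicities differ with probability at least `1/64`. -/
lemma neq_count (N j D : ℕ) (hj : j < D) (hD : 512 * D ≤ Nat.sqrt N) :
    pp N ≤ 64 * ((allCodes N).filter fun c => j < c.1 ∧ mm c j ≠ uu c j).card := by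
  classical
  have hss : (512 * D) * (512 * D) ≤ N :=
    (Nat.mul_le_mul hD hD).trans (Nat.sqrt_le N)
  have hDpos : 1 ≤ D := by omega
  have hDD : D ≤ D * D := Nat.le_mul_self D
  have hss' : 262144 * (D * D) ≤ N := by
    calc 262144 * (D * D) = (512 * D) * (512 * D) := by ring
      _ ≤ N := hss
  have hN : 0 < N := by nlinarith
  set M := N - (j + 1) with hM
  have hMle : (256 * D) * (256 * D) ≤ M := by
    have : (256 * D) * (256 * D) = 65536 * (D * D) := by ring
    rw [this]; omega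
  have hMs : 256 * D ≤ Nat.sqrt M := Nat.le_sqrt.2 hMle
  have hMpos : 0 < M := by nlinarith
  have h1 := small_durfee M D hMs hMpos
  have h2 : pp N ≤ 28 * pp M := ratio_lower N (j + 1) (by nlinarith) hN
  set A := (allCodes M).filter fun c => j < c.1 ∧ uu c j ≤ mm c j with hA
  set B := (allCodes M).filter fun c => j < c.1 ∧ mm c j ≤ uu c j with hB
  have hAB : A.card = B.card := by
    refine Finset.card_bij (fun c _ => cj c) ?_ ?_ ?_
    · intro c hc
      rw [hA, Finset.mem_filter] at hc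
      rw [hB, Finset.mem_filter, mm_cj, uu_cj]
      exact ⟨cj_mem hc.1, hc.2.1, hc.2.2⟩
    · intro c _ c' _ h
      rw [← cj_cj c, ← cj_cj c', h]
    · intro c hc
      rw [hB, Finset.mem_filter] at hc
      refine ⟨cj c, ?_, cj_cj c⟩
      rw [hA, Finset.mem_filter, mm_cj, uu_cj]
      exact ⟨cj_mem hc.1, hc.2.1, hc.2.2⟩
  have h3 : pp M ≤ ((allCodes M).filter fun c => c.1 ≤ D).card + (A.card + B.card) := by
    rw [← card_allCodes M]
    calc (allCodes M).card ≤ (((allCodes M).filter fun c => c.1 ≤ D) ∪ (A ∪ B)).card := by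
          apply Finset.card_le_card
          intro c hc
          rw [Finset.mem_union, Finset.mem_union, hA, hB, Finset.mem_filter, Finset.mem_filter,
            Finset.mem_filter]
          rcases Nat.lt_or_ge D c.1 with h | h
          · rcases Nat.le_total (uu c j) (mm c j) with h' | h'
            · exact Or.inr (Or.inl ⟨hc, by omega, h'⟩)
            · exact Or.inr (Or.inr ⟨hc, by omega, h'⟩)
          · exact Or.inl ⟨hc, h⟩
      _ ≤ ((allCodes M).filter fun c => c.1 ≤ D).card + (A ∪ B).card := Finset.card_union_le _ _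
      _ ≤ _ := Nat.add_le_add_left (Finset.card_union_le _ _) _
  have h4 : A.card ≤ ((allCodes N).filter fun c => j < c.1 ∧ mm c j ≠ uu c j).card := by
    apply Finset.card_le_card_of_injOn (fun c => chg c j (fun x => (x.1 + 1, x.2)))
    · intro c hc
      rw [hA, Finset.mem_coe, Finset.mem_filter] at hc
      rw [Finset.mem_coe]
      show chg c j (fun x => (x.1 + 1, x.2)) ∈ _
      rw [Finset.mem_filter, mem_allCodes', mm_chg c j _ hc.2.1, uu_chg c j _ hc.2.1, if_pos rfl, if_pos rfl]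
      have h5 := chg_sum c j (fun x => (x.1 + 1, x.2)) hc.2.1
      have h6 := mem_allCodes'.1 hc.1
      have h7 : (chg c j (fun x => (x.1 + 1, x.2))).1 = c.1 := rfl
      rw [h7]
      simp only at h5 ⊢
      have h8 : (j + 1) * (mm c j + 1 + uu c j) = (j + 1) * (mm c j + uu c j) + (j + 1) := by ring
      refine ⟨?_, hc.2.1, ?_⟩
      · omega
      · have := hc.2.2; omega
    · intro c hc c' hc' hcc
      replace hcc : chg c j (fun x => (x.1 + 1, x.2)) = chg c' j (fun x => (x.1 + 1, x.2)) := hcc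
      have hd0 := congrArg Sigma.fst hcc
      have hd : c.1 = c'.1 := hd0
      obtain ⟨d, f⟩ := c
      obtain ⟨d', f'⟩ := c'
      simp only at hd
      subst hd
      congr 1
      funext i
      have h1 : (if (i : ℕ) = j then ((f i).1 + 1, (f i).2) else f i) =
          (if (i : ℕ) = j then ((f' i).1 + 1, (f' i).2) else f' i) := by
        have h0 := eq_of_heq (Sigma.mk.inj_iff.1 hcc).2
        exact congrFun h0 i
      by_cases h5 : (i : ℕ) = j
      · rw [if_pos h5, if_pos h5] at h1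
        have h6 := congrArg Prod.fst h1
        have h7 := congrArg Prod.snd h1
        simp only at h6 h7
        apply Prod.ext
        · omega
        · exact h7
      · rw [if_neg h5, if_neg h5] at h1
        exact h1
  omega

/-- the number of indices in `[D1, D2)` for which the multiplicities differ -/
def xc (D1 D2 : ℕ) (c : Cd) : ℕ := ((Ico D1 D2).filter fun j => j < c.1 ∧ mm c j ≠ uu c j).card

lemma xc_le (D1 D2 : ℕ) (c : Cd) : xc D1 D2 c ≤ D2 - D1 := by
  unfold xc
  refine (Finset.card_filter_le _ _).trans ?_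
  simp

/-- the good codes -/
def Gd (N D1 D2 κ : ℕ) (c : Cd) : Prop :=
  D2 - D1 ≤ 128 * xc D1 D2 c ∧ ∑ j ∈ range N, (ab c j) ^ 2 ≤ 2048 * N ∧
    ∀ j, D1 ≤ j → j < c.1 → ab c j ≤ κ

open Classical in
theorem many_good (N D1 D2 κ h : ℕ) (hDD : D1 < D2) (hD : 512 * D2 ≤ Nat.sqrt N) (hN : 0 < N)
    (hh : 2 * h ≤ (D1 + 1) * (κ + 1)) (hbig : 4096 * Nat.sqrt N * N ^ 2 ≤ h ^ 4) (hhp : 0 < h) :
    pp N ≤ 256 * ((allCodes N).filter fun c => Gd N D1 D2 κ c).card := by
  set s := Nat.sqrt N with hs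
  set G1 := (allCodes N).filter fun c => D2 - D1 ≤ 128 * xc D1 D2 c with hG1
  set B1 := (allCodes N).filter fun c => 2048 * N < ∑ j ∈ range N, (ab c j) ^ 2 with hB1
  set B2 := (allCodes N).filter fun c => ∃ j, D1 ≤ j ∧ j < c.1 ∧ κ < ab c j with hB2
  set G := (allCodes N).filter fun c => Gd N D1 D2 κ c with hG
  -- G1 is large
  have g1 : pp N ≤ 128 * G1.card := by
    have h1 : (D2 - D1) * pp N ≤ 64 * ∑ c ∈ allCodes N, xc D1 D2 c := by
      unfold xc
      simp only [Finset.card_filter]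
      rw [Finset.sum_comm, Finset.mul_sum]
      calc (D2 - D1) * pp N = ∑ _j ∈ Ico D1 D2, pp N := by simp
        _ ≤ _ := by
          refine Finset.sum_le_sum fun j hj => ?_
          rw [← Finset.card_filter]
          exact neq_count N j D2 (Finset.mem_Ico.1 hj).2 hD
    have h2 : 128 * ∑ c ∈ allCodes N, xc D1 D2 c ≤ 128 * (G1.card * (D2 - D1)) + pp N * (D2 - D1) := by
      rw [← Finset.sum_filter_add_sum_filter_not (allCodes N) (fun c => D2 - D1 ≤ 128 * xc D1 D2 c),
        Nat.mul_add]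
      apply Nat.add_le_add
      · apply Nat.mul_le_mul_left
        calc ∑ c ∈ G1, xc D1 D2 c ≤ ∑ _c ∈ G1, (D2 - D1) := Finset.sum_le_sum fun c _ => xc_le D1 D2 c
          _ = _ := by rw [Finset.sum_const, smul_eq_mul]
      · rw [Finset.mul_sum]
        calc ∑ c ∈ (allCodes N).filter (fun c => ¬ (D2 - D1 ≤ 128 * xc D1 D2 c)), 128 * xc D1 D2 c ≤
            ∑ _c ∈ (allCodes N).filter (fun c => ¬ (D2 - D1 ≤ 128 * xc D1 D2 c)), (D2 - D1) := by
              refine Finset.sum_le_sum fun c hc => ?_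
              have := (Finset.mem_filter.1 hc).2
              omega
          _ = ((allCodes N).filter (fun c => ¬ (D2 - D1 ≤ 128 * xc D1 D2 c))).card * (D2 - D1) := by
              rw [Finset.sum_const, smul_eq_mul]
          _ ≤ pp N * (D2 - D1) := by
              apply Nat.mul_le_mul_right
              rw [← card_allCodes]
              exact Finset.card_filter_le _ _
    have hpos : 0 < D2 - D1 := by omega
    have h3 : (D2 - D1) * pp N ≤ (D2 - D1) * (128 * G1.card) := by nlinarith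
    exact Nat.le_of_mul_le_mul_left h3 hpos
  -- B1 is small
  have b1 : 512 * B1.card ≤ pp N := by
    have h1 : B1.card * (2048 * N) ≤ 4 * N * pp N := by
      calc B1.card * (2048 * N) = ∑ _c ∈ B1, 2048 * N := by rw [Finset.sum_const, smul_eq_mul]
        _ ≤ ∑ c ∈ B1, ∑ j ∈ range N, (ab c j) ^ 2 :=
            Finset.sum_le_sum fun c hc => (Finset.mem_filter.1 hc).2.le
        _ ≤ ∑ c ∈ allCodes N, ∑ j ∈ range N, (ab c j) ^ 2 :=
            Finset.sum_le_sum_of_subset (Finset.filter_subset _ _)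
        _ ≤ _ := second_ab N
    have h2 : N * (512 * B1.card) ≤ N * pp N := by nlinarith
    exact Nat.le_of_mul_le_mul_left h2 hN
  -- B2 is small
  have b2 : 512 * B2.card ≤ pp N := by
    have h1 : B2.card ≤ ∑ j ∈ Ico D1 s, 2 * pz N ((D1 + 1) * (κ + 1)) := by
      have hsub : B2 ⊆ (Ico D1 s).biUnion (fun j =>
          ((allCodes N).filter fun c => κ + 1 ≤ mm c j) ∪ ((allCodes N).filter fun c => κ + 1 ≤ uu c j)) := by
        intro c hc
        rw [hB2, Finset.mem_filter] at hc
        obtain ⟨hc1, j, hj1, hj2, hj3⟩ := hc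
        rw [Finset.mem_biUnion]
        refine ⟨j, ?_, ?_⟩
        · rw [Finset.mem_Ico]
          refine ⟨hj1, lt_of_lt_of_le hj2 ?_⟩
          have := durfee_sq_le hc1
          rw [hs, Nat.le_sqrt]
          nlinarith
        · rw [Finset.mem_union, Finset.mem_filter, Finset.mem_filter]
          rcases ab_le_max (show κ + 1 ≤ ab c j by omega) with h | h
          · exact Or.inl ⟨hc1, h⟩
          · exact Or.inr ⟨hc1, h⟩
      refine (Finset.card_le_card hsub).trans (Finset.card_biUnion_le.trans ?_)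
      refine Finset.sum_le_sum fun j hj => ?_
      have hj' := (Finset.mem_Ico.1 hj).1
      have e1 := cnt_mm N j (κ + 1) (by omega)
      have e2 : ((allCodes N).filter fun c => κ + 1 ≤ uu c j).card ≤ pz N ((j + 1) * (κ + 1)) := by
        refine le_trans (le_of_eq ?_) e1
        refine Finset.card_bij (fun c _ => cj c) ?_ ?_ ?_
        · intro c hc
          rw [Finset.mem_filter] at hc ⊢
          rw [mm_cj]
          exact ⟨cj_mem hc.1, hc.2⟩
        · intro c _ c' _ h
          rw [← cj_cj c, ← cj_cj c', h]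
        · intro c hc
          rw [Finset.mem_filter] at hc
          refine ⟨cj c, ?_, cj_cj c⟩
          rw [Finset.mem_filter, uu_cj]
          exact ⟨cj_mem hc.1, hc.2⟩
      have e3 : pz N ((j + 1) * (κ + 1)) ≤ pz N ((D1 + 1) * (κ + 1)) :=
        pz_anti N (Nat.mul_le_mul_right _ (by omega))
      have e4 := Finset.card_union_le ((allCodes N).filter fun c => κ + 1 ≤ mm c j)
        ((allCodes N).filter fun c => κ + 1 ≤ uu c j)
      omega
    have h2 : B2.card ≤ s * (2 * pz N (2 * h)) := by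
      refine h1.trans ?_
      rw [Finset.sum_const, smul_eq_mul, Nat.card_Ico]
      exact Nat.mul_le_mul (by omega) (Nat.mul_le_mul_left _ (pz_anti N hh))
    have h3 := decay2 N h
    have h4 : h ^ 4 * (512 * B2.card) ≤ h ^ 4 * pp N := by
      calc h ^ 4 * (512 * B2.card) ≤ h ^ 4 * (512 * (s * (2 * pz N (2 * h)))) := by gcongr
        _ = 1024 * s * (h ^ 4 * pz N (2 * h)) := by ring
        _ ≤ 1024 * s * (4 * N ^ 2 * pp N) := by gcongr
        _ = (4096 * s * N ^ 2) * pp N := by ring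
        _ ≤ h ^ 4 * pp N := by gcongr
    exact Nat.le_of_mul_le_mul_left h4 (by positivity)
  have hsub : G1 ⊆ G ∪ (B1 ∪ B2) := by
    intro c hc
    rw [hG1, Finset.mem_filter] at hc
    rw [Finset.mem_union, Finset.mem_union]
    by_cases c1 : 2048 * N < ∑ j ∈ range N, (ab c j) ^ 2
    · exact Or.inr (Or.inl (Finset.mem_filter.2 ⟨hc.1, c1⟩))
    · by_cases c2 : ∃ j, D1 ≤ j ∧ j < c.1 ∧ κ < ab c j
      · exact Or.inr (Or.inr (Finset.mem_filter.2 ⟨hc.1, c2⟩))
      · left
        rw [hG, Finset.mem_filter]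
        refine ⟨hc.1, hc.2, by omega, ?_⟩
        intro j hj1 hj2
        push Not at c2
        exact c2 j hj1 hj2
  have hcard := Finset.card_le_card hsub
  have h5 := Finset.card_union_le G (B1 ∪ B2)
  have h6 := Finset.card_union_le B1 B2
  omega

end Pool.Agent.Lib.GraphPart
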