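import Pool.Agent.Lib.GraphPart.GI

/-!
The logarithmic grid and sums over aligned intervals.
-/

namespace Pool.Agent.Lib.GraphPart

open Finset

/-- grid points: `2 ^ (u / R) * (R + u % R)` -/
def kap (R u : ℕ) : ℕ := 2 ^ (u / R) * (R + u % R)

/-- block lengths -/
def bl (R u : ℕ) : ℕ := 2 ^ (u / R)

lemma bl_pos (R u : ℕ) : 0 < bl R u := by unfold bl; positivity

lemma kap_succ {R : ℕ} (hR : 0 < R) (u : ℕ) : kap R (u + 1) = kap R u + bl R u := by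
  unfold kap bl
  obtain ⟨q, r, hr, rfl⟩ : ∃ q r, r < R ∧ u = R * q + r := ⟨u / R, u % R, Nat.mod_lt _ hR, (Nat.div_add_mod u R).symm⟩
  have h1 : (R * q + r) / R = q := by
    rw [Nat.mul_add_div hR, Nat.div_eq_of_lt hr, Nat.add_zero]
  have h2 : (R * q + r) % R = r := by
    rw [Nat.mul_add_mod, Nat.mod_eq_of_lt hr]
  rw [h1, h2]
  by_cases h3 : r + 1 < R
  · have h4 : (R * q + r + 1) / R = q := by
      rw [Nat.add_assoc, Nat.mul_add_div hR, Nat.div_eq_of_lt h3, Nat.add_zero]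
    have h5 : (R * q + r + 1) % R = r + 1 := by
      rw [Nat.add_assoc, Nat.mul_add_mod, Nat.mod_eq_of_lt h3]
    rw [h4, h5]; ring
  · have h6 : r + 1 = R := by omega
    have h7 : R * q + r + 1 = R * (q + 1) := by rw [Nat.add_assoc, h6]; ring
    rw [h7, Nat.mul_div_cancel_left _ hR, Nat.mul_mod_right]
    have h8 : R + r + 1 = 2 * R := by omega
    calc 2 ^ (q + 1) * (R + 0) = 2 ^ q * (2 * R) := by ring
      _ = 2 ^ q * (R + r + 1) := by rw [h8]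
      _ = _ := by ring

lemma kap_strictMono {R : ℕ} (hR : 0 < R) : StrictMono (kap R) :=
  strictMono_nat_of_lt_succ fun u => by
    rw [kap_succ hR]; have := bl_pos R u; omega

lemma kap_pos {R : ℕ} (hR : 0 < R) (u : ℕ) : 0 < kap R u := by
  unfold kap; positivity

lemma kap_mul {R : ℕ} (hR : 0 < R) (q : ℕ) : kap R (q * R) = 2 ^ q * R := by
  unfold kap
  rw [Nat.mul_div_cancel _ hR, Nat.mul_mod_left, Nat.add_zero]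

lemma kap_zero {R : ℕ} (hR : 0 < R) : kap R 0 = R := by
  have := kap_mul hR 0
  simpa using this

lemma R_bl_le (R u : ℕ) : R * bl R u ≤ kap R u := by
  unfold kap bl
  rw [Nat.mul_comm]
  apply Nat.mul_le_mul_left
  omega

lemma kap_le_two_mul {R : ℕ} (hR : 0 < R) (u : ℕ) : kap R u ≤ 2 * R * bl R u := by
  unfold kap bl
  have : R + u % R ≤ 2 * R := by have := Nat.mod_lt u hR; omega
  calc 2 ^ (u / R) * (R + u % R) ≤ 2 ^ (u / R) * (2 * R) := Nat.mul_le_mul_left _ this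
    _ = _ := by ring

/-- Regular coefficient sequences. -/
structure Reg (α : ℕ → ℝ) (e v3 : ℕ) (η ℓ1 ℓ2 : ℝ) : Prop where
  nn : ∀ j, 0 ≤ α j
  flat : ∀ t, (t + 1) * 2 ^ e ≤ 2 ^ v3 → |∑ j ∈ range (2 ^ e), α (t * 2 ^ e + j) ^ 2 - 2 ^ e| ≤ η * 2 ^ e
  bd1 : ∀ j, j < 2 ^ v3 → α j ≤ ℓ1
  bd2 : ∀ j, α j ≤ ℓ2

lemma sum_Ico_group (F : ℕ → ℝ) (h t : ℕ) :
    ∑ j ∈ Ico (t * h) ((t + 1) * h), F j = ∑ j ∈ range h, F (t * h + j) := by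
  rw [Finset.sum_Ico_eq_sum_range]
  have : (t + 1) * h - t * h = h := by rw [Nat.add_mul, Nat.one_mul, Nat.add_sub_cancel_left]
  rw [this]

lemma Reg.sum_flat {α : ℕ → ℝ} {e v3 : ℕ} {η ℓ1 ℓ2 : ℝ} (h : Reg α e v3 η ℓ1 ℓ2) (t0 : ℕ) :
    ∀ n : ℕ, (t0 + n) * 2 ^ e ≤ 2 ^ v3 →
      |∑ j ∈ Ico (t0 * 2 ^ e) ((t0 + n) * 2 ^ e), α j ^ 2 - n * 2 ^ e| ≤ η * (n * 2 ^ e) := by
  intro n
  induction n with
  | zero => intro _; simp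
  | succ n ih =>
    intro hn
    have h1 : (t0 + n) * 2 ^ e ≤ (t0 + n + 1) * 2 ^ e := Nat.mul_le_mul_right _ (by omega)
    have h2 : (t0 + n + 1) * 2 ^ e ≤ 2 ^ v3 := by rw [Nat.add_assoc]; exact hn
    have h3 := ih (h1.trans h2)
    have h4 := h.flat (t0 + n) h2
    rw [← sum_Ico_group (fun j => α j ^ 2)] at h4
    have h5 : ∑ j ∈ Ico (t0 * 2 ^ e) ((t0 + (n + 1)) * 2 ^ e), α j ^ 2 =
        ∑ j ∈ Ico (t0 * 2 ^ e) ((t0 + n) * 2 ^ e), α j ^ 2 +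
        ∑ j ∈ Ico ((t0 + n) * 2 ^ e) ((t0 + n + 1) * 2 ^ e), α j ^ 2 := by
      rw [Finset.sum_Ico_consecutive _ (Nat.mul_le_mul_right _ (by omega)) h1, Nat.add_assoc]
    rw [h5]
    push_cast
    have h6 : ∀ A B : ℝ, A + B - ((n:ℝ) + 1) * 2 ^ e = (A - n * 2 ^ e) + (B - 2 ^ e) := fun A B => by ring
    rw [h6]
    calc _ ≤ _ := abs_add_le _ _
      _ ≤ η * (n * 2 ^ e) + η * 2 ^ e := add_le_add h3 h4
      _ = _ := by ring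

/-- aligned intervals -/
lemma Reg.sum_aligned {α : ℕ → ℝ} {e v3 : ℕ} {η ℓ1 ℓ2 : ℝ} (h : Reg α e v3 η ℓ1 ℓ2) {p p' : ℕ}
    (hp : 2 ^ e ∣ p) (hp' : 2 ^ e ∣ p') (hpp : p ≤ p') (hv : p' ≤ 2 ^ v3) :
    |∑ j ∈ Ico p p', α j ^ 2 - ((p' - p : ℕ) : ℝ)| ≤ η * ((p' - p : ℕ) : ℝ) := by
  obtain ⟨t0, rfl⟩ := hp
  obtain ⟨t1, rfl⟩ := hp'
  have h2 : (0:ℕ) < 2 ^ e := by positivity
  have h3 : t0 ≤ t1 := Nat.le_of_mul_le_mul_left hpp h2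
  obtain ⟨n, rfl⟩ := Nat.exists_eq_add_of_le h3
  have := h.sum_flat t0 n (by rw [Nat.mul_comm]; exact hv)
  rw [Nat.mul_comm (2 ^ e) t0, Nat.mul_comm (2 ^ e) (t0 + n)]
  have h4 : (((t0 + n) * 2 ^ e - t0 * 2 ^ e : ℕ) : ℝ) = n * 2 ^ e := by
    have : (t0 + n) * 2 ^ e - t0 * 2 ^ e = n * 2 ^ e := by rw [Nat.add_mul, Nat.add_sub_cancel_left]
    rw [this]; push_cast; ring
  rw [h4]
  exact this

lemma Reg.sum_aligned_le {α : ℕ → ℝ} {e v3 : ℕ} {η ℓ1 ℓ2 : ℝ} (h : Reg α e v3 η ℓ1 ℓ2) (hη : η ≤ 1) {p p' : ℕ}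
    (hp : 2 ^ e ∣ p) (hp' : 2 ^ e ∣ p') (hpp : p ≤ p') (hv : p' ≤ 2 ^ v3) :
    ∑ j ∈ Ico p p', α j ^ 2 ≤ 2 * ((p' - p : ℕ) : ℝ) := by
  have h1 := (abs_le.1 (h.sum_aligned hp hp' hpp hv)).2
  have h2 : η * ((p' - p : ℕ) : ℝ) ≤ 1 * ((p' - p : ℕ) : ℝ) := mul_le_mul_of_nonneg_right hη (Nat.cast_nonneg _)
  linarith

/-- tails of the weighted sum, aligned part -/
lemma Reg.tail_aligned {α : ℕ → ℝ} {e v3 : ℕ} {η ℓ1 ℓ2 : ℝ} (h : Reg α e v3 η ℓ1 ℓ2) (hη : η ≤ 1) {t0 : ℕ}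
    (ht0 : 1 ≤ t0) : ∀ n : ℕ, (t0 + n) * 2 ^ e ≤ 2 ^ v3 →
      ∑ j ∈ Ico (t0 * 2 ^ e) ((t0 + n) * 2 ^ e), (α j / (j + 1)) ^ 2 ≤
        4 / 2 ^ e * (1 / (t0:ℝ) - 1 / ((t0 + n : ℕ):ℝ)) := by
  intro n
  induction n with
  | zero => intro _; simp
  | succ n ih =>
    intro hn
    have h1 : (t0 + n) * 2 ^ e ≤ (t0 + n + 1) * 2 ^ e := Nat.mul_le_mul_right _ (by omega)
    have h2 : (t0 + n + 1) * 2 ^ e ≤ 2 ^ v3 := by rw [Nat.add_assoc]; exact hn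
    have h3 := ih (h1.trans h2)
    have h4 := (abs_le.1 (h.flat (t0 + n) h2)).2
    rw [← sum_Ico_group (fun j => α j ^ 2)] at h4
    have h5 : ∑ j ∈ Ico (t0 * 2 ^ e) ((t0 + (n + 1)) * 2 ^ e), (α j / (j + 1)) ^ 2 =
        ∑ j ∈ Ico (t0 * 2 ^ e) ((t0 + n) * 2 ^ e), (α j / (j + 1)) ^ 2 +
        ∑ j ∈ Ico ((t0 + n) * 2 ^ e) ((t0 + n + 1) * 2 ^ e), (α j / (j + 1)) ^ 2 := by
      rw [Finset.sum_Ico_consecutive _ (Nat.mul_le_mul_right _ (by omega)) h1, Nat.add_assoc]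
    rw [h5]
    set t : ℕ := t0 + n with ht
    have htp : (1:ℝ) ≤ t := by
      have : 1 ≤ t := by omega
      exact_mod_cast this
    have hE : (0:ℝ) < 2 ^ e := by positivity
    have h6 : ∑ j ∈ Ico (t * 2 ^ e) ((t + 1) * 2 ^ e), (α j / (j + 1)) ^ 2 ≤
        (1 / ((t:ℝ) * 2 ^ e) ^ 2) * ∑ j ∈ Ico (t * 2 ^ e) ((t + 1) * 2 ^ e), α j ^ 2 := by
      rw [Finset.mul_sum]
      refine Finset.sum_le_sum fun j hj => ?_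
      have hj1 := (Finset.mem_Ico.1 hj).1
      have hj2 : (t:ℝ) * 2 ^ e ≤ (j:ℝ) + 1 := by
        have : ((t * 2 ^ e : ℕ) : ℝ) ≤ j := by exact_mod_cast hj1
        push_cast at this
        linarith
      rw [div_pow, div_eq_mul_one_div, mul_comm]
      apply mul_le_mul_of_nonneg_right _ (sq_nonneg _)
      apply one_div_le_one_div_of_le (by positivity)
      gcongr
    have h7 : ∑ j ∈ Ico (t * 2 ^ e) ((t + 1) * 2 ^ e), α j ^ 2 ≤ 2 * 2 ^ e := by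
      have : η * 2 ^ e ≤ 1 * 2 ^ e := mul_le_mul_of_nonneg_right hη hE.le
      linarith
    have h8 : (1 / ((t:ℝ) * 2 ^ e) ^ 2) * (2 * 2 ^ e) ≤ 4 / 2 ^ e * (1 / (t:ℝ) - 1 / ((t:ℝ) + 1)) := by
      have h9 : (1 / ((t:ℝ) * 2 ^ e) ^ 2) * (2 * 2 ^ e) = 2 / 2 ^ e * (1 / (t:ℝ) ^ 2) := by
        field_simp
      have h10 : 1 / (t:ℝ) ^ 2 ≤ 2 * (1 / (t:ℝ) - 1 / ((t:ℝ) + 1)) := by
        have h11 : 2 * (1 / (t:ℝ) - 1 / ((t:ℝ) + 1)) = 2 / (t * (t + 1)) := by field_simp; ring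
        rw [h11, div_le_div_iff₀ (by positivity) (by positivity)]
        nlinarith
      rw [h9]
      calc 2 / 2 ^ e * (1 / (t:ℝ) ^ 2) ≤ 2 / 2 ^ e * (2 * (1 / (t:ℝ) - 1 / ((t:ℝ) + 1))) := by gcongr
        _ = _ := by ring
    have h12 : ((t0 + (n + 1) : ℕ) : ℝ) = (t:ℝ) + 1 := by
      rw [ht]; push_cast; ring
    rw [h12]
    have h13 : (1 / ((t:ℝ) * 2 ^ e) ^ 2) * ∑ j ∈ Ico (t * 2 ^ e) ((t + 1) * 2 ^ e), α j ^ 2 ≤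
        (1 / ((t:ℝ) * 2 ^ e) ^ 2) * (2 * 2 ^ e) := by gcongr
    have h14 : 4 / 2 ^ e * (1 / (t0:ℝ) - 1 / ((t:ℝ) + 1)) = 4 / 2 ^ e * (1 / (t0:ℝ) - 1 / (t:ℝ)) +
        4 / 2 ^ e * (1 / (t:ℝ) - 1 / ((t:ℝ) + 1)) := by ring
    rw [h14]
    linarith

lemma Reg.tail_le {α : ℕ → ℝ} {e v3 : ℕ} {η ℓ1 ℓ2 : ℝ} (h : Reg α e v3 η ℓ1 ℓ2) (hη : η ≤ 1) {p p' : ℕ}
    (hp : 2 ^ e ∣ p) (hp' : 2 ^ e ∣ p') (hp0 : 0 < p) (hpp : p ≤ p') (hv : p' ≤ 2 ^ v3) :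
    ∑ j ∈ Ico p p', (α j / (j + 1)) ^ 2 ≤ 4 / (p:ℝ) := by
  obtain ⟨t0, rfl⟩ := hp
  obtain ⟨t1, rfl⟩ := hp'
  have h2 : (0:ℕ) < 2 ^ e := by positivity
  have h3 : t0 ≤ t1 := Nat.le_of_mul_le_mul_left hpp h2
  have h4 : 1 ≤ t0 := by
    rcases Nat.eq_zero_or_pos t0 with h | h
    · subst h; simp at hp0
    · exact h
  obtain ⟨n, rfl⟩ := Nat.exists_eq_add_of_le h3
  have := h.tail_aligned hη h4 n (by rw [Nat.mul_comm]; exact hv)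
  rw [Nat.mul_comm (2 ^ e) t0, Nat.mul_comm (2 ^ e) (t0 + n)]
  refine this.trans ?_
  have h5 : (0:ℝ) < t0 := by exact_mod_cast h4
  have h6 : (0:ℝ) ≤ 1 / ((t0 + n : ℕ):ℝ) := by positivity
  calc 4 / 2 ^ e * (1 / (t0:ℝ) - 1 / ((t0 + n : ℕ):ℝ)) ≤ 4 / 2 ^ e * (1 / (t0:ℝ)) := by
        gcongr; linarith
    _ = 4 / ((t0 * 2 ^ e : ℕ) : ℝ) := by
        push_cast
        field_simp

/-- crude tail bound -/
lemma crude_tail {α : ℕ → ℝ} {ℓ2 : ℝ} (h0 : ∀ j, 0 ≤ α j) (h2 : ∀ j, α j ≤ ℓ2) {K : ℕ} (hK : 0 < K) :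
    ∀ n : ℕ, ∑ j ∈ Ico K (K + n), (α j / (j + 1)) ^ 2 ≤ ℓ2 ^ 2 * (1 / K - 1 / ((K + n : ℕ) : ℝ)) := by
  intro n
  induction n with
  | zero => simp
  | succ n ih =>
    rw [← Nat.add_assoc, Finset.sum_Ico_succ_top (by omega)]
    have hk : (0:ℝ) < ((K + n : ℕ) : ℝ) := by
      have : 0 < K + n := by omega
      exact_mod_cast this
    have h3 : (α (K + n) / (((K + n : ℕ) : ℝ) + 1)) ^ 2 ≤ ℓ2 ^ 2 * (1 / ((K + n : ℕ) : ℝ) - 1 / ((K + n + 1 : ℕ) : ℝ)) := by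
      set m : ℝ := ((K + n : ℕ) : ℝ) with hm
      have e1 : ((K + n + 1 : ℕ) : ℝ) = m + 1 := by rw [hm]; push_cast; ring
      rw [e1]
      have e2 : 1 / m - 1 / (m + 1) = 1 / (m * (m + 1)) := by field_simp; ring
      rw [e2, div_pow, div_eq_mul_one_div]
      have e3 : α (K + n) ^ 2 ≤ ℓ2 ^ 2 := by
        have := h0 (K + n)
        have := h2 (K + n)
        gcongr
      have e4 : 1 / (m + 1) ^ 2 ≤ 1 / (m * (m + 1)) := by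
        apply one_div_le_one_div_of_le (by positivity)
        nlinarith
      exact mul_le_mul e3 e4 (by positivity) (by positivity)
    have h5 : ℓ2 ^ 2 * (1 / (K:ℝ) - 1 / ((K + n + 1 : ℕ) : ℝ)) = ℓ2 ^ 2 * (1 / (K:ℝ) - 1 / ((K + n : ℕ) : ℝ)) +
        ℓ2 ^ 2 * (1 / ((K + n : ℕ) : ℝ) - 1 / ((K + n + 1 : ℕ) : ℝ)) := by ring
    rw [h5]
    exact add_le_add ih h3

lemma Reg.tail_all {α : ℕ → ℝ} {e v3 : ℕ} {η ℓ1 ℓ2 : ℝ} (h : Reg α e v3 η ℓ1 ℓ2) (hη : η ≤ 1) {p d : ℕ}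
    (hp : 2 ^ e ∣ p) (hp0 : 0 < p) (hpv : p ≤ 2 ^ v3) (he : e ≤ v3) (hd : 2 ^ v3 ≤ d) :
    ∑ j ∈ Ico p d, (α j / (j + 1)) ^ 2 ≤ 4 / (p:ℝ) + ℓ2 ^ 2 / 2 ^ v3 := by
  rw [← Finset.sum_Ico_consecutive _ hpv hd]
  have h1 := h.tail_le hη hp (Nat.pow_dvd_pow 2 he) hp0 hpv le_rfl
  have h2 := crude_tail h.nn h.bd2 (show 0 < 2 ^ v3 by positivity) (d - 2 ^ v3)
  rw [show 2 ^ v3 + (d - 2 ^ v3) = d by omega] at h2
  have h3 : ℓ2 ^ 2 * (1 / ((2 ^ v3 : ℕ) : ℝ) - 1 / (d:ℝ)) ≤ ℓ2 ^ 2 / 2 ^ v3 := by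
    have e1 : ((2 ^ v3 : ℕ) : ℝ) = 2 ^ v3 := by push_cast; ring
    rw [e1]
    have e2 : (0:ℝ) ≤ 1 / (d:ℝ) := by positivity
    calc ℓ2 ^ 2 * (1 / (2:ℝ) ^ v3 - 1 / (d:ℝ)) ≤ ℓ2 ^ 2 * (1 / (2:ℝ) ^ v3) := by
          gcongr; linarith
      _ = _ := by ring
  exact add_le_add h1 (h2.trans h3)

end Pool.Agent.Lib.GraphPart
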