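import Mathlib

/-!
Counting vectors of given weighted sum: growth of the counting function.
-/

namespace Pool.Agent.Lib.GraphPart

set_option linter.unusedSectionVars false
set_option linter.unusedVariables false

open Finset

section
variable {ι : Type} [Fintype ι] [DecidableEq ι]

/-- weighted sum -/
def mass (wt : ι → ℕ) (x : ι → ℕ × ℕ) : ℕ := ∑ i, wt i * ((x i).1 + (x i).2)

/-- vectors of given weighted sum -/
def XS (wt : ι → ℕ) (s : ℕ) : Finset (ι → ℕ × ℕ) :=
  (Fintype.piFinset fun _ => range (s + 1) ×ˢ range (s + 1)).filter (fun x => mass wt x = s)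

/-- their number -/
def rr (wt : ι → ℕ) (s : ℕ) : ℕ := (XS wt s).card

lemma coord_le_mass {wt : ι → ℕ} (hw : ∀ i, 1 ≤ wt i) (x : ι → ℕ × ℕ) (i : ι) :
    wt i * ((x i).1 + (x i).2) ≤ mass wt x := by
  unfold mass
  exact Finset.single_le_sum (f := fun i => wt i * ((x i).1 + (x i).2)) (fun _ _ => Nat.zero_le _) (Finset.mem_univ i)

lemma mem_XS {wt : ι → ℕ} (hw : ∀ i, 1 ≤ wt i) {s : ℕ} {x : ι → ℕ × ℕ} : x ∈ XS wt s ↔ mass wt x = s := by
  unfold XS
  rw [Finset.mem_filter, and_iff_right_iff_imp]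
  intro h
  rw [Fintype.mem_piFinset]
  intro i
  have h1 := coord_le_mass hw x i
  have h2 : (x i).1 + (x i).2 ≤ wt i * ((x i).1 + (x i).2) := Nat.le_mul_of_pos_left _ (hw i)
  rw [Finset.mem_product, Finset.mem_range, Finset.mem_range]
  omega

lemma mass_update (wt : ι → ℕ) (x : ι → ℕ × ℕ) (i : ι) (p : ℕ × ℕ) :
    mass wt (Function.update x i p) + wt i * ((x i).1 + (x i).2) = mass wt x + wt i * (p.1 + p.2) := by
  unfold mass
  rw [← Finset.add_sum_erase _ _ (Finset.mem_univ i), ← Finset.add_sum_erase (univ : Finset ι) (fun j => wt j * ((x j).1 + (x j).2)) (Finset.mem_univ i)]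
  have h1 : ∑ j ∈ univ.erase i, wt j * ((Function.update x i p j).1 + (Function.update x i p j).2) =
      ∑ j ∈ univ.erase i, wt j * ((x j).1 + (x j).2) := by
    refine Finset.sum_congr rfl fun j hj => ?_
    rw [Function.update_of_ne (Finset.ne_of_mem_erase hj)]
  rw [h1, Function.update_self]
  omega

lemma card_ge_fst {wt : ι → ℕ} (hw : ∀ i, 1 ≤ wt i) (i : ι) (s k : ℕ) (h : k * wt i ≤ s) :
    ((XS wt s).filter fun x => k ≤ (x i).1).card = rr wt (s - k * wt i) := by
  unfold rr
  refine Finset.card_bij' (fun x _ => Function.update x i ((x i).1 - k, (x i).2))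
    (fun x _ => Function.update x i ((x i).1 + k, (x i).2)) ?_ ?_ ?_ ?_
  · intro x hx
    rw [Finset.mem_filter, mem_XS hw] at hx
    rw [mem_XS hw]
    have h1 := mass_update wt x i ((x i).1 - k, (x i).2)
    simp only at h1
    have h2 : wt i * ((x i).1 + (x i).2) = wt i * ((x i).1 - k + (x i).2) + k * wt i := by
      have : (x i).1 + (x i).2 = (x i).1 - k + (x i).2 + k := by omega
      rw [this]; ring
    omega
  · intro x hx
    rw [mem_XS hw] at hx
    rw [Finset.mem_filter, mem_XS hw]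
    have h1 := mass_update wt x i ((x i).1 + k, (x i).2)
    simp only at h1
    have h2 : wt i * ((x i).1 + k + (x i).2) = wt i * ((x i).1 + (x i).2) + k * wt i := by ring
    constructor
    · omega
    · rw [Function.update_self]; simp
  · intro x hx
    rw [Finset.mem_filter] at hx
    simp only [Function.update_self, Function.update_idem]
    rw [Nat.sub_add_cancel hx.2]
    simp
  · intro x hx
    simp only [Function.update_self, Function.update_idem]
    rw [Nat.add_sub_cancel]
    simp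

/-- exchange of the two components -/
def swp (x : ι → ℕ × ℕ) : ι → ℕ × ℕ := fun i => (x i).swap

omit [Fintype ι] [DecidableEq ι] in
lemma swp_swp (x : ι → ℕ × ℕ) : swp (swp x) = x := by
  funext i; simp [swp]

lemma mass_swp (wt : ι → ℕ) (x : ι → ℕ × ℕ) : mass wt (swp x) = mass wt x := by
  unfold mass swp
  refine Finset.sum_congr rfl fun i _ => ?_
  simp only [Prod.fst_swap, Prod.snd_swap]
  ring

lemma card_ge_snd {wt : ι → ℕ} (hw : ∀ i, 1 ≤ wt i) (i : ι) (s k : ℕ) (h : k * wt i ≤ s) :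
    ((XS wt s).filter fun x => k ≤ (x i).2).card = rr wt (s - k * wt i) := by
  rw [← card_ge_fst hw i s k h]
  refine Finset.card_bij' (fun x _ => swp x) (fun x _ => swp x) ?_ ?_ ?_ ?_
  · intro x hx
    rw [Finset.mem_filter, mem_XS hw] at hx ⊢
    rw [mass_swp]; exact hx
  · intro x hx
    rw [Finset.mem_filter, mem_XS hw] at hx ⊢
    rw [mass_swp]; exact hx
  · intro x _; exact swp_swp x
  · intro x _; exact swp_swp x

lemma rr_mono {wt : ι → ℕ} (hw : ∀ i, 1 ≤ wt i) {i0 : ι} (h0 : wt i0 = 1) : Monotone (rr wt) := by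
  apply monotone_nat_of_le_succ
  intro s
  have h1 := card_ge_fst hw i0 (s + 1) 1 (by rw [h0]; omega)
  rw [h0] at h1
  rw [show s + 1 - 1 * 1 = s by omega] at h1
  rw [← h1]
  exact Finset.card_filter_le _ _

lemma rr_pos {wt : ι → ℕ} (hw : ∀ i, 1 ≤ wt i) {i0 : ι} (h0 : wt i0 = 1) (s : ℕ) : 0 < rr wt s := by
  unfold rr
  apply Finset.card_pos.2
  refine ⟨Function.update (fun _ => (0, 0)) i0 (s, 0), ?_⟩
  rw [mem_XS hw]
  have h1 := mass_update wt (fun _ => (0, 0)) i0 (s, 0)
  have h2 : mass wt (fun _ => ((0, 0) : ℕ × ℕ)) = 0 := by simp [mass]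
  simp only [h2, h0] at h1
  omega

/-- sum over multiples -/
def TT (f : ℕ → ℕ) (w s : ℕ) : ℕ := ∑ k ∈ range (s / w), w * f (s - (k + 1) * w)

/-- partial sums -/
def rho (f : ℕ → ℕ) (s : ℕ) : ℕ := ∑ v ∈ range s, f v

omit [Fintype ι] [DecidableEq ι] in
lemma TT_rec (f : ℕ → ℕ) {w s : ℕ} (hw : 0 < w) (h : w ≤ s) : TT f w s = w * f (s - w) + TT f w (s - w) := by
  unfold TT
  rw [Nat.div_eq_sub_div hw h, Finset.sum_range_succ']
  rw [add_comm]
  congr 1
  · congr 2; omega
  · refine Finset.sum_congr rfl fun k _ => ?_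
    congr 2
    rw [Nat.sub_sub]
    congr 1
    ring

lemma TT_lt (f : ℕ → ℕ) {w s : ℕ} (h : s < w) : TT f w s = 0 := by
  unfold TT
  rw [Nat.div_eq_of_lt h]; simp

lemma rho_succ (f : ℕ → ℕ) (s : ℕ) : rho f (s + 1) = rho f s + f s := by
  unfold rho; rw [Finset.sum_range_succ]

lemma rho_mono (f : ℕ → ℕ) : Monotone (rho f) := monotone_nat_of_le_succ fun s => by rw [rho_succ]; omega

/-- block of terms from below -/
lemma rho_add_ge {f : ℕ → ℕ} (hf : Monotone f) (s : ℕ) : ∀ w, rho f s + w * f s ≤ rho f (s + w) := by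
  intro w
  induction w with
  | zero => simp
  | succ w ih =>
    rw [← Nat.add_assoc, rho_succ]
    have := hf (show s ≤ s + w by omega)
    nlinarith

/-- block of terms from above -/
lemma rho_add_le {f : ℕ → ℕ} (hf : Monotone f) (s : ℕ) : ∀ w, rho f (s + w + 1) ≤ rho f s + (w + 1) * f (s + w) := by
  intro w
  induction w with
  | zero => rw [rho_succ]; simp
  | succ w ih =>
    rw [show s + (w + 1) + 1 = (s + w + 1) + 1 by ring, rho_succ]
    have := hf (show s + w ≤ s + w + 1 by omega)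
    rw [show s + (w + 1) = s + w + 1 by ring]
    nlinarith

lemma TT_le {f : ℕ → ℕ} (hf : Monotone f) {w : ℕ} (hw : 0 < w) : ∀ s, TT f w s ≤ rho f s := by
  intro s
  induction s using Nat.strong_induction_on with
  | _ s ih =>
    by_cases h : s < w
    · rw [TT_lt f h]; exact Nat.zero_le _
    · rw [TT_rec f hw (by omega)]
      have h1 := ih (s - w) (by omega)
      have h2 := rho_add_ge hf (s - w) w
      rw [show s - w + w = s by omega] at h2
      omega

lemma TT_ge {f : ℕ → ℕ} (hf : Monotone f) {w : ℕ} (hw : 0 < w) : ∀ s, rho f (s + 1 - w) ≤ TT f w s := by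
  intro s
  induction s using Nat.strong_induction_on with
  | _ s ih =>
    by_cases h : s < w
    · rw [show s + 1 - w = 0 by omega]; simp [rho]
    · rw [TT_rec f hw (by omega)]
      have h1 := ih (s - w) (by omega)
      by_cases h3 : s - w < w
      · rw [show s - w + 1 - w = 0 by omega] at h1
        have h2 := rho_add_le hf 0 (s - w)
        rw [Nat.zero_add] at h2
        rw [show s + 1 - w = s - w + 1 by omega]
        have h4 : rho f 0 = 0 := by simp [rho]
        rw [h4, Nat.zero_add] at h2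
        have h5 : (s - w + 1) * f (s - w) ≤ w * f (s - w) := Nat.mul_le_mul_right _ (by omega)
        omega
      · have h2 := rho_add_le hf (s - w + 1 - w) (w - 1)
        rw [show s - w + 1 - w + (w - 1) + 1 = s + 1 - w by omega, show s - w + 1 - w + (w - 1) = s - w by omega,
          show w - 1 + 1 = w by omega] at h2
        omega

lemma sum_ind_le (m K : ℕ) (h : m ≤ K) : (∑ k ∈ range K, if k + 1 ≤ m then 1 else 0) = m := by
  rw [← Finset.card_filter]
  have : (range K).filter (fun k => k + 1 ≤ m) = range m := by ext k; simp; omega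
  rw [this, Finset.card_range]

/-- the basic identity -/
theorem mass_identity {wt : ι → ℕ} (hw : ∀ i, 1 ≤ wt i) (s : ℕ) :
    s * rr wt s = ∑ i, 2 * TT (rr wt) (wt i) s := by
  have h1 : s * rr wt s = ∑ x ∈ XS wt s, mass wt x := by
    unfold rr
    rw [Finset.sum_congr rfl fun x hx => (mem_XS hw).1 hx, Finset.sum_const, smul_eq_mul, Nat.mul_comm]
  rw [h1]
  unfold mass
  rw [Finset.sum_comm]
  refine Finset.sum_congr rfl fun i _ => ?_
  rw [← Finset.mul_sum, Finset.sum_add_distrib]
  have hb : ∀ x ∈ XS wt s, (x i).1 ≤ s / wt i ∧ (x i).2 ≤ s / wt i := by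
    intro x hx
    have h2 := coord_le_mass hw x i
    rw [(mem_XS hw).1 hx] at h2
    constructor
    · rw [Nat.le_div_iff_mul_le (hw i)]
      calc (x i).1 * wt i ≤ wt i * ((x i).1 + (x i).2) := by rw [Nat.mul_comm]; exact Nat.mul_le_mul_left _ (by omega)
        _ ≤ s := h2
    · rw [Nat.le_div_iff_mul_le (hw i)]
      calc (x i).2 * wt i ≤ wt i * ((x i).1 + (x i).2) := by rw [Nat.mul_comm]; exact Nat.mul_le_mul_left _ (by omega)
        _ ≤ s := h2
  have e1 : ∑ x ∈ XS wt s, (x i).1 = ∑ k ∈ range (s / wt i), rr wt (s - (k + 1) * wt i) := by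
    rw [Finset.sum_congr rfl fun x hx => (sum_ind_le (x i).1 (s / wt i) (hb x hx).1).symm, Finset.sum_comm]
    refine Finset.sum_congr rfl fun k hk => ?_
    rw [← Finset.card_filter]
    refine card_ge_fst hw i s (k + 1) ?_
    have := Finset.mem_range.1 hk
    calc (k + 1) * wt i ≤ (s / wt i) * wt i := Nat.mul_le_mul_right _ (by omega)
      _ ≤ s := Nat.div_mul_le_self _ _
  have e2 : ∑ x ∈ XS wt s, (x i).2 = ∑ k ∈ range (s / wt i), rr wt (s - (k + 1) * wt i) := by
    rw [Finset.sum_congr rfl fun x hx => (sum_ind_le (x i).2 (s / wt i) (hb x hx).2).symm, Finset.sum_comm]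
    refine Finset.sum_congr rfl fun k hk => ?_
    rw [← Finset.card_filter]
    refine card_ge_snd hw i s (k + 1) ?_
    have := Finset.mem_range.1 hk
    calc (k + 1) * wt i ≤ (s / wt i) * wt i := Nat.mul_le_mul_right _ (by omega)
      _ ≤ s := Nat.div_mul_le_self _ _
  rw [e1, e2]
  unfold TT
  rw [← Finset.mul_sum]
  ring

/-- hypotheses on the weights -/
structure WT (wt : ι → ℕ) (W : ℕ) : Prop where
  pos : ∀ i, 1 ≤ wt i
  le : ∀ i, wt i ≤ W
  one : ∃ i, wt i = 1

lemma rr_upper {wt : ι → ℕ} {W : ℕ} (h : WT wt W) (s : ℕ) :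
    s * rr wt s ≤ (2 * Fintype.card ι) * rho (rr wt) s := by
  obtain ⟨i0, h0⟩ := h.one
  rw [mass_identity h.pos]
  calc ∑ i, 2 * TT (rr wt) (wt i) s ≤ ∑ _i : ι, 2 * rho (rr wt) s :=
        Finset.sum_le_sum fun i _ => Nat.mul_le_mul_left _ (TT_le (rr_mono h.pos h0) (h.pos i) s)
    _ = _ := by rw [Finset.sum_const, Finset.card_univ, smul_eq_mul]; ring

lemma rr_lower {wt : ι → ℕ} {W : ℕ} (h : WT wt W) (s : ℕ) :
    (2 * Fintype.card ι) * rho (rr wt) (s + 1 - W) ≤ s * rr wt s := by
  obtain ⟨i0, h0⟩ := h.one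
  rw [mass_identity h.pos]
  calc (2 * Fintype.card ι) * rho (rr wt) (s + 1 - W) = ∑ _i : ι, 2 * rho (rr wt) (s + 1 - W) := by
        rw [Finset.sum_const, Finset.card_univ, smul_eq_mul]; ring
    _ ≤ ∑ i, 2 * TT (rr wt) (wt i) s := by
        refine Finset.sum_le_sum fun i _ => Nat.mul_le_mul_left _ ?_
        refine le_trans (rho_mono _ ?_) (TT_ge (rr_mono h.pos h0) (h.pos i) s)
        have := h.le i
        omega

end

end Pool.Agent.Lib.GraphPart
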