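import Pool.Agent.Lib.GraphPart.Growth

/-!
Exponential growth of the counting function, and the comparison with geometric variables.
-/

namespace Pool.Agent.Lib.GraphPart

set_option linter.unusedSectionVars false

open Finset

section
variable {ι : Type} [Fintype ι] [DecidableEq ι]

lemma exp_sub_sq_le {x : ℝ} (h0 : 0 ≤ x) : Real.exp (x - x ^ 2) ≤ 1 + x := by
  have h2 : 0 < 1 - (x - x ^ 2) := by nlinarith
  have h3 : 1 - (x - x ^ 2) ≤ Real.exp (-(x - x ^ 2)) := Real.one_sub_le_exp_neg _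
  have h4 : Real.exp (x - x ^ 2) * Real.exp (-(x - x ^ 2)) = 1 := by
    rw [← Real.exp_add]; simp
  have h5 : 0 < Real.exp (x - x ^ 2) := Real.exp_pos _
  have h6 : Real.exp (x - x ^ 2) * (1 - (x - x ^ 2)) ≤ 1 := by
    calc _ ≤ Real.exp (x - x ^ 2) * Real.exp (-(x - x ^ 2)) := mul_le_mul_of_nonneg_left h3 h5.le
      _ = 1 := h4
  have h7 : 1 ≤ (1 + x) * (1 - (x - x ^ 2)) := by nlinarith [pow_nonneg h0 3]
  exact le_of_mul_le_mul_right (h6.trans h7) h2

lemma rho_up {wt : ι → ℕ} {W : ℕ} (h : WT wt W) {v : ℕ} (hv : 0 < v) (b : ℕ) :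
    (rho (rr wt) (v + b) : ℝ) ≤ rho (rr wt) v * Real.exp ((2 * Fintype.card ι : ℕ) * b / v) := by
  have hvr : (0:ℝ) < v := by exact_mod_cast hv
  set n : ℕ := 2 * Fintype.card ι with hn
  induction b with
  | zero => simp
  | succ b ih =>
    rw [← Nat.add_assoc, rho_succ]
    have h1 := rr_upper h (v + b)
    have h1r : ((v + b : ℕ) : ℝ) * rr wt (v + b) ≤ (n:ℝ) * rho (rr wt) (v + b) := by exact_mod_cast h1
    have h2 : (v:ℝ) * rr wt (v + b) ≤ (n:ℝ) * rho (rr wt) (v + b) := by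
      refine le_trans ?_ h1r
      gcongr
      exact_mod_cast Nat.le_add_right v b
    have h3 : (rr wt (v + b) : ℝ) ≤ (n:ℝ) / v * rho (rr wt) (v + b) := by
      rw [div_mul_eq_mul_div, le_div_iff₀ hvr]
      linarith
    have h4 : (n:ℝ) / v + 1 ≤ Real.exp (n / v) := Real.add_one_le_exp _
    have h5 : (0:ℝ) ≤ rho (rr wt) (v + b) := Nat.cast_nonneg _
    push_cast
    calc (rho (rr wt) (v + b) : ℝ) + rr wt (v + b) ≤ rho (rr wt) (v + b) * (n / v + 1) := by linarith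
      _ ≤ rho (rr wt) (v + b) * Real.exp (n / v) := mul_le_mul_of_nonneg_left h4 h5
      _ ≤ (rho (rr wt) v * Real.exp (n * b / v)) * Real.exp (n / v) :=
          mul_le_mul_of_nonneg_right ih (Real.exp_pos _).le
      _ = rho (rr wt) v * Real.exp (n * (b + 1) / v) := by
          rw [mul_assoc, ← Real.exp_add]
          congr 2
          ring

lemma rho_pos {wt : ι → ℕ} {W : ℕ} (h : WT wt W) {v : ℕ} (hv : 0 < v) : 0 < rho (rr wt) v := by
  obtain ⟨i0, h0⟩ := h.one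
  unfold rho
  apply Finset.sum_pos
  · intro i _; exact rr_pos h.pos h0 i
  · exact ⟨0, Finset.mem_range.2 hv⟩

/-- hypotheses on the total weight -/
structure SZ (wt : ι → ℕ) (W s bm : ℕ) : Prop where
  wt : WT wt W
  big : 2 * (2 * Fintype.card ι) * W ≤ s
  b1 : 4 * bm ≤ s
  b2 : 4 * W ≤ s
  b3 : 3 * (2 * Fintype.card ι) ^ 2 * W * bm ≤ s ^ 2

lemma card_pos' {wt : ι → ℕ} {W : ℕ} (h : WT wt W) : 1 ≤ 2 * Fintype.card ι := by
  obtain ⟨i0, _⟩ := h.one
  have : 0 < Fintype.card ι := Fintype.card_pos_iff.2 ⟨i0⟩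
  omega

lemma W_pos {wt : ι → ℕ} {W : ℕ} (h : WT wt W) : 1 ≤ W := by
  obtain ⟨i0, h0⟩ := h.one
  rw [← h0]; exact h.le i0

lemma tau_rho_le {wt : ι → ℕ} {W s bm : ℕ} (h : SZ wt W s bm) :
    ((2 * Fintype.card ι : ℕ) : ℝ) / s * rho (rr wt) s ≤ Real.exp 1 * rr wt s := by
  set n : ℕ := 2 * Fintype.card ι with hn
  have hn1 : 1 ≤ n := card_pos' h.wt
  have hW1 : 1 ≤ W := W_pos h.wt
  have hs : 0 < s := by have := h.big; rw [← hn] at this; nlinarith
  have hsr : (0:ℝ) < s := by exact_mod_cast hs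
  have h1 := rr_lower h.wt s
  rw [← hn] at h1
  have hb2 := h.b2
  have hv : 0 < s + 1 - W := by omega
  have hvr : (0:ℝ) < ((s + 1 - W : ℕ) : ℝ) := by exact_mod_cast hv
  have h2 := rho_up h.wt hv (W - 1)
  rw [show s + 1 - W + (W - 1) = s by omega, ← hn] at h2
  have h3 : (n:ℝ) * ((W - 1 : ℕ) : ℝ) / ((s + 1 - W : ℕ) : ℝ) ≤ 1 := by
    rw [div_le_one hvr]
    have h4 : n * (W - 1) ≤ s + 1 - W := by
      have hb := h.big
      rw [← hn] at hb
      have h5 : n * (W - 1) + n = n * W := by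
        obtain ⟨w, rfl⟩ : ∃ w, W = w + 1 := ⟨W - 1, by omega⟩
        simp; ring
      have h6 : W ≤ n * W := Nat.le_mul_of_pos_left _ hn1
      have h7 : 2 * n * W = n * W + n * W := by ring
      omega
    exact_mod_cast h4
  have h8 : (rho (rr wt) s : ℝ) ≤ rho (rr wt) (s + 1 - W) * Real.exp 1 := by
    refine h2.trans ?_
    gcongr
  have h1r : (n:ℝ) * rho (rr wt) (s + 1 - W) ≤ s * rr wt s := by exact_mod_cast h1
  rw [div_mul_eq_mul_div, div_le_iff₀ hsr]
  calc (n:ℝ) * rho (rr wt) s ≤ n * (rho (rr wt) (s + 1 - W) * Real.exp 1) := by gcongr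
    _ = (n * rho (rr wt) (s + 1 - W)) * Real.exp 1 := by ring
    _ ≤ (s * rr wt s) * Real.exp 1 := by gcongr
    _ = _ := by ring

lemma ratio_up {wt : ι → ℕ} {W s bm : ℕ} (h : SZ wt W s bm) (b : ℕ) :
    (rr wt (s + b) : ℝ) ≤ Real.exp 1 * Real.exp (((2 * Fintype.card ι : ℕ) : ℝ) / s * b) * rr wt s := by
  set n : ℕ := 2 * Fintype.card ι with hn
  have hn1 : 1 ≤ n := card_pos' h.wt
  have hW1 : 1 ≤ W := W_pos h.wt
  have hs : 0 < s := by have := h.big; rw [← hn] at this; nlinarith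
  have hsr : (0:ℝ) < s := by exact_mod_cast hs
  have h1 := rr_upper h.wt (s + b)
  rw [← hn] at h1
  have h1r : ((s + b : ℕ) : ℝ) * rr wt (s + b) ≤ (n:ℝ) * rho (rr wt) (s + b) := by exact_mod_cast h1
  have h2 : (s:ℝ) * rr wt (s + b) ≤ (n:ℝ) * rho (rr wt) (s + b) := by
    refine le_trans ?_ h1r
    gcongr
    exact_mod_cast Nat.le_add_right s b
  have h3 := rho_up h.wt hs b
  rw [← hn] at h3
  have h4 := tau_rho_le h
  rw [← hn] at h4
  have h5 : (rr wt (s + b) : ℝ) ≤ n / s * rho (rr wt) (s + b) := by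
    rw [div_mul_eq_mul_div, le_div_iff₀ hsr]
    linarith
  calc (rr wt (s + b) : ℝ) ≤ n / s * rho (rr wt) (s + b) := h5
    _ ≤ n / s * (rho (rr wt) s * Real.exp (n * b / s)) := by gcongr
    _ = (n / s * rho (rr wt) s) * Real.exp (n * b / s) := by ring
    _ ≤ (Real.exp 1 * rr wt s) * Real.exp (n * b / s) := by gcongr
    _ = _ := by
        have : (n:ℝ) * b / s = n / s * b := by ring
        rw [this]; ring

/-- lower bound for the growth -/
lemma rho_down {wt : ι → ℕ} {W s bm : ℕ} (h : SZ wt W s bm) : ∀ b, b ≤ bm →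
    (rho (rr wt) (s - b) : ℝ) * Real.exp (b * (((2 * Fintype.card ι : ℕ) : ℝ) / s -
      3 * (((2 * Fintype.card ι : ℕ) : ℝ) / s) ^ 2 * W)) ≤ rho (rr wt) s := by
  set n : ℕ := 2 * Fintype.card ι with hn
  have hn1 : 1 ≤ n := card_pos' h.wt
  have hn1r : (1:ℝ) ≤ n := by exact_mod_cast hn1
  have hW1 : 1 ≤ W := W_pos h.wt
  have hW1r : (1:ℝ) ≤ W := by exact_mod_cast hW1
  have hs : 0 < s := by have := h.big; rw [← hn] at this; nlinarith
  have hsr : (0:ℝ) < s := by exact_mod_cast hs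
  set τ : ℝ := (n:ℝ) / s with hτ
  have hτ0 : 0 < τ := by positivity
  have hbig := h.big
  rw [← hn] at hbig
  have hbigr : 2 * (n:ℝ) * W ≤ s := by exact_mod_cast hbig
  have hτW : 2 * τ * W ≤ 1 := by
    rw [hτ]
    have : 2 * ((n:ℝ) / s) * W = (2 * n * W) / s := by ring
    rw [this, div_le_one hsr]; exact hbigr
  intro b
  induction b with
  | zero => intro _; simp
  | succ b ih =>
    intro hb
    have ih' := ih (by omega)
    -- one step
    have hb1 := h.b1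
    have hb2 := h.b2
    set v := s - (b + 1) with hv
    have hv1 : s - b = v + 1 := by omega
    rw [hv1] at ih'
    have hvs : v ≤ s := by omega
    have hvpos : 0 < v := by omega
    have hvr : (0:ℝ) < v := by exact_mod_cast hvpos
    have hlow := rr_lower h.wt v
    rw [← hn] at hlow
    have hlowr : (n:ℝ) * rho (rr wt) (v + 1 - W) ≤ v * rr wt v := by exact_mod_cast hlow
    have hv2 : 0 < v + 1 - W := by omega
    have hv2r : (0:ℝ) < ((v + 1 - W : ℕ) : ℝ) := by exact_mod_cast hv2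
    have hhalf : (s:ℝ) ≤ 2 * ((v + 1 - W : ℕ) : ℝ) := by
      have : s ≤ 2 * (v + 1 - W) := by omega
      exact_mod_cast this
    have hup := rho_up h.wt hv2 (W - 1)
    rw [show v + 1 - W + (W - 1) = v by omega, ← hn] at hup
    have hexp : (n:ℝ) * ((W - 1 : ℕ) : ℝ) / ((v + 1 - W : ℕ) : ℝ) ≤ 2 * τ * W := by
      rw [div_le_iff₀ hv2r]
      have e1 : ((W - 1 : ℕ) : ℝ) ≤ W := by exact_mod_cast Nat.sub_le W 1
      have e2 : 2 * τ * W * ((v + 1 - W : ℕ) : ℝ) = (n:ℝ) * W * ((2 * ((v + 1 - W : ℕ) : ℝ)) / s) := by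
        rw [hτ]; field_simp
      rw [e2]
      have e3 : (1:ℝ) ≤ (2 * ((v + 1 - W : ℕ) : ℝ)) / s := by rw [one_le_div hsr]; exact hhalf
      calc (n:ℝ) * ((W - 1 : ℕ) : ℝ) ≤ n * W := by gcongr
        _ = n * W * 1 := by ring
        _ ≤ _ := by gcongr
    have hρ : (rho (rr wt) v : ℝ) * (1 - 2 * τ * W) ≤ rho (rr wt) (v + 1 - W) := by
      have e1 : (rho (rr wt) v : ℝ) ≤ rho (rr wt) (v + 1 - W) * Real.exp (2 * τ * W) := by
        refine hup.trans ?_
        gcongr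
      have e2 : 1 - 2 * τ * W ≤ Real.exp (-(2 * τ * W)) := Real.one_sub_le_exp_neg _
      have e3 : 0 ≤ 1 - 2 * τ * W := by linarith
      calc (rho (rr wt) v : ℝ) * (1 - 2 * τ * W) ≤
          (rho (rr wt) (v + 1 - W) * Real.exp (2 * τ * W)) * (1 - 2 * τ * W) := by gcongr
        _ ≤ (rho (rr wt) (v + 1 - W) * Real.exp (2 * τ * W)) * Real.exp (-(2 * τ * W)) := by gcongr
        _ = rho (rr wt) (v + 1 - W) := by
            rw [mul_assoc, ← Real.exp_add]; simp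
    have hf : τ * (1 - 2 * τ * W) * rho (rr wt) v ≤ rr wt v := by
      have e1 : (n:ℝ) / v * rho (rr wt) (v + 1 - W) ≤ rr wt v := by
        rw [div_mul_eq_mul_div, div_le_iff₀ hvr]; linarith
      have e2 : τ ≤ n / v := by
        rw [hτ]
        apply div_le_div_of_nonneg_left (by positivity) hvr
        exact_mod_cast hvs
      have e4 : 0 ≤ 1 - 2 * τ * W := by linarith
      calc τ * (1 - 2 * τ * W) * rho (rr wt) v = τ * (rho (rr wt) v * (1 - 2 * τ * W)) := by ring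
        _ ≤ τ * rho (rr wt) (v + 1 - W) := by gcongr
        _ ≤ n / v * rho (rr wt) (v + 1 - W) := by gcongr
        _ ≤ _ := e1
    set x : ℝ := τ * (1 - 2 * τ * W) with hx
    have hx0 : 0 ≤ x := by
      have : 0 ≤ 1 - 2 * τ * W := by linarith
      positivity
    have hxτ : x ≤ τ := by
      rw [hx]
      have : 0 ≤ 2 * τ * W := by positivity
      nlinarith
    have hτ1 : τ ≤ 1 := by nlinarith
    have hstep : (rho (rr wt) v : ℝ) * Real.exp (τ - 3 * τ ^ 2 * W) ≤ rho (rr wt) (v + 1) := by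
      rw [rho_succ]
      push_cast
      have e1 : Real.exp (τ - 3 * τ ^ 2 * W) ≤ 1 + x := by
        refine le_trans ?_ (exp_sub_sq_le hx0)
        apply Real.exp_le_exp.2
        have e2 : x ^ 2 ≤ τ ^ 2 := by gcongr
        have e3 : τ ^ 2 * 1 ≤ τ ^ 2 * W := by gcongr
        have e4 : x = τ - 2 * τ ^ 2 * W := by rw [hx]; ring
        linarith
      have e5 : (0:ℝ) ≤ rho (rr wt) v := Nat.cast_nonneg _
      calc (rho (rr wt) v : ℝ) * Real.exp (τ - 3 * τ ^ 2 * W) ≤ rho (rr wt) v * (1 + x) := by gcongr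
        _ ≤ _ := by linarith
    calc (rho (rr wt) v : ℝ) * Real.exp (((b + 1 : ℕ) : ℝ) * (τ - 3 * τ ^ 2 * W)) =
        (rho (rr wt) v : ℝ) * Real.exp (τ - 3 * τ ^ 2 * W) * Real.exp (b * (τ - 3 * τ ^ 2 * W)) := by
          have e9 : Real.exp (((b + 1 : ℕ) : ℝ) * (τ - 3 * τ ^ 2 * W)) =
              Real.exp (τ - 3 * τ ^ 2 * W) * Real.exp (b * (τ - 3 * τ ^ 2 * W)) := by
            rw [← Real.exp_add]; congr 1; push_cast; ring
          rw [e9]; ring
      _ ≤ rho (rr wt) (v + 1) * Real.exp (b * (τ - 3 * τ ^ 2 * W)) := by gcongr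
      _ ≤ _ := ih'

lemma ratio_down {wt : ι → ℕ} {W s bm : ℕ} (h : SZ wt W s bm) {b : ℕ} (hb : b ≤ bm) :
    (rr wt (s - b) : ℝ) ≤ 2 * Real.exp 1 ^ 2 * Real.exp (-(((2 * Fintype.card ι : ℕ) : ℝ) / s * b)) * rr wt s := by
  set n : ℕ := 2 * Fintype.card ι with hn
  have hn1 : 1 ≤ n := card_pos' h.wt
  have hW1 : 1 ≤ W := W_pos h.wt
  have hs : 0 < s := by have := h.big; rw [← hn] at this; nlinarith
  have hsr : (0:ℝ) < s := by exact_mod_cast hs
  have hdn := rho_down h b hb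
  have h4 := tau_rho_le h
  rw [← hn] at hdn h4
  set τ : ℝ := (n:ℝ) / s with hτ
  have hτ0 : 0 ≤ τ := by positivity
  have hb1 := h.b1
  have hvpos : 0 < s - b := by omega
  have hvr : (0:ℝ) < ((s - b : ℕ) : ℝ) := by exact_mod_cast hvpos
  have h1 := rr_upper h.wt (s - b)
  rw [← hn] at h1
  have h1r : ((s - b : ℕ) : ℝ) * rr wt (s - b) ≤ (n:ℝ) * rho (rr wt) (s - b) := by exact_mod_cast h1
  have h2 : (s:ℝ) ≤ 2 * ((s - b : ℕ) : ℝ) := by
    have : s ≤ 2 * (s - b) := by omega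
    exact_mod_cast this
  have h5 : (rr wt (s - b) : ℝ) ≤ 2 * τ * rho (rr wt) (s - b) := by
    have e1 : (rr wt (s - b) : ℝ) ≤ n / ((s - b : ℕ) : ℝ) * rho (rr wt) (s - b) := by
      rw [div_mul_eq_mul_div, le_div_iff₀ hvr]; linarith
    have e2 : (n:ℝ) / ((s - b : ℕ) : ℝ) ≤ 2 * τ := by
      rw [hτ, div_le_iff₀ hvr]
      have : 2 * ((n:ℝ) / s) * ((s - b : ℕ) : ℝ) = n * ((2 * ((s - b : ℕ) : ℝ)) / s) := by ring
      rw [this]
      have e3 : (1:ℝ) ≤ (2 * ((s - b : ℕ) : ℝ)) / s := by rw [one_le_div hsr]; exact h2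
      calc (n:ℝ) = n * 1 := by ring
        _ ≤ _ := by gcongr
    refine e1.trans ?_
    gcongr
  have h6 : (rho (rr wt) (s - b) : ℝ) ≤ rho (rr wt) s * (Real.exp 1 * Real.exp (-(τ * b))) := by
    have e1 : (b:ℝ) * (3 * τ ^ 2 * W) ≤ 1 := by
      have hb3 := h.b3
      rw [← hn] at hb3
      have e2 : 3 * n ^ 2 * W * b ≤ s ^ 2 := le_trans (Nat.mul_le_mul_left _ hb) hb3
      have e2r : 3 * (n:ℝ) ^ 2 * W * b ≤ s ^ 2 := by exact_mod_cast e2
      have e3 : (b:ℝ) * (3 * τ ^ 2 * W) = (3 * (n:ℝ) ^ 2 * W * b) / s ^ 2 := by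
        rw [hτ]; ring
      rw [e3, div_le_one (by positivity)]
      exact e2r
    have e4 : Real.exp (b * τ - 1) ≤ Real.exp (b * (τ - 3 * τ ^ 2 * W)) := by
      apply Real.exp_le_exp.2
      nlinarith
    have e5 : (rho (rr wt) (s - b) : ℝ) * Real.exp (b * τ - 1) ≤ rho (rr wt) s :=
      le_trans (mul_le_mul_of_nonneg_left e4 (Nat.cast_nonneg _)) hdn
    have e6 : Real.exp (b * τ - 1) * (Real.exp 1 * Real.exp (-(τ * b))) = 1 := by
      rw [← Real.exp_add, ← Real.exp_add]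
      have : (b:ℝ) * τ - 1 + (1 + -(τ * b)) = 0 := by ring
      rw [this, Real.exp_zero]
    calc (rho (rr wt) (s - b) : ℝ) = (rho (rr wt) (s - b) : ℝ) * Real.exp (b * τ - 1) *
          (Real.exp 1 * Real.exp (-(τ * b))) := by rw [mul_assoc, e6, mul_one]
      _ ≤ _ := by gcongr
  calc (rr wt (s - b) : ℝ) ≤ 2 * τ * rho (rr wt) (s - b) := h5
    _ ≤ 2 * τ * (rho (rr wt) s * (Real.exp 1 * Real.exp (-(τ * b)))) := by gcongr
    _ = 2 * (τ * rho (rr wt) s) * (Real.exp 1 * Real.exp (-(τ * b))) := by ring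
    _ ≤ 2 * (Real.exp 1 * rr wt s) * (Real.exp 1 * Real.exp (-(τ * b))) := by gcongr
    _ = _ := by ring

/-- unified ratio bound -/
theorem ratio {wt : ι → ℕ} {W s bm : ℕ} (h : SZ wt W s bm) {v : ℕ} (hv : s ≤ v + bm) :
    (rr wt v : ℝ) ≤ 16 * Real.exp (((2 * Fintype.card ι : ℕ) : ℝ) / s * ((v:ℝ) - s)) * rr wt s := by
  have he1 : Real.exp 1 ≤ 2.7182818286 := Real.exp_one_lt_d9.le
  have he0 : 0 < Real.exp 1 := Real.exp_pos 1
  rcases le_total s v with h1 | h1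
  · obtain ⟨b, rfl⟩ := Nat.exists_eq_add_of_le h1
    have := ratio_up h b
    refine this.trans ?_
    have e1 : (((s + b : ℕ) : ℝ) - s) = b := by push_cast; ring
    rw [e1]
    gcongr
    linarith
  · obtain ⟨b, hb⟩ := Nat.exists_eq_add_of_le h1
    have h2 : v = s - b := by omega
    have hbs : b ≤ s := by omega
    have h3 := ratio_down h (show b ≤ bm by omega)
    rw [h2]
    refine h3.trans ?_
    have e1 : (((s - b : ℕ) : ℝ) - s) = -(b:ℝ) := by rw [Nat.cast_sub hbs]; ring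
    rw [e1, mul_neg]
    gcongr
    nlinarith

end

end Pool.Agent.Lib.GraphPart
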