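import Pool.Agent.Lib.GraphPart.Growth2

/-!
Comparison of the uniform measure on vectors of given weighted sum with products of geometric laws.
-/

namespace Pool.Agent.Lib.GraphPart

set_option linter.unusedSectionVars false

open Finset

section
variable {ι : Type} [Fintype ι] [DecidableEq ι]

/-- partial weighted sum -/
def massJ (wt : ι → ℕ) (J : Finset ι) (x : ι → ℕ × ℕ) : ℕ := ∑ i ∈ J, wt i * ((x i).1 + (x i).2)

/-- patterns supported on `J` with entries below `M` -/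
def box (J : Finset ι) (M : ι → ℕ) : Finset (ι → ℕ × ℕ) :=
  Fintype.piFinset fun i => if i ∈ J then range (M i) ×ˢ range (M i) else {(0, 0)}

lemma mem_box {J : Finset ι} {M : ι → ℕ} {y : ι → ℕ × ℕ} :
    y ∈ box J M ↔ (∀ i ∈ J, (y i).1 < M i ∧ (y i).2 < M i) ∧ ∀ i, i ∉ J → y i = (0, 0) := by
  unfold box
  rw [Fintype.mem_piFinset]
  constructor
  · intro h
    constructor
    · intro i hi
      have := h i
      rw [if_pos hi, Finset.mem_product, Finset.mem_range, Finset.mem_range] at this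
      exact this
    · intro i hi
      have := h i
      rw [if_neg hi, Finset.mem_singleton] at this
      exact this
  · rintro ⟨h1, h2⟩ i
    by_cases hi : i ∈ J
    · rw [if_pos hi, Finset.mem_product, Finset.mem_range, Finset.mem_range]
      exact h1 i hi
    · rw [if_neg hi, Finset.mem_singleton]
      exact h2 i hi

lemma mass_eq_massJ {wt : ι → ℕ} {J : Finset ι} {M : ι → ℕ} {y : ι → ℕ × ℕ} (hy : y ∈ box J M) :
    mass wt y = massJ wt J y := by
  unfold mass massJ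
  symm
  apply Finset.sum_subset (Finset.subset_univ J)
  intro i _ hi
  rw [(mem_box.1 hy).2 i hi]
  simp

/-- replace the entries in `J` -/
def repl (J : Finset ι) (y x : ι → ℕ × ℕ) : ι → ℕ × ℕ := fun i => if i ∈ J then y i else x i

lemma mass_repl (wt : ι → ℕ) (J : Finset ι) (y x : ι → ℕ × ℕ) :
    mass wt (repl J y x) + massJ wt J x = mass wt x + massJ wt J y := by
  have h1 : ∀ z : ι → ℕ × ℕ, mass wt z = massJ wt J z + massJ wt (univ \ J) z := by
    intro z
    unfold mass massJ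
    rw [add_comm, Finset.sum_sdiff (Finset.subset_univ J)]
  have h2 : massJ wt J (repl J y x) = massJ wt J y := by
    unfold massJ repl
    refine Finset.sum_congr rfl fun i hi => ?_
    rw [if_pos hi]
  have h3 : massJ wt (univ \ J) (repl J y x) = massJ wt (univ \ J) x := by
    unfold massJ repl
    refine Finset.sum_congr rfl fun i hi => ?_
    rw [if_neg (Finset.mem_sdiff.1 hi).2]
  rw [h1 (repl J y x), h1 x, h2, h3]
  ring

lemma massJ_le_mass (wt : ι → ℕ) (J : Finset ι) (x : ι → ℕ × ℕ) : massJ wt J x ≤ mass wt x := by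
  unfold massJ mass
  exact Finset.sum_le_sum_of_subset (Finset.subset_univ J)

/-- number of vectors with a given pattern on `J` -/
def NJ (wt : ι → ℕ) (J : Finset ι) (s : ℕ) (k : ι → ℕ × ℕ) : ℕ :=
  ((XS wt s).filter fun x => ∀ i ∈ J, x i = k i).card

lemma NJ_le {wt : ι → ℕ} (hw : ∀ i, 1 ≤ wt i) (J : Finset ι) (s : ℕ) (k y : ι → ℕ × ℕ) :
    NJ wt J s k ≤ NJ wt J (s - massJ wt J k + massJ wt J y) y := by
  unfold NJ
  apply Finset.card_le_card_of_injOn (fun x => repl J y x)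
  · intro x hx
    rw [Finset.mem_coe, Finset.mem_filter, mem_XS hw] at hx ⊢
    obtain ⟨h1, h2⟩ := hx
    have h3 : massJ wt J x = massJ wt J k := by
      unfold massJ
      refine Finset.sum_congr rfl fun i hi => ?_
      rw [h2 i hi]
    have h4 := mass_repl wt J y x
    have h5 := massJ_le_mass wt J x
    have h6 : mass wt (repl J y x) = s - massJ wt J k + massJ wt J y := by omega
    refine ⟨h6, fun i hi => ?_⟩
    simp only [repl]
    rw [if_pos hi]
  · intro x hx x' hx' h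
    rw [Finset.mem_coe, Finset.mem_filter] at hx hx'
    funext i
    by_cases hi : i ∈ J
    · rw [hx.2 i hi, hx'.2 i hi]
    · have := congrFun h i
      simp only [repl] at this
      rwa [if_neg hi, if_neg hi] at this

/-- patterns are disjoint -/
lemma sum_NJ_le {wt : ι → ℕ} (J : Finset ι) (s : ℕ) (B : Finset (ι → ℕ × ℕ))
    (hB : ∀ y ∈ B, ∀ i, i ∉ J → y i = (0, 0)) :
    ∑ y ∈ B, NJ wt J s y ≤ rr wt s := by
  unfold NJ rr
  rw [← Finset.card_biUnion]
  · apply Finset.card_le_card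
    intro x hx
    rw [Finset.mem_biUnion] at hx
    obtain ⟨y, _, hxy⟩ := hx
    exact (Finset.mem_filter.1 hxy).1
  · intro y hy y' hy' hne
    rw [Function.onFun, Finset.disjoint_left]
    intro x hx hx'
    apply hne
    rw [Finset.mem_filter] at hx hx'
    funext i
    by_cases hi : i ∈ J
    · rw [← hx.2 i hi, ← hx'.2 i hi]
    · rw [hB y hy i hi, hB y' hy' i hi]

/-- the geometric ratio -/
noncomputable def qq (wt : ι → ℕ) (s : ℕ) (i : ι) : ℝ := Real.exp (-(((2 * Fintype.card ι : ℕ) : ℝ) / s * wt i))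

lemma prod_qq (wt : ι → ℕ) (s : ℕ) (J : Finset ι) (y : ι → ℕ × ℕ) :
    ∏ i ∈ J, qq wt s i ^ ((y i).1 + (y i).2) =
      Real.exp (-(((2 * Fintype.card ι : ℕ) : ℝ) / s * massJ wt J y)) := by
  unfold qq massJ
  have : ∀ i ∈ J, Real.exp (-(((2 * Fintype.card ι : ℕ) : ℝ) / s * wt i)) ^ ((y i).1 + (y i).2) =
      Real.exp (-(((2 * Fintype.card ι : ℕ) : ℝ) / s * (wt i * ((y i).1 + (y i).2) : ℕ))) := by
    intro i _
    rw [← Real.exp_nat_mul]
    congr 1
    push_cast
    ring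
  rw [Finset.prod_congr rfl this, ← Real.exp_sum]
  congr 1
  push_cast
  rw [Finset.mul_sum, ← Finset.sum_neg_distrib]

lemma sum_box_prod (J : Finset ι) (M : ι → ℕ) (f : ι → ℕ × ℕ → ℝ) :
    ∑ y ∈ box J M, ∏ i ∈ J, f i (y i) = ∏ i ∈ J, ∑ p ∈ range (M i) ×ˢ range (M i), f i p := by
  have h1 : ∀ y : ι → ℕ × ℕ, ∏ i ∈ J, f i (y i) = ∏ i, (if i ∈ J then f i (y i) else 1) := by
    intro y
    rw [Finset.prod_ite_mem, Finset.univ_inter]
  simp only [h1]
  unfold box
  rw [← Finset.prod_univ_sum (fun i => if i ∈ J then range (M i) ×ˢ range (M i) else {(0, 0)})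
    (fun i p => if i ∈ J then f i p else 1)]
  rw [← Finset.univ_inter J, ← Finset.prod_ite_mem]
  refine Finset.prod_congr rfl fun i _ => ?_
  by_cases hi : i ∈ J
  · simp [hi]
  · simp [hi]

lemma geom_pair (q : ℝ) (M : ℕ) : ∑ p ∈ range M ×ˢ range M, q ^ (p.1 + p.2) = (∑ a ∈ range M, q ^ a) ^ 2 := by
  rw [sq, Finset.sum_mul_sum, Finset.sum_product]
  refine Finset.sum_congr rfl fun a _ => Finset.sum_congr rfl fun b _ => ?_
  rw [pow_add]

/-- key estimate for one pattern -/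
lemma pattern_bound {wt : ι → ℕ} {W s bm : ℕ} (h : SZ wt W s bm) (J : Finset ι) (M : ι → ℕ) (B0 : ℕ)
    (hB0 : ∑ i ∈ J, wt i * (2 * M i) ≤ B0) (k : ι → ℕ × ℕ) (hk : massJ wt J k ≤ bm) :
    (NJ wt J s k : ℝ) * ∏ i ∈ J, (∑ a ∈ range (M i), qq wt s i ^ a) ^ 2 ≤
      16 * (B0 + 1) * rr wt s * ∏ i ∈ J, qq wt s i ^ ((k i).1 + (k i).2) := by
  have hs : bm ≤ s := by have := h.b1; omega
  have hw := h.wt.pos
  set τ : ℝ := ((2 * Fintype.card ι : ℕ) : ℝ) / s with hτ
  set s' := s - massJ wt J k with hs'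
  have e1 : ∏ i ∈ J, (∑ a ∈ range (M i), qq wt s i ^ a) ^ 2 =
      ∑ y ∈ box J M, Real.exp (-(τ * massJ wt J y)) := by
    rw [Finset.prod_congr rfl fun i _ => (geom_pair (qq wt s i) (M i)).symm,
      ← sum_box_prod J M (fun i p => qq wt s i ^ (p.1 + p.2))]
    refine Finset.sum_congr rfl fun y _ => ?_
    exact prod_qq wt s J y
  rw [e1, Finset.mul_sum]
  have hle : ∀ y ∈ box J M, massJ wt J y ≤ B0 := by
    intro y hy
    refine le_trans ?_ hB0
    unfold massJ
    refine Finset.sum_le_sum fun i hi => Nat.mul_le_mul_left _ ?_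
    have := (mem_box.1 hy).1 i hi
    omega
  have e2 : ∑ y ∈ box J M, (NJ wt J s k : ℝ) * Real.exp (-(τ * massJ wt J y)) ≤
      ∑ b ∈ range (B0 + 1), ∑ y ∈ (box J M).filter (fun y => massJ wt J y = b),
        (NJ wt J (s' + b) y : ℝ) * Real.exp (-(τ * b)) := by
    rw [← Finset.sum_fiberwise_of_maps_to (s := box J M) (t := range (B0 + 1)) (g := fun y => massJ wt J y)
      (fun y hy => Finset.mem_range.2 (by have := hle y hy; omega))]
    refine Finset.sum_le_sum fun b _ => Finset.sum_le_sum fun y hy => ?_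
    have hyb := (Finset.mem_filter.1 hy).2
    have := NJ_le hw J s k y
    rw [hyb] at this ⊢
    gcongr
  refine e2.trans ?_
  have e3 : ∀ b ∈ range (B0 + 1), ∑ y ∈ (box J M).filter (fun y => massJ wt J y = b),
        (NJ wt J (s' + b) y : ℝ) * Real.exp (-(τ * b)) ≤ 16 * Real.exp (-(τ * massJ wt J k)) * rr wt s := by
    intro b _
    rw [← Finset.sum_mul]
    have h1 : ∑ y ∈ (box J M).filter (fun y => massJ wt J y = b), (NJ wt J (s' + b) y : ℝ) ≤ rr wt (s' + b) := by
      have := sum_NJ_le (wt := wt) J (s' + b) ((box J M).filter (fun y => massJ wt J y = b)) (fun y hy i hi =>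
        (mem_box.1 (Finset.mem_filter.1 hy).1).2 i hi)
      exact_mod_cast this
    have h2 := ratio h (v := s' + b) (by omega)
    rw [← hτ] at h2
    have h3 : (((s' + b : ℕ) : ℝ) - s) = b - massJ wt J k := by
      rw [hs']
      rw [Nat.cast_add, Nat.cast_sub (hk.trans hs)]
      ring
    rw [h3] at h2
    calc (∑ y ∈ (box J M).filter (fun y => massJ wt J y = b), (NJ wt J (s' + b) y : ℝ)) * Real.exp (-(τ * b)) ≤
        (16 * Real.exp (τ * (b - massJ wt J k)) * rr wt s) * Real.exp (-(τ * b)) := by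
          apply mul_le_mul_of_nonneg_right (h1.trans h2) (Real.exp_pos _).le
      _ = 16 * (Real.exp (τ * (b - massJ wt J k)) * Real.exp (-(τ * b))) * rr wt s := by ring
      _ = _ := by
          rw [← Real.exp_add]
          congr 3
          ring
  refine (Finset.sum_le_sum e3).trans (le_of_eq ?_)
  rw [Finset.sum_const, Finset.card_range, nsmul_eq_mul, prod_qq, ← hτ]
  push_cast
  ring

/-- the truncated geometric sums are at least half of the full ones -/
lemma half_prod {J : Finset ι} {q : ι → ℝ} {M : ι → ℕ} (hq0 : ∀ i ∈ J, 0 ≤ q i) (hq1 : ∀ i ∈ J, q i < 1)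
    (hM : ∀ i ∈ J, 4 * (J.card : ℝ) * q i ^ M i ≤ 1) :
    (1 / 2 : ℝ) ≤ ∏ i ∈ J, ((1 - q i) ^ 2 * (∑ a ∈ range (M i), q i ^ a) ^ 2) := by
  rcases Finset.eq_empty_or_nonempty J with h0 | h0
  · subst h0; norm_num
  have hJ : (0:ℝ) < J.card := by exact_mod_cast Finset.card_pos.2 h0
  have hJ1 : (1:ℝ) ≤ J.card := by exact_mod_cast Finset.card_pos.2 h0
  have h1 : ∀ i ∈ J, (1 - 1 / (4 * (J.card : ℝ))) ^ 2 ≤ (1 - q i) ^ 2 * (∑ a ∈ range (M i), q i ^ a) ^ 2 := by
    intro i hi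
    rw [← mul_pow]
    have e1 : (1 - q i) * ∑ a ∈ range (M i), q i ^ a = 1 - q i ^ M i := mul_neg_geom_sum _ _
    rw [e1]
    have e2 : q i ^ M i ≤ 1 / (4 * (J.card : ℝ)) := by
      rw [le_div_iff₀ (by positivity)]
      have := hM i hi
      linarith
    have e3 : 1 / (4 * (J.card : ℝ)) ≤ 1 := by
      rw [div_le_one (by positivity)]; linarith
    have e4 : 0 ≤ 1 - 1 / (4 * (J.card : ℝ)) := by linarith
    gcongr
  calc (1 / 2 : ℝ) ≤ 1 + (2 * J.card : ℕ) * (-(1 / (4 * (J.card : ℝ)))) := by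
        push_cast
        have : 2 * (J.card : ℝ) * (-(1 / (4 * (J.card : ℝ)))) = -(1 / 2) := by
          field_simp; norm_num
        rw [this]; norm_num
    _ ≤ (1 + -(1 / (4 * (J.card : ℝ)))) ^ (2 * J.card) := by
        apply one_add_mul_le_pow
        have : 1 / (4 * (J.card : ℝ)) ≤ 1 := by rw [div_le_one (by positivity)]; linarith
        linarith
    _ = ∏ _i ∈ J, (1 - 1 / (4 * (J.card : ℝ))) ^ 2 := by
        rw [Finset.prod_const, ← pow_mul]; ring_nf
    _ ≤ _ := Finset.prod_le_prod (fun _ _ => sq_nonneg _) h1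

/-- hypotheses on truncation -/
structure TR (wt : ι → ℕ) (s : ℕ) (J : Finset ι) (B0 : ℕ) : Prop where
  ex : ∃ M : ι → ℕ, ∑ i ∈ J, wt i * (2 * M i) ≤ B0 ∧ ∀ i ∈ J, 4 * (J.card : ℝ) * qq wt s i ^ M i ≤ 1

lemma qq_pos (wt : ι → ℕ) (s : ℕ) (i : ι) : 0 < qq wt s i := Real.exp_pos _

lemma s_pos {wt : ι → ℕ} {W s bm : ℕ} (h : SZ wt W s bm) : 0 < s := by
  have h1 := card_pos' h.wt
  have h2 := W_pos h.wt
  have h3 := h.big
  have : 1 * 1 ≤ (2 * Fintype.card ι) * W := Nat.mul_le_mul h1 h2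
  have h4 : 2 * (2 * Fintype.card ι) * W = 2 * ((2 * Fintype.card ι) * W) := by ring
  omega

lemma tau_pos {wt : ι → ℕ} {W s bm : ℕ} (h : SZ wt W s bm) : 0 < ((2 * Fintype.card ι : ℕ) : ℝ) / s := by
  have h1 : (0:ℝ) < ((2 * Fintype.card ι : ℕ) : ℝ) := by exact_mod_cast card_pos' h.wt
  have h2 : (0:ℝ) < s := by exact_mod_cast s_pos h
  positivity

lemma qq_lt_one {wt : ι → ℕ} {W s bm : ℕ} (h : SZ wt W s bm) (i : ι) : qq wt s i < 1 := by
  unfold qq
  rw [Real.exp_lt_one_iff]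
  have h1 := tau_pos h
  have h2 : (0:ℝ) < wt i := by exact_mod_cast h.wt.pos i
  have := mul_pos h1 h2
  linarith

/-- number of vectors with a given pattern, compared with the product of geometric laws -/
lemma pattern_bound' {wt : ι → ℕ} {W s bm : ℕ} (h : SZ wt W s bm) {J : Finset ι} {B0 : ℕ} (hT : TR wt s J B0)
    (k : ι → ℕ × ℕ) (hk : massJ wt J k ≤ bm) :
    (NJ wt J s k : ℝ) ≤ 32 * (B0 + 1) * rr wt s *
      ∏ i ∈ J, ((1 - qq wt s i) ^ 2 * qq wt s i ^ ((k i).1 + (k i).2)) := by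
  obtain ⟨M, hM1, hM2⟩ := hT.ex
  have h1 := pattern_bound h J M B0 hM1 k hk
  have h2 := half_prod (J := J) (q := qq wt s) (M := M) (fun i _ => (qq_pos wt s i).le) (fun i _ => qq_lt_one h i) hM2
  rw [Finset.prod_mul_distrib] at h2 ⊢
  set P1 := ∏ i ∈ J, (1 - qq wt s i) ^ 2 with hP1
  set P2 := ∏ i ∈ J, (∑ a ∈ range (M i), qq wt s i ^ a) ^ 2 with hP2
  set P3 := ∏ i ∈ J, qq wt s i ^ ((k i).1 + (k i).2) with hP3
  have hP1n : 0 ≤ P1 := Finset.prod_nonneg fun i _ => sq_nonneg _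
  have hN : (0:ℝ) ≤ NJ wt J s k := Nat.cast_nonneg _
  calc (NJ wt J s k : ℝ) = 2 * (NJ wt J s k * (1 / 2)) := by ring
    _ ≤ 2 * (NJ wt J s k * (P1 * P2)) := by gcongr
    _ = 2 * P1 * (NJ wt J s k * P2) := by ring
    _ ≤ 2 * P1 * (16 * (B0 + 1) * rr wt s * P3) := by gcongr
    _ = _ := by ring

/-- expectation of a product of functions of single entries -/
theorem product_bound {wt : ι → ℕ} {W s bm : ℕ} (h : SZ wt W s bm) {J : Finset ι} {B0 : ℕ} (hT : TR wt s J B0)
    (L : ι → ℕ) (hL : ∑ i ∈ J, wt i * (2 * L i) ≤ bm) (φ : ι → ℕ × ℕ → ℝ) (hφ : ∀ i p, 0 ≤ φ i p) :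
    ∑ x ∈ (XS wt s).filter (fun x => ∀ i ∈ J, (x i).1 < L i ∧ (x i).2 < L i), ∏ i ∈ J, φ i (x i) ≤
      32 * (B0 + 1) * rr wt s * ∏ i ∈ J, ∑ p ∈ range (L i) ×ˢ range (L i),
        (1 - qq wt s i) ^ 2 * qq wt s i ^ (p.1 + p.2) * φ i p := by
  set S := (XS wt s).filter (fun x => ∀ i ∈ J, (x i).1 < L i ∧ (x i).2 < L i) with hS
  set pr : (ι → ℕ × ℕ) → (ι → ℕ × ℕ) := fun x => repl J x (fun _ => (0, 0)) with hpr
  have hmap : ∀ x ∈ S, pr x ∈ box J L := by
    intro x hx
    rw [mem_box]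
    constructor
    · intro i hi
      simp only [hpr, repl]
      rw [if_pos hi]
      exact (Finset.mem_filter.1 hx).2 i hi
    · intro i hi
      simp only [hpr, repl]
      rw [if_neg hi]
  rw [← Finset.sum_fiberwise_of_maps_to hmap]
  have h1 : ∀ k ∈ box J L, ∑ x ∈ S.filter (fun x => pr x = k), ∏ i ∈ J, φ i (x i) ≤
      32 * (B0 + 1) * rr wt s * ∏ i ∈ J, ((1 - qq wt s i) ^ 2 * qq wt s i ^ ((k i).1 + (k i).2) * φ i (k i)) := by
    intro k hk
    have e1 : ∀ x ∈ S.filter (fun x => pr x = k), ∏ i ∈ J, φ i (x i) = ∏ i ∈ J, φ i (k i) := by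
      intro x hx
      have hx2 := (Finset.mem_filter.1 hx).2
      refine Finset.prod_congr rfl fun i hi => ?_
      have := congrFun hx2 i
      simp only [hpr, repl] at this
      rw [if_pos hi] at this
      rw [this]
    rw [Finset.sum_congr rfl e1, Finset.sum_const, nsmul_eq_mul]
    have e2 : ((S.filter (fun x => pr x = k)).card : ℝ) ≤ NJ wt J s k := by
      have : (S.filter (fun x => pr x = k)).card ≤ NJ wt J s k := by
        unfold NJ
        apply Finset.card_le_card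
        intro x hx
        rw [Finset.mem_filter] at hx ⊢
        refine ⟨(Finset.mem_filter.1 hx.1).1, fun i hi => ?_⟩
        have := congrFun hx.2 i
        simp only [hpr, repl] at this
        rw [if_pos hi] at this
        exact this
      exact_mod_cast this
    have e3 : massJ wt J k ≤ bm := by
      refine le_trans ?_ hL
      unfold massJ
      refine Finset.sum_le_sum fun i hi => Nat.mul_le_mul_left _ ?_
      have := (mem_box.1 hk).1 i hi
      omega
    have e4 := pattern_bound' h hT k e3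
    have e5 : 0 ≤ ∏ i ∈ J, φ i (k i) := Finset.prod_nonneg fun i _ => hφ i _
    calc ((S.filter (fun x => pr x = k)).card : ℝ) * ∏ i ∈ J, φ i (k i) ≤
        (32 * (B0 + 1) * rr wt s * ∏ i ∈ J, ((1 - qq wt s i) ^ 2 * qq wt s i ^ ((k i).1 + (k i).2))) *
          ∏ i ∈ J, φ i (k i) := mul_le_mul_of_nonneg_right (e2.trans e4) e5
      _ = _ := by rw [mul_assoc, ← Finset.prod_mul_distrib]
  refine (Finset.sum_le_sum h1).trans (le_of_eq ?_)
  rw [← Finset.mul_sum]
  congr 1
  exact sum_box_prod J L (fun i p => (1 - qq wt s i) ^ 2 * qq wt s i ^ (p.1 + p.2) * φ i p)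

end

end Pool.Agent.Lib.GraphPart
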