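import Mathlib

/-!
A smooth test function with bounded second and third differences.
-/

namespace Pool.Agent.Lib.GraphPart

open Set Filter Topology

/-- A bounded continuous test function with controlled symmetric second differences. -/
structure TF (f D : ℝ → ℝ) (M2 M3 : ℝ) : Prop where
  cont : Continuous f
  bd : ∀ x, |f x| ≤ 1
  h2 : ∀ x h, |f (x + h) + f (x - h) - 2 * f x| ≤ M2 * h ^ 2
  h3 : ∀ x h, |f (x + h) + f (x - h) - 2 * f x - h ^ 2 * D x| ≤ M3 * |h| ^ 3

lemma taylor_first {f f1 : ℝ → ℝ} {M : ℝ} (h1 : ∀ x, HasDerivAt f (f1 x) x)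
    (hL : ∀ x y, |f1 y - f1 x| ≤ M * |y - x|) (hM : 0 ≤ M) (x h : ℝ) :
    |f (x + h) - f x - h * f1 x| ≤ M * |h| ^ 2 := by
  have hd : ∀ t ∈ Metric.closedBall (0:ℝ) |h|, HasDerivWithinAt (fun t => f (x + t) - t * f1 x)
      (f1 (x + t) - f1 x) (Metric.closedBall (0:ℝ) |h|) t := by
    intro t _
    have e1 : HasDerivAt (fun t => f (x + t)) (f1 (x + t)) t := by
      have := (h1 (x + t)).comp_const_add x t
      simpa using this
    have e2 : HasDerivAt (fun t : ℝ => t * f1 x) (1 * f1 x) t := (hasDerivAt_id t).mul_const (f1 x)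
    rw [one_mul] at e2
    exact (e1.sub e2).hasDerivWithinAt
  have hb : ∀ t ∈ Metric.closedBall (0:ℝ) |h|, ‖f1 (x + t) - f1 x‖ ≤ M * |h| := by
    intro t ht
    rw [Metric.mem_closedBall, dist_zero_right] at ht
    rw [Real.norm_eq_abs]
    refine (hL x (x + t)).trans ?_
    rw [add_sub_cancel_left]
    exact mul_le_mul_of_nonneg_left ht hM
  have h0 : (0:ℝ) ∈ Metric.closedBall (0:ℝ) |h| := by simp
  have hh : h ∈ Metric.closedBall (0:ℝ) |h| := by simp
  have := (convex_closedBall (0:ℝ) |h|).norm_image_sub_le_of_norm_hasDerivWithin_le hd hb h0 hh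
  simp only [add_zero, zero_mul, sub_zero, Real.norm_eq_abs] at this
  calc |f (x + h) - f x - h * f1 x| = |f (x + h) - h * f1 x - f x| := by ring_nf
    _ ≤ M * |h| * |h| := this
    _ = M * |h| ^ 2 := by ring

lemma taylor_second {f f1 f2 : ℝ → ℝ} {M : ℝ} (h1 : ∀ x, HasDerivAt f (f1 x) x)
    (h2 : ∀ x, HasDerivAt f1 (f2 x) x)
    (hL : ∀ x y, |f2 y - f2 x| ≤ M * |y - x|) (hM : 0 ≤ M) (x h : ℝ) :
    |f (x + h) - f x - h * f1 x - h ^ 2 / 2 * f2 x| ≤ M * |h| ^ 3 := by
  have hd : ∀ t ∈ Metric.closedBall (0:ℝ) |h|, HasDerivWithinAt (fun t => f (x + t) - t * f1 x - t ^ 2 / 2 * f2 x)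
      (f1 (x + t) - f1 x - t * f2 x) (Metric.closedBall (0:ℝ) |h|) t := by
    intro t _
    have e1 : HasDerivAt (fun t => f (x + t)) (f1 (x + t)) t := by
      have := (h1 (x + t)).comp_const_add x t
      simpa using this
    have e2 : HasDerivAt (fun t : ℝ => t * f1 x) (1 * f1 x) t := (hasDerivAt_id t).mul_const (f1 x)
    rw [one_mul] at e2
    have e3 : HasDerivAt (fun t : ℝ => t ^ 2 / 2 * f2 x) (t * f2 x) t := by
      have e4 : HasDerivAt (fun t : ℝ => t ^ 2 / 2) t t := by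
        have := (hasDerivAt_pow 2 t).div_const 2
        simpa using this
      exact e4.mul_const (f2 x)
    exact ((e1.sub e2).sub e3).hasDerivWithinAt
  have hb : ∀ t ∈ Metric.closedBall (0:ℝ) |h|, ‖f1 (x + t) - f1 x - t * f2 x‖ ≤ M * |h| ^ 2 := by
    intro t ht
    rw [Metric.mem_closedBall, dist_zero_right, Real.norm_eq_abs] at ht
    rw [Real.norm_eq_abs]
    refine (taylor_first h2 hL hM x t).trans ?_
    gcongr
  have h0 : (0:ℝ) ∈ Metric.closedBall (0:ℝ) |h| := by simp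
  have hh : h ∈ Metric.closedBall (0:ℝ) |h| := by simp
  have := (convex_closedBall (0:ℝ) |h|).norm_image_sub_le_of_norm_hasDerivWithin_le hd hb h0 hh
  simp only [add_zero, zero_mul, sub_zero, Real.norm_eq_abs] at this
  have h5 : f (x + h) - h * f1 x - h ^ 2 / 2 * f2 x - (f x - 0 ^ 2 / 2 * f2 x) =
      f (x + h) - f x - h * f1 x - h ^ 2 / 2 * f2 x := by ring
  rw [h5] at this
  calc |f (x + h) - f x - h * f1 x - h ^ 2 / 2 * f2 x| ≤ M * |h| ^ 2 * |h| := this
    _ = M * |h| ^ 3 := by ring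

lemma lipschitz_of_deriv {g g1 : ℝ → ℝ} {M : ℝ} (h1 : ∀ x, HasDerivAt g (g1 x) x)
    (hb : ∀ x, |g1 x| ≤ M) (x y : ℝ) : |g y - g x| ≤ M * |y - x| := by
  have := (convex_univ (𝕜 := ℝ) (E := ℝ)).norm_image_sub_le_of_norm_hasDerivWithin_le
    (f := g) (f' := g1) (C := M) (fun t _ => (h1 t).hasDerivWithinAt) (fun t _ => by
      rw [Real.norm_eq_abs]; exact hb t) (mem_univ x) (mem_univ y)
  simpa [Real.norm_eq_abs] using this

/-- The standard smooth test function. -/
theorem exists_TF : ∃ (D : ℝ → ℝ) (M2 M3 : ℝ), 0 ≤ M2 ∧ 0 ≤ M3 ∧ TF Real.smoothTransition D M2 M3 := by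
  set f := Real.smoothTransition with hf
  have c0' : ContDiff ℝ (⊤ : ℕ∞) f := Real.smoothTransition.contDiff
  obtain ⟨d0, c1⟩ := contDiff_infty_iff_deriv.1 c0'
  obtain ⟨d1, c2⟩ := contDiff_infty_iff_deriv.1 c1
  obtain ⟨d2, c3⟩ := contDiff_infty_iff_deriv.1 c2
  set f1 := deriv f with hf1
  set f2 := deriv f1 with hf2
  set f3 := deriv f2 with hf3
  have H0 : ∀ x, HasDerivAt f (f1 x) x := fun x => (d0 x).hasDerivAt
  have H1 : ∀ x, HasDerivAt f1 (f2 x) x := fun x => (d1 x).hasDerivAt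
  have H2 : ∀ x, HasDerivAt f2 (f3 x) x := fun x => (d2 x).hasDerivAt
  -- vanishing outside [0,1]
  have z1 : ∀ x, x ∉ Icc (0:ℝ) 1 → f1 =ᶠ[𝓝 x] fun _ => 0 := by
    intro x hx
    rw [mem_Icc, not_and_or, not_le, not_le] at hx
    rcases hx with hx | hx
    · have e : f =ᶠ[𝓝 x] fun _ => 0 := by
        filter_upwards [Iio_mem_nhds hx] with y hy
        exact Real.smoothTransition.zero_of_nonpos (le_of_lt hy)
      have := e.deriv
      simpa using this
    · have e : f =ᶠ[𝓝 x] fun _ => 1 := by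
        filter_upwards [Ioi_mem_nhds hx] with y hy
        exact Real.smoothTransition.one_of_one_le (le_of_lt hy)
      have := e.deriv
      simpa using this
  have z2 : ∀ x, x ∉ Icc (0:ℝ) 1 → f2 =ᶠ[𝓝 x] fun _ => 0 := by
    intro x hx
    have := (z1 x hx).deriv
    simpa using this
  have z3 : ∀ x, x ∉ Icc (0:ℝ) 1 → f3 x = 0 := by
    intro x hx
    have := (z2 x hx).deriv
    have h := this.self_of_nhds
    simpa using h
  have cont2 : Continuous f2 := c2.continuous
  have cont3 : Continuous f3 := c3.continuous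
  obtain ⟨M2, hM2⟩ := isCompact_Icc.exists_bound_of_continuousOn (f := f2) (s := Icc (0:ℝ) 1) cont2.continuousOn
  obtain ⟨M3, hM3⟩ := isCompact_Icc.exists_bound_of_continuousOn (f := f3) (s := Icc (0:ℝ) 1) cont3.continuousOn
  have hM2n : 0 ≤ M2 := le_trans (norm_nonneg _) (hM2 0 (by simp))
  have hM3n : 0 ≤ M3 := le_trans (norm_nonneg _) (hM3 0 (by simp))
  have b2 : ∀ x, |f2 x| ≤ M2 := by
    intro x
    by_cases hx : x ∈ Icc (0:ℝ) 1
    · exact hM2 x hx
    · rw [(z2 x hx).self_of_nhds]; simpa using hM2n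
  have b3 : ∀ x, |f3 x| ≤ M3 := by
    intro x
    by_cases hx : x ∈ Icc (0:ℝ) 1
    · exact hM3 x hx
    · rw [z3 x hx]; simpa using hM3n
  refine ⟨f2, 2 * M2, 2 * M3, by positivity, by positivity, ⟨c0'.continuous, ?_, ?_, ?_⟩⟩
  · intro x
    rw [abs_of_nonneg (Real.smoothTransition.nonneg x)]
    exact Real.smoothTransition.le_one x
  · intro x h
    have L := lipschitz_of_deriv H1 b2
    have e1 := taylor_first H0 L hM2n x h
    have e2 := taylor_first H0 L hM2n x (-h)
    rw [abs_neg, ← sub_eq_add_neg] at e2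
    have e3 : f (x + h) + f (x - h) - 2 * f x = (f (x + h) - f x - h * f1 x) + (f (x - h) - f x - -h * f1 x) := by ring
    rw [e3]
    calc _ ≤ |f (x + h) - f x - h * f1 x| + |f (x - h) - f x - -h * f1 x| := abs_add_le _ _
      _ ≤ M2 * |h| ^ 2 + M2 * |h| ^ 2 := add_le_add e1 e2
      _ = 2 * M2 * h ^ 2 := by rw [sq_abs]; ring
  · intro x h
    have L := lipschitz_of_deriv H2 b3
    have e1 := taylor_second H0 H1 L hM3n x h
    have e2 := taylor_second H0 H1 L hM3n x (-h)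
    rw [abs_neg, ← sub_eq_add_neg] at e2
    have e3 : f (x + h) + f (x - h) - 2 * f x - h ^ 2 * f2 x =
        (f (x + h) - f x - h * f1 x - h ^ 2 / 2 * f2 x) + (f (x - h) - f x - -h * f1 x - (-h) ^ 2 / 2 * f2 x) := by ring
    rw [e3]
    calc _ ≤ _ := abs_add_le _ _
      _ ≤ M3 * |h| ^ 3 + M3 * |h| ^ 3 := add_le_add e1 e2
      _ = 2 * M3 * |h| ^ 3 := by ring

lemma TF.scale {f D : ℝ → ℝ} {M2 M3 : ℝ} (h : TF f D M2 M3) (t : ℝ) {s : ℝ} (hs : 0 < s) :
    TF (fun x => f ((x - t) / s)) (fun x => D ((x - t) / s) / s ^ 2) (M2 / s ^ 2) (M3 / s ^ 3) where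
  cont := h.cont.comp ((continuous_id.sub continuous_const).div_const s)
  bd := fun x => h.bd _
  h2 := by
    intro x y
    have := h.h2 ((x - t) / s) (y / s)
    have e1 : (x - t) / s + y / s = (x + y - t) / s := by ring
    have e2 : (x - t) / s - y / s = (x - y - t) / s := by ring
    rw [e1, e2] at this
    refine this.trans (le_of_eq ?_)
    ring
  h3 := by
    intro x y
    have := h.h3 ((x - t) / s) (y / s)
    have e1 : (x - t) / s + y / s = (x + y - t) / s := by ring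
    have e2 : (x - t) / s - y / s = (x - y - t) / s := by ring
    rw [e1, e2] at this
    have e3 : y ^ 2 * (D ((x - t) / s) / s ^ 2) = (y / s) ^ 2 * D ((x - t) / s) := by ring
    rw [e3]
    refine this.trans (le_of_eq ?_)
    rw [abs_div, abs_of_pos hs]
    ring

end Pool.Agent.Lib.GraphPart
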