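import Pool.Agent.Lib.GraphPart.Ex
import Pool.Agent.Lib.GraphPart.TestFn

/-!
Comparison of a signed sum with a Gaussian variable by replacement of the terms.
-/

namespace Pool.Agent.Lib.GraphPart

open Finset MeasureTheory ProbabilityTheory
open scoped NNReal

/-- the standard Gaussian measure -/
noncomputable abbrev gam : Measure ℝ := gaussianReal 0 1

lemma integrable_bdd {μ : Measure ℝ} [IsProbabilityMeasure μ] {f : ℝ → ℝ} (hf : Continuous f) {C : ℝ}
    (hb : ∀ x, |f x| ≤ C) : Integrable f μ :=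
  Integrable.of_bound hf.aestronglyMeasurable C (Filter.Eventually.of_forall fun x => by
    rw [Real.norm_eq_abs]; exact hb x)

lemma gauss_semigroup {f : ℝ → ℝ} (hf : Continuous f) {C : ℝ} (hb : ∀ x, |f x| ≤ C) (v w : ℝ≥0) (y : ℝ) :
    ∫ z, f (y + z) ∂(gaussianReal 0 (v + w)) =
      ∫ z, ∫ z', f ((y + z) + z') ∂(gaussianReal 0 w) ∂(gaussianReal 0 v) := by
  have h1 : gaussianReal 0 (v + w) = Measure.conv (gaussianReal 0 v) (gaussianReal 0 w) := by
    rw [gaussianReal_conv_gaussianReal, add_zero]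
  rw [h1, integral_conv]
  · refine integral_congr_ae (Filter.Eventually.of_forall fun z => ?_)
    refine integral_congr_ae (Filter.Eventually.of_forall fun z' => ?_)
    simp only
    rw [add_assoc]
  · rw [← h1]
    exact integrable_bdd (hf.comp (continuous_const.add continuous_id)) (fun x => hb _)

lemma integral_sq_gam : ∫ g, g ^ 2 ∂gam = 1 := by
  have h1 := variance_eq_integral (X := fun x : ℝ => x) (μ := gam) (by fun_prop)
  rw [variance_fun_id_gaussianReal, integral_id_gaussianReal] at h1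
  simpa using h1.symm

lemma integrable_sq_gam : Integrable (fun g : ℝ => g ^ 2) gam := by
  have h := (memLp_id_gaussianReal (μ := 0) (v := 1) 2).integrable_norm_pow (p := 2) (by norm_num)
  simpa using h

lemma integrable_cube_gam : Integrable (fun g : ℝ => |g| ^ 3) gam := by
  have h := (memLp_id_gaussianReal (μ := 0) (v := 1) 3).integrable_norm_pow (p := 3) (by norm_num)
  simpa using h

/-- the square as a nonnegative real -/
noncomputable def sqN (a : ℝ) : ℝ≥0 := NNReal.mk (a ^ 2) (sq_nonneg a)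

lemma coe_sqN (a : ℝ) : ((sqN a : ℝ≥0) : ℝ) = a ^ 2 := rfl

lemma gaussianReal_sq (a : ℝ) : gaussianReal 0 (sqN a) = gam.map (fun x => a * x) := by
  have h := gaussianReal_map_const_mul (μ := 0) (v := 1) a
  rw [mul_zero, mul_one] at h
  exact h.symm

lemma integral_gam_neg {F : ℝ → ℝ} (hF : Continuous F) : ∫ g, F g ∂gam = ∫ g, F (-g) ∂gam := by
  have h : gam.map (fun x : ℝ => -x) = gam := by
    have := gaussianReal_map_neg (μ := 0) (v := 1)
    rwa [neg_zero] at this
  have h2 := integral_map (μ := gam) (φ := fun x : ℝ => -x) (by fun_prop) (f := F) hF.aestronglyMeasurable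
  rw [h] at h2
  exact h2

/-- integral against a small Gaussian, symmetrised -/
lemma gauss_symm {f : ℝ → ℝ} (hf : Continuous f) {C : ℝ} (hb : ∀ x, |f x| ≤ C) (z a : ℝ) :
    ∫ y, f (z + y) ∂(gaussianReal 0 (sqN a)) =
      (∫ g, (f (z + a * g) + f (z - a * g)) ∂gam) / 2 := by
  rw [gaussianReal_sq, integral_map (by fun_prop) (by fun_prop)]
  have h1 : Integrable (fun g => f (z + a * g)) gam := integrable_bdd (by fun_prop) fun x => hb _
  have h2 : Integrable (fun g => f (z - a * g)) gam := integrable_bdd (by fun_prop) fun x => hb _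
  rw [integral_add h1 h2]
  have h3 : ∫ g, f (z + a * g) ∂gam = ∫ g, f (z - a * g) ∂gam := by
    rw [integral_gam_neg (F := fun g => f (z + a * g)) (by fun_prop)]
    refine integral_congr_ae (Filter.Eventually.of_forall fun g => ?_)
    simp only
    congr 1; ring
  rw [← h3]; ring

/-- the absolute third moment constant -/
noncomputable def C3 : ℝ := (1 + ∫ g, |g| ^ 3 ∂gam) / 2

lemma C3_pos : 0 < C3 := by
  unfold C3
  have : 0 ≤ ∫ g, |g| ^ 3 ∂gam := integral_nonneg fun g => by positivity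
  linarith

lemma one_step {f D : ℝ → ℝ} {M2 M3 : ℝ} (h : TF f D M2 M3) (z a : ℝ) :
    |(f (z + a) + f (z - a)) / 2 - ∫ y, f (z + y) ∂(gaussianReal 0 (sqN a))| ≤
      C3 * M3 * |a| ^ 3 := by
  rw [gauss_symm h.cont h.bd]
  have i1 : Integrable (fun g => f (z + a * g) + f (z - a * g)) gam :=
    (integrable_bdd (h.cont.comp (by fun_prop)) fun x => h.bd _).add
      (integrable_bdd (h.cont.comp (by fun_prop)) fun x => h.bd _)
  have i2 : Integrable (fun g => 2 * f z + g ^ 2 * (a ^ 2 * D z)) gam :=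
    (integrable_const _).add (integrable_sq_gam.mul_const _)
  have e1 : ∫ g, (2 * f z + g ^ 2 * (a ^ 2 * D z)) ∂gam = 2 * f z + a ^ 2 * D z := by
    have e1a : ∫ g, g ^ 2 * (a ^ 2 * D z) ∂gam = a ^ 2 * D z := by
      rw [integral_mul_const, integral_sq_gam, one_mul]
    rw [integral_add (integrable_const _) (integrable_sq_gam.mul_const _), e1a, integral_const]
    simp
  have e2 : |∫ g, (f (z + a * g) + f (z - a * g)) ∂gam - (2 * f z + a ^ 2 * D z)| ≤
      M3 * |a| ^ 3 * ∫ g, |g| ^ 3 ∂gam := by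
    rw [← e1, ← integral_sub i1 i2, ← integral_const_mul]
    refine (abs_integral_le_integral_abs).trans ?_
    refine integral_mono (i1.sub i2).abs (integrable_cube_gam.const_mul _) fun g => ?_
    simp only
    have := h.h3 z (a * g)
    rw [abs_mul] at this
    calc |f (z + a * g) + f (z - a * g) - (2 * f z + g ^ 2 * (a ^ 2 * D z))| =
        |f (z + a * g) + f (z - a * g) - 2 * f z - (a * g) ^ 2 * D z| := by congr 1; ring
      _ ≤ M3 * (|a| * |g|) ^ 3 := this
      _ = M3 * |a| ^ 3 * |g| ^ 3 := by ring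
  have e3 := h.h3 z a
  have e4 : (f (z + a) + f (z - a)) / 2 - (∫ g, (f (z + a * g) + f (z - a * g)) ∂gam) / 2 =
      ((f (z + a) + f (z - a) - 2 * f z - a ^ 2 * D z) -
        (∫ g, (f (z + a * g) + f (z - a * g)) ∂gam - (2 * f z + a ^ 2 * D z))) / 2 := by ring
  rw [e4, abs_div, abs_of_pos (by norm_num : (0:ℝ) < 2), div_le_iff₀ (by norm_num)]
  calc _ ≤ _ := abs_sub _ _
    _ ≤ M3 * |a| ^ 3 + M3 * |a| ^ 3 * ∫ g, |g| ^ 3 ∂gam := add_le_add e3 e2
    _ = C3 * M3 * |a| ^ 3 * 2 := by unfold C3; ring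

lemma small_gauss {f D : ℝ → ℝ} {M2 M3 : ℝ} (h : TF f D M2 M3) (z : ℝ) (v : ℝ≥0) :
    |∫ y, f (z + y) ∂(gaussianReal 0 v) - f z| ≤ M2 * v / 2 := by
  obtain ⟨a, ha⟩ : ∃ a : ℝ, v = sqN a := ⟨Real.sqrt v, by
    apply NNReal.coe_injective
    rw [coe_sqN, Real.sq_sqrt (NNReal.coe_nonneg v)]⟩
  rw [ha, gauss_symm h.cont h.bd]
  have i1 : Integrable (fun g => f (z + a * g) + f (z - a * g)) gam :=
    (integrable_bdd (h.cont.comp (by fun_prop)) fun x => h.bd _).add
      (integrable_bdd (h.cont.comp (by fun_prop)) fun x => h.bd _)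
  have e2 : |∫ g, (f (z + a * g) + f (z - a * g)) ∂gam - 2 * f z| ≤ M2 * a ^ 2 * ∫ g, g ^ 2 ∂gam := by
    have e3 : 2 * f z = ∫ _g : ℝ, 2 * f z ∂gam := by simp
    rw [e3, ← integral_sub i1 (integrable_const _), ← integral_const_mul]
    refine (abs_integral_le_integral_abs).trans ?_
    refine integral_mono (i1.sub (integrable_const _)).abs (integrable_sq_gam.const_mul _) fun g => ?_
    simp only
    have := h.h2 z (a * g)
    calc _ ≤ M2 * (a * g) ^ 2 := this
      _ = M2 * a ^ 2 * g ^ 2 := by ring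
  rw [integral_sq_gam, mul_one] at e2
  have e4 : (∫ g, (f (z + a * g) + f (z - a * g)) ∂gam) / 2 - f z =
      (∫ g, (f (z + a * g) + f (z - a * g)) ∂gam - 2 * f z) / 2 := by ring
  rw [e4, abs_div, abs_of_pos (by norm_num : (0:ℝ) < 2)]
  rw [coe_sqN]
  gcongr

/-- variance as a nonnegative real -/
noncomputable def vN (a : ℕ → ℝ) (n : ℕ) : ℝ≥0 := ∑ j ∈ range n, sqN (a j)

lemma vN_succ (a : ℕ → ℝ) (n : ℕ) : vN a (n + 1) = vN a n + sqN (a n) := by
  unfold vN; rw [Finset.sum_range_succ]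

lemma vN_coe (a : ℕ → ℝ) (n : ℕ) : ((vN a n : ℝ≥0) : ℝ) = ∑ j ∈ range n, a j ^ 2 := by
  unfold vN; push_cast; exact Finset.sum_congr rfl fun j _ => coe_sqN _

lemma abs_integral_sub_le {μ : Measure ℝ} [IsProbabilityMeasure μ] {F G : ℝ → ℝ}
    (hF : Integrable F μ) (hG : Integrable G μ) {κ : ℝ} (h : ∀ x, |F x - G x| ≤ κ) :
    |∫ x, F x ∂μ - ∫ x, G x ∂μ| ≤ κ := by
  rw [← integral_sub hF hG]
  have := norm_integral_le_of_norm_le_const (μ := μ) (f := fun x => F x - G x) (C := κ)
    (Filter.Eventually.of_forall fun x => by rw [Real.norm_eq_abs]; exact h x)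
  simpa [Real.norm_eq_abs] using this

lemma continuous_gint {f : ℝ → ℝ} (hf : Continuous f) {C : ℝ} (hb : ∀ x, |f x| ≤ C) (v : ℝ≥0) :
    Continuous (fun y => ∫ z, f (y + z) ∂(gaussianReal 0 v)) := by
  apply continuous_of_dominated (bound := fun _ => C)
  · intro y
    exact (hf.comp (by fun_prop : Continuous fun z => y + z)).aestronglyMeasurable
  · intro y
    exact Filter.Eventually.of_forall fun z => by rw [Real.norm_eq_abs]; exact hb _
  · exact integrable_const _
  · exact Filter.Eventually.of_forall fun z => by fun_prop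

lemma abs_gint_le {f : ℝ → ℝ} {C : ℝ} (hb : ∀ x, |f x| ≤ C) (v : ℝ≥0) (y : ℝ) :
    |∫ z, f (y + z) ∂(gaussianReal 0 v)| ≤ C := by
  have := norm_integral_le_of_norm_le_const (μ := gaussianReal 0 v) (f := fun z => f (y + z)) (C := C)
    (Filter.Eventually.of_forall fun x => by rw [Real.norm_eq_abs]; exact hb _)
  simpa [Real.norm_eq_abs] using this

/-- Replacement of signs by Gaussian variables. -/
lemma lindeberg {f D : ℝ → ℝ} {M2 M3 : ℝ} (h : TF f D M2 M3) (a : ℕ → ℝ) :
    ∀ (n : ℕ) (w : ℝ≥0) (y : ℝ),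
    |Ex n (fun T => ∫ z, f ((y + wk a T 0 n) + z) ∂(gaussianReal 0 w)) -
      ∫ z, f (y + z) ∂(gaussianReal 0 (w + vN a n))| ≤ C3 * M3 * ∑ j ∈ range n, |a j| ^ 3 := by
  intro n
  induction n with
  | zero =>
    intro w y
    rw [Ex_zero]
    simp [wk, vN]
  | succ n ih =>
    intro w y
    rw [Ex_succ, vN_succ, Finset.sum_range_succ]
    set b : ℝ≥0 := sqN (a n) with hb
    have hint : ∀ Y : ℝ, Integrable (fun z => f (Y + z)) (gaussianReal 0 w) := fun Y =>
      integrable_bdd (h.cont.comp (by fun_prop)) fun x => h.bd _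
    -- combine
    have e1 : (Ex n (fun T => ∫ z, f ((y + wk a T 0 (n + 1)) + z) ∂(gaussianReal 0 w)) +
        Ex n (fun T => ∫ z, f ((y + wk a (insert n T) 0 (n + 1)) + z) ∂(gaussianReal 0 w))) / 2 =
        Ex n (fun T => ∫ z, (f ((y + wk a T 0 n) + z + a n) + f ((y + wk a T 0 n) + z - a n)) / 2
          ∂(gaussianReal 0 w)) := by
      rw [← Ex_add, div_eq_mul_inv, ← Ex_mul_right]
      refine Ex_congr fun T hT => ?_
      rw [wk_succ a T (Nat.zero_le n), wk_succ a (insert n T) (Nat.zero_le n), sg_of_subset_range hT,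
        sg_insert_self, wk_insert]
      rw [integral_div, integral_add]
      · rw [← div_eq_mul_inv]
        congr 1
        rw [add_comm]
        congr 1
        · refine integral_congr_ae (Filter.Eventually.of_forall fun z => ?_)
          simp only; congr 1; ring
        · refine integral_congr_ae (Filter.Eventually.of_forall fun z => ?_)
          simp only; congr 1; ring
      · exact integrable_bdd (h.cont.comp (by fun_prop)) fun x => h.bd _
      · exact integrable_bdd (h.cont.comp (by fun_prop)) fun x => h.bd _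
    rw [e1]
    have e2 : |Ex n (fun T => ∫ z, (f ((y + wk a T 0 n) + z + a n) + f ((y + wk a T 0 n) + z - a n)) / 2
          ∂(gaussianReal 0 w)) - Ex n (fun T => ∫ z, f ((y + wk a T 0 n) + z) ∂(gaussianReal 0 (w + b)))| ≤
        C3 * M3 * |a n| ^ 3 := by
      refine abs_Ex_sub_le fun T _ => ?_
      rw [gauss_semigroup h.cont h.bd w b (y + wk a T 0 n)]
      refine abs_integral_sub_le ?_ ?_ fun z => ?_
      · refine Integrable.div_const ?_ _
        exact (integrable_bdd (h.cont.comp (by fun_prop)) fun x => h.bd _).add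
          (integrable_bdd (h.cont.comp (by fun_prop)) fun x => h.bd _)
      · refine integrable_bdd (C := 1) ?_ fun x => abs_gint_le h.bd _ _
        exact (continuous_gint h.cont h.bd b).comp (by fun_prop)
      · exact one_step h _ _
    have e3 := ih (w + b) y
    have e4 : w + (vN a n + b) = w + b + vN a n := by ring
    rw [e4]
    calc _ ≤ _ := abs_sub_le _ _ _
      _ ≤ C3 * M3 * |a n| ^ 3 + C3 * M3 * ∑ j ∈ range n, |a j| ^ 3 := add_le_add e2 e3
      _ = C3 * M3 * (∑ j ∈ range n, |a j| ^ 3 + |a n| ^ 3) := by ring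

/-- change of the variance -/
lemma change_var {f D : ℝ → ℝ} {M2 M3 : ℝ} (h : TF f D M2 M3) (y : ℝ) {v v' : ℝ≥0} (hv : v ≤ v') :
    |∫ z, f (y + z) ∂(gaussianReal 0 v) - ∫ z, f (y + z) ∂(gaussianReal 0 v')| ≤ M2 * (v' - v) / 2 := by
  obtain ⟨w, rfl⟩ := exists_add_of_le hv
  rw [gauss_semigroup h.cont h.bd v w y]
  refine abs_integral_sub_le ?_ ?_ fun z => ?_
  · exact integrable_bdd (h.cont.comp (by fun_prop)) fun x => h.bd _
  · refine integrable_bdd (C := 1) ?_ fun x => abs_gint_le h.bd _ _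
    exact (continuous_gint h.cont h.bd w).comp (by fun_prop)
  · rw [abs_sub_comm]
    refine (small_gauss h (y + z) w).trans (le_of_eq ?_)
    push_cast; ring

lemma change_var' {f D : ℝ → ℝ} {M2 M3 : ℝ} (h : TF f D M2 M3) (y : ℝ) (v v' : ℝ≥0) :
    |∫ z, f (y + z) ∂(gaussianReal 0 v) - ∫ z, f (y + z) ∂(gaussianReal 0 v')| ≤ M2 * |(v:ℝ) - v'| / 2 := by
  rcases le_total v v' with hv | hv
  · have := change_var h y hv
    have hv' : (v:ℝ) ≤ v' := by exact_mod_cast hv
    rw [abs_sub_comm (v:ℝ) v', abs_of_nonneg (sub_nonneg.2 hv')]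
    exact this
  · have := change_var h y hv
    have hv' : (v':ℝ) ≤ v := by exact_mod_cast hv
    rw [abs_sub_comm, abs_of_nonneg (sub_nonneg.2 hv')]
    exact this

/-- signs against the standard Gaussian variable, smooth test function -/
lemma smooth_cmp {f D : ℝ → ℝ} {M2 M3 : ℝ} (h : TF f D M2 M3) (a : ℕ → ℝ) (n : ℕ) :
    |Ex n (fun T => f (wk a T 0 n)) - ∫ z, f z ∂gam| ≤
      C3 * M3 * ∑ j ∈ range n, |a j| ^ 3 + M2 * |∑ j ∈ range n, a j ^ 2 - 1| / 2 := by
  have h1 := lindeberg h a n 0 0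
  have h2 := change_var' h 0 (0 + vN a n) 1
  have e0 : ((0 + vN a n : ℝ≥0) : ℝ) = ∑ j ∈ range n, a j ^ 2 := by rw [zero_add, vN_coe]
  rw [e0] at h2
  have e1 : ∀ T, ∫ z, f ((0 + wk a T 0 n) + z) ∂(gaussianReal 0 0) = f (wk a T 0 n) := by
    intro T
    rw [gaussianReal_zero_var, integral_dirac]
    simp
  simp only [e1] at h1
  have e2 : ∫ z, f (0 + z) ∂(gaussianReal 0 1) = ∫ z, f z ∂gam := by simp
  rw [e2] at h2
  have e3 : ((1:ℝ≥0):ℝ) = 1 := rfl
  rw [e3] at h2
  calc _ ≤ _ := abs_sub_le _ (∫ z, f (0 + z) ∂(gaussianReal 0 (0 + vN a n))) _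
    _ ≤ _ := add_le_add h1 h2

end Pool.Agent.Lib.GraphPart
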