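import Pool.Agent.Lib.GraphPart.Kolm

/-!
Comparison of a signed sum with a Gaussian variable for monotone functions.
-/

namespace Pool.Agent.Lib.GraphPart

open Finset MeasureTheory ProbabilityTheory
open scoped NNReal

/-- small balls -/
lemma gam_Icc_le (t : ℝ) {s : ℝ} (hs : 0 ≤ s) : gam.real (Set.Icc (t - s) t) ≤ s := by
  have h1 : gam (Set.Icc (t - s) t) ≤ ENNReal.ofReal s := by
    rw [gaussianReal_apply 0 one_ne_zero]
    calc ∫⁻ x in Set.Icc (t - s) t, gaussianPDF 0 1 x ≤ ∫⁻ _x in Set.Icc (t - s) t, 1 := by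
          refine lintegral_mono fun x => ?_
          rw [gaussianPDF, ENNReal.ofReal_le_one, gaussianPDFReal]
          have h2 : (1:ℝ) ≤ Real.sqrt (2 * Real.pi * (1:ℝ≥0)) := by
            rw [Real.one_le_sqrt]
            have := Real.pi_gt_three
            simp
            linarith
          have h3 : Real.exp (-(x - 0) ^ 2 / (2 * (1:ℝ≥0))) ≤ 1 := by
            rw [Real.exp_le_one_iff]
            apply div_nonpos_of_nonpos_of_nonneg
            · have := sq_nonneg (x - 0); linarith
            · positivity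
          have h4 : (Real.sqrt (2 * Real.pi * (1:ℝ≥0)))⁻¹ ≤ 1 := inv_le_one_of_one_le₀ h2
          calc _ ≤ (1:ℝ) * 1 := mul_le_mul h4 h3 (Real.exp_pos _).le (by norm_num)
            _ = 1 := by norm_num
      _ = ENNReal.ofReal s := by
          rw [setLIntegral_const, one_mul, Real.volume_Icc]
          congr 1; ring
  unfold Measure.real
  exact ENNReal.toReal_le_of_le_ofReal hs h1

open Classical in
/-- upper sets -/
lemma upper_cmp : ∃ C : ℝ, 0 < C ∧ ∀ (a : ℕ → ℝ) (n : ℕ) (s : ℝ), 0 < s → ∀ U : Set ℝ, IsUpperSet U →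
    |Ex n (fun T => if wk a T 0 n ∈ U then (1:ℝ) else 0) - gam.real U| ≤
      s + C * ((∑ j ∈ range n, |a j| ^ 3) / s ^ 3 + |∑ j ∈ range n, a j ^ 2 - 1| / s ^ 2) := by
  obtain ⟨D, M2, M3, hM2, hM3, hTF⟩ := exists_TF
  refine ⟨C3 * M3 + M2 + 1, by have := C3_pos; positivity, ?_⟩
  intro a n s hs U hU
  set B := (C3 * M3 + M2 + 1) * ((∑ j ∈ range n, |a j| ^ 3) / s ^ 3 + |∑ j ∈ range n, a j ^ 2 - 1| / s ^ 2) with hB
  have hC3 := C3_pos
  have hBn : 0 ≤ B := by
    have : 0 ≤ ∑ j ∈ range n, |a j| ^ 3 := Finset.sum_nonneg fun _ _ => by positivity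
    positivity
  rcases Set.eq_empty_or_nonempty U with h0 | hne
  · subst h0
    simp [Ex_const]
    positivity
  by_cases hbdd : BddBelow U
  swap
  · have : U = Set.univ := by
      ext x
      simp only [Set.mem_univ, iff_true]
      rw [not_bddBelow_iff] at hbdd
      obtain ⟨y, hy, hyx⟩ := hbdd x
      exact hU hyx.le hy
    subst this
    simp [Ex_const]
    positivity
  -- threshold
  set t := sInf U with ht
  have hI : Set.Ioi t ⊆ U := by
    intro x hx
    obtain ⟨y, hy, hyx⟩ := exists_lt_of_csInf_lt hne hx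
    exact hU hyx.le hy
  have hI' : U ⊆ Set.Ici t := fun x hx => csInf_le hbdd hx
  have key : ∀ t' : ℝ, |Ex n (fun T => Real.smoothTransition ((wk a T 0 n - t') / s)) -
      ∫ z, Real.smoothTransition ((z - t') / s) ∂gam| ≤ B := by
    intro t'
    refine (smooth_cmp (hTF.scale t' hs) a n).trans ?_
    rw [hB]
    have e1 : 0 ≤ ∑ j ∈ range n, |a j| ^ 3 := Finset.sum_nonneg fun _ _ => by positivity
    have e2 : 0 ≤ |∑ j ∈ range n, a j ^ 2 - 1| := abs_nonneg _
    have e3 : C3 * (M3 / s ^ 3) * ∑ j ∈ range n, |a j| ^ 3 = (C3 * M3) * ((∑ j ∈ range n, |a j| ^ 3) / s ^ 3) := by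
      ring
    have e4 : M2 / s ^ 2 * |∑ j ∈ range n, a j ^ 2 - 1| / 2 = (M2 / 2) * (|∑ j ∈ range n, a j ^ 2 - 1| / s ^ 2) := by
      ring
    rw [e3, e4, mul_add]
    have e5 : 0 ≤ (∑ j ∈ range n, |a j| ^ 3) / s ^ 3 := by positivity
    have e6 : 0 ≤ |∑ j ∈ range n, a j ^ 2 - 1| / s ^ 2 := by positivity
    have e7 : 0 ≤ C3 * M3 := by positivity
    gcongr
    · linarith
    · linarith
  have hint : ∀ t' : ℝ, Integrable (fun z => Real.smoothTransition ((z - t') / s)) gam := fun t' =>
    integrable_bdd (hTF.scale t' hs).cont (hTF.scale t' hs).bd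
  have hmI : MeasurableSet (Set.Ici (t - s) : Set ℝ) := measurableSet_Ici
  have hsmall := gam_Icc_le t hs.le
  have hUm : NullMeasurableSet U gam := by
    have : U = Set.Ioi t ∪ (U ∩ {t}) := by
      ext x
      constructor
      · intro hx
        rcases lt_or_eq_of_le (show t ≤ x from hI' hx) with h | h
        · exact Or.inl h
        · exact Or.inr ⟨hx, h.symm⟩
      · rintro (h | h)
        · exact hI h
        · exact h.1
    rw [this]
    apply NullMeasurableSet.union measurableSet_Ioi.nullMeasurableSet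
    apply Set.Finite.measurableSet ?_ |>.nullMeasurableSet
    exact (Set.finite_singleton t).subset Set.inter_subset_right
  -- upper bound
  have up : Ex n (fun T => if wk a T 0 n ∈ U then (1:ℝ) else 0) ≤ gam.real U + s + B := by
    have h1 : Ex n (fun T => if wk a T 0 n ∈ U then (1:ℝ) else 0) ≤
        Ex n (fun T => Real.smoothTransition ((wk a T 0 n - (t - s)) / s)) := by
      refine Ex_mono fun T _ => ?_
      split_ifs with h
      · rw [Real.smoothTransition.one_of_one_le]
        rw [one_le_div hs]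
        have := hI' h
        simp only [Set.mem_Ici] at this
        linarith
      · exact Real.smoothTransition.nonneg _
    have h2 : ∫ z, Real.smoothTransition ((z - (t - s)) / s) ∂gam ≤ gam.real (Set.Ici (t - s)) := by
      rw [← integral_indicator_one hmI]
      refine integral_mono (hint _) ((integrable_const 1).indicator hmI) fun z => ?_
      simp only [Set.indicator_apply, Set.mem_Ici, Pi.one_apply]
      split_ifs with h
      · exact Real.smoothTransition.le_one _
      · rw [Real.smoothTransition.zero_of_nonpos]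
        apply div_nonpos_of_nonpos_of_nonneg _ hs.le
        linarith
    have h3 : gam.real (Set.Ici (t - s)) ≤ gam.real U + s := by
      have h4 : (Set.Ici (t - s) : Set ℝ) ⊆ U ∪ Set.Icc (t - s) t := by
        intro x hx
        rcases lt_or_ge t x with h | h
        · exact Or.inl (hI h)
        · exact Or.inr ⟨hx, h⟩
      calc gam.real (Set.Ici (t - s)) ≤ gam.real (U ∪ Set.Icc (t - s) t) := measureReal_mono h4
        _ ≤ gam.real U + gam.real (Set.Icc (t - s) t) := measureReal_union_le _ _
        _ ≤ _ := by linarith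
    have h5 := (abs_le.1 (key (t - s))).2
    linarith
  -- lower bound
  have low : gam.real U - s - B ≤ Ex n (fun T => if wk a T 0 n ∈ U then (1:ℝ) else 0) := by
    have h1 : Ex n (fun T => Real.smoothTransition ((wk a T 0 n - t) / s)) ≤
        Ex n (fun T => if wk a T 0 n ∈ U then (1:ℝ) else 0) := by
      refine Ex_mono fun T _ => ?_
      split_ifs with h
      · exact Real.smoothTransition.le_one _
      · rw [Real.smoothTransition.zero_of_nonpos]
        apply div_nonpos_of_nonpos_of_nonneg _ hs.le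
        by_contra hcon
        exact h (hI (by simp only [Set.mem_Ioi]; linarith))
    have hmJ : MeasurableSet (Set.Ici (t + s) : Set ℝ) := measurableSet_Ici
    have h2 : gam.real (Set.Ici (t + s)) ≤ ∫ z, Real.smoothTransition ((z - t) / s) ∂gam := by
      rw [← integral_indicator_one hmJ]
      refine integral_mono ((integrable_const 1).indicator hmJ) (hint _) fun z => ?_
      simp only [Set.indicator_apply, Set.mem_Ici, Pi.one_apply]
      split_ifs with h
      · rw [Real.smoothTransition.one_of_one_le]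
        rw [one_le_div hs]
        linarith
      · exact Real.smoothTransition.nonneg _
    have h3 : gam.real U ≤ gam.real (Set.Ici (t + s)) + s := by
      have h4 : U ⊆ Set.Ici (t + s) ∪ Set.Icc (t + s - s) (t + s) := by
        intro x hx
        have h0 := hI' hx
        simp only [Set.mem_Ici] at h0
        rcases le_total (t + s) x with h | h
        · exact Or.inl h
        · exact Or.inr ⟨by linarith, h⟩
      have h6 := gam_Icc_le (t + s) hs.le
      calc gam.real U ≤ gam.real (Set.Ici (t + s) ∪ Set.Icc (t + s - s) (t + s)) := measureReal_mono h4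
        _ ≤ gam.real (Set.Ici (t + s)) + gam.real (Set.Icc (t + s - s) (t + s)) := measureReal_union_le _ _
        _ ≤ _ := by linarith
    have h5 := (abs_le.1 (key t)).1
    linarith
  rw [abs_le]
  constructor <;> linarith

lemma card_le_floor {M : ℕ} {x : ℝ} (hx0 : 0 ≤ x) (hx1 : x ≤ M) :
    |x - ∑ i ∈ range M, (if ((i:ℝ) + 1) ≤ x then (1:ℝ) else 0)| ≤ 1 := by
  have h1 : ∑ i ∈ range M, (if ((i:ℝ) + 1) ≤ x then (1:ℝ) else 0) = ⌊x⌋₊ := by
    have h2 : ∀ i ∈ range M, (if ((i:ℝ) + 1) ≤ x then (1:ℝ) else 0) = if i < ⌊x⌋₊ then 1 else 0 := by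
      intro i _
      have h3 : ((i:ℝ) + 1 ≤ x) ↔ i < ⌊x⌋₊ := by
        rw [← Nat.add_one_le_iff, Nat.le_floor_iff hx0]
        push_cast; rfl
      simp only [h3]
    rw [Finset.sum_congr rfl h2, ← Finset.sum_filter, Finset.sum_const, nsmul_eq_mul, mul_one]
    congr 1
    have h4 : ⌊x⌋₊ ≤ M := by
      have := Nat.floor_le_floor hx1
      simpa using this
    have h5 : (range M).filter (fun i => i < ⌊x⌋₊) = range ⌊x⌋₊ := by
      ext i; simp; omega
    rw [h5, Finset.card_range]
  rw [h1, abs_le]
  have h2 := Nat.floor_le hx0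
  have h3 := Nat.lt_floor_add_one x
  constructor <;> linarith

/-- Comparison for monotone functions with values in the unit interval. -/
theorem mono_cmp : ∃ C : ℝ, 0 < C ∧ ∀ (a : ℕ → ℝ) (n : ℕ) (s : ℝ), 0 < s → ∀ φ : ℝ → ℝ, Monotone φ →
    (∀ x, 0 ≤ φ x) → (∀ x, φ x ≤ 1) →
    |Ex n (fun T => φ (wk a T 0 n)) - ∫ z, φ z ∂gam| ≤
      s + C * ((∑ j ∈ range n, |a j| ^ 3) / s ^ 3 + |∑ j ∈ range n, a j ^ 2 - 1| / s ^ 2) := by
  classical
  obtain ⟨C, hC, hcmp⟩ := upper_cmp
  refine ⟨C, hC, ?_⟩
  intro a n s hs φ hφ h0 h1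
  set B := s + C * ((∑ j ∈ range n, |a j| ^ 3) / s ^ 3 + |∑ j ∈ range n, a j ^ 2 - 1| / s ^ 2) with hB
  have hint : Integrable φ gam := Integrable.of_bound hφ.measurable.aestronglyMeasurable 1
    (Filter.Eventually.of_forall fun x => by
      rw [Real.norm_eq_abs, abs_of_nonneg (h0 x)]; exact h1 x)
  have key : ∀ M : ℕ, 0 < M → |Ex n (fun T => φ (wk a T 0 n)) - ∫ z, φ z ∂gam| ≤ B + 2 / M := by
    intro M hM
    have hMr : (0:ℝ) < M := by exact_mod_cast hM
    set U : ℕ → Set ℝ := fun i => {x | ((i:ℝ) + 1) ≤ M * φ x} with hU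
    have hUu : ∀ i, IsUpperSet (U i) := by
      intro i x y hxy hx
      simp only [hU, Set.mem_ofPred] at hx ⊢
      exact hx.trans (mul_le_mul_of_nonneg_left (hφ hxy) hMr.le)
    have hUm : ∀ i, MeasurableSet (U i) := by
      intro i
      exact measurableSet_le measurable_const (measurable_const.mul hφ.measurable)
    set ψ : ℝ → ℝ := fun x => (1 / M) * ∑ i ∈ range M, (if x ∈ U i then (1:ℝ) else 0) with hψ
    have happ : ∀ x, |φ x - ψ x| ≤ 1 / M := by
      intro x
      have e1 := card_le_floor (M := M) (x := M * φ x) (mul_nonneg hMr.le (h0 x)) (by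
        nlinarith [h1 x])
      have e2 : φ x - ψ x = (M * φ x - ∑ i ∈ range M, (if ((i:ℝ) + 1) ≤ M * φ x then (1:ℝ) else 0)) / M := by
        simp only [hψ, hU, Set.mem_ofPred]
        field_simp
      rw [e2, abs_div, abs_of_pos hMr]
      gcongr
    have hψint : Integrable ψ gam := by
      apply Integrable.const_mul
      apply integrable_finsetSum
      intro i _
      have : (fun x => if x ∈ U i then (1:ℝ) else 0) = (U i).indicator (fun _ => 1) := by
        ext x; simp [Set.indicator_apply]
      rw [this]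
      exact (integrable_const 1).indicator (hUm i)
    have hψi : ∫ z, ψ z ∂gam = (1 / M) * ∑ i ∈ range M, gam.real (U i) := by
      simp only [hψ]
      rw [integral_const_mul, integral_finsetSum]
      · congr 1
        refine Finset.sum_congr rfl fun i _ => ?_
        rw [← integral_indicator_one (hUm i)]
        refine integral_congr_ae (Filter.Eventually.of_forall fun x => ?_)
        simp [Set.indicator_apply]
      · intro i _
        have : (fun x => if x ∈ U i then (1:ℝ) else 0) = (U i).indicator (fun _ => 1) := by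
          ext x; simp [Set.indicator_apply]
        rw [this]
        exact (integrable_const 1).indicator (hUm i)
    have hψE : Ex n (fun T => ψ (wk a T 0 n)) =
        (1 / M) * ∑ i ∈ range M, Ex n (fun T => if wk a T 0 n ∈ U i then (1:ℝ) else 0) := by
      simp only [hψ]
      rw [Ex_mul_left, Ex_sum]
    have d1 : |Ex n (fun T => φ (wk a T 0 n)) - Ex n (fun T => ψ (wk a T 0 n))| ≤ 1 / M :=
      abs_Ex_sub_le fun T _ => happ _
    have d2 : |∫ z, ψ z ∂gam - ∫ z, φ z ∂gam| ≤ 1 / M := by
      rw [abs_sub_comm]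
      exact abs_integral_sub_le hint hψint happ
    have d3 : |Ex n (fun T => ψ (wk a T 0 n)) - ∫ z, ψ z ∂gam| ≤ B := by
      rw [hψE, hψi, ← mul_sub, ← Finset.sum_sub_distrib, abs_mul, abs_of_nonneg (by positivity : (0:ℝ) ≤ 1 / M)]
      calc (1 / (M:ℝ)) * |∑ i ∈ range M, (Ex n (fun T => if wk a T 0 n ∈ U i then (1:ℝ) else 0) - gam.real (U i))|
          ≤ (1 / (M:ℝ)) * ∑ i ∈ range M, |Ex n (fun T => if wk a T 0 n ∈ U i then (1:ℝ) else 0) - gam.real (U i)| := by
            gcongr
            exact Finset.abs_sum_le_sum_abs _ _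
        _ ≤ (1 / (M:ℝ)) * ∑ _i ∈ range M, B := by
            gcongr with i _
            exact hcmp a n s hs (U i) (hUu i)
        _ = B := by
            rw [Finset.sum_const, Finset.card_range, nsmul_eq_mul]
            field_simp
    calc _ ≤ |Ex n (fun T => φ (wk a T 0 n)) - ∫ z, ψ z ∂gam| + |∫ z, ψ z ∂gam - ∫ z, φ z ∂gam| := abs_sub_le _ _ _
      _ ≤ (|Ex n (fun T => φ (wk a T 0 n)) - Ex n (fun T => ψ (wk a T 0 n))| +
          |Ex n (fun T => ψ (wk a T 0 n)) - ∫ z, ψ z ∂gam|) + |∫ z, ψ z ∂gam - ∫ z, φ z ∂gam| := by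
            gcongr
            exact abs_sub_le _ _ _
      _ ≤ (1 / M + B) + 1 / M := by gcongr
      _ = B + 2 / M := by ring
  apply le_of_forall_pos_le_add
  intro ε hε
  obtain ⟨M, hM⟩ := exists_nat_gt (2 / ε)
  have hMr : (0:ℝ) < M := lt_trans (by positivity) hM
  refine (key M (by exact_mod_cast hMr)).trans ?_
  gcongr
  rw [div_le_iff₀ hMr]
  rw [div_lt_iff₀ hε] at hM
  linarith

end Pool.Agent.Lib.GraphPart
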