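import Pool.Agent.Lib.GraphPart.Main1

/-!
Asymptotic bookkeeping, part 1.
-/

namespace Pool.Agent.Lib.GraphPart

open Finset Filter Topology

lemma ev_pow_le (C k : ℕ) : ∃ M0 : ℕ, ∀ M, M0 ≤ M → C * (M + 2) ^ k ≤ 2 ^ M := by
  have h1 := tendsto_pow_const_div_const_pow_of_one_lt k (r := (2:ℝ)) (by norm_num)
  have h2 : ∀ᶠ n : ℕ in atTop, (n:ℝ) ^ k / 2 ^ n < 1 / (C * 3 ^ k + 1) :=
    h1.eventually_lt_const (by positivity)
  obtain ⟨M0, hM0⟩ := eventually_atTop.1 (h2.and (eventually_ge_atTop 1))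
  refine ⟨M0, fun M hM => ?_⟩
  obtain ⟨h3, h4⟩ := hM0 M hM
  rw [div_lt_div_iff₀ (by positivity) (by positivity), one_mul] at h3
  have h5 : ((M:ℝ) + 2) ^ k ≤ (3 * M) ^ k := by
    have : (1:ℝ) ≤ M := by exact_mod_cast h4
    gcongr
    linarith
  have h6 : (C:ℝ) * ((M:ℝ) + 2) ^ k ≤ 2 ^ M := by
    calc (C:ℝ) * ((M:ℝ) + 2) ^ k ≤ C * (3 * M) ^ k := by gcongr
      _ = (M:ℝ) ^ k * (C * 3 ^ k) := by rw [mul_pow]; ring
      _ ≤ (M:ℝ) ^ k * (C * 3 ^ k + 1) := by gcongr; linarith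
      _ ≤ _ := h3.le
  exact_mod_cast h6

lemma par_eventually (Lam : ℕ) (h : 100 ≤ Lam) : ∀ᶠ L : ℕ in atTop, Par Lam L (L / Lam) (L / 2 - 4 * (L / Lam)) := by
  obtain ⟨M0, hM0⟩ := ev_pow_le (10 ^ 6 * (4 * Lam) ^ 5) 5
  filter_upwards [eventually_ge_atTop (4 * Lam * (M0 + 160 * Lam + 2))] with L hL
  set M := L / Lam / 4 with hM
  have h1 : M = L / (4 * Lam) := by
    rw [hM, Nat.div_div_eq_div_mul, Nat.mul_comm]
  have h2 : M0 + 160 * Lam + 2 ≤ M := by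
    rw [h1, Nat.le_div_iff_mul_le (by omega)]
    rw [Nat.mul_comm]; exact hL
  have h3 : L < 4 * Lam * (M + 1) := by
    rw [h1]
    have := Nat.lt_div_mul_add (a := L) (show 0 < 4 * Lam by omega)
    rw [Nat.mul_add, Nat.mul_one, Nat.mul_comm]
    exact this
  refine ⟨h, rfl, rfl, ?_, ?_, ?_⟩
  · rw [← hM]
    refine le_trans ?_ (hM0 M (by omega))
    have h4 : L + 3 ≤ 4 * Lam * (M + 2) := by
      have : 4 * Lam * (M + 2) = 4 * Lam * (M + 1) + 4 * Lam := by ring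
      omega
    calc 10 ^ 6 * (L + 3) ^ 5 ≤ 10 ^ 6 * (4 * Lam * (M + 2)) ^ 5 := by gcongr
      _ = _ := by ring
  · rw [← hM]
    have : M < 2 ^ M := Nat.lt_two_pow_self
    omega
  · have h5 : 4 * Lam * 2 ≤ 4 * Lam * (M0 + 160 * Lam + 2) := Nat.mul_le_mul_left _ (by omega)
    omega

/-- a priori bound -/
lemma gp_apriori {N L : ℕ} (h1 : 2 ^ L ≤ N) (h2 : N < 2 ^ (L + 1)) (hL : 304 ≤ L) :
    Real.exp (-((L / 4 + 51) * Real.log 2)) ≤ gp N := by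
  have hsq : 2 ^ (L / 2) ≤ Nat.sqrt N := by
    rw [Nat.le_sqrt, ← pow_add]
    exact le_trans (Nat.pow_le_pow_right (by norm_num) (by omega)) h1
  have hs152 : 2 ^ 152 ≤ Nat.sqrt N := le_trans (Nat.pow_le_pow_right (by norm_num) (by omega)) hsq
  obtain ⟨D1, D2, κ, h, a1, a2, a3, a4, a5, a6, a7, a8, a9⟩ := good_params N hs152
  have hN : 0 < N := lt_of_lt_of_le (by positivity) h1
  have hNr : (0:ℝ) < N := by exact_mod_cast hN
  have key := count_cond N D1 D2 κ h a1 a2 hN a3 a4 a5 a6 a7 a8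
  have hpp : (0:ℝ) < pp N := by exact_mod_cast pp_pos N
  have hg : (κ : ℝ) / (2 ^ 27 * Real.sqrt N) ≤ gp N := by
    unfold gp
    rw [le_div_iff₀ hpp, mul_comm]
    refine key.trans (le_of_eq ?_)
    exact Finset.sum_congr rfl fun _ _ => by congr
  refine le_trans ?_ hg
  have hκ : (2:ℝ) ^ (L / 2) ≤ 2 ^ 46 * (κ:ℝ) ^ 2 := by exact_mod_cast hsq.trans a9
  have hκ0 : (0:ℝ) < κ := by exact_mod_cast a6
  have hs : 0 < Real.sqrt N := Real.sqrt_pos.2 hNr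
  refine le_of_pow_le_pow_left₀ (two_ne_zero) (by positivity) ?_
  rw [div_pow, mul_pow, Real.sq_sqrt hNr.le, ← Real.exp_nat_mul]
  have h5 : Real.exp (((2:ℕ):ℝ) * -(((L:ℝ) / 4 + 51) * Real.log 2)) = 1 / (2:ℝ) ^ ((L:ℝ) / 2 + 102) := by
    rw [Real.rpow_def_of_pos (by norm_num), one_div, ← Real.exp_neg]
    congr 1; push_cast; ring
  rw [h5, div_le_div_iff₀ (by positivity) (by positivity), one_mul]
  have h6 : (N:ℝ) ≤ 2 ^ (L + 1) := by exact_mod_cast h2.le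
  have h7 : (2:ℝ) ^ L ≤ (2:ℝ) ^ ((L:ℝ) / 2 + 102) * 2 ^ (L / 2 ) / 2 ^ 101 := by
    rw [le_div_iff₀ (by positivity), ← pow_add]
    rw [← Real.rpow_natCast, ← Real.rpow_natCast, ← Real.rpow_add (by norm_num)]
    apply Real.rpow_le_rpow_of_exponent_le (by norm_num)
    have h8 : L ≤ 2 * (L / 2) + 1 := by omega
    have h9 : (L:ℝ) ≤ 2 * ((L / 2 : ℕ):ℝ) + 1 := by exact_mod_cast h8
    push_cast
    linarith
  calc ((2:ℝ) ^ 27) ^ 2 * N ≤ (2 ^ 27) ^ 2 * 2 ^ (L + 1) := by gcongr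
    _ = 2 ^ 55 * 2 ^ L := by ring
    _ ≤ 2 ^ 55 * ((2:ℝ) ^ ((L:ℝ) / 2 + 102) * 2 ^ (L / 2) / 2 ^ 101) := by gcongr
    _ ≤ 2 ^ 55 * ((2:ℝ) ^ ((L:ℝ) / 2 + 102) * (2 ^ 46 * (κ:ℝ) ^ 2) / 2 ^ 101) := by gcongr
    _ = (κ:ℝ) ^ 2 * (2:ℝ) ^ ((L:ℝ) / 2 + 102) := by ring

lemma gp_pos_of {N L : ℕ} (h1 : 2 ^ L ≤ N) (h2 : N < 2 ^ (L + 1)) (hL : 304 ≤ L) : 0 < gp N :=
  lt_of_lt_of_le (Real.exp_pos _) (gp_apriori h1 h2 hL)

lemma gp_le_one (N : ℕ) : gp N ≤ 1 := by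
  have hpp : (0:ℝ) < pp N := by exact_mod_cast pp_pos N
  rw [gp_eq, div_le_one hpp, ← card_allCodes]
  calc ∑ c ∈ allCodes N, cprob c ≤ ∑ _c ∈ allCodes N, (1:ℝ) := Finset.sum_le_sum fun c _ => cprob_le_one c
    _ = _ := by simp

/-- the normalised logarithm -/
noncomputable def aN (N : ℕ) : ℝ := -Real.log (gp N) / (Nat.log 2 N : ℝ)

lemma log_bounds {N : ℕ} (hN : 0 < N) : 2 ^ (Nat.log 2 N) ≤ N ∧ N < 2 ^ (Nat.log 2 N + 1) :=
  ⟨Nat.pow_log_le_self 2 hN.ne', Nat.lt_pow_succ_log_self (by norm_num) N⟩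

lemma aN_nonneg (N : ℕ) : 0 ≤ aN N := by
  unfold aN
  apply div_nonneg _ (Nat.cast_nonneg _)
  have h0 : 0 ≤ gp N := by
    rw [gp_eq]
    exact div_nonneg (Finset.sum_nonneg fun c _ => cprob_nonneg c) (Nat.cast_nonneg _)
  have := Real.log_nonpos h0 (gp_le_one N)
  linarith

/-- the a priori bound in logarithmic form -/
lemma neg_log_le {N L : ℕ} (h1 : 2 ^ L ≤ N) (h2 : N < 2 ^ (L + 1)) (hL : 304 ≤ L) :
    -Real.log (gp N) ≤ (L / 4 + 51) * Real.log 2 := by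
  have h := gp_apriori h1 h2 hL
  have h3 := Real.log_le_log (Real.exp_pos _) h
  rw [Real.log_exp] at h3
  linarith

lemma log_two_lt : Real.log 2 < 0.7 := by
  have := Real.log_two_lt_d9; linarith

lemma log_two_gt : 0.69 < Real.log 2 := by
  have := Real.log_two_gt_d9; linarith

end Pool.Agent.Lib.GraphPart
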