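import Pool.Agent.Lib.GraphPart.Limit1

/-!
Asymptotic bookkeeping, part 2: eventual inequalities.
-/

namespace Pool.Agent.Lib.GraphPart

open Finset Filter Topology

lemma kb_nonneg {v : ℕ} {η ℓ1 s : ℝ} (hη : 0 ≤ η) (hℓ : 0 ≤ ℓ1) (hs : 0 < s) : 0 ≤ kb v η ℓ1 s := by
  unfold kb
  have := Cm_pos
  positivity

lemma kb_bound {Lam L e v3 : ℕ} (hP : Par Lam L e v3) :
    kb (4 * e) (1 / 2 ^ (e / 4)) ((L:ℝ) ^ 2 + 2) (1 / 2 ^ (e / 16)) ≤ (1 + 2 * Cm) / 2 ^ (e / 16) := by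
  have e3 := hP.e_big
  have hC := Cm_pos
  have hbig := hP.big
  unfold kb
  set y := e / 16 with hy
  have hy0 : (0:ℝ) < 2 ^ y := by positivity
  have h1 : Real.sqrt (2 ^ (4 * e)) = 2 ^ (2 * e) := by
    rw [show 4 * e = (2 * e) * 2 by ring, pow_mul]
    exact Real.sqrt_sq (by positivity)
  have h2 : 2 * ((L:ℝ) ^ 2 + 2) ≤ 2 ^ (e / 4) := by
    have h3 : 2 * (L ^ 2 + 2) ≤ 2 ^ (e / 4) := by
      refine le_trans ?_ hbig
      have h4 : (L + 3) ^ 2 ≤ (L + 3) ^ 5 := Nat.pow_le_pow_right (by omega) (by norm_num)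
      have h5 : L ^ 2 + 2 ≤ (L + 3) ^ 2 := by
        have : (L + 3) ^ 2 = L ^ 2 + (6 * L + 9) := by ring
        rw [this]
        exact Nat.add_le_add_left (by omega) _
      calc 2 * (L ^ 2 + 2) ≤ 2 * (L + 3) ^ 2 := Nat.mul_le_mul_left _ h5
        _ ≤ 2 * (L + 3) ^ 5 := Nat.mul_le_mul_left _ h4
        _ ≤ 10 ^ 6 * (L + 3) ^ 5 := Nat.mul_le_mul_right _ (by norm_num)
    exact_mod_cast h3
  have h3 : 2 * ((L:ℝ) ^ 2 + 2) / Real.sqrt (2 ^ (4 * e)) / (1 / 2 ^ y) ^ 3 ≤ 1 / 2 ^ y := by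
    rw [h1]
    have e1 : 2 * ((L:ℝ) ^ 2 + 2) / 2 ^ (2 * e) / (1 / 2 ^ y) ^ 3 = 2 * ((L:ℝ) ^ 2 + 2) * 2 ^ (3 * y) / 2 ^ (2 * e) := by
      rw [div_pow, one_pow, ← pow_mul, Nat.mul_comm y 3]; field_simp
    rw [e1, div_le_div_iff₀ (by positivity) hy0, one_mul]
    calc 2 * ((L:ℝ) ^ 2 + 2) * 2 ^ (3 * y) * 2 ^ y ≤ 2 ^ (e / 4) * 2 ^ (3 * y) * 2 ^ y := by gcongr
      _ = 2 ^ (e / 4 + 3 * y + y) := by rw [pow_add, pow_add]
      _ ≤ 2 ^ (2 * e) := pow_le_pow_right₀ (by norm_num) (by omega)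
  have h4 : (1:ℝ) / 2 ^ (e / 4) / (1 / 2 ^ y) ^ 2 ≤ 1 / 2 ^ y := by
    have e1 : (1:ℝ) / 2 ^ (e / 4) / (1 / 2 ^ y) ^ 2 = 2 ^ (2 * y) / 2 ^ (e / 4) := by
      rw [div_pow, one_pow, ← pow_mul, Nat.mul_comm y 2]; field_simp
    rw [e1, div_le_div_iff₀ (by positivity) hy0, one_mul, ← pow_add]
    exact pow_le_pow_right₀ (by norm_num) (by omega)
  calc 1 / 2 ^ y + Cm * (2 * ((L:ℝ) ^ 2 + 2) / Real.sqrt (2 ^ (4 * e)) / (1 / 2 ^ y) ^ 3 + 1 / 2 ^ (e / 4) / (1 / 2 ^ y) ^ 2)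
      ≤ 1 / 2 ^ y + Cm * (1 / 2 ^ y + 1 / 2 ^ y) := by gcongr
    _ = _ := by ring

lemma ev_poly_exp (C : ℝ) (k : ℕ) {b : ℝ} (hb : 0 < b) : ∀ᶠ L : ℕ in atTop, C * (L:ℝ) ^ k ≤ Real.exp (b * L) := by
  have h1 := isLittleO_pow_exp_pos_mul_atTop (k := k) hb
  have h2 := h1.def (c := 1 / (|C| + 1)) (by positivity)
  have h3 := tendsto_natCast_atTop_atTop (R := ℝ) |>.eventually h2
  filter_upwards [h3] with L hL
  rw [Real.norm_eq_abs, Real.norm_eq_abs, abs_of_nonneg (by positivity), abs_of_pos (Real.exp_pos _)] at hL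
  have h4 : (|C| + 1) * (L:ℝ) ^ k ≤ Real.exp (b * L) := by
    have := mul_le_mul_of_nonneg_left hL (show (0:ℝ) ≤ |C| + 1 by positivity)
    refine this.trans (le_of_eq ?_)
    field_simp
  refine le_trans ?_ h4
  have h5 : C ≤ |C| + 1 := by have := le_abs_self C; linarith
  gcongr

lemma ev_g (ε : ℝ) (hε : 0 < ε) : ∀ᶠ L : ℕ in atTop, ∀ g : ℕ, 2 ^ g ≤ 4 * L ^ 2 → (g:ℝ) ^ 2 + 2 * g ≤ ε * L := by
  have h1 := Real.isLittleO_pow_log_id_atTop (n := 2)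
  have h2 := h1.def (c := ε / 36) (by positivity)
  have h3 := tendsto_natCast_atTop_atTop (R := ℝ) |>.eventually h2
  have h4 : ∀ᶠ L : ℕ in atTop, 1 ≤ Real.log (L:ℝ) :=
    (Real.tendsto_log_atTop.comp (tendsto_natCast_atTop_atTop (R := ℝ))).eventually_ge_atTop 1
  filter_upwards [h3, h4, eventually_ge_atTop 1] with L hL hL1 hL0 g hg
  have hLr : (0:ℝ) < L := by exact_mod_cast hL0
  rw [Real.norm_eq_abs, Real.norm_eq_abs, abs_of_nonneg (by positivity), id, abs_of_pos hLr] at hL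
  have h5 : (2:ℝ) ^ g ≤ 4 * (L:ℝ) ^ 2 := by exact_mod_cast hg
  have h6 := Real.log_le_log (by positivity) h5
  have e1 : Real.log (4 * (L:ℝ) ^ 2) = 2 * Real.log 2 + 2 * Real.log L := by
    rw [Real.log_mul (by norm_num) (by positivity), Real.log_pow, show (4:ℝ) = 2 ^ 2 by norm_num, Real.log_pow]
    push_cast; ring
  rw [Real.log_pow, e1] at h6
  have l2 := log_two_gt
  have h7 : (g:ℝ) ≤ 2 + 3 * Real.log L := by
    by_contra hcon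
    push Not at hcon
    have : (2 + 3 * Real.log L) * Real.log 2 < g * Real.log 2 := mul_lt_mul_of_pos_right hcon (by linarith)
    nlinarith
  have hg0 : (0:ℝ) ≤ g := Nat.cast_nonneg g
  have h8 : ((g:ℝ) + 1) ^ 2 ≤ (6 * Real.log L) ^ 2 := by
    apply pow_le_pow_left₀ (by positivity)
    linarith
  have h9 : (6 * Real.log L) ^ 2 = 36 * Real.log L ^ 2 := by ring
  have h10 : 36 * Real.log (L:ℝ) ^ 2 ≤ ε * L := by
    have := mul_le_mul_of_nonneg_left hL (show (0:ℝ) ≤ 36 by norm_num)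
    refine this.trans (le_of_eq (by ring))
  nlinarith

lemma ev_kb (Lam : ℕ) (hLam : 100 ≤ Lam) : ∀ᶠ L : ℕ in atTop, ∀ g : ℕ, 2 ^ g ≤ 4 * L ^ 2 →
    (((g:ℝ) ^ 2 + 2 * g) * 2 ^ g) * ((1 + 2 * Cm) / 2 ^ (L / Lam / 16)) ≤ 1 / 2 * Real.exp (-((g:ℝ) ^ 2 + 2 * g)) := by
  have hLr : (100:ℝ) ≤ Lam := by exact_mod_cast hLam
  have hC := Cm_pos
  filter_upwards [ev_g (1 / (64 * Lam)) (by positivity),
    ev_poly_exp (16 * (1 + 2 * Cm)) 3 (b := 1 / (64 * Lam)) (by positivity), eventually_ge_atTop 1] with L h1 h2 h3 g hg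
  have hg1 := h1 g hg
  have hL0 : (1:ℝ) ≤ L := by exact_mod_cast h3
  have hg2 : (2:ℝ) ^ g ≤ 4 * (L:ℝ) ^ 2 := by exact_mod_cast hg
  set G : ℝ := (g:ℝ) ^ 2 + 2 * g with hG
  have hG0 : 0 ≤ G := by rw [hG]; positivity
  have hGL : G ≤ L := by
    refine hg1.trans ?_
    have : 1 / (64 * (Lam:ℝ)) ≤ 1 := by
      rw [div_le_one (by positivity)]; linarith
    nlinarith
  set y := L / Lam / 16 with hy
  -- lower bound for 2^y
  have hy2 : (L:ℝ) / (16 * Lam) - 1 ≤ y := by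
    have e1 : y = L / (16 * Lam) := by rw [hy, Nat.div_div_eq_div_mul, Nat.mul_comm]
    have e2 : L < 16 * Lam * (y + 1) := by
      rw [e1]
      have := Nat.lt_div_mul_add (a := L) (show 0 < 16 * Lam by omega)
      rw [Nat.mul_add, Nat.mul_one, Nat.mul_comm]
      exact this
    have e3 : (L:ℝ) < 16 * Lam * (y + 1) := by exact_mod_cast e2
    have e4 : (L:ℝ) / (16 * Lam) < y + 1 := by
      rw [div_lt_iff₀ (by positivity)]; linarith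
    linarith
  have hy3 : 1 / 2 * Real.exp (2 * (1 / (64 * Lam) * L)) ≤ 2 ^ y := by
    have e1 : (2:ℝ) ^ y = Real.exp (y * Real.log 2) := by
      rw [← Real.rpow_natCast, Real.rpow_def_of_pos (by norm_num), mul_comm]
    rw [e1]
    have e2 : Real.exp (((L:ℝ) / (16 * Lam) - 1) * Real.log 2) ≤ Real.exp (y * Real.log 2) := by
      apply Real.exp_le_exp.2
      have := log_two_gt
      gcongr
    refine le_trans ?_ e2
    have e3 : ((L:ℝ) / (16 * Lam) - 1) * Real.log 2 = (L:ℝ) / (16 * Lam) * Real.log 2 - Real.log 2 := by ring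
    rw [e3, Real.exp_sub, Real.exp_log (by norm_num)]
    have e4 := log_two_gt
    have e5 : 2 * (1 / (64 * (Lam:ℝ)) * L) = (L:ℝ) / (16 * Lam) * (1 / 2) := by field_simp; norm_num
    have e6 : Real.exp (2 * (1 / (64 * (Lam:ℝ)) * L)) ≤ Real.exp ((L:ℝ) / (16 * Lam) * Real.log 2) := by
      rw [e5]
      exact Real.exp_le_exp.2 (mul_le_mul_of_nonneg_left (by linarith) (by positivity))
    linarith
  have hexp : Real.exp G ≤ Real.exp (1 / (64 * Lam) * L) := Real.exp_le_exp.2 hg1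
  rw [Real.exp_neg, ← div_eq_mul_inv, mul_div_assoc', div_le_div_iff₀ (by positivity) (Real.exp_pos _)]
  calc G * 2 ^ g * (1 + 2 * Cm) * Real.exp G ≤ L * (4 * (L:ℝ) ^ 2) * (1 + 2 * Cm) * Real.exp (1 / (64 * Lam) * L) := by gcongr
    _ = 1 / 4 * ((16 * (1 + 2 * Cm)) * (L:ℝ) ^ 3) * Real.exp (1 / (64 * Lam) * L) := by ring
    _ ≤ 1 / 4 * Real.exp (1 / (64 * Lam) * L) * Real.exp (1 / (64 * Lam) * L) := by gcongr
    _ = 1 / 2 * (1 / 2 * Real.exp (2 * (1 / (64 * Lam) * L))) := by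
        rw [show 2 * (1 / (64 * (Lam:ℝ)) * L) = 1 / (64 * Lam) * L + 1 / (64 * Lam) * L by ring, Real.exp_add]; ring
    _ ≤ 1 / 2 * 2 ^ y := by gcongr

/-- the tail error -/
lemma ev_err : ∀ᶠ L : ℕ in atTop, ∀ g : ℕ, L ^ 2 ≤ 4 * 2 ^ g → 2 ^ g ≤ 4 * L ^ 2 →
    (L:ℝ) * 2 ^ g * (2 * Real.exp (-((1 / (g:ℝ)) ^ 2 * 2 ^ g / 22))) ≤ 1 / 4 * Real.exp (-((L / 4 + 51) * Real.log 2)) := by
  filter_upwards [ev_g (1 / 100) (by norm_num), ev_poly_exp (32 * Real.exp (51 * Real.log 2)) 3 (b := 4 / 5) (by norm_num),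
    eventually_ge_atTop 5] with L h1 h2 h3 g hg1 hg2
  have hL0 : (5:ℝ) ≤ L := by exact_mod_cast h3
  have hG := h1 g hg2
  have hgr : (2:ℝ) ^ g ≤ 4 * (L:ℝ) ^ 2 := by exact_mod_cast hg2
  have hgr2 : (L:ℝ) ^ 2 ≤ 4 * (2:ℝ) ^ g := by exact_mod_cast hg1
  have hgpos : 1 ≤ g := by
    by_contra hcon
    have : g = 0 := by omega
    subst this
    have : 25 ≤ L ^ 2 := by nlinarith
    omega
  have hgr0 : (1:ℝ) ≤ g := by exact_mod_cast hgpos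
  have h4 : (L:ℝ) ≤ (1 / (g:ℝ)) ^ 2 * 2 ^ g / 22 := by
    rw [div_pow, one_pow, one_div, inv_mul_eq_div, div_div, le_div_iff₀ (by positivity)]
    have h5 : (g:ℝ) ^ 2 ≤ 1 / 100 * L := by nlinarith
    nlinarith
  have h6 : Real.exp (-((1 / (g:ℝ)) ^ 2 * 2 ^ g / 22)) ≤ Real.exp (-(L:ℝ)) := Real.exp_le_exp.2 (by linarith)
  have l2 := log_two_lt
  calc (L:ℝ) * 2 ^ g * (2 * Real.exp (-((1 / (g:ℝ)) ^ 2 * 2 ^ g / 22))) ≤ L * (4 * (L:ℝ) ^ 2) * (2 * Real.exp (-(L:ℝ))) := by gcongr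
    _ = 1 / 4 * ((32 * Real.exp (51 * Real.log 2)) * (L:ℝ) ^ 3) * Real.exp (-(L:ℝ)) * Real.exp (-(51 * Real.log 2)) := by
        rw [Real.exp_neg (51 * Real.log 2)]; field_simp; ring
    _ ≤ 1 / 4 * Real.exp (4 / 5 * L) * Real.exp (-(L:ℝ)) * Real.exp (-(51 * Real.log 2)) := by gcongr
    _ = 1 / 4 * Real.exp (4 / 5 * L + (-(L:ℝ)) + (-(51 * Real.log 2))) := by
        rw [Real.exp_add, Real.exp_add]; ring
    _ ≤ _ := by
        gcongr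
        nlinarith

end Pool.Agent.Lib.GraphPart
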