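import Pool.Agent.Lib.GraphPart.Window2

/-!
Dependence of the Gaussian probability on the level.
-/

namespace Pool.Agent.Lib.GraphPart

open Finset

lemma cf_lower {R : ℕ} (hR : 0 < R) {l u : ℕ} (h1 : u < l) (h2 : l ≤ u + R) :
    1 / (2 * Real.sqrt R) ≤ cf R l u := by
  have hkl : (0:ℝ) < kap R l := by exact_mod_cast kap_pos hR l
  have hku : (0:ℝ) < kap R u := by exact_mod_cast kap_pos hR u
  have hRr : (0:ℝ) < R := by exact_mod_cast hR
  have h3 : (1:ℝ) ≤ (kap R l : ℝ) / kap R u := by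
    rw [one_le_div hku]
    exact_mod_cast (kap_strictMono hR).monotone h1.le
  unfold cf
  rw [min_eq_left h3, one_mul]
  have h4 : bl R l ≤ 2 * bl R u := by
    unfold bl
    have : l / R ≤ u / R + 1 := by
      calc l / R ≤ (u + R) / R := Nat.div_le_div_right h2
        _ = u / R + 1 := Nat.add_div_right u hR
    calc 2 ^ (l / R) ≤ 2 ^ (u / R + 1) := Nat.pow_le_pow_right (by norm_num) this
      _ = 2 * 2 ^ (u / R) := by ring
  have h5 : kap R l ≤ 4 * R * bl R u := by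
    calc kap R l ≤ 2 * R * bl R l := kap_le_two_mul hR l
      _ ≤ 2 * R * (2 * bl R u) := Nat.mul_le_mul_left _ h4
      _ = _ := by ring
  have h6 : (kap R l : ℝ) ≤ (4 * R) * bl R u := by exact_mod_cast h5
  have s1 : 0 < Real.sqrt (kap R l) := Real.sqrt_pos.2 hkl
  have s2 : 0 < Real.sqrt R := Real.sqrt_pos.2 hRr
  rw [div_le_div_iff₀ (by positivity) s1, one_mul]
  calc Real.sqrt (kap R l) ≤ Real.sqrt ((4 * R) * bl R u) := Real.sqrt_le_sqrt h6
    _ = Real.sqrt (bl R u) * (2 * Real.sqrt R) := by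
        rw [Real.sqrt_mul (by positivity), Real.sqrt_mul (by norm_num)]
        have : Real.sqrt 4 = 2 := by
          rw [show (4:ℝ) = 2 ^ 2 by norm_num]
          exact Real.sqrt_sq (by norm_num)
        rw [this]; ring

lemma cf_sum {R : ℕ} (hR : 0 < R) {l U : ℕ} (h1 : R ≤ l) (h2 : l ≤ U) :
    Real.sqrt R / 2 ≤ ∑ u ∈ range U, cf R l u := by
  have hRr : (0:ℝ) < R := by exact_mod_cast hR
  have s2 : 0 < Real.sqrt R := Real.sqrt_pos.2 hRr
  calc Real.sqrt R / 2 = ∑ _u ∈ Ico (l - R) l, 1 / (2 * Real.sqrt R) := by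
        rw [Finset.sum_const, Nat.card_Ico, nsmul_eq_mul, show l - (l - R) = R by omega]
        have h3 : (R:ℝ) = Real.sqrt R * Real.sqrt R := (Real.mul_self_sqrt hRr.le).symm
        rw [mul_one_div]
        rw [div_eq_div_iff (by norm_num) (by positivity)]
        nlinarith
    _ ≤ ∑ u ∈ Ico (l - R) l, cf R l u := by
        refine Finset.sum_le_sum fun u hu => ?_
        have := Finset.mem_Ico.1 hu
        exact cf_lower hR this.2 (by omega)
    _ ≤ _ := by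
        apply Finset.sum_le_sum_of_subset_of_nonneg
        · intro u hu
          have := Finset.mem_Ico.1 hu
          exact Finset.mem_range.2 (by omega)
        · intro u _ _; exact cf_nonneg _ _ _

lemma cone_anti (g w : ℕ) {δ δ' : ℝ} (h : δ ≤ δ') (x : ℕ → ℝ) : cone g w δ' x ≤ cone g w δ x := by
  unfold cone
  by_cases h1 : ∀ l, g * 2 ^ g ≤ l → l < (g + w) * 2 ^ g →
      δ' ≤ ∑ u ∈ range ((w + 2 * g) * 2 ^ g), cf (2 ^ g) l u * x u
  · rw [if_pos h1, if_pos]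
    intro l hl hl'
    exact h.trans (h1 l hl hl')
  · rw [if_neg h1]; split_ifs <;> norm_num

lemma Qg_anti (g w : ℕ) {δ δ' : ℝ} (h : δ ≤ δ') : Qg g w δ' ≤ Qg g w δ :=
  GI_mono _ (cone_MB g w δ') (cone_MB g w δ) (cone_anti g w h) _

lemma cone_shift {g w : ℕ} (hg : 1 ≤ g) {δ : ℝ} (hδ : 0 ≤ δ) (x : ℕ → ℝ) :
    cone g w (-δ) x ≤ cone g w (3 * δ) (addc ((w + 2 * g) * 2 ^ g) (8 * δ / Real.sqrt (2 ^ g)) x) := by
  have hR : 0 < 2 ^ g := by positivity
  have hs : 0 < Real.sqrt ((2:ℝ) ^ g) := Real.sqrt_pos.2 (by positivity)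
  unfold cone
  by_cases h1 : ∀ l, g * 2 ^ g ≤ l → l < (g + w) * 2 ^ g →
      -δ ≤ ∑ u ∈ range ((w + 2 * g) * 2 ^ g), cf (2 ^ g) l u * x u
  · rw [if_pos h1, if_pos]
    intro l hl hl'
    have h2 := h1 l hl hl'
    have h3 : ∑ u ∈ range ((w + 2 * g) * 2 ^ g), cf (2 ^ g) l u * addc ((w + 2 * g) * 2 ^ g) (8 * δ / Real.sqrt (2 ^ g)) x u =
        ∑ u ∈ range ((w + 2 * g) * 2 ^ g), cf (2 ^ g) l u * x u +
          (8 * δ / Real.sqrt (2 ^ g)) * ∑ u ∈ range ((w + 2 * g) * 2 ^ g), cf (2 ^ g) l u := by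
      rw [Finset.mul_sum, ← Finset.sum_add_distrib]
      refine Finset.sum_congr rfl fun u hu => ?_
      unfold addc
      rw [if_pos (Finset.mem_range.1 hu)]
      ring
    rw [h3]
    have h4 : Real.sqrt ((2 ^ g : ℕ):ℝ) / 2 ≤ ∑ u ∈ range ((w + 2 * g) * 2 ^ g), cf (2 ^ g) l u := by
      apply cf_sum hR
      · refine le_trans ?_ hl
        exact Nat.le_mul_of_pos_left _ hg
      · refine hl'.le.trans ?_
        exact Nat.mul_le_mul_right _ (by omega)
    have h5 : Real.sqrt ((2 ^ g : ℕ):ℝ) = Real.sqrt ((2:ℝ) ^ g) := by push_cast; rfl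
    rw [h5] at h4
    have h6 : (8 * δ / Real.sqrt (2 ^ g)) * (Real.sqrt ((2:ℝ) ^ g) / 2) = 4 * δ := by
      field_simp; ring
    have h7 : (8 * δ / Real.sqrt (2 ^ g)) * (Real.sqrt ((2:ℝ) ^ g) / 2) ≤
        (8 * δ / Real.sqrt (2 ^ g)) * ∑ u ∈ range ((w + 2 * g) * 2 ^ g), cf (2 ^ g) l u :=
      mul_le_mul_of_nonneg_left h4 (by positivity)
    linarith
  · rw [if_neg h1]; split_ifs <;> norm_num

lemma cone_rpow (g w : ℕ) (δ : ℝ) {p : ℝ} (hp : 0 < p) (x : ℕ → ℝ) : cone g w δ x ^ p = cone g w δ x := by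
  unfold cone
  split_ifs
  · exact Real.one_rpow p
  · exact Real.zero_rpow hp.ne'

/-- **Change of the level.** -/
theorem Qg_shift {p q : ℝ} (hpq : p.HolderConjugate q) {g w : ℕ} (hg : 1 ≤ g) {δ : ℝ} (hδ : 0 ≤ δ) :
    Qg g w (-δ) ≤ (Qg g w (3 * δ)) ^ (1 / p) * Real.exp ((q - 1) * (32 * ((w + 2 * g : ℕ) : ℝ) * δ ^ 2)) := by
  set U := (w + 2 * g) * 2 ^ g with hU
  set t : ℝ := 8 * δ / Real.sqrt (2 ^ g) with ht
  have h1 : Qg g w (-δ) ≤ GI U (fun y => cone g w (3 * δ) (addc U t y)) (fun _ => 0) :=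
    GI_mono U (cone_MB g w (-δ)) ((cone_MB g w (3 * δ)).comp_addc U t) (fun x => cone_shift hg hδ x) _
  have h2 := shift_GI hpq t U (cone_MB g w (3 * δ)) (fun _ => 0)
  have h3 : GI U (fun y => cone g w (3 * δ) y ^ p) (fun _ => 0) = Qg g w (3 * δ) := by
    unfold Qg
    congr 1
    funext y
    exact cone_rpow g w _ hpq.pos y
  rw [h3] at h2
  refine h1.trans (h2.trans (le_of_eq ?_))
  congr 2
  have hs : Real.sqrt ((2:ℝ) ^ g) ^ 2 = 2 ^ g := Real.sq_sqrt (by positivity)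
  rw [ht, div_pow, hs, hU]
  push_cast
  field_simp
  ring

end Pool.Agent.Lib.GraphPart
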