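import Pool.Agent.Lib.GraphPart.Limit2
import Pool.Agent.Lib.GraphPart.Shift

/-!
Asymptotic bookkeeping, part 3: the upper half.
-/

namespace Pool.Agent.Lib.GraphPart

open Finset Filter Topology

noncomputable def bU (g : ℕ) : ℝ := -Real.log (Qg g (g ^ 2) (-(1 / (g:ℝ)))) / (2 * (g:ℝ) ^ 2)
noncomputable def bL (g : ℕ) : ℝ := -Real.log (Qg g (g ^ 2) (3 * (1 / (g:ℝ)))) / (2 * (g:ℝ) ^ 2)

lemma ev_five : ∀ L : ℕ, 304 ≤ L → (5:ℝ) / 2 ^ L ≤ 1 / 4 * Real.exp (-((L / 4 + 51) * Real.log 2)) := by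
  intro L hL
  have e1 : Real.exp (-(((L:ℝ) / 4 + 51) * Real.log 2)) = (2:ℝ) ^ (-((L:ℝ) / 4 + 51)) := by
    rw [Real.rpow_def_of_pos (by norm_num)]; congr 1; ring
  rw [e1]
  have hLr : (304:ℝ) ≤ L := by exact_mod_cast hL
  have e2 : (5:ℝ) / 2 ^ L ≤ (2:ℝ) ^ (3 - (L:ℝ)) := by
    rw [Real.rpow_sub (by norm_num), Real.rpow_natCast]
    gcongr
    norm_num
  refine e2.trans ?_
  have e3 : (1:ℝ) / 4 * (2:ℝ) ^ (-((L:ℝ) / 4 + 51)) = (2:ℝ) ^ (-2 + (-((L:ℝ) / 4 + 51))) := by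
    rw [Real.rpow_add (by norm_num)]
    congr 1
    rw [Real.rpow_neg (by norm_num)]
    norm_num
  rw [e3]
  apply Real.rpow_le_rpow_of_exponent_le (by norm_num)
  linarith

/-- one step of the upper half -/
lemma upper_step {Lam L e v3 N g : ℕ} (hP : Par Lam L e v3) (h1 : 2 ^ L ≤ N) (h2 : N < 2 ^ (L + 1)) (hL : 304 ≤ L)
    {B : ℕ} (hB : 8 * e + B * (g ^ 2 + 2 * g) + g ≤ v3) (hB1 : 1 ≤ B)
    (hkb : (((g:ℝ) ^ 2 + 2 * g) * 2 ^ g) * ((1 + 2 * Cm) / 2 ^ (e / 16)) ≤ 1 / 2 * Real.exp (-((g:ℝ) ^ 2 + 2 * g)))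
    (herr : (L:ℝ) * 2 ^ g * (2 * Real.exp (-((1 / (g:ℝ)) ^ 2 * 2 ^ g / 22))) ≤ 1 / 4 * Real.exp (-((L / 4 + 51) * Real.log 2)))
    (hBW : -Real.log (gp N) + Real.log 2 ≤ B * ((g:ℝ) ^ 2 + 2 * g)) :
    0 < Qg g (g ^ 2) (-(1 / (g:ℝ))) ∧
      -Real.log (Qg g (g ^ 2) (-(1 / (g:ℝ)))) ≤ Real.log 2 + (-Real.log (gp N) + Real.log 2) / B := by
  have hC := Cm_pos
  have hgp := gp_pos_of h1 h2 hL
  have hap := gp_apriori h1 h2 hL
  have hkbb := kb_bound hP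
  set s : ℝ := 1 / 2 ^ (e / 16) with hs
  have hs0 : 0 < s := by rw [hs]; positivity
  have hkb0 : 0 ≤ kb (4 * e) (1 / 2 ^ (e / 4)) ((L:ℝ) ^ 2 + 2) s := kb_nonneg (by positivity) (by positivity) hs0
  have key := gp_upper hP h1 h2 hB (δ := 1 / (g:ℝ)) hs0 (by positivity) hkb0
  set Y : ℝ := (((g ^ 2 + 2 * g) * 2 ^ g : ℕ) : ℝ) * kb (4 * e) (1 / 2 ^ (e / 4)) ((L:ℝ) ^ 2 + 2) s with hY
  set X : ℝ := Qg g (g ^ 2) (-(1 / (g:ℝ))) + Y with hX
  have hQ0 := Qg_nonneg g (g ^ 2) (-(1 / (g:ℝ)))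
  have hY0 : 0 ≤ Y := by rw [hY]; positivity
  have hYb : Y ≤ 1 / 2 * Real.exp (-((g:ℝ) ^ 2 + 2 * g)) := by
    refine le_trans ?_ hkb
    rw [hY]; push_cast
    gcongr
  have hBr : (1:ℝ) ≤ B := by exact_mod_cast hB1
  have e1 : (B:ℝ) * (((g ^ 2 : ℕ):ℝ) * 2 ^ g) * (2 * Real.exp (-((1 / (g:ℝ)) ^ 2 * 2 ^ g / 22))) ≤ 1 / 4 * gp N := by
    refine le_trans ?_ (herr.trans (by gcongr))
    rw [← mul_assoc (B:ℝ)]
    gcongr
    have h3 : B * g ^ 2 ≤ L := by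
      have h4 : B * g ^ 2 ≤ B * (g ^ 2 + 2 * g) := Nat.mul_le_mul_left _ (by omega)
      have h5 := hP.exps.1
      omega
    exact_mod_cast h3
  have e2 : (5:ℝ) / 2 ^ L ≤ 1 / 4 * gp N := (ev_five L hL).trans (by gcongr)
  have e3 : gp N / 2 ≤ X ^ B := by linarith
  have hXpos : 0 < X := by
    by_contra hcon
    have : X = 0 := le_antisymm (not_lt.1 hcon) (by rw [hX]; positivity)
    rw [this, zero_pow (by omega)] at e3
    linarith
  have e4 := Real.log_le_log (by positivity) e3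
  rw [Real.log_div hgp.ne' (by norm_num), Real.log_pow] at e4
  have hB0 : (0:ℝ) < B := by linarith
  have e5 : -((-Real.log (gp N) + Real.log 2) / B) ≤ Real.log X := by
    rw [← neg_div, div_le_iff₀ hB0]; linarith
  have e6 : (-Real.log (gp N) + Real.log 2) / B ≤ (g:ℝ) ^ 2 + 2 * g := by
    rw [div_le_iff₀ hB0]; linarith
  have e7 : Real.exp (-((g:ℝ) ^ 2 + 2 * g)) ≤ X := by
    rw [← Real.le_log_iff_exp_le hXpos]; linarith
  have e8 : X / 2 ≤ Qg g (g ^ 2) (-(1 / (g:ℝ))) := by linarith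
  have hQpos : 0 < Qg g (g ^ 2) (-(1 / (g:ℝ))) := lt_of_lt_of_le (by positivity) e8
  refine ⟨hQpos, ?_⟩
  have e9 := Real.log_le_log (by positivity) e8
  rw [Real.log_div hXpos.ne' (by norm_num)] at e9
  linarith

/-- the real estimates for the upper half -/
lemma upper_real {ε ε' L ℓ g W B : ℝ} (hε0 : 0 < ε') (hε1 : ε' ≤ 1 / 8) (hε2 : ε' ≤ ε / 4) (hLr : 304 ≤ L)
    (hℓ0 : 0 ≤ ℓ) (hℓ1 : ℓ ≤ 3 / 10 * L) (hgr : 2 / ε' + 1 ≤ g) (hWr : W = g ^ 2 + 2 * g) (hBr : 1 ≤ B)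
    (hBW : L / 2 * (1 - ε') ≤ B * W) (hone : 1 ≤ ε' / 100 * L) :
    Real.log 2 + (ℓ + Real.log 2) / B ≤ (ℓ / L + ε) * (2 * g ^ 2) := by
  have hB0 : (0:ℝ) < B := by linarith
  have hLpos : (0:ℝ) < L := by linarith
  have l2 := log_two_lt
  have l3 := log_two_gt
  have h2ε : 0 ≤ 2 / ε' := by positivity
  have hg1 : (1:ℝ) ≤ g := by linarith
  have h5 : 2 ≤ ε' * g := by
    have : 2 / ε' ≤ g := by linarith
    rw [div_le_iff₀ hε0] at this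
    linarith
  have hden : 0 < L * (1 - ε') := mul_pos hLpos (by linarith)
  -- divide
  have r1 : (ℓ + Real.log 2) / B ≤ (ℓ + Real.log 2) * (2 * W / (L * (1 - ε'))) := by
    rw [div_eq_mul_inv]
    apply mul_le_mul_of_nonneg_left _ (by linarith)
    rw [inv_eq_one_div, div_le_div_iff₀ hB0 hden]
    linarith
  have hWg : W = g ^ 2 + 2 * g := hWr
  have hg0 : 0 < g := by linarith
  have r2 : W ≤ g ^ 2 * (1 + ε') := by
    have h6 : 2 * g ≤ (ε' * g) * g := mul_le_mul_of_nonneg_right h5 hg0.le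
    have h7 : g ^ 2 * (1 + ε') = g ^ 2 + (ε' * g) * g := by ring
    rw [hWg, h7]; linarith
  have r3 : (ℓ + Real.log 2) * (2 * W / (L * (1 - ε'))) ≤ (ℓ / L + ε') * ((2 * g ^ 2) * (1 + 3 * ε')) := by
    have h6 : 2 * W / (L * (1 - ε')) ≤ (2 * g ^ 2) * (1 + 3 * ε') / L := by
      rw [div_le_div_iff₀ hden hLpos]
      have h7 : (1 + ε') ≤ (1 + 3 * ε') * (1 - ε') := by nlinarith
      have h8 : g ^ 2 * (1 + ε') ≤ g ^ 2 * ((1 + 3 * ε') * (1 - ε')) := mul_le_mul_of_nonneg_left h7 (by positivity)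
      have h9 : W ≤ g ^ 2 * ((1 + 3 * ε') * (1 - ε')) := r2.trans h8
      have h10 := mul_le_mul_of_nonneg_right h9 (show (0:ℝ) ≤ 2 * L by linarith)
      calc 2 * W * L = W * (2 * L) := by ring
        _ ≤ g ^ 2 * ((1 + 3 * ε') * (1 - ε')) * (2 * L) := h10
        _ = _ := by ring
    have h9 : (ℓ + Real.log 2) / L ≤ ℓ / L + ε' := by
      rw [add_div]
      have h10 : Real.log 2 / L ≤ ε' := by
        rw [div_le_iff₀ hLpos]
        linarith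
      linarith
    calc (ℓ + Real.log 2) * (2 * W / (L * (1 - ε'))) ≤ (ℓ + Real.log 2) * ((2 * g ^ 2) * (1 + 3 * ε') / L) :=
          mul_le_mul_of_nonneg_left h6 (by linarith)
      _ = ((ℓ + Real.log 2) / L) * ((2 * g ^ 2) * (1 + 3 * ε')) := by ring
      _ ≤ _ := mul_le_mul_of_nonneg_right h9 (by positivity)
  have hx : ℓ / L ≤ 3 / 10 := by rw [div_le_iff₀ hLpos]; exact hℓ1
  have hx0 : 0 ≤ ℓ / L := by positivity
  have r4 : (ℓ / L + ε') * ((2 * g ^ 2) * (1 + 3 * ε')) ≤ (ℓ / L + 3 * ε') * (2 * g ^ 2) := by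
    have h10 : (ℓ / L + ε') * (1 + 3 * ε') ≤ ℓ / L + 3 * ε' := by nlinarith
    have := mul_le_mul_of_nonneg_right h10 (show (0:ℝ) ≤ 2 * g ^ 2 by positivity)
    linarith
  have r5 : Real.log 2 ≤ ε' * (2 * g ^ 2) := by
    have h6 : ε' * (2 * g ^ 2) = 2 * ((ε' * g) * g) := by ring
    have h7 : 2 * 1 ≤ (ε' * g) * g := mul_le_mul h5 hg1 (by norm_num) (by linarith)
    rw [h6]; linarith
  have r6 : (ℓ / L + 3 * ε') * (2 * g ^ 2) + ε' * (2 * g ^ 2) ≤ (ℓ / L + ε) * (2 * g ^ 2) := by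
    have : ℓ / L + 3 * ε' + ε' ≤ ℓ / L + ε := by linarith
    have := mul_le_mul_of_nonneg_right this (show (0:ℝ) ≤ 2 * g ^ 2 by positivity)
    linarith
  linarith

lemma upper_big {ε' L ℓ W B : ℝ} (hε1 : ε' ≤ 1 / 8) (hLr : 304 ≤ L)
    (hℓ1 : ℓ ≤ 3 / 10 * L) (hBW : L / 2 * (1 - ε') ≤ B * W) : ℓ + Real.log 2 ≤ B * W := by
  have l2 := log_two_lt
  have h1 : L / 2 * (7 / 8) ≤ L / 2 * (1 - ε') := mul_le_mul_of_nonneg_left (by linarith) (by linarith)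
  linarith

lemma e_small {ε' e L Lam : ℝ} (hε0 : 0 < ε') (hLamε : 100 / ε' ≤ Lam) (hL : 0 < L) (hLam : 0 < Lam) (h3 : e ≤ L / Lam) :
    e ≤ ε' / 100 * L := by
  refine h3.trans ?_
  rw [div_le_iff₀ hLam]
  have h4 : 100 ≤ Lam * ε' := by
    rw [div_le_iff₀ hε0] at hLamε; exact hLamε
  have h6 : ε' / 100 * L * Lam = (Lam * ε') / 100 * L := by ring
  rw [h6]
  have h5 : (1:ℝ) ≤ (Lam * ε') / 100 := by rw [le_div_iff₀ (by norm_num)]; linarith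
  calc L = 1 * L := (one_mul L).symm
    _ ≤ _ := mul_le_mul_of_nonneg_right h5 hL.le

lemma upper_half (ε : ℝ) (hε : 0 < ε) : ∀ᶠ L : ℕ in atTop, ∀ g : ℕ, L ^ 2 ≤ 4 * 2 ^ g → 2 ^ g ≤ 4 * L ^ 2 →
    ∀ N : ℕ, 2 ^ L ≤ N → N < 2 ^ (L + 1) →
    0 < Qg g (g ^ 2) (-(1 / (g:ℝ))) ∧ bU g ≤ -Real.log (gp N) / L + ε := by
  set ε' : ℝ := min (ε / 4) (1 / 8) with hε'
  have hε0 : 0 < ε' := by rw [hε']; positivity
  have hε1 : ε' ≤ 1 / 8 := min_le_right _ _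
  have hε2 : ε' ≤ ε / 4 := min_le_left _ _
  obtain ⟨Lam, hLam⟩ : ∃ Lam : ℕ, 100 + 100 / ε' ≤ Lam := exists_nat_ge _
  have hLam100 : 100 ≤ Lam := by
    have : (100:ℝ) ≤ Lam := le_trans (by have : 0 ≤ 100 / ε' := by positivity
                                         linarith) hLam
    exact_mod_cast this
  have hLamr : (100:ℝ) ≤ Lam := by exact_mod_cast hLam100
  have hLamε : 100 / ε' ≤ Lam := by linarith
  obtain ⟨G0, hG0⟩ : ∃ G0 : ℕ, 2 / ε' + 1 ≤ G0 := exists_nat_ge _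
  obtain ⟨L0, hL0⟩ : ∃ L0 : ℕ, 100 / ε' ≤ L0 := exists_nat_ge _
  filter_upwards [par_eventually Lam hLam100, ev_g (ε' / 32) (by positivity), ev_kb Lam hLam100, ev_err,
    eventually_ge_atTop 304, eventually_ge_atTop (4 * 2 ^ G0 + 1), eventually_ge_atTop L0]
    with L hP hg hkb herr hL hLG hLL g hg1 hg2 N h1 h2
  obtain ⟨x1, x2⟩ := hP.exps
  have hgW := hg g hg2
  have hLr : (304:ℝ) ≤ L := by exact_mod_cast hL
  have hLpos : (0:ℝ) < L := by linarith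
  have hLL' : (L0:ℝ) ≤ L := by exact_mod_cast hLL
  have hLε : 100 / ε' ≤ L := hL0.trans hLL'
  have hgG : G0 ≤ g := by
    by_contra hcon
    have h3 : 2 ^ g ≤ 2 ^ G0 := Nat.pow_le_pow_right (by norm_num) (by omega)
    have h4 : L ≤ L ^ 2 := Nat.le_self_pow (by norm_num) _
    omega
  have hgr : 2 / ε' + 1 ≤ g := hG0.trans (by exact_mod_cast hgG)
  have hg1r : (1:ℝ) ≤ g := by have : 0 ≤ 2 / ε' := by positivity
                              linarith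
  have hgpos : (0:ℝ) < g := by linarith
  set e := L / Lam with he
  set v3 := L / 2 - 4 * e with hv3
  set W : ℕ := g ^ 2 + 2 * g with hW
  have hWpos : 0 < W := by
    have : 0 < g := by exact_mod_cast hgpos
    positivity
  have hWr : (W:ℝ) = (g:ℝ) ^ 2 + 2 * g := by rw [hW]; push_cast; ring
  set B := (v3 - 8 * e - g) / W with hBdef
  have hB1 : B * W ≤ v3 - 8 * e - g := Nat.div_mul_le_self _ _
  have hB2 : v3 - 8 * e - g < B * W + W := by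
    have := Nat.lt_div_mul_add (a := v3 - 8 * e - g) hWpos
    rw [← hBdef] at this
    exact this
  clear_value B
  -- real estimates
  have her : (e:ℝ) ≤ ε' / 100 * L :=
    e_small hε0 hLamε hLpos (by linarith) (by rw [he]; exact Nat.cast_div_le)
  have hWL : (W:ℝ) ≤ ε' / 32 * L := by rw [hWr]; exact hgW
  have hgL : (g:ℝ) ≤ ε' / 32 * L := by
    refine le_trans ?_ hWL
    rw [hWr]; have := sq_nonneg (g:ℝ); linarith
  have hL2 : (L:ℝ) / 2 - 1 ≤ ((L / 2 : ℕ):ℝ) := by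
    have h3 : L ≤ 2 * (L / 2) + 1 := by omega
    have h4 : (L:ℝ) ≤ 2 * ((L / 2 : ℕ):ℝ) + 1 := by exact_mod_cast h3
    linarith
  have hone : (1:ℝ) ≤ ε' / 100 * L := by
    rw [div_le_iff₀ hε0] at hLε
    linarith
  have hBW : (L:ℝ) / 2 * (1 - ε') ≤ B * W := by
    have h3 : L / 2 ≤ 12 * e + g + (B * W + W) := by omega
    have h4 : ((L / 2 : ℕ):ℝ) ≤ 12 * e + g + (B * W + W) := by exact_mod_cast h3
    have h6 : 0 ≤ ε' * L := by positivity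
    linarith
  have hBWpos : (0:ℝ) < B * W := lt_of_lt_of_le (mul_pos (by linarith) (by linarith)) hBW
  have hBpos : 1 ≤ B := by
    by_contra hcon
    have : B = 0 := Nat.lt_one_iff.1 (not_le.1 hcon)
    rw [this] at hBWpos
    simp at hBWpos
  have hB8 : 8 * e + B * W + g ≤ v3 := by
    have : 1 ≤ B * W := Nat.mul_pos hBpos hWpos
    omega
  have hBr : (1:ℝ) ≤ B := by exact_mod_cast hBpos
  -- the logarithm
  set ℓ : ℝ := -Real.log (gp N) with hℓ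
  have hℓ0 : 0 ≤ ℓ := by
    have := Real.log_nonpos (gp_pos_of h1 h2 hL).le (gp_le_one N)
    rw [hℓ]; linarith
  have hℓ1 : ℓ ≤ 3 / 10 * L := by
    have h3 := neg_log_le h1 h2 hL
    have l2 := log_two_lt
    have h4 : ((L:ℝ) / 4 + 51) * Real.log 2 ≤ (L / 4 + 51) * 0.7 := mul_le_mul_of_nonneg_left l2.le (by linarith)
    rw [hℓ]
    linarith
  have hbig : ℓ + Real.log 2 ≤ B * ((g:ℝ) ^ 2 + 2 * g) := by
    rw [← hWr]
    exact upper_big hε1 hLr hℓ1 hBW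
  obtain ⟨q1, q2⟩ := upper_step hP h1 h2 hL hB8 hBpos (hkb g hg2) (herr g hg1 hg2) hbig
  refine ⟨q1, ?_⟩
  unfold bU
  rw [div_le_iff₀ (by positivity)]
  exact q2.trans (upper_real hε0 hε1 hε2 hLr hℓ0 hℓ1 hgr hWr hBr hBW hone)

end Pool.Agent.Lib.GraphPart
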