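import Pool.Agent.Lib.GraphPart.Limit3

/-!
Asymptotic bookkeeping, part 4: the lower half.
-/

namespace Pool.Agent.Lib.GraphPart

open Finset Filter Topology

lemma shift_half (ε : ℝ) (hε : 0 < ε) : ∀ᶠ g : ℕ in atTop, 0 < Qg g (g ^ 2) (-(1 / (g:ℝ))) → bU g ≤ 1 →
    0 < Qg g (g ^ 2) (3 * (1 / (g:ℝ))) ∧ bL g ≤ bU g + ε := by
  set η : ℝ := ε / 2 with hη
  have hη0 : 0 < η := by rw [hη]; positivity
  have hp1 : 1 < 1 + η := by linarith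
  have hpq := Real.HolderConjugate.conjExponent hp1
  set p : ℝ := 1 + η with hp
  set q : ℝ := p.conjExponent with hq
  have hq1 : q - 1 = 1 / η := by
    have e1 : q = (1 + η) / (1 + η - 1) := rfl
    rw [e1, show (1 + η - 1) = η by ring]
    field_simp
    ring
  obtain ⟨G0, hG0⟩ : ∃ G0 : ℕ, 1 + 48 * p / η ^ 2 ≤ G0 := exists_nat_ge _
  filter_upwards [eventually_ge_atTop G0] with g hg hQ hb
  have hgr : 1 + 48 * p / η ^ 2 ≤ g := hG0.trans (by exact_mod_cast hg)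
  have hp0 : 0 < p := by linarith
  have h48 : 0 ≤ 48 * p / η ^ 2 := by positivity
  have hg1 : (1:ℝ) ≤ g := by linarith
  have hg1n : 1 ≤ g := by exact_mod_cast hg1
  have hg0 : (0:ℝ) < g := by linarith
  have key := Qg_shift hpq hg1n (w := g ^ 2) (δ := 1 / (g:ℝ)) (by positivity)
  have hQ3 : 0 < Qg g (g ^ 2) (3 * (1 / (g:ℝ))) := by
    rcases (Qg_nonneg g (g ^ 2) (3 * (1 / (g:ℝ)))).eq_or_lt with h | h
    · rw [← h, Real.zero_rpow (by positivity), zero_mul] at key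
      linarith
    · exact h
  refine ⟨hQ3, ?_⟩
  have h1 := Real.log_le_log hQ key
  rw [Real.log_mul (by positivity) (Real.exp_ne_zero _), Real.log_exp, Real.log_rpow hQ3] at h1
  have h2 : 32 * ((g ^ 2 + 2 * g : ℕ) : ℝ) * (1 / (g:ℝ)) ^ 2 ≤ 96 := by
    push_cast
    rw [div_pow, one_pow, mul_one_div, div_le_iff₀ (by positivity)]
    nlinarith
  have h3 : (q - 1) * (32 * ((g ^ 2 + 2 * g : ℕ) : ℝ) * (1 / (g:ℝ)) ^ 2) ≤ 1 / η * 96 := by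
    rw [hq1]
    exact mul_le_mul_of_nonneg_left h2 (by positivity)
  have h4 : -Real.log (Qg g (g ^ 2) (3 * (1 / (g:ℝ)))) ≤ p * (-Real.log (Qg g (g ^ 2) (-(1 / (g:ℝ)))) + 1 / η * 96) := by
    have h5 : -(1 / p * Real.log (Qg g (g ^ 2) (3 * (1 / (g:ℝ))))) ≤ -Real.log (Qg g (g ^ 2) (-(1 / (g:ℝ)))) + 1 / η * 96 := by
      linarith
    have h6 := mul_le_mul_of_nonneg_left h5 hp0.le
    refine le_trans (le_of_eq ?_) h6
    field_simp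
  unfold bL bU at *
  set x : ℝ := -Real.log (Qg g (g ^ 2) (-(1 / (g:ℝ)))) with hx
  have hg2 : (0:ℝ) < 2 * (g:ℝ) ^ 2 := by positivity
  rw [div_le_one hg2] at hb
  rw [div_le_iff₀ hg2, add_mul, div_mul_cancel₀ _ hg2.ne']
  refine h4.trans ?_
  have h7 : 48 * p / η ^ 2 ≤ (g:ℝ) ^ 2 := by nlinarith
  rw [div_le_iff₀ (by positivity)] at h7
  have h8 : p * (1 / η * 96) ≤ η * (2 * (g:ℝ) ^ 2) := by
    have : p * (1 / η * 96) = (2 * (48 * p)) / η := by field_simp; ring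
    rw [this, div_le_iff₀ hη0]
    nlinarith
  have h9 : p * x = x + η * x := by rw [hp]; ring
  have h10 : η * x ≤ η * (2 * (g:ℝ) ^ 2) := mul_le_mul_of_nonneg_left hb hη0.le
  have h11 : ε = η + η := by rw [hη]; ring
  rw [mul_add, h9, h11]
  linarith

/-- polynomial against exponential growth of the exponent -/
lemma ev_gauss (C : ℝ) (hC : 0 ≤ C) : ∀ᶠ g : ℕ in atTop,
    ((g:ℝ) ^ 2 * 2 ^ g) * (4 * Real.exp (-((1 / (g:ℝ)) ^ 2 * 2 ^ g / 22))) ≤ 1 / 4 * Real.exp (-(2 * (g:ℝ) ^ 2 * C)) := by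
  obtain ⟨M0, hM0⟩ := ev_pow_le (22 * (⌈2 * C⌉₊ + 20)) 4
  filter_upwards [eventually_ge_atTop M0, eventually_ge_atTop 1] with g hg hg1
  have h1 := hM0 g hg
  have hg1r : (1:ℝ) ≤ g := by exact_mod_cast hg1
  have h2 : ((22 * (⌈2 * C⌉₊ + 20) : ℕ):ℝ) * ((g:ℝ) + 2) ^ 4 ≤ 2 ^ g := by exact_mod_cast h1
  have h3 : 2 * C ≤ (⌈2 * C⌉₊ : ℝ) := Nat.le_ceil _
  have h4 : (2 * C + 20) * (g:ℝ) ^ 2 ≤ (1 / (g:ℝ)) ^ 2 * 2 ^ g / 22 := by
    rw [div_pow, one_pow, one_div, inv_mul_eq_div, div_div, le_div_iff₀ (by positivity)]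
    refine le_trans ?_ h2
    push_cast
    have h5 : (g:ℝ) ^ 2 * (g:ℝ) ^ 2 ≤ ((g:ℝ) + 2) ^ 4 := by
      have : (g:ℝ) ^ 2 * (g:ℝ) ^ 2 = (g:ℝ) ^ 4 := by ring
      rw [this]
      gcongr; linarith
    calc (2 * C + 20) * (g:ℝ) ^ 2 * ((g:ℝ) ^ 2 * 22) = 22 * (2 * C + 20) * ((g:ℝ) ^ 2 * (g:ℝ) ^ 2) := by ring
      _ ≤ 22 * ((⌈2 * C⌉₊ : ℝ) + 20) * ((g:ℝ) + 2) ^ 4 := by gcongr
  have h6 : Real.exp (-((1 / (g:ℝ)) ^ 2 * 2 ^ g / 22)) ≤ Real.exp (-((2 * C + 20) * (g:ℝ) ^ 2)) :=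
    Real.exp_le_exp.2 (by linarith)
  have h7 : (2:ℝ) ^ g ≤ Real.exp ((g:ℝ) ^ 2) := by
    have e1 : (2:ℝ) ^ g = Real.exp (g * Real.log 2) := by
      rw [← Real.rpow_natCast, Real.rpow_def_of_pos (by norm_num), mul_comm]
    rw [e1]
    apply Real.exp_le_exp.2
    have := log_two_lt
    nlinarith
  have h8 : (g:ℝ) ^ 2 ≤ Real.exp ((g:ℝ) ^ 2) := by
    have := Real.add_one_le_exp ((g:ℝ) ^ 2); linarith
  have h9 : (16:ℝ) ≤ Real.exp (16 * (g:ℝ) ^ 2) := by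
    have := Real.add_one_le_exp (16 * (g:ℝ) ^ 2)
    nlinarith
  calc ((g:ℝ) ^ 2 * 2 ^ g) * (4 * Real.exp (-((1 / (g:ℝ)) ^ 2 * 2 ^ g / 22)))
      ≤ (Real.exp ((g:ℝ) ^ 2) * Real.exp ((g:ℝ) ^ 2)) * (4 * Real.exp (-((2 * C + 20) * (g:ℝ) ^ 2))) := by gcongr
    _ = 1 / 4 * (16 * (Real.exp ((g:ℝ) ^ 2) * Real.exp ((g:ℝ) ^ 2) * Real.exp (-((2 * C + 20) * (g:ℝ) ^ 2)))) := by ring
    _ ≤ 1 / 4 * (Real.exp (16 * (g:ℝ) ^ 2) * (Real.exp ((g:ℝ) ^ 2) * Real.exp ((g:ℝ) ^ 2) * Real.exp (-((2 * C + 20) * (g:ℝ) ^ 2)))) := by gcongr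
    _ = 1 / 4 * Real.exp (16 * (g:ℝ) ^ 2 + ((g:ℝ) ^ 2 + (g:ℝ) ^ 2 + (-((2 * C + 20) * (g:ℝ) ^ 2)))) := by
        rw [Real.exp_add, Real.exp_add, Real.exp_add]
    _ ≤ _ := by
        gcongr
        nlinarith

lemma ev_kb_fixed (Lam : ℕ) (hLam : 100 ≤ Lam) (K c : ℝ) (hc : 0 < c) : ∀ᶠ L : ℕ in atTop,
    K * ((1 + 2 * Cm) / 2 ^ (L / Lam / 16)) ≤ c := by
  have hC := Cm_pos
  obtain ⟨n0, hn0⟩ := pow_unbounded_of_one_lt (|K| * (1 + 2 * Cm) / c) (show (1:ℝ) < 2 by norm_num)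
  filter_upwards [eventually_ge_atTop (Lam * (16 * n0))] with L hL
  have h1 : n0 ≤ L / Lam / 16 := by
    rw [Nat.div_div_eq_div_mul, Nat.le_div_iff_mul_le (by omega)]
    calc n0 * (Lam * 16) = Lam * (16 * n0) := by ring
      _ ≤ L := hL
  have h2 : (2:ℝ) ^ n0 ≤ 2 ^ (L / Lam / 16) := pow_le_pow_right₀ (by norm_num) h1
  rw [mul_div_assoc', div_le_iff₀ (by positivity)]
  rw [div_lt_iff₀ hc] at hn0
  have h3 : K * (1 + 2 * Cm) ≤ |K| * (1 + 2 * Cm) := by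
    have := le_abs_self K
    gcongr
  nlinarith

lemma lower_half (C ε : ℝ) (hC : 0 ≤ C) (hε : 0 < ε) : ∀ᶠ g : ℕ in atTop, 0 < Qg g (g ^ 2) (3 * (1 / (g:ℝ))) → bL g ≤ C →
    ∀ᶠ L : ℕ in atTop, ∀ N : ℕ, 2 ^ L ≤ N → N < 2 ^ (L + 1) → -Real.log (gp N) / L ≤ bL g + ε := by
  obtain ⟨Lam, hLam⟩ : ∃ Lam : ℕ, 100 + 100 / ε ≤ Lam := exists_nat_ge _
  have hLam100 : 100 ≤ Lam := by
    have : (100:ℝ) ≤ Lam := le_trans (by have : 0 ≤ 100 / ε := by positivity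
                                         linarith) hLam
    exact_mod_cast this
  have hLamr : (100:ℝ) ≤ Lam := by exact_mod_cast hLam100
  have hLamε : 100 / ε ≤ Lam := by linarith
  obtain ⟨G0, hG0⟩ : ∃ G0 : ℕ, 1 + 2 / ε ≤ G0 := exists_nat_ge _
  filter_upwards [ev_gauss C hC, eventually_ge_atTop G0] with g hg hgG hQ hbC
  have hgr : 1 + 2 / ε ≤ g := hG0.trans (by exact_mod_cast hgG)
  have h2ε : 0 ≤ 2 / ε := by positivity
  have hg1 : (1:ℝ) ≤ g := by linarith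
  have hg1n : 1 ≤ g := by exact_mod_cast hg1
  have hg0 : (0:ℝ) < g := by linarith
  set Q : ℝ := Qg g (g ^ 2) (3 * (1 / (g:ℝ))) with hQdef
  have hb2 : -Real.log Q = bL g * (2 * (g:ℝ) ^ 2) := by
    unfold bL
    rw [div_mul_cancel₀ _ (by positivity)]
  have hQC : Real.exp (-(2 * (g:ℝ) ^ 2 * C)) ≤ Q := by
    rw [← Real.le_log_iff_exp_le hQ]
    have : bL g * (2 * (g:ℝ) ^ 2) ≤ C * (2 * (g:ℝ) ^ 2) := by gcongr
    linarith
  have herr : ((g:ℝ) ^ 2 * 2 ^ g) * (4 * Real.exp (-((1 / (g:ℝ)) ^ 2 * 2 ^ g / 22))) ≤ Q / 4 := by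
    refine hg.trans ?_
    linarith
  obtain ⟨L1, hL1⟩ : ∃ L1 : ℕ, 10 * (2 * (g:ℝ) + (g:ℝ) ^ 2 + 76) / ε ≤ L1 := exists_nat_ge _
  filter_upwards [par_eventually Lam hLam100, ev_kb_fixed Lam hLam100 (((g:ℝ) ^ 2 + 2 * g) * 2 ^ g) (Q / 4) (by positivity),
    eventually_ge_atTop 304, eventually_ge_atTop L1, eventually_ge_atTop (Lam * (4 * g ^ 2 + 16 * g))] with L hP hkb hL hLL hLg N h1 h2
  obtain ⟨x1, x2⟩ := hP.exps
  have x3 := hP.e_big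
  set e := L / Lam with he
  set v3 := L / 2 - 4 * e with hv3
  have heg : 4 * g ^ 2 + 16 * g ≤ e := by
    rw [he, Nat.le_div_iff_mul_le (by omega), Nat.mul_comm]
    exact hLg
  have hgsq : 0 < g ^ 2 := by positivity
  set B := (v3 - 8 * e - 3 * g) / g ^ 2 with hBdef
  have hB1 : B * g ^ 2 ≤ v3 - 8 * e - 3 * g := Nat.div_mul_le_self _ _
  have hB2 : v3 - 8 * e - 3 * g < B * g ^ 2 + g ^ 2 := by
    have := Nat.lt_div_mul_add (a := v3 - 8 * e - 3 * g) hgsq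
    rw [← hBdef] at this
    exact this
  have hkbb := kb_bound hP
  set s : ℝ := 1 / 2 ^ (e / 16) with hs
  have hs0 : 0 < s := by rw [hs]; positivity
  have hCm := Cm_pos
  have hδ : 1 / (2:ℝ) ^ e ≤ 1 / (g:ℝ) := by
    apply one_div_le_one_div_of_le hg0
    have h3 : g ≤ 2 ^ e := by
      have : e < 2 ^ e := Nat.lt_two_pow_self
      omega
    exact_mod_cast h3
  have hpw : Q / 2 ≤ pwin g (g ^ 2) (1 / (g:ℝ)) s e L := by
    unfold pwin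
    rw [← hQdef]
    have h3 : (((g ^ 2 + 2 * g) * 2 ^ g : ℕ):ℝ) * kb (4 * e) (1 / 2 ^ (e / 4)) ((L:ℝ) ^ 2 + 2) s ≤ Q / 4 := by
      refine le_trans ?_ hkb
      push_cast
      gcongr
    have h4 : (((g ^ 2 : ℕ):ℝ) * 2 ^ g) * (4 * Real.exp (-((1 / (g:ℝ)) ^ 2 * 2 ^ g / 22))) ≤ Q / 4 := by
      push_cast
      exact herr
    linarith
  have hpw0 : 0 < pwin g (g ^ 2) (1 / (g:ℝ)) s e L := lt_of_lt_of_le (by positivity) hpw
  have key := gp_lower hP h1 h2 hL (g := g) (w := g ^ 2) (B := B) (by omega) (by omega) hs0 hδ hpw0.le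
  have hgp := gp_pos_of h1 h2 hL
  have h3 : 1 / 2 ^ (8 * e + 2 * g + g ^ 2 + 76) * (Q / 2) ^ B ≤ gp N := by
    refine le_trans ?_ key
    gcongr
  have h4 := Real.log_le_log (by positivity) h3
  rw [Real.log_mul (by positivity) (by positivity), Real.log_div one_ne_zero (by positivity), Real.log_one, Real.log_pow,
    Real.log_pow, Real.log_div hQ.ne' (by norm_num)] at h4
  have hLr : (304:ℝ) ≤ L := by exact_mod_cast hL
  have hLpos : (0:ℝ) < L := by linarith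
  rw [div_le_iff₀ hLpos]
  have l2 := log_two_lt
  have l3 := log_two_gt
  have hbnn : 0 ≤ bL g := by
    unfold bL
    apply div_nonneg _ (by positivity)
    have := Real.log_nonpos hQ.le (Qg_le_one _ _ _)
    linarith
  have hBL : (B:ℝ) * (2 * (g:ℝ) ^ 2) ≤ L := by
    have h5 : 2 * (B * g ^ 2) ≤ L := by omega
    have h6 : 2 * ((B:ℝ) * (g:ℝ) ^ 2) ≤ L := by exact_mod_cast h5
    linarith
  have her : (e:ℝ) ≤ ε / 100 * L := by
    have h5 : (e:ℝ) ≤ (L:ℝ) / Lam := by rw [he]; exact Nat.cast_div_le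
    refine h5.trans ?_
    rw [div_le_iff₀ (by linarith)]
    have h6 : 100 ≤ Lam * ε := by
      rw [div_le_iff₀ hε] at hLamε; exact hLamε
    have : ε / 100 * L * Lam = (Lam * ε) / 100 * L := by ring
    rw [this]
    have h7 : (1:ℝ) ≤ (Lam * ε) / 100 := by rw [le_div_iff₀ (by norm_num)]; linarith
    nlinarith
  have hL1' : 10 * (2 * (g:ℝ) + (g:ℝ) ^ 2 + 76) / ε ≤ L := hL1.trans (by exact_mod_cast hLL)
  rw [div_le_iff₀ hε] at hL1'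
  -- final estimate
  have f1 : (B:ℝ) * (-Real.log Q) ≤ bL g * L := by
    rw [hb2]
    calc (B:ℝ) * (bL g * (2 * (g:ℝ) ^ 2)) = bL g * (B * (2 * (g:ℝ) ^ 2)) := by ring
      _ ≤ bL g * L := by gcongr
  have f2 : (B:ℝ) * Real.log 2 ≤ ε / 2 * L := by
    have h8 : 2 ≤ ε * g := by
      have : 2 / ε ≤ g := by linarith
      rw [div_le_iff₀ hε] at this
      linarith
    have hB0 : (0:ℝ) ≤ B := Nat.cast_nonneg B
    have h9 : (B:ℝ) * 2 ≤ ε * L := by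
      have h10 : (B:ℝ) * 2 ≤ (B:ℝ) * (ε * g) := by gcongr
      have h11 : (B:ℝ) * g ≤ L := by
        have : (B:ℝ) * g ≤ B * (2 * (g:ℝ) ^ 2) := by
          gcongr
          nlinarith
        linarith
      have h12 : ε * (B * g) ≤ ε * L := by gcongr
      linarith
    have h13 : (B:ℝ) * Real.log 2 ≤ B * 1 := by gcongr; linarith
    linarith
  have f3 : ((8 * e + 2 * g + g ^ 2 + 76 : ℕ):ℝ) * Real.log 2 ≤ ε / 2 * L := by
    push_cast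
    have h8 : (8 * (e:ℝ) + 2 * g + (g:ℝ) ^ 2 + 76) * Real.log 2 ≤ (8 * (e:ℝ) + 2 * g + (g:ℝ) ^ 2 + 76) * 1 := by
      gcongr; linarith
    linarith
  linarith

end Pool.Agent.Lib.GraphPart
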