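import Pool.Agent.Lib.GraphPart.Limit4

/-!
Convergence of the normalised logarithms.
-/

namespace Pool.Agent.Lib.GraphPart

open Finset Filter Topology

/-- a convergence criterion -/
lemma conv_of_almost_monotone (a : ℕ → ℝ) (M : ℝ) (h0 : ∀ n, 0 ≤ a n) (hM : ∀ᶠ n in atTop, a n ≤ M)
    (h : ∀ ε : ℝ, 0 < ε → ∀ᶠ n' in atTop, ∀ᶠ n in atTop, a n ≤ a n' + ε) :
    ∃ α : ℝ, Tendsto a atTop (𝓝 α) := by
  have hb1 : IsBoundedUnder (· ≤ ·) atTop a := isBoundedUnder_of_eventually_le hM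
  have hb2 : IsBoundedUnder (· ≥ ·) atTop a := isBoundedUnder_of_eventually_ge (Eventually.of_forall h0)
  refine ⟨liminf a atTop, tendsto_of_le_liminf_of_limsup_le le_rfl ?_ hb1 hb2⟩
  apply le_of_forall_pos_le_add
  intro ε hε
  have h1 := h (ε / 2) (by positivity)
  have h2 : ∀ᶠ n' in atTop, limsup a atTop - ε / 2 ≤ a n' := by
    filter_upwards [h1] with n' hn'
    have : limsup a atTop ≤ a n' + ε / 2 := limsup_le_of_le (hb2.isCoboundedUnder_flip) hn'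
    linarith
  have h3 : limsup a atTop - ε / 2 ≤ liminf a atTop := le_liminf_of_le (hb1.isCoboundedUnder_flip) h2
  linarith

lemma tendsto_log2 : Tendsto (fun N : ℕ => Nat.log 2 N) atTop atTop := by
  rw [tendsto_atTop]
  intro b
  filter_upwards [eventually_ge_atTop (2 ^ b)] with N hN
  exact Nat.le_log_of_pow_le (by norm_num) hN

lemma aN_le : ∀ᶠ N : ℕ in atTop, aN N ≤ 1 := by
  filter_upwards [tendsto_log2.eventually_ge_atTop 304, eventually_ge_atTop 1] with N hN hN1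
  obtain ⟨h1, h2⟩ := log_bounds hN1
  have h3 := neg_log_le h1 h2 hN
  unfold aN
  have hL : (304:ℝ) ≤ (Nat.log 2 N : ℝ) := by exact_mod_cast hN
  rw [div_le_one (by linarith)]
  have l2 := log_two_lt
  have l3 := log_two_gt
  have : ((Nat.log 2 N : ℝ) / 4 + 51) * Real.log 2 ≤ ((Nat.log 2 N : ℝ) / 4 + 51) * 0.7 := by gcongr
  linarith

lemma aN_le' : ∀ᶠ N : ℕ in atTop, aN N ≤ 1 / 2 := by
  filter_upwards [tendsto_log2.eventually_ge_atTop 304, eventually_ge_atTop 1] with N hN hN1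
  obtain ⟨h1, h2⟩ := log_bounds hN1
  have h3 := neg_log_le h1 h2 hN
  unfold aN
  have hL : (304:ℝ) ≤ (Nat.log 2 N : ℝ) := by exact_mod_cast hN
  rw [div_le_iff₀ (by linarith)]
  have l2 := log_two_lt
  have l3 := log_two_gt
  have : ((Nat.log 2 N : ℝ) / 4 + 51) * Real.log 2 ≤ ((Nat.log 2 N : ℝ) / 4 + 51) * 0.7 := by gcongr
  linarith

/-- the upper half along `N` -/
lemma upper_N (ε : ℝ) (hε : 0 < ε) : ∀ᶠ N : ℕ in atTop, ∀ g : ℕ, (Nat.log 2 N) ^ 2 ≤ 4 * 2 ^ g → 2 ^ g ≤ 4 * (Nat.log 2 N) ^ 2 →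
    0 < Qg g (g ^ 2) (-(1 / (g:ℝ))) ∧ bU g ≤ aN N + ε := by
  filter_upwards [tendsto_log2.eventually (upper_half ε hε), eventually_ge_atTop 1] with N hN hN1 g hg1 hg2
  obtain ⟨h1, h2⟩ := log_bounds hN1
  exact hN g hg1 hg2 N h1 h2

lemma both_half (ε : ℝ) (hε : 0 < ε) : ∀ᶠ g : ℕ in atTop, 0 < Qg g (g ^ 2) (-(1 / (g:ℝ))) → bU g ≤ 1 →
    bL g ≤ bU g + ε ∧ ∀ᶠ N : ℕ in atTop, aN N ≤ bL g + ε := by
  filter_upwards [shift_half (min ε 1) (by positivity), lower_half 2 ε (by norm_num) hε] with g h1 h2 hQ hb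
  obtain ⟨h3, h4⟩ := h1 hQ hb
  have h5 : bL g ≤ bU g + ε := h4.trans (by have := min_le_left ε 1; linarith)
  have h6 : bL g ≤ 2 := h4.trans (by have := min_le_right ε 1; linarith)
  refine ⟨h5, ?_⟩
  filter_upwards [tendsto_log2.eventually (h2 h3 h6), eventually_ge_atTop 1] with N hN hN1
  obtain ⟨h7, h8⟩ := log_bounds hN1
  exact hN N h7 h8

/-- compatible values of `g` -/
lemma compat (L : ℕ) (hL : 1 ≤ L) : L ^ 2 ≤ 4 * 2 ^ (2 * Nat.log 2 L) ∧ 2 ^ (2 * Nat.log 2 L) ≤ 4 * L ^ 2 := by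
  obtain ⟨h1, h2⟩ := log_bounds hL
  have e1 : 2 ^ (2 * Nat.log 2 L) = (2 ^ Nat.log 2 L) ^ 2 := by rw [← pow_mul]; congr 1; ring
  rw [e1]
  constructor
  · calc L ^ 2 ≤ (2 ^ (Nat.log 2 L + 1)) ^ 2 := Nat.pow_le_pow_left h2.le 2
      _ = _ := by ring
  · have := Nat.pow_le_pow_left h1 2
    omega

/-- compatible values of `L` -/
lemma compat' (g : ℕ) : (2 ^ ((g + 1) / 2)) ^ 2 ≤ 4 * 2 ^ g ∧ 2 ^ g ≤ 4 * (2 ^ ((g + 1) / 2)) ^ 2 := by
  rw [← pow_mul]
  constructor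
  · calc 2 ^ ((g + 1) / 2 * 2) ≤ 2 ^ (g + 2) := Nat.pow_le_pow_right (by norm_num) (by omega)
      _ = 4 * 2 ^ g := by ring
  · calc 2 ^ g ≤ 2 ^ ((g + 1) / 2 * 2) := Nat.pow_le_pow_right (by norm_num) (by omega)
      _ ≤ 4 * 2 ^ ((g + 1) / 2 * 2) := by omega

theorem aN_converges : ∃ α : ℝ, Tendsto aN atTop (𝓝 α) := by
  apply conv_of_almost_monotone aN 1 aN_nonneg aN_le
  intro ε hε
  have hg := both_half (ε / 3) (by positivity)
  have hlog : Tendsto (fun N : ℕ => 2 * Nat.log 2 (Nat.log 2 N)) atTop atTop := by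
    have h1 : Tendsto (fun N : ℕ => Nat.log 2 (Nat.log 2 N)) atTop atTop := tendsto_log2.comp tendsto_log2
    exact tendsto_atTop_mono (fun N => by omega) h1
  filter_upwards [upper_N (min (ε / 3) (1 / 2)) (by positivity), hlog.eventually hg, aN_le',
    tendsto_log2.eventually_ge_atTop 1] with N' h1 h2 h3 h4
  obtain ⟨c1, c2⟩ := compat (Nat.log 2 N') h4
  obtain ⟨h5, h6⟩ := h1 _ c1 c2
  have h7 : bU (2 * Nat.log 2 (Nat.log 2 N')) ≤ 1 := by
    have := min_le_right (ε / 3) (1 / 2); linarith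
  obtain ⟨h8, h9⟩ := h2 h5 h7
  filter_upwards [h9] with N hN
  have := min_le_left (ε / 3) (1 / 2)
  linarith

theorem bL_bU_tendsto {α : ℝ} (hα : Tendsto aN atTop (𝓝 α)) : Tendsto bL atTop (𝓝 α) ∧ Tendsto bU atTop (𝓝 α) := by
  have hlim : α ≤ 1 / 2 := le_of_tendsto hα aN_le'
  have hpowt : Tendsto (fun g : ℕ => 2 ^ (2 ^ ((g + 1) / 2))) atTop atTop := by
    have h1 : Tendsto (fun g : ℕ => (g + 1) / 2) atTop atTop := by
      rw [tendsto_atTop]
      intro b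
      filter_upwards [eventually_ge_atTop (2 * b)] with g hg
      omega
    have h2 : Tendsto (fun n : ℕ => 2 ^ (2 ^ n)) atTop atTop := by
      refine tendsto_atTop_mono (fun n => ?_) tendsto_id
      have a1 : n < 2 ^ n := Nat.lt_two_pow_self
      have a2 : 2 ^ n < 2 ^ (2 ^ n) := Nat.lt_two_pow_self
      simp only [id]
      omega
    exact h2.comp h1
  have hkey : ∀ ε : ℝ, 0 < ε → ∀ᶠ g : ℕ in atTop, bU g ≤ α + ε ∧ bL g ≤ bU g + ε ∧ α ≤ bL g + ε := by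
    intro ε hε
    set ε' := min (ε / 2) (1 / 4) with hε'
    have hε0 : 0 < ε' := by rw [hε']; positivity
    have ha : ∀ᶠ N in atTop, aN N ≤ α + ε' := by
      filter_upwards [hα.eventually_lt_const (show α < α + ε' by linarith)] with N hN
      exact hN.le
    filter_upwards [hpowt.eventually (upper_N ε' hε0), hpowt.eventually ha, both_half ε hε] with g h1 h2 h3
    have hlog : Nat.log 2 (2 ^ (2 ^ ((g + 1) / 2))) = 2 ^ ((g + 1) / 2) := Nat.log_pow (by norm_num) _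
    obtain ⟨c1, c2⟩ := compat' g
    rw [hlog] at h1
    obtain ⟨h4, h5⟩ := h1 g c1 c2
    have e1 := min_le_left (ε / 2) (1 / 4)
    have e2 := min_le_right (ε / 2) (1 / 4)
    have h6 : bU g ≤ α + ε := by linarith
    have h7 : bU g ≤ 1 := by linarith
    obtain ⟨h8, h9⟩ := h3 h4 h7
    exact ⟨h6, h8, le_of_tendsto hα h9⟩
  constructor
  · rw [Metric.tendsto_atTop']
    intro ε hε
    obtain ⟨g0, hg0⟩ := eventually_atTop.1 (hkey (ε / 3) (by positivity))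
    refine ⟨g0, fun g hg => ?_⟩
    obtain ⟨h1, h2, h3⟩ := hg0 g hg.le
    rw [Real.dist_eq, abs_lt]
    constructor <;> linarith
  · rw [Metric.tendsto_atTop']
    intro ε hε
    obtain ⟨g0, hg0⟩ := eventually_atTop.1 (hkey (ε / 3) (by positivity))
    refine ⟨g0, fun g hg => ?_⟩
    obtain ⟨h1, h2, h3⟩ := hg0 g hg.le
    rw [Real.dist_eq, abs_lt]
    constructor <;> linarith

end Pool.Agent.Lib.GraphPart
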