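import Pool.Agent.Lib.GraphPart.Ex
import Pool.Agent.Lib.GraphPart.Final

/-!
Lower bounds for increasing events of sign vectors.
-/

namespace Pool.Agent.Lib.GraphPart

open Finset

open Classical in
/-- persistence of the tail sums between `K` and `n` -/
lemma Ex_persist (b : ℕ → ℕ) (K n m : ℕ) {x0 L : ℝ} (hx0 : 0 < x0) (hL : 0 < L)
    (H1 : ∑ j ∈ Ico K n, (b j : ℝ) ^ 2 ≤ L ^ 2 / 2) (H1' : x0 ^ 2 ≤ L ^ 2 / 2)
    (H2 : 2 * x0 ^ 2 ≤ ∑ j ∈ range m, (b (n + j) : ℝ) ^ 2) :
    x0 / (48 * L) ≤ Ex (n + m) (fun T => if ∀ i, K ≤ i → i ≤ n → 1 ≤ wk (fun j => (b j : ℝ)) T i (n + m)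
      then (1:ℝ) else 0) := by
  set a : ℕ → ℝ := fun j => (b j : ℝ) with ha
  set a' : ℕ → ℝ := fun j => if j < K then 0 else (b j : ℝ) with ha'
  have hbase : ∑ j ∈ range n, a' j ^ 2 ≤ L ^ 2 / 2 := by
    refine le_trans (le_of_eq ?_) H1
    have h1 : Ico K n = (range n).filter (fun j => ¬ j < K) := by
      ext j; rw [Finset.mem_Ico, Finset.mem_filter, Finset.mem_range]; omega
    rw [h1, Finset.sum_filter]
    refine Finset.sum_congr rfl fun j _ => ?_
    simp only [ha']
    by_cases h : j < K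
    · rw [if_pos h, if_neg (by omega)]; ring
    · rw [if_neg h, if_pos h]
  have h4 := persist a' hL n hx0 hbase H1'
  have h5 := paley_zygmund (fun j => a (n + j)) m hx0 H2
  have key : ∀ T0 ∈ (range n).powerset, ∀ T1 ∈ (range m).powerset,
      (if ∀ i, i < n → 0 < x0 + wk a' T0 i n then (1:ℝ) else 0) *
      (if x0 ≤ wk (fun j => a (n + j)) T1 0 m then (1:ℝ) else 0) ≤
        (if ∀ i, K ≤ i → i ≤ n → 1 ≤ wk a (T0 ∪ shift n T1) i (n + m) then (1:ℝ) else 0) := by
    intro T0 hT0 T1 hT1
    have hnn : (0:ℝ) ≤ (if ∀ i, K ≤ i → i ≤ n → 1 ≤ wk a (T0 ∪ shift n T1) i (n + m) then (1:ℝ) else 0) := by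
      split_ifs <;> norm_num
    by_cases c1 : ∀ i, i < n → 0 < x0 + wk a' T0 i n
    · by_cases c2 : x0 ≤ wk (fun j => a (n + j)) T1 0 m
      · rw [if_pos c1, if_pos c2, mul_one, if_pos]
        intro i hKi hi
        have hpos : 0 < wk a (T0 ∪ shift n T1) i (n + m) := by
          rw [wk_split a _ hi (by omega : n ≤ n + m)]
          have h3 := wk_union_high a n 0 m hT0 T1
          rw [Nat.add_zero] at h3
          rw [h3, wk_union_low]
          rcases Nat.lt_or_ge i n with h4 | h4
          · have h6 := c1 i h4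
            have h7 : wk a' T0 i n = wk a T0 i n := by
              unfold wk
              refine Finset.sum_congr rfl fun j hj => ?_
              have := (Finset.mem_Ico.1 hj).1
              simp only [ha', ha]
              rw [if_neg (by omega)]
            rw [h7] at h6
            linarith
          · have : i = n := by omega
            subst this
            simp [wk] at c2 ⊢
            linarith
        have hint : wk a (T0 ∪ shift n T1) i (n + m) =
            ((∑ j ∈ Ico i (n + m), (if j ∈ (T0 ∪ shift n T1) then (b j : ℤ) else -(b j : ℤ)) : ℤ) : ℝ) := by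
          unfold wk sg
          push_cast
          refine Finset.sum_congr rfl fun j _ => ?_
          split_ifs <;> simp [ha]
        rw [hint] at hpos ⊢
        have h1 : (0:ℤ) < ∑ j ∈ Ico i (n + m), (if j ∈ (T0 ∪ shift n T1) then (b j : ℤ) else -(b j : ℤ)) := by
          exact_mod_cast hpos
        exact_mod_cast h1
      · rw [if_neg c2, mul_zero]; exact hnn
    · rw [if_neg c1, zero_mul]; exact hnn
  have h6 : Ex n (fun T => if ∀ i, i < n → 0 < x0 + wk a' T i n then (1:ℝ) else 0) *
      Ex m (fun T => if x0 ≤ wk (fun j => a (n + j)) T 0 m then (1:ℝ) else 0) ≤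
      Ex (n + m) (fun T => if ∀ i, K ≤ i → i ≤ n → 1 ≤ wk a T i (n + m) then (1:ℝ) else 0) := by
    rw [Ex_split, ← Ex_mul_right]
    refine Ex_mono fun T0 hT0 => ?_
    rw [← Ex_mul_left]
    exact Ex_mono fun T1 hT1 => key T0 hT0 T1 hT1
  refine le_trans ?_ h6
  have h7 : x0 / (2 * L) ≤ Ex n (fun T => if ∀ i, i < n → 0 < x0 + wk a' T i n then (1:ℝ) else 0) := by
    unfold Ex
    rw [le_div_iff₀ (by positivity)]
    refine le_trans (le_of_eq (mul_comm _ _)) (h4.trans (le_of_eq ?_))
    exact Finset.sum_congr rfl fun _ _ => by congr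
  have h8 : 1 / 24 ≤ Ex m (fun T => if x0 ≤ wk (fun j => a (n + j)) T 0 m then (1:ℝ) else 0) := by
    unfold Ex
    rw [div_le_div_iff₀ (by norm_num) (by positivity)]
    refine le_trans (le_of_eq (one_mul _)) (h5.trans (le_of_eq ?_))
    rw [mul_comm]
  calc x0 / (48 * L) = x0 / (2 * L) * (1 / 24) := by field_simp; norm_num
    _ ≤ _ := mul_le_mul h7 h8 (by norm_num) (le_trans (by positivity) h7)

open Classical in
/-- one value of the weighted sums -/
lemma Ex_value (a : ℕ → ℝ) (d K : ℕ) (hK : 0 < K) (h : 2 * (K:ℝ) ^ 2 ≤ ∑ j ∈ range d, ((min (j + 1) K : ℕ) * a j) ^ 2) :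
    1 / 24 ≤ Ex d (fun T => if (K:ℝ) ≤ Sk a T d K then (1:ℝ) else 0) := by
  have h5 := paley_zygmund (fun j => ((min (j + 1) K : ℕ) : ℝ) * a j) d (θ := K) (by exact_mod_cast hK) h
  unfold Ex
  rw [div_le_div_iff₀ (by norm_num) (by positivity)]
  refine le_trans (le_of_eq (one_mul _)) (h5.trans (le_of_eq ?_))
  rw [mul_comm]
  congr 1
  refine Finset.sum_congr rfl fun T _ => ?_
  have : wk (fun j => ((min (j + 1) K : ℕ) : ℝ) * a j) T 0 d = Sk a T d K := by
    unfold wk Sk
    rw [Nat.Ico_zero_eq_range]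
    exact Finset.sum_congr rfl fun j _ => by ring
  rw [this]

open Classical in
/-- the range above the splitting index -/
lemma Ex_top (b : ℕ → ℕ) (n m : ℕ) {t : ℝ} (ht : 0 < t) (hm : 0 < m)
    (H3 : 2 * ∑ j ∈ range m, (b (n + j) : ℝ) ^ 2 ≤ t ^ 2)
    (H4 : 2 * (((n + m : ℕ) : ℝ) * (t + 1)) ^ 2 ≤ ∑ j ∈ range n, (((j + 1 : ℕ) : ℝ) * b j) ^ 2) :
    1 / 48 ≤ Ex (n + m) (fun T => if ∀ k, n ≤ k → k ≤ n + m → (k:ℝ) ≤ Sk (fun j => (b j : ℝ)) T (n + m) k
      then (1:ℝ) else 0) := by
  set a : ℕ → ℝ := fun j => (b j : ℝ) with ha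
  set d := n + m with hd
  have hdpos : 0 < d := by omega
  set FB : Finset ℕ → ℝ := fun T => if ∀ k, n ≤ k → k ≤ d → (k:ℝ) ≤ Sk a T d k then (1:ℝ) else 0 with hFB
  have bB : (2:ℝ) ^ d ≤ 48 * ∑ T ∈ (range d).powerset, FB T := by
    rw [hd, sum_powerset_add]
    set c : ℕ → ℝ := fun j => ((j + 1 : ℕ) : ℝ) * b j with hc
    set θ : ℝ := (d : ℝ) * (t + 1) with hθ
    have hθpos : 0 < θ := by positivity
    have h1 : ∀ T0 ∈ (range n).powerset, ∀ T1 ∈ (range m).powerset,
        (if θ ≤ wk c T0 0 n then (1:ℝ) else 0) *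
        (1 - (if ∃ i, i < m ∧ t ≤ |0 + wk (fun j => a (n + j)) T1 i m| then (1:ℝ) else 0)) ≤
          FB (T0 ∪ shift n T1) := by
      intro T0 hT0 T1 hT1
      have hnn : 0 ≤ FB (T0 ∪ shift n T1) := by simp only [hFB]; split_ifs <;> norm_num
      by_cases c1 : θ ≤ wk c T0 0 n
      · by_cases c2 : ∃ i, i < m ∧ t ≤ |0 + wk (fun j => a (n + j)) T1 i m|
        · rw [if_pos c2]; simp only [sub_self, mul_zero]; exact hnn
        · rw [if_pos c1, if_neg c2]
          simp only [hFB]
          rw [if_pos]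
          · norm_num
          intro k hk hk'
          rw [Sk_eq a _ d k hk']
          push Not at c2
          -- the bound on the top part
          have top : ∀ i, n ≤ i → i ≤ d → -t ≤ wk a (T0 ∪ shift n T1) i d := by
            intro i hi hi'
            rcases Nat.lt_or_ge i d with h5 | h5
            · have h6 := c2 (i - n) (by omega)
              rw [zero_add] at h6
              have h7 := wk_union_high a n (i - n) m hT0 T1
              rw [show n + (i - n) = i by omega, ← hd] at h7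
              rw [h7]
              exact (neg_le_of_abs_le h6.le)
            · have : i = d := by omega
              subst this
              simp [wk]; exact ht.le
          have e1 : ∑ i ∈ range k, wk a (T0 ∪ shift n T1) i d =
              ∑ i ∈ range n, wk a (T0 ∪ shift n T1) i d +
              ∑ i ∈ Ico n k, wk a (T0 ∪ shift n T1) i d := by
            rw [Finset.range_eq_Ico, Finset.range_eq_Ico, Finset.sum_Ico_consecutive _ (by omega) hk]
          have e2 : ∑ i ∈ range n, wk a (T0 ∪ shift n T1) i d =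
              ∑ i ∈ range n, wk a T0 i n + n * wk a (T0 ∪ shift n T1) n d := by
            have : (n : ℝ) * wk a (T0 ∪ shift n T1) n d =
              ∑ _i ∈ range n, wk a (T0 ∪ shift n T1) n d := by simp
            rw [this, ← Finset.sum_add_distrib]
            refine Finset.sum_congr rfl fun i hi => ?_
            have hi' := Finset.mem_range.1 hi
            rw [wk_split a _ hi'.le (by omega : n ≤ d), wk_union_low]
          have e3 : ∑ i ∈ range n, wk a T0 i n = wk c T0 0 n := by
            rw [← Sk_eq a T0 n n le_rfl]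
            unfold Sk wk
            rw [Nat.Ico_zero_eq_range]
            refine Finset.sum_congr rfl fun j hj => ?_
            have hj' := Finset.mem_range.1 hj
            rw [Nat.min_eq_left (by omega : j + 1 ≤ n)]
            simp only [hc, ha]
            ring
          rw [e1, e2, e3]
          have f1 : -t ≤ wk a (T0 ∪ shift n T1) n d := top n le_rfl (by omega)
          have f2 : ((k - n : ℕ) : ℝ) * (-t) ≤ ∑ i ∈ Ico n k, wk a (T0 ∪ shift n T1) i d := by
            have := Finset.card_nsmul_le_sum (Ico n k) (fun i => wk a (T0 ∪ shift n T1) i d) (-t)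
              (fun i hi => top i (Finset.mem_Ico.1 hi).1 (by have := (Finset.mem_Ico.1 hi).2; omega))
            simpa [nsmul_eq_mul] using this
          have f3 : (n:ℝ) * (-t) ≤ n * wk a (T0 ∪ shift n T1) n d :=
            mul_le_mul_of_nonneg_left f1 (Nat.cast_nonneg _)
          have f4 : ((k - n : ℕ) : ℝ) = (k:ℝ) - n := by
            rw [Nat.cast_sub hk]
          have f5 : (k:ℝ) ≤ d := by exact_mod_cast hk'
          rw [f4] at f2
          have f6 : (k:ℝ) * t ≤ d * t := by gcongr
          have f7 : (d:ℝ) * (t + 1) = d * t + d := by ring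
          simp only [hθ] at c1
          nlinarith
      · rw [if_neg c1, zero_mul]; exact hnn
    have h2 := Finset.sum_le_sum fun T0 hT0 => Finset.sum_le_sum (h1 T0 hT0)
    have h3 : ∑ T0 ∈ (range n).powerset, ∑ T1 ∈ (range m).powerset,
        (if θ ≤ wk c T0 0 n then (1:ℝ) else 0) *
        (1 - (if ∃ i, i < m ∧ t ≤ |0 + wk (fun j => a (n + j)) T1 i m| then (1:ℝ) else 0)) =
        (∑ T0 ∈ (range n).powerset, (if θ ≤ wk c T0 0 n then (1:ℝ) else 0)) *
        (2 ^ m - ∑ T1 ∈ (range m).powerset,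
          (if ∃ i, i < m ∧ t ≤ |0 + wk (fun j => a (n + j)) T1 i m| then (1:ℝ) else 0)) := by
      rw [← Finset.sum_mul_sum, Finset.sum_sub_distrib, card_powerset_range]
    rw [h3] at h2
    have h4 := paley_zygmund c n hθpos H4
    have h5 := maximal (fun j => a (n + j)) ht m 0
    set P := ∑ T0 ∈ (range n).powerset, (if θ ≤ wk c T0 0 n then (1:ℝ) else 0) with hP
    set Q := ∑ T1 ∈ (range m).powerset,
          (if ∃ i, i < m ∧ t ≤ |0 + wk (fun j => a (n + j)) T1 i m| then (1:ℝ) else 0) with hQ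
    have h6 : t ^ 2 * Q ≤ 2 ^ m * (t ^ 2 / 2) := by
      refine h5.trans ?_
      gcongr
      simp only [ha]
      nlinarith
    have h7 : Q ≤ 2 ^ m / 2 := by
      have : t ^ 2 * Q ≤ t ^ 2 * (2 ^ m / 2) := by linarith
      exact le_of_mul_le_mul_left this (by positivity)
    have h8 : (2:ℝ) ^ m / 2 ≤ 2 ^ m - Q := by linarith
    have hPnn : (0:ℝ) ≤ P := Finset.sum_nonneg fun _ _ => by split_ifs <;> norm_num
    calc (2:ℝ) ^ (n + m) = 2 * (2 ^ n * (2 ^ m / 2)) := by rw [pow_add]; ring
      _ ≤ 2 * ((24 * P) * (2 ^ m - Q)) := by gcongr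
      _ = 48 * (P * (2 ^ m - Q)) := by ring
      _ ≤ _ := by gcongr
  unfold Ex
  rw [div_le_div_iff₀ (by norm_num) (by positivity)]
  linarith

end Pool.Agent.Lib.GraphPart
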