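import Pool.Agent.Lib.GraphPart.Lower1

/-!
The splitting index of a good code.
-/

namespace Pool.Agent.Lib.GraphPart

open Finset

open Classical in
/-- The splitting index. -/
lemma good_split {N D1 D2 κ : ℕ} {c : Cd} (hc : c ∈ allCodes N) (hG : Gd N D1 D2 κ c)
    (hκ : 1 ≤ κ) (hκ2 : 128 * (2 ^ 25 * κ ^ 2) ≤ D2 - D1)
    (hD1 : Nat.sqrt N ≤ 1024 * (D1 + 1)) :
    ∃ n m : ℕ, c.1 = n + m ∧ D1 ≤ n ∧ 0 < m ∧ (κ:ℝ) ^ 2 ≤ ∑ j ∈ range m, (ab c (n + j) : ℝ) ^ 2 ∧
      ∑ j ∈ range m, (ab c (n + j) : ℝ) ^ 2 ≤ 2 * (κ:ℝ) ^ 2 ∧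
      2 * (((n + m : ℕ) : ℝ) * (2 * κ + 1)) ^ 2 ≤ ∑ j ∈ range n, (((j + 1 : ℕ) : ℝ) * (ab c j : ℝ)) ^ 2 := by
  obtain ⟨hG1, hG2, hG3⟩ := hG
  set d := c.1 with hd
  have hds : d ≤ Nat.sqrt N := by
    rw [Nat.le_sqrt]
    have := durfee_sq_le hc
    rw [sq] at this
    exact this
  set w : ℕ → ℕ := fun i => ∑ j ∈ Ico i d, (ab c j) ^ 2 with hw
  have hwanti : ∀ i, i < d → w i = (ab c i) ^ 2 + w (i + 1) := by
    intro i hi
    simp only [hw]
    rw [Finset.sum_eq_sum_Ico_succ_bot hi]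
  have hx : xc D1 D2 c ≤ w D1 := by
    unfold xc
    rw [Finset.card_eq_sum_ones]
    calc ∑ _j ∈ (Ico D1 D2).filter (fun j => j < c.1 ∧ mm c j ≠ uu c j), 1 ≤
        ∑ j ∈ (Ico D1 D2).filter (fun j => j < c.1 ∧ mm c j ≠ uu c j), (ab c j) ^ 2 := by
          refine Finset.sum_le_sum fun j hj => ?_
          have := (Finset.mem_filter.1 hj).2.2
          have h1 : 1 ≤ ab c j := by
            unfold ab
            omega
          exact Nat.one_le_pow _ _ h1
      _ ≤ w D1 := by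
          apply Finset.sum_le_sum_of_subset
          intro j hj
          rw [Finset.mem_filter, Finset.mem_Ico] at hj
          rw [Finset.mem_Ico]
          exact ⟨hj.1.1, hj.2.1⟩
  have hwD : 2 ^ 25 * κ ^ 2 ≤ w D1 := by omega
  have hκsq : 1 ≤ κ ^ 2 := Nat.one_le_pow _ _ hκ
  have hD1d : D1 < d := by
    by_contra hcon
    have : w D1 = 0 := by
      simp only [hw]
      rw [Finset.Ico_eq_empty (by omega)]; simp
    rw [this] at hwD
    omega
  -- the splitting index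
  set P : ℕ → Prop := fun i => κ ^ 2 ≤ w i with hP
  set n := Nat.findGreatest P d with hn
  have hPD1 : P D1 := by
    simp only [hP]
    omega
  have hnD : D1 ≤ n := Nat.le_findGreatest hD1d.le hPD1
  have hPn : κ ^ 2 ≤ w n := Nat.findGreatest_spec (P := P) hD1d.le hPD1
  have hnd : n < d := by
    have h1 : n ≤ d := Nat.findGreatest_le d
    rcases Nat.lt_or_ge n d with h | h
    · exact h
    · have : n = d := by omega
      rw [this] at hPn
      simp only [hw, Finset.Ico_self, Finset.sum_empty] at hPn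
      omega
  have hn1 : w (n + 1) < κ ^ 2 := by
    have h1 := Nat.findGreatest_is_greatest (P := P) (show Nat.findGreatest P d < n + 1 by omega) (by omega : n + 1 ≤ d)
    simp only [hP] at h1
    omega
  have hwn : w n ≤ 2 * κ ^ 2 := by
    rw [hwanti n hnd]
    have h1 : (ab c n) ^ 2 ≤ κ ^ 2 := Nat.pow_le_pow_left (hG3 n hnD hnd) 2
    omega
  have hsplit : w D1 = ∑ j ∈ Ico D1 n, (ab c j) ^ 2 + w n := by
    simp only [hw]
    rw [Finset.sum_Ico_consecutive _ hnD hnd.le]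
  obtain ⟨m, hm⟩ : ∃ m, d = n + m := ⟨d - n, by omega⟩
  have hwnm : ((w n : ℕ) : ℝ) = ∑ j ∈ range m, (ab c (n + j) : ℝ) ^ 2 := by
    simp only [hw]
    push_cast
    rw [Finset.sum_Ico_eq_sum_range, show d - n = m by omega]
  have hPnr : (κ:ℝ) ^ 2 ≤ ((w n : ℕ) : ℝ) := by exact_mod_cast hPn
  have hwnr : ((w n : ℕ) : ℝ) ≤ 2 * (κ:ℝ) ^ 2 := by exact_mod_cast hwn
  refine ⟨n, m, hm, hnD, by omega, ?_, ?_, ?_⟩
  · rw [← hwnm]; exact hPnr
  · rw [← hwnm]; exact hwnr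
  · -- main inequality
    rw [← hm]
    have h1 : (((D1 + 1) ^ 2 * (w D1 - w n) : ℕ) : ℝ) ≤ ∑ j ∈ range n, (((j + 1 : ℕ) : ℝ) * (ab c j : ℝ)) ^ 2 := by
      have h2 : (D1 + 1) ^ 2 * (w D1 - w n) ≤ ∑ j ∈ range n, ((j + 1) * ab c j) ^ 2 := by
        have h3 : w D1 - w n = ∑ j ∈ Ico D1 n, (ab c j) ^ 2 := by omega
        rw [h3, Finset.mul_sum]
        calc ∑ j ∈ Ico D1 n, (D1 + 1) ^ 2 * (ab c j) ^ 2 ≤ ∑ j ∈ Ico D1 n, ((j + 1) * ab c j) ^ 2 := by
              refine Finset.sum_le_sum fun j hj => ?_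
              rw [mul_pow]
              apply Nat.mul_le_mul_right
              apply Nat.pow_le_pow_left
              have := (Finset.mem_Ico.1 hj).1
              omega
          _ ≤ _ := by
              apply Finset.sum_le_sum_of_subset
              intro j hj
              rw [Finset.mem_Ico] at hj
              rw [Finset.mem_range]; exact hj.2
      exact_mod_cast h2
    refine le_trans ?_ h1
    have h4 : d ≤ 1024 * (D1 + 1) := hds.trans hD1
    have h5 : 2 * (d * (3 * κ)) ^ 2 ≤ (D1 + 1) ^ 2 * (w D1 - w n) := by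
      calc 2 * (d * (3 * κ)) ^ 2 ≤ 2 * ((1024 * (D1 + 1)) * (3 * κ)) ^ 2 := by gcongr
        _ = (D1 + 1) ^ 2 * (18874368 * κ ^ 2) := by ring
        _ ≤ (D1 + 1) ^ 2 * (w D1 - w n) := by
            apply Nat.mul_le_mul_left
            omega
    calc 2 * ((d:ℝ) * (2 * κ + 1)) ^ 2 ≤ 2 * ((d:ℝ) * (3 * κ)) ^ 2 := by
          have : (1:ℝ) ≤ κ := by exact_mod_cast hκ
          gcongr
          linarith
      _ = ((2 * (d * (3 * κ)) ^ 2 : ℕ) : ℝ) := by push_cast; ring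
      _ ≤ _ := by exact_mod_cast h5

end Pool.Agent.Lib.GraphPart
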