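import Pool.Agent.Lib.GraphPart.Window2

/-!
Lower bound for the persistence probability in one window.
-/

namespace Pool.Agent.Lib.GraphPart

open Finset MeasureTheory ProbabilityTheory

lemma Sk_diff (a : ℕ → ℝ) (T : Finset ℕ) {d p k : ℕ} (hpk : p ≤ k) (hk : k ≤ d) :
    Sk a T d k = Sk a T d p + ∑ i ∈ Ico p k, wk a T i d := by
  rw [Sk_eq a T d k hk, Sk_eq a T d p (hpk.trans hk), Finset.range_eq_Ico, Finset.range_eq_Ico,
    Finset.sum_Ico_consecutive _ (Nat.zero_le _) hpk]

open Classical in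
/-- **Lower bound for one window.** -/
theorem lower_window {α : ℕ → ℝ} {e v3 : ℕ} {η ℓ1 ℓ2 : ℝ} (h : Reg α e v3 η ℓ1 ℓ2) (hη : η ≤ 1) (hη0 : 0 ≤ η)
    (hℓ1 : 0 ≤ ℓ1) (hℓ : 1 ≤ ℓ2) {v v0 g w d : ℕ} (he : e ≤ v0) (hvv : v ≤ v0) (hev : e ≤ v3)
    (hv : (pos v0 (2 ^ g) ((w + 2 * g) * 2 ^ g) : ℝ) * ℓ2 ^ 2 ≤ 2 ^ v3) (hd : 2 ^ v3 ≤ d)
    {s δ A : ℝ} (hs : 0 < s) (hδ : 0 < δ) (hA : 0 < A)
    (hA2 : 2 * Real.sqrt (pos v0 (2 ^ g) ((g + w) * 2 ^ g)) ≤ δ * A) :
    Qg g w (3 * δ) - ((w + 2 * g) * 2 ^ g : ℕ) * kb v η ℓ1 s -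
      (w * 2 ^ g) * (4 * Real.exp (-(δ ^ 2 * 2 ^ g / 22))) ≤
    Ex d (fun T => if ∀ k, pos v0 (2 ^ g) (g * 2 ^ g) ≤ k → k < pos v0 (2 ^ g) ((g + w) * 2 ^ g) →
      (k:ℝ) / A ≤ Sk (fun j => α j / (j + 1)) T d k then (1:ℝ) else 0) := by
  set R := 2 ^ g with hR
  have hRpos : 0 < R := by positivity
  set U := (w + 2 * g) * R with hU
  have hm := (pos_strictMono v0 hRpos).monotone
  have hPUr : (0:ℝ) < pos v0 R U := by exact_mod_cast pos_pos v0 hRpos _
  have hPUv : pos v0 R U ≤ 2 ^ v3 := by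
    have h1 : (pos v0 R U : ℝ) * 1 ≤ (pos v0 R U : ℝ) * ℓ2 ^ 2 := by
      apply mul_le_mul_of_nonneg_left _ hPUr.le
      nlinarith
    have : (pos v0 R U : ℝ) ≤ ((2 ^ v3 : ℕ) : ℝ) := by push_cast; linarith
    exact_mod_cast this
  have hUd : pos v0 R U ≤ d := hPUv.trans hd
  set β : ℕ → ℝ := fun j => α j / (j + 1) with hβ
  set F : Finset ℕ → ℝ := fun T => cone g w (3 * δ) (bvec (XX v0 R α) U T (fun _ => 0)) with hF
  set E1 : ℕ → Finset ℕ → Prop := fun l T => δ * Real.sqrt (pos v0 R l) ≤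
          |Sk β T d (pos v0 R l) - Real.sqrt (pos v0 R l) *
            ∑ u ∈ range U, cf R l u * XX v0 R α u T| with hE1
  set E2 : ℕ → Finset ℕ → Prop := fun l T => ∃ i, pos v0 R l ≤ i ∧ i ≤ d ∧
    δ * Real.sqrt (pos v0 R l) / (2 ^ v0 * bl R l : ℕ) ≤ |wk β T i d| with hE2
  -- pointwise
  have hpt : ∀ T ∈ (range d).powerset, F T - (∑ l ∈ Ico (g * R) ((g + w) * R), (if E1 l T then (1:ℝ) else 0) +
      ∑ l ∈ Ico (g * R) ((g + w) * R), (if E2 l T then (1:ℝ) else 0)) ≤
      (if ∀ k, pos v0 R (g * R) ≤ k → k < pos v0 R ((g + w) * R) → (k:ℝ) / A ≤ Sk β T d k then (1:ℝ) else 0) := by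
    intro T _
    have hF1 : F T ≤ 1 := (cone_MB g w (3 * δ)).le _
    have hn1 : 0 ≤ ∑ l ∈ Ico (g * R) ((g + w) * R), (if E1 l T then (1:ℝ) else 0) :=
      Finset.sum_nonneg fun l _ => by split_ifs <;> norm_num
    have hn2 : 0 ≤ ∑ l ∈ Ico (g * R) ((g + w) * R), (if E2 l T then (1:ℝ) else 0) :=
      Finset.sum_nonneg fun l _ => by split_ifs <;> norm_num
    have hn3 : (0:ℝ) ≤ (if ∀ k, pos v0 R (g * R) ≤ k → k < pos v0 R ((g + w) * R) → (k:ℝ) / A ≤ Sk β T d k then (1:ℝ) else 0) := by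
      split_ifs <;> norm_num
    by_cases c1 : ∃ l ∈ Ico (g * R) ((g + w) * R), E1 l T
    · obtain ⟨l, hl, hE⟩ := c1
      have h1 : (1:ℝ) ≤ ∑ l ∈ Ico (g * R) ((g + w) * R), (if E1 l T then (1:ℝ) else 0) := by
        refine le_trans ?_ (Finset.single_le_sum (fun l _ => by split_ifs <;> norm_num) hl)
        rw [if_pos hE]
      linarith
    by_cases c2 : ∃ l ∈ Ico (g * R) ((g + w) * R), E2 l T
    · obtain ⟨l, hl, hE⟩ := c2
      have h1 : (1:ℝ) ≤ ∑ l ∈ Ico (g * R) ((g + w) * R), (if E2 l T then (1:ℝ) else 0) := by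
        refine le_trans ?_ (Finset.single_le_sum (fun l _ => by split_ifs <;> norm_num) hl)
        rw [if_pos hE]
      linarith
    by_cases c3 : ∀ l, g * 2 ^ g ≤ l → l < (g + w) * 2 ^ g →
        3 * δ ≤ ∑ u ∈ range ((w + 2 * g) * 2 ^ g), cf (2 ^ g) l u * bvec (XX v0 R α) U T (fun _ => 0) u
    swap
    · have h1 : F T = 0 := by
        simp only [hF]
        unfold cone
        rw [if_neg c3]
      rw [h1]; linarith
    -- the good case
    have hgood : ∀ k, pos v0 R (g * R) ≤ k → k < pos v0 R ((g + w) * R) → (k:ℝ) / A ≤ Sk β T d k := by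
      intro k hk1 hk2
      obtain ⟨i, hi1, hi2, hi3⟩ := exists_block (fun i => pos v0 R (g * R + i)) k (by simpa using hk1) (w * R) (by
        rw [← Nat.add_mul]; exact hk2)
      set l := g * R + i with hl
      rw [show g * R + (i + 1) = l + 1 by omega] at hi3
      have hlI : l ∈ Ico (g * R) ((g + w) * R) := by
        rw [Finset.mem_Ico, Nat.add_mul]; omega
      have hl' := Finset.mem_Ico.1 hlI
      have n1 : ¬ E1 l T := fun hh => c1 ⟨l, hlI, hh⟩
      have n2 : ¬ E2 l T := fun hh => c2 ⟨l, hlI, hh⟩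
      have n3 := c3 l hl'.1 hl'.2
      have hsum : ∑ u ∈ range ((w + 2 * g) * 2 ^ g), cf (2 ^ g) l u * bvec (XX v0 R α) U T (fun _ => 0) u =
          ∑ u ∈ range U, cf R l u * XX v0 R α u T := by
        refine Finset.sum_congr rfl fun u hu => ?_
        unfold bvec
        rw [if_pos (Finset.mem_range.1 hu)]
      rw [hsum] at n3
      set P := pos v0 R l with hP
      set len := 2 ^ v0 * bl R l with hlen
      have hlenp : 0 < len := by have := bl_pos R l; positivity
      have hlenr : (0:ℝ) < len := by exact_mod_cast hlenp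
      have hPp : (0:ℝ) < P := by exact_mod_cast pos_pos v0 hRpos l
      have hsq : 0 < Real.sqrt P := Real.sqrt_pos.2 hPp
      have hPs : pos v0 R (l + 1) = P + len := pos_succ v0 hRpos l
      have hkd : k ≤ d := by
        have h1 := hm (show l + 1 ≤ U by
          rw [hU]
          have := Nat.mul_le_mul_right R (show g + w ≤ w + 2 * g by omega)
          omega)
        omega
      -- grid value
      simp only [hE1, not_le] at n1
      have g1 := (abs_lt.1 n1).1
      have g2 : Real.sqrt P * (3 * δ) ≤ Real.sqrt P * ∑ u ∈ range U, cf R l u * XX v0 R α u T :=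
        mul_le_mul_of_nonneg_left n3 hsq.le
      have g3 : 2 * δ * Real.sqrt P ≤ Sk β T d P := by nlinarith
      -- variation
      have g4 : -(δ * Real.sqrt P) ≤ ∑ i ∈ Ico P k, wk β T i d := by
        have h2 : ∀ i ∈ Ico P k, -(δ * Real.sqrt P / len) ≤ wk β T i d := by
          intro i hi
          have hi' := Finset.mem_Ico.1 hi
          by_contra hcon
          push Not at hcon
          apply n2
          refine ⟨i, hi'.1, by omega, ?_⟩
          rw [le_abs]
          right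
          linarith
        have h3 := Finset.card_nsmul_le_sum (Ico P k) (fun i => wk β T i d) (-(δ * Real.sqrt P / len)) h2
        rw [Nat.card_Ico, nsmul_eq_mul] at h3
        have h4 : ((k - P : ℕ) : ℝ) ≤ len := by
          have : k - P ≤ len := by omega
          exact_mod_cast this
        have h5 : ((k - P : ℕ) : ℝ) * (δ * Real.sqrt P / len) ≤ len * (δ * Real.sqrt P / len) := by
          apply mul_le_mul_of_nonneg_right h4
          positivity
        have h6 : (len:ℝ) * (δ * Real.sqrt P / len) = δ * Real.sqrt P := by field_simp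
        have h7 : ((k - P : ℕ) : ℝ) * (-(δ * Real.sqrt P / len)) = -(((k - P : ℕ) : ℝ) * (δ * Real.sqrt P / len)) := by ring
        rw [h7] at h3
        linarith
      rw [Sk_diff β T hi2 hkd]
      have g5 : (k:ℝ) / A ≤ δ * Real.sqrt P := by
        rw [div_le_iff₀ hA]
        have h8 : R * len ≤ P := by
          rw [hP, hlen]
          unfold pos
          calc R * (2 ^ v0 * bl R l) = 2 ^ v0 * (R * bl R l) := by ring
            _ ≤ _ := Nat.mul_le_mul_left _ (R_bl_le R l)
        have h9 : len ≤ P := le_trans (Nat.le_mul_of_pos_left _ hRpos) h8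
        have h10 : (k:ℝ) ≤ 2 * P := by
          have : k ≤ 2 * P := by omega
          exact_mod_cast this
        have h11 : Real.sqrt P ≤ Real.sqrt (pos v0 R ((g + w) * R)) := by
          apply Real.sqrt_le_sqrt
          exact_mod_cast hm hl'.2.le
        have h12 : Real.sqrt P * Real.sqrt P = P := Real.mul_self_sqrt hPp.le
        have h13 : 2 * Real.sqrt P ≤ δ * A := by linarith
        calc (k:ℝ) ≤ 2 * P := h10
          _ = (2 * Real.sqrt P) * Real.sqrt P := by rw [mul_assoc, h12]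
          _ ≤ (δ * A) * Real.sqrt P := mul_le_mul_of_nonneg_right h13 hsq.le
          _ = δ * Real.sqrt P * A := by ring
      linarith
    rw [if_pos hgood]
    linarith
  refine le_trans ?_ (Ex_mono hpt)
  rw [Ex_sub, Ex_add, Ex_sum, Ex_sum]
  -- main term
  have hmain : Qg g w (3 * δ) - (U : ℕ) * kb v η ℓ1 s ≤ Ex d F := by
    obtain ⟨n, hn⟩ : ∃ n, pos v0 R U = pos v0 R 0 + n := ⟨pos v0 R U - pos v0 R 0, by
      have := hm (Nat.zero_le U); omega⟩
    obtain ⟨r, hr⟩ : ∃ r, d = pos v0 R 0 + n + r := ⟨d - pos v0 R U, by omega⟩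
    have hcmp := window_cmp h hη hℓ1 hRpos he hvv hPUv hs (cone_MB g w (3 * δ)) hη0
    have e1 : Ex d F = Ex n (fun T => cone g w (3 * δ) (bvec (fun u T => (1 / Real.sqrt (2 ^ v0 * bl R u)) *
        wk (fun j => α (pos v0 R 0 + j)) T (pos v0 R u - pos v0 R 0) (pos v0 R (u + 1) - pos v0 R 0)) U T
          (fun _ => 0))) := by
      rw [hr]
      apply Ex_window
      intro T0 hT0 T1 _ T2 _
      simp only [hF]
      rw [bvec_low hRpos α (by omega) _ T2, bvec_shift hRpos α U hT0 T1]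
    rw [e1]
    have e2 : pos v0 R U - pos v0 R 0 = n := by omega
    rw [e2] at hcmp
    have h5 := (abs_le.1 hcmp).1
    have h7 : GI U (cone g w (3 * δ)) (fun _ => 0) = Qg g w (3 * δ) := rfl
    rw [h7] at h5
    linarith
  have hcard : ((Ico (g * R) ((g + w) * R)).card : ℝ) = w * 2 ^ g := by
    rw [Nat.card_Ico]
    have : (g + w) * R - g * R = w * R := by rw [Nat.add_mul, Nat.add_sub_cancel_left]
    rw [this, hR]
    push_cast
    ring
  have hs1 : ∑ l ∈ Ico (g * R) ((g + w) * R), Ex d (fun T => if E1 l T then (1:ℝ) else 0) ≤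
      (w * 2 ^ g) * (2 * Real.exp (-(δ ^ 2 * 2 ^ g / 22))) := by
    calc _ ≤ ∑ _l ∈ Ico (g * R) ((g + w) * R), 2 * Real.exp (-(δ ^ 2 * 2 ^ g / 22)) := by
          refine Finset.sum_le_sum fun l hl => ?_
          have hl' := Finset.mem_Ico.1 hl
          exact err_prob h hη hℓ he hv hev hd hl'.1 hl'.2.le hδ.le
      _ = _ := by rw [Finset.sum_const, nsmul_eq_mul, hcard]
  have hs2 : ∑ l ∈ Ico (g * R) ((g + w) * R), Ex d (fun T => if E2 l T then (1:ℝ) else 0) ≤
      (w * 2 ^ g) * (2 * Real.exp (-(δ ^ 2 * 2 ^ g / 22))) := by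
    calc _ ≤ ∑ _l ∈ Ico (g * R) ((g + w) * R), 2 * Real.exp (-(δ ^ 2 * 2 ^ g / 22)) := by
          refine Finset.sum_le_sum fun l hl => ?_
          have hl' := Finset.mem_Ico.1 hl
          set P := pos v0 R l with hP
          set len := 2 ^ v0 * bl R l with hlen
          have hlenp : 0 < len := by have := bl_pos R l; positivity
          have hlenr : (0:ℝ) < len := by exact_mod_cast hlenp
          have hPp : (0:ℝ) < P := by exact_mod_cast pos_pos v0 hRpos l
          have hPU : P ≤ pos v0 R U := hm (hl'.2.le.trans (Nat.mul_le_mul_right _ (by omega)))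
          have hPUr' : (P:ℝ) ≤ pos v0 R U := by exact_mod_cast hPU
          have hV : ∑ j ∈ Ico P d, β j ^ 2 ≤ 5 / P := by
            refine (h.tail_all hη (dvd_pos he R l) (pos_pos v0 hRpos l) (hPU.trans hPUv) hev hd).trans ?_
            have h1 : ℓ2 ^ 2 / 2 ^ v3 ≤ 1 / P := by
              rw [div_le_div_iff₀ (by positivity) hPp]
              have : (P:ℝ) * ℓ2 ^ 2 ≤ (pos v0 R U : ℝ) * ℓ2 ^ 2 := by gcongr
              linarith
            calc (4:ℝ) / P + ℓ2 ^ 2 / 2 ^ v3 ≤ 4 / P + 1 / P := by gcongr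
              _ = 5 / P := by ring
          refine (max_exp β P d (x := δ * Real.sqrt P / len) (by positivity) (by positivity) hV).trans ?_
          gcongr 2 * ?_
          apply Real.exp_le_exp.2
          have h8 : (R:ℝ) * len ≤ P := by
            have : R * len ≤ P := by
              rw [hP, hlen]
              unfold pos
              calc R * (2 ^ v0 * bl R l) = 2 ^ v0 * (R * bl R l) := by ring
                _ ≤ _ := Nat.mul_le_mul_left _ (R_bl_le R l)
            exact_mod_cast this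
          have e1 : (δ * Real.sqrt P / len) ^ 2 = δ ^ 2 * P / len ^ 2 := by
            rw [div_pow, mul_pow, Real.sq_sqrt hPp.le]
          rw [e1]
          have e2 : -(δ ^ 2 * (P:ℝ) / len ^ 2) / (2 * (5 / P)) = -(δ ^ 2 * ((P:ℝ) / len) ^ 2 / 10) := by
            field_simp
            ring
          rw [e2, neg_le_neg_iff]
          have h9 : (R:ℝ) ≤ P / len := by rw [le_div_iff₀ hlenr]; exact h8
          have h10 : (1:ℝ) ≤ R := by exact_mod_cast hRpos
          have h11 : (R:ℝ) ≤ (P / len) ^ 2 := by nlinarith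
          have h12 : (R:ℝ) = 2 ^ g := by rw [hR]; push_cast; ring
          rw [← h12]
          have h13 : δ ^ 2 * (R:ℝ) ≤ δ ^ 2 * (P / len) ^ 2 := by gcongr
          have h14 : 0 ≤ δ ^ 2 * (R:ℝ) := by positivity
          linarith
      _ = _ := by rw [Finset.sum_const, nsmul_eq_mul, hcard]
  have e9 : (((w + 2 * g) * 2 ^ g : ℕ) : ℝ) = ((U : ℕ) : ℝ) := rfl
  rw [e9]
  linarith

end Pool.Agent.Lib.GraphPart
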