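import Pool.Agent.Lib.GraphPart.Lower2
import Pool.Agent.Lib.GraphPart.Window3

/-!
Combination of the increasing events for one code.
-/

namespace Pool.Agent.Lib.GraphPart

open Finset

lemma ind_nonneg (P : Prop) [Decidable P] : (0:ℝ) ≤ if P then (1:ℝ) else 0 := by split_ifs <;> norm_num

open Classical in
lemma combine (a : ℕ → ℝ) (ha : ∀ j, 0 ≤ a j) (d n : ℕ) (q : ℕ → ℕ) (B : ℕ) (hq : q B ≤ d) :
    Ex d (fun T => if ∀ i, i ≤ q 0 → 1 ≤ wk a T i d then (1:ℝ) else 0) *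
      ((∏ t ∈ range B, Ex d (fun T => if ∀ k, q t ≤ k → k < q (t + 1) → (k:ℝ) ≤ Sk a T d k then (1:ℝ) else 0)) *
      (Ex d (fun T => if ∀ i, q B ≤ i → i ≤ n → 1 ≤ wk a T i d then (1:ℝ) else 0) *
      (Ex d (fun T => if ((q B : ℕ):ℝ) ≤ Sk a T d (q B) then (1:ℝ) else 0) *
        Ex d (fun T => if ∀ k, n ≤ k → k ≤ d → (k:ℝ) ≤ Sk a T d k then (1:ℝ) else 0)))) ≤
    Ex d (fun T => if ∀ k, 1 ≤ k → k ≤ d → (k:ℝ) ≤ Sk a T d k then (1:ℝ) else 0) := by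
  set F1 : Finset ℕ → ℝ := fun T => if ∀ i, i ≤ q 0 → 1 ≤ wk a T i d then (1:ℝ) else 0 with hF1
  set Fw : ℕ → Finset ℕ → ℝ := fun t T => if ∀ k, q t ≤ k → k < q (t + 1) → (k:ℝ) ≤ Sk a T d k then (1:ℝ) else 0 with hFw
  set F2 : Finset ℕ → ℝ := fun T => if ∀ i, q B ≤ i → i ≤ n → 1 ≤ wk a T i d then (1:ℝ) else 0 with hF2
  set F3 : Finset ℕ → ℝ := fun T => if ((q B : ℕ):ℝ) ≤ Sk a T d (q B) then (1:ℝ) else 0 with hF3
  set F4 : Finset ℕ → ℝ := fun T => if ∀ k, n ≤ k → k ≤ d → (k:ℝ) ≤ Sk a T d k then (1:ℝ) else 0 with hF4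
  have m1 : Monotone F1 := monotone_ind fun T T' h h1 i hi => (h1 i hi).trans (wk_mono ha h i d)
  have mw : ∀ t, Monotone (Fw t) := fun t => monotone_ind fun T T' h h1 k hk hk' => (h1 k hk hk').trans (Sk_mono ha h d k)
  have m2 : Monotone F2 := monotone_ind fun T T' h h1 i hi hi' => (h1 i hi hi').trans (wk_mono ha h i d)
  have m3 : Monotone F3 := monotone_ind fun T T' h h1 => h1.trans (Sk_mono ha h d _)
  have m4 : Monotone F4 := monotone_ind fun T T' h h1 k hk hk' => (h1 k hk hk').trans (Sk_mono ha h d k)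
  have n1 : ∀ T, 0 ≤ F1 T := fun T => ind_nonneg _
  have nw : ∀ t T, 0 ≤ Fw t T := fun t T => ind_nonneg _
  have n2 : ∀ T, 0 ≤ F2 T := fun T => ind_nonneg _
  have n3 : ∀ T, 0 ≤ F3 T := fun T => ind_nonneg _
  have n4 : ∀ T, 0 ≤ F4 T := fun T => ind_nonneg _
  have E1 : ∀ {F : Finset ℕ → ℝ}, (∀ T, 0 ≤ F T) → 0 ≤ Ex d F := fun h => Ex_nonneg fun T _ => h T
  have h34 : Ex d F3 * Ex d F4 ≤ Ex d (fun T => F3 T * F4 T) := Ex_harris d m3 m4
  have mm34 : Monotone (fun T => F3 T * F4 T) := fun T T' h => mul_le_mul (m3 h) (m4 h) (n4 _) (n3 _)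
  have n34 : ∀ T, 0 ≤ F3 T * F4 T := fun T => mul_nonneg (n3 T) (n4 T)
  have h234 : Ex d F2 * Ex d (fun T => F3 T * F4 T) ≤ Ex d (fun T => F2 T * (F3 T * F4 T)) := Ex_harris d m2 mm34
  have mm234 : Monotone (fun T => F2 T * (F3 T * F4 T)) := fun T T' h => mul_le_mul (m2 h) (mm34 h) (n34 _) (n2 _)
  have n234 : ∀ T, 0 ≤ F2 T * (F3 T * F4 T) := fun T => mul_nonneg (n2 T) (n34 T)
  have hw := Ex_prod_harris d B Fw mw nw
  have mmw : Monotone (fun T => ∏ t ∈ range B, Fw t T) := fun T T' h =>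
    Finset.prod_le_prod (fun t _ => nw t T) (fun t _ => mw t h)
  have nnw : ∀ T, 0 ≤ ∏ t ∈ range B, Fw t T := fun T => Finset.prod_nonneg fun t _ => nw t T
  have hw234 : Ex d (fun T => ∏ t ∈ range B, Fw t T) * Ex d (fun T => F2 T * (F3 T * F4 T)) ≤
      Ex d (fun T => (∏ t ∈ range B, Fw t T) * (F2 T * (F3 T * F4 T))) := Ex_harris d mmw mm234
  have mmw234 : Monotone (fun T => (∏ t ∈ range B, Fw t T) * (F2 T * (F3 T * F4 T))) :=
    fun T T' h => mul_le_mul (mmw h) (mm234 h) (n234 _) (nnw _)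
  have h1w : Ex d F1 * Ex d (fun T => (∏ t ∈ range B, Fw t T) * (F2 T * (F3 T * F4 T))) ≤
      Ex d (fun T => F1 T * ((∏ t ∈ range B, Fw t T) * (F2 T * (F3 T * F4 T)))) := Ex_harris d m1 mmw234
  have hpt : Ex d (fun T => F1 T * ((∏ t ∈ range B, Fw t T) * (F2 T * (F3 T * F4 T)))) ≤
      Ex d (fun T => if ∀ k, 1 ≤ k → k ≤ d → (k:ℝ) ≤ Sk a T d k then (1:ℝ) else 0) := by
    refine Ex_mono fun T _ => ?_
    have hnn := ind_nonneg (∀ k, 1 ≤ k → k ≤ d → (k:ℝ) ≤ Sk a T d k)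
    by_cases c1 : ∀ i, i ≤ q 0 → 1 ≤ wk a T i d
    swap
    · have : F1 T = 0 := by simp only [hF1]; rw [if_neg c1]
      rw [this, zero_mul]; exact hnn
    by_cases cw : ∀ t ∈ range B, ∀ k, q t ≤ k → k < q (t + 1) → (k:ℝ) ≤ Sk a T d k
    swap
    · push Not at cw
      obtain ⟨t, ht, k, hk1, hk2, hk3⟩ := cw
      have : ∏ t ∈ range B, Fw t T = 0 := by
        apply Finset.prod_eq_zero ht
        simp only [hFw]
        rw [if_neg]
        intro hcon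
        exact absurd (hcon k hk1 hk2) (not_le.2 hk3)
      rw [this, zero_mul, mul_zero]; exact hnn
    by_cases c2 : ∀ i, q B ≤ i → i ≤ n → 1 ≤ wk a T i d
    swap
    · have : F2 T = 0 := by simp only [hF2]; rw [if_neg c2]
      rw [this, zero_mul, mul_zero, mul_zero]; exact hnn
    by_cases c3 : ((q B : ℕ):ℝ) ≤ Sk a T d (q B)
    swap
    · have : F3 T = 0 := by simp only [hF3]; rw [if_neg c3]
      rw [this, zero_mul, mul_zero, mul_zero, mul_zero]; exact hnn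
    by_cases c4 : ∀ k, n ≤ k → k ≤ d → (k:ℝ) ≤ Sk a T d k
    swap
    · have : F4 T = 0 := by simp only [hF4]; rw [if_neg c4]
      rw [this, mul_zero, mul_zero, mul_zero, mul_zero]; exact hnn
    have u1 : ∀ T, F1 T ≤ 1 := fun T => by simp only [hF1]; split_ifs <;> norm_num
    have e1 : F1 T = 1 := by simp only [hF1]; rw [if_pos c1]
    have ew : ∏ t ∈ range B, Fw t T = 1 := by
      apply Finset.prod_eq_one
      intro t ht
      simp only [hFw]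
      rw [if_pos (cw t ht)]
    have e2 : F2 T = 1 := by simp only [hF2]; rw [if_pos c2]
    have e3 : F3 T = 1 := by simp only [hF3]; rw [if_pos c3]
    have e4 : F4 T = 1 := by simp only [hF4]; rw [if_pos c4]
    rw [e1, ew, e2, e3, e4, if_pos]
    · norm_num
    intro k hk hkd
    rcases Nat.lt_or_ge k (q 0) with h | h
    · rw [Sk_eq a T d k hkd]
      calc (k:ℝ) = ∑ _i ∈ range k, (1:ℝ) := by simp
        _ ≤ _ := Finset.sum_le_sum fun i hi => c1 i (by have := Finset.mem_range.1 hi; omega)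
    · rcases Nat.lt_or_ge k (q B) with h' | h'
      · obtain ⟨t, ht, h1, h2⟩ := exists_block q k h B h'
        exact cw t (Finset.mem_range.2 ht) k h1 h2
      · rcases Nat.lt_or_ge n k with h'' | h''
        · exact c4 k h''.le hkd
        · rw [Sk_diff a T h' hkd]
          have h3 : ((k - q B : ℕ):ℝ) ≤ ∑ i ∈ Ico (q B) k, wk a T i d := by
            calc ((k - q B : ℕ):ℝ) = ∑ _i ∈ Ico (q B) k, (1:ℝ) := by simp
              _ ≤ _ := Finset.sum_le_sum fun i hi => c2 i (Finset.mem_Ico.1 hi).1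
                (by have := (Finset.mem_Ico.1 hi).2; omega)
          rw [Nat.cast_sub h'] at h3
          linarith
  refine le_trans ?_ hpt
  refine le_trans ?_ h1w
  refine mul_le_mul_of_nonneg_left ?_ (E1 n1)
  refine le_trans ?_ hw234
  refine mul_le_mul hw ?_ (mul_nonneg (E1 n2) (mul_nonneg (E1 n3) (E1 n4))) (E1 nnw)
  refine le_trans ?_ h234
  exact mul_le_mul_of_nonneg_left h34 (E1 n2)

lemma Sk_scale (a : ℕ → ℝ) (A : ℝ) (T : Finset ℕ) (d k : ℕ) :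
    Sk (fun j => ((j:ℝ) + 1) * a j / A / (j + 1)) T d k = Sk a T d k / A := by
  unfold Sk
  rw [Finset.sum_div]
  refine Finset.sum_congr rfl fun j _ => ?_
  have h : ((j:ℝ) + 1) ≠ 0 := by positivity
  have : ((j:ℝ) + 1) * a j / A / (j + 1) = a j / A := by
    field_simp
  simp only [this]; ring

/-- lower bound for the quadratic sums -/
lemma flat_lower {a : ℕ → ℝ} {A : ℝ} (hA : 0 < A) {e v3 : ℕ} {η ℓ1 ℓ2 : ℝ}
    (h : Reg (fun j => ((j:ℝ) + 1) * a j / A) e v3 η ℓ1 ℓ2) (hη : η ≤ 1 / 2) {p p' : ℕ}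
    (hp : 2 ^ e ∣ p) (hp' : 2 ^ e ∣ p') (hpp : p ≤ p') (hv : p' ≤ 2 ^ v3) :
    A ^ 2 * ((p' - p : ℕ) : ℝ) / 2 ≤ ∑ j ∈ Ico p p', (((j:ℝ) + 1) * a j) ^ 2 := by
  have h1 := (abs_le.1 (h.sum_aligned hp hp' hpp hv)).1
  have h2 : η * ((p' - p : ℕ) : ℝ) ≤ 1 / 2 * ((p' - p : ℕ) : ℝ) := mul_le_mul_of_nonneg_right hη (Nat.cast_nonneg _)
  have h3 : ((p' - p : ℕ) : ℝ) / 2 ≤ ∑ j ∈ Ico p p', (((j:ℝ) + 1) * a j / A) ^ 2 := by linarith
  have h4 : ∑ j ∈ Ico p p', (((j:ℝ) + 1) * a j) ^ 2 = A ^ 2 * ∑ j ∈ Ico p p', (((j:ℝ) + 1) * a j / A) ^ 2 := by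
    rw [Finset.mul_sum]
    refine Finset.sum_congr rfl fun j _ => ?_
    field_simp
  rw [h4]
  have := mul_le_mul_of_nonneg_left h3 (sq_nonneg A)
  linarith

/-- upper bound for the tails -/
lemma tail_upper {a : ℕ → ℝ} {A : ℝ} (hA : 0 < A) {e v3 : ℕ} {η ℓ1 ℓ2 : ℝ}
    (h : Reg (fun j => ((j:ℝ) + 1) * a j / A) e v3 η ℓ1 ℓ2) (hη : η ≤ 1) {p d : ℕ}
    (hp : 2 ^ e ∣ p) (hp0 : 0 < p) (hpv : p ≤ 2 ^ v3) (he : e ≤ v3) (hd : 2 ^ v3 ≤ d) :
    ∑ j ∈ Ico p d, (a j) ^ 2 ≤ A ^ 2 * (4 / (p:ℝ) + ℓ2 ^ 2 / 2 ^ v3) := by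
  have h1 := h.tail_all hη hp hp0 hpv he hd
  have h4 : ∑ j ∈ Ico p d, (a j) ^ 2 = A ^ 2 * ∑ j ∈ Ico p d, (((j:ℝ) + 1) * a j / A / (j + 1)) ^ 2 := by
    rw [Finset.mul_sum]
    refine Finset.sum_congr rfl fun j _ => ?_
    have h : ((j:ℝ) + 1) ≠ 0 := by positivity
    field_simp
  rw [h4]
  exact mul_le_mul_of_nonneg_left h1 (sq_nonneg A)

end Pool.Agent.Lib.GraphPart
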