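import Pool.Agent.Lib.GraphPart.Lower3
import Pool.Agent.Lib.GraphPart.Regular

/-!
Lower bound for the probability attached to one regular good code.
-/

namespace Pool.Agent.Lib.GraphPart

open Finset

open Classical in
/-- the probability attached to a code -/
noncomputable def cprob (c : Cd) : ℝ :=
  Ex c.1 (fun T => if ∀ k, 1 ≤ k → k ≤ c.1 → (k:ℝ) ≤ Sk (fun j => (ab c j : ℝ)) T c.1 k then (1:ℝ) else 0)

/-- lower bound for the probability of one window -/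
noncomputable def pwin (g w : ℕ) (δ s : ℝ) (e L : ℕ) : ℝ :=
  Qg g w (3 * δ) - ((w + 2 * g) * 2 ^ g : ℕ) * kb (4 * e) (1 / 2 ^ (e / 4)) ((L:ℝ) ^ 2 + 2) s -
    (w * 2 ^ g) * (4 * Real.exp (-(δ ^ 2 * 2 ^ g / 22)))

lemma Par.eta {Lam L e v3 : ℕ} (h : Par Lam L e v3) : (1:ℝ) / 2 ^ (e / 4) ≤ 1 / 2 := by
  have h1 := h.e_big
  apply one_div_le_one_div_of_le (by norm_num)
  calc (2:ℝ) = 2 ^ 1 := by norm_num
    _ ≤ 2 ^ (e / 4) := pow_le_pow_right₀ (by norm_num) (by omega)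

lemma d_le_N {N : ℕ} {c : Cd} (hc : c ∈ allCodes N) : c.1 ≤ N := by
  have := durfee_sq_le hc
  have h2 : c.1 ≤ c.1 ^ 2 := Nat.le_self_pow (by norm_num) _
  omega

/-- the square of the scale, from above -/
lemma A_upper {Lam L e v3 N : ℕ} (hP : Par Lam L e v3) (h2 : N < 2 ^ (L + 1)) {c : Cd} (hc : c ∈ allCodes N)
    (hsum : ∑ j ∈ range N, (ab c j : ℝ) ^ 2 ≤ 2048 * (N:ℝ)) (hd : 2 ^ v3 ≤ c.1) {A : ℝ} (hA : 0 < A)
    {η ℓ1 ℓ2 : ℝ} (hη : η ≤ 1 / 2) (h : Reg (fun j => ((j:ℝ) + 1) * (ab c j : ℝ) / A) e v3 η ℓ1 ℓ2) :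
    A ^ 2 ≤ 2 ^ (L + e + 13) := by
  obtain ⟨e1, e2⟩ := hP.exps
  have e3 := hP.e_big
  have hf := flat_lower hA h hη (p := 0) (p' := 2 ^ e) (dvd_zero _) dvd_rfl (Nat.zero_le _)
    (Nat.pow_le_pow_right (by norm_num) (by omega))
  have h3 : ∑ j ∈ Ico (0:ℕ) (2 ^ e), (((j:ℝ) + 1) * (ab c j : ℝ)) ^ 2 ≤ ((2:ℝ) ^ e) ^ 2 * (2048 * (N:ℝ)) := by
    calc ∑ j ∈ Ico (0:ℕ) (2 ^ e), (((j:ℝ) + 1) * (ab c j : ℝ)) ^ 2 ≤ ∑ j ∈ Ico (0:ℕ) (2 ^ e), (2 ^ e) ^ 2 * (ab c j : ℝ) ^ 2 := by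
          refine Finset.sum_le_sum fun j hj => ?_
          rw [mul_pow]
          have h4 := (Finset.mem_Ico.1 hj).2
          have h5 : (j:ℝ) + 1 ≤ 2 ^ e := by exact_mod_cast h4
          gcongr
      _ = (2 ^ e) ^ 2 * ∑ j ∈ Ico (0:ℕ) (2 ^ e), (ab c j : ℝ) ^ 2 := by rw [Finset.mul_sum]
      _ ≤ (2 ^ e) ^ 2 * ∑ j ∈ range N, (ab c j : ℝ) ^ 2 := by
          gcongr
          intro j hj
          rw [Finset.mem_Ico] at hj
          rw [Finset.mem_range]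
          have h6 : 2 ^ e ≤ 2 ^ v3 := Nat.pow_le_pow_right (by norm_num) (by omega)
          have h7 := d_le_N hc
          omega
      _ ≤ _ := by gcongr
  have h4 : ((2 ^ e - 0 : ℕ) : ℝ) = 2 ^ e := by push_cast; simp
  rw [h4] at hf
  have h5 : (N:ℝ) ≤ 2 ^ (L + 1) := by exact_mod_cast h2.le
  have h6 : A ^ 2 * 2 ^ e / 2 ≤ (2 ^ e) ^ 2 * (2048 * 2 ^ (L + 1)) := by
    refine hf.trans (h3.trans ?_)
    gcongr
  have h7 : (0:ℝ) < 2 ^ e := by positivity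
  have h8 : A ^ 2 ≤ 2 ^ e * (4096 * 2 ^ (L + 1)) := by
    have : 2 ^ e * A ^ 2 ≤ 2 ^ e * (2 ^ e * (4096 * 2 ^ (L + 1))) := by nlinarith
    exact le_of_mul_le_mul_left this h7
  refine h8.trans (le_of_eq ?_)
  have : (4096:ℝ) = 2 ^ 12 := by norm_num
  rw [this, ← pow_add, ← pow_add]
  congr 1; omega

end Pool.Agent.Lib.GraphPart
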