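import Pool.Agent.Lib.GraphPart.Lower4

/-!
Lower bounds for the three boundary ranges.
-/

namespace Pool.Agent.Lib.GraphPart

open Finset

open Classical in
lemma low_prob {Lam L e v3 N : ℕ} (hP : Par Lam L e v3) (h2 : N < 2 ^ (L + 1)) {c : Cd} (hc : c ∈ allCodes N)
    (hsum : ∑ j ∈ range N, (ab c j : ℝ) ^ 2 ≤ 2048 * (N:ℝ)) (hd : 2 ^ v3 ≤ c.1) {A : ℝ} (hA : (2:ℝ) ^ (L / 2 - e) / 2 ≤ A)
    {η ℓ1 ℓ2 : ℝ} (hη : η ≤ 1 / 2) (h : Reg (fun j => ((j:ℝ) + 1) * (ab c j : ℝ) / A) e v3 η ℓ1 ℓ2) {g : ℕ}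
    (hg : 4 * e + 2 * g + 1 ≤ v3) :
    1 / 2 ^ (3 * e + g + 16) ≤ Ex c.1 (fun T => if ∀ i, i ≤ 2 ^ (4 * e + 2 * g) →
      1 ≤ wk (fun j => (ab c j : ℝ)) T i c.1 then (1:ℝ) else 0) := by
  obtain ⟨e1, e2⟩ := hP.exps
  have e3 := hP.e_big
  have hA0 : 0 < A := lt_of_lt_of_le (by positivity) hA
  set n : ℕ := 2 ^ (4 * e + 2 * g) with hn
  have hn1 : 0 < n := by rw [hn]; positivity
  have h2n : 2 * n ≤ 2 ^ v3 := by
    have : 2 * n = 2 ^ (4 * e + 2 * g + 1) := by rw [hn]; ring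
    rw [this]
    exact Nat.pow_le_pow_right (by norm_num) hg
  obtain ⟨m, hm⟩ : ∃ m, c.1 = n + m := ⟨c.1 - n, by omega⟩
  have hdN := d_le_N hc
  set Q : ℝ := 2 ^ (2 * e + g) with hQ
  have hQ0 : 0 < Q := by rw [hQ]; positivity
  have hnQ : (n:ℝ) = Q ^ 2 := by
    rw [hn, hQ]; push_cast; rw [← pow_mul]; congr 1; ring
  set L' : ℝ := 64 * 2 ^ (L / 2 + 1) with hL'
  have hNr : 2048 * (N:ℝ) ≤ L' ^ 2 / 2 := by
    have h5 : (N:ℝ) ≤ 2 ^ (L + 1) := by exact_mod_cast h2.le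
    have h6 : (2:ℝ) ^ (L + 1) ≤ (2 ^ (L / 2 + 1)) ^ 2 := by
      rw [← pow_mul]
      exact pow_le_pow_right₀ (by norm_num) (by omega)
    rw [hL', mul_pow]
    linarith
  have hIco : ∀ p q : ℕ, q ≤ N → ∑ j ∈ Ico p q, (ab c j : ℝ) ^ 2 ≤ 2048 * (N:ℝ) := by
    intro p q hq
    refine le_trans ?_ hsum
    apply Finset.sum_le_sum_of_subset_of_nonneg
    · intro j hj
      rw [Finset.mem_Ico] at hj
      rw [Finset.mem_range]; omega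
    · intro _ _ _; positivity
  -- the sum beyond n
  have hdn : 2 ^ e ∣ n := Nat.pow_dvd_pow 2 (by omega)
  have hd2n : 2 ^ e ∣ 2 * n := Dvd.dvd.mul_left hdn 2
  have hf := flat_lower hA0 h hη hdn hd2n (by omega) h2n
  have hf2 : ((2 * n - n : ℕ) : ℝ) = n := by
    rw [show 2 * n - n = n by omega]
  rw [hf2] at hf
  have hf3 : ∑ j ∈ Ico n (2 * n), (((j:ℝ) + 1) * (ab c j : ℝ)) ^ 2 ≤ (2 * (n:ℝ)) ^ 2 * ∑ j ∈ Ico n (2 * n), (ab c j : ℝ) ^ 2 := by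
    rw [Finset.mul_sum]
    refine Finset.sum_le_sum fun j hj => ?_
    rw [mul_pow]
    have h4 := (Finset.mem_Ico.1 hj).2
    have h5 : (j:ℝ) + 1 ≤ 2 * n := by exact_mod_cast h4
    gcongr
  have hnr : (0:ℝ) < n := by exact_mod_cast hn1
  have hf4 : A ^ 2 / (8 * n) ≤ ∑ j ∈ Ico n (2 * n), (ab c j : ℝ) ^ 2 := by
    have h5 := hf.trans hf3
    rw [div_le_iff₀ (by positivity)]
    have h6 : (n:ℝ) * A ^ 2 ≤ n * ((∑ j ∈ Ico n (2 * n), (ab c j : ℝ) ^ 2) * (8 * n)) := by nlinarith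
    exact le_of_mul_le_mul_left h6 hnr
  have hsub : ∑ j ∈ Ico n (2 * n), (ab c j : ℝ) ^ 2 ≤ ∑ j ∈ Ico n c.1, (ab c j : ℝ) ^ 2 := by
    apply Finset.sum_le_sum_of_subset_of_nonneg
    · intro j hj
      rw [Finset.mem_Ico] at hj ⊢
      omega
    · intro _ _ _; positivity
  have hrange : ∑ j ∈ Ico n c.1, (ab c j : ℝ) ^ 2 = ∑ j ∈ range m, (ab c (n + j) : ℝ) ^ 2 := by
    rw [Finset.sum_Ico_eq_sum_range, show c.1 - n = m by omega]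
  set x0 : ℝ := A / (4 * Q) with hx0
  have hx00 : 0 < x0 := by rw [hx0]; positivity
  have hx1 : 2 * x0 ^ 2 = A ^ 2 / (8 * n) := by
    rw [hx0, hnQ]; field_simp; ring
  have H2 : 2 * x0 ^ 2 ≤ ∑ j ∈ range m, (ab c (n + j) : ℝ) ^ 2 := by
    rw [hx1, ← hrange]; exact hf4.trans hsub
  have H1 := (hIco 0 n (by omega)).trans hNr
  have H1' : x0 ^ 2 ≤ L' ^ 2 / 2 := by
    have h5 := (hIco n c.1 hdN).trans hNr
    rw [hrange] at h5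
    nlinarith [sq_nonneg x0]
  have key := Ex_persist (fun j => ab c j) 0 n m hx00 (by positivity) H1 H1' H2
  rw [← hm] at key
  have hfin : 1 / 2 ^ (3 * e + g + 16) ≤ x0 / (48 * L') := by
    rw [hx0, hL', div_div, div_le_div_iff₀ (by positivity) (by positivity)]
    have h8 : (2:ℝ) ^ (L / 2 - e) * 2 ^ (3 * e + g + 15) ≤ A * 2 ^ (3 * e + g + 16) := by
      have : (2:ℝ) ^ (3 * e + g + 16) = 2 * 2 ^ (3 * e + g + 15) := by ring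
      rw [this]
      have h9 : (0:ℝ) < 2 ^ (3 * e + g + 15) := by positivity
      nlinarith
    refine le_trans ?_ h8
    have h10 : (1:ℝ) * (4 * Q * (48 * (64 * 2 ^ (L / 2 + 1)))) = 12288 * (2 ^ (2 * e + g) * 2 ^ (L / 2 + 1)) := by
      rw [hQ]; ring
    rw [h10]
    calc (12288:ℝ) * (2 ^ (2 * e + g) * 2 ^ (L / 2 + 1)) ≤ 2 ^ 14 * (2 ^ (2 * e + g) * 2 ^ (L / 2 + 1)) := by
          gcongr; norm_num
      _ = 2 ^ (14 + (2 * e + g) + (L / 2 + 1)) := by rw [pow_add, pow_add]; ring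
      _ = 2 ^ (L / 2 - e + (3 * e + g + 15)) := by congr 1; omega
      _ = _ := by rw [pow_add]
  refine hfin.trans (key.trans (Ex_mono fun T _ => ?_))
  by_cases c1 : ∀ i, i ≤ n → 1 ≤ wk (fun j => (ab c j : ℝ)) T i c.1
  · rw [if_pos c1]; split_ifs <;> norm_num
  · rw [if_neg c1, if_neg]
    intro hcon
    exact c1 fun i hi => hcon i (Nat.zero_le _) hi

open Classical in
lemma high_prob {Lam L e v3 N : ℕ} (hP : Par Lam L e v3) (h2 : N < 2 ^ (L + 1)) {c : Cd} (hc : c ∈ allCodes N)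
    (hsum : ∑ j ∈ range N, (ab c j : ℝ) ^ 2 ≤ 2048 * (N:ℝ)) (hd : 2 ^ v3 ≤ c.1) {A : ℝ} (hA : (2:ℝ) ^ (L / 2 - e) / 2 ≤ A)
    {η ℓ1 : ℝ} (hη : η ≤ 1 / 2) (h : Reg (fun j => ((j:ℝ) + 1) * (ab c j : ℝ) / A) e v3 η ℓ1 (2 ^ (2 * e)))
    {n m κ x g w : ℕ} (hm : c.1 = n + m) (hx1 : x + 4 * e + g ≤ v3) (hx2 : v3 ≤ x + 4 * e + g + w)
    (hex : e ≤ x) (hxn : 2 ^ x ≤ n)
    (hκ : 1 ≤ κ) (hκL : 2 ^ (L / 2) ≤ 2 ^ 46 * κ ^ 2) (hκ2 : (κ:ℝ) ^ 2 ≤ ∑ j ∈ range m, (ab c (n + j) : ℝ) ^ 2) :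
    1 / 2 ^ (5 * e + g + w + 39) ≤ Ex c.1 (fun T => if ∀ i, 2 ^ x ≤ i → i ≤ n →
      1 ≤ wk (fun j => (ab c j : ℝ)) T i c.1 then (1:ℝ) else 0) := by
  obtain ⟨e1, e2⟩ := hP.exps
  have e3 := hP.e_big
  have hA0 : 0 < A := lt_of_lt_of_le (by positivity) hA
  have hAup := A_upper hP h2 hc hsum hd hA0 hη h
  set K : ℕ := 2 ^ x with hK
  have hK0 : 0 < K := by rw [hK]; positivity
  have hKr : (0:ℝ) < K := by exact_mod_cast hK0
  have hKr2 : (K:ℝ) = 2 ^ x := by rw [hK]; push_cast; rfl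
  have htail := tail_upper hA0 h (by linarith) (p := K) (Nat.pow_dvd_pow 2 hex) hK0
    (Nat.pow_le_pow_right (by norm_num) (by omega)) (by omega) hd
  have h4 : ((2:ℝ) ^ (2 * e)) ^ 2 / 2 ^ v3 ≤ 1 / K := by
    rw [div_le_div_iff₀ (by positivity) hKr, hKr2, ← pow_mul, ← pow_add, one_mul]
    exact pow_le_pow_right₀ (by norm_num) (by omega)
  have h5 : ∑ j ∈ Ico K c.1, (ab c j : ℝ) ^ 2 ≤ 5 * A ^ 2 / K := by
    refine htail.trans ?_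
    have : A ^ 2 * (4 / (K:ℝ) + ((2:ℝ) ^ (2 * e)) ^ 2 / 2 ^ v3) ≤ A ^ 2 * (4 / (K:ℝ) + 1 / K) := by gcongr
    refine this.trans (le_of_eq ?_)
    field_simp; ring
  have hrange : ∑ j ∈ Ico n c.1, (ab c j : ℝ) ^ 2 = ∑ j ∈ range m, (ab c (n + j) : ℝ) ^ 2 := by
    rw [Finset.sum_Ico_eq_sum_range, show c.1 - n = m by omega]
  have hsub1 : ∑ j ∈ Ico n c.1, (ab c j : ℝ) ^ 2 ≤ ∑ j ∈ Ico K c.1, (ab c j : ℝ) ^ 2 := by
    apply Finset.sum_le_sum_of_subset_of_nonneg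
    · intro j hj
      rw [Finset.mem_Ico] at hj ⊢
      omega
    · intro _ _ _; positivity
  have hsub2 : ∑ j ∈ Ico K n, (ab c j : ℝ) ^ 2 ≤ ∑ j ∈ Ico K c.1, (ab c j : ℝ) ^ 2 := by
    apply Finset.sum_le_sum_of_subset_of_nonneg
    · intro j hj
      rw [Finset.mem_Ico] at hj ⊢
      omega
    · intro _ _ _; positivity
  set L' : ℝ := 4 * A / Real.sqrt K with hL'
  have hsK : 0 < Real.sqrt K := Real.sqrt_pos.2 hKr
  have hsK2 : Real.sqrt K ^ 2 = K := Real.sq_sqrt hKr.le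
  have hL2 : L' ^ 2 / 2 = 8 * A ^ 2 / K := by
    rw [hL', div_pow, hsK2]; ring
  have h58 : 5 * A ^ 2 / (K:ℝ) ≤ 8 * A ^ 2 / K := by gcongr; norm_num
  have hκr : (1:ℝ) ≤ κ := by exact_mod_cast hκ
  have hL0 : 0 < L' := by rw [hL']; positivity
  have key := Ex_persist (fun j => ab c j) K n m (x0 := (κ:ℝ) / 2) (L := L') (by positivity) hL0
    (by rw [hL2]; exact (hsub2.trans h5).trans h58)
    (by
      rw [hL2]
      have h6 := hκ2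
      rw [← hrange] at h6
      have h7 := (h6.trans hsub1).trans (h5.trans h58)
      nlinarith)
    (by nlinarith)
  rw [← hm] at key
  refine le_trans ?_ key
  have hX : (κ:ℝ) / 2 / (48 * L') = κ * Real.sqrt K / (384 * A) := by
    rw [hL']; field_simp; norm_num
  rw [hX]
  refine le_of_pow_le_pow_left₀ (two_ne_zero) (by positivity) ?_
  rw [div_pow, div_pow, mul_pow, hsK2, one_pow, div_le_div_iff₀ (by positivity) (by positivity), one_mul, hKr2, mul_pow]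
  have g1 : (2:ℝ) ^ (L / 2) ≤ 2 ^ 46 * (κ:ℝ) ^ 2 := by exact_mod_cast hκL
  calc (384:ℝ) ^ 2 * A ^ 2 ≤ 2 ^ 18 * 2 ^ (L + e + 13) := by gcongr; norm_num
    _ = 2 ^ (18 + (L + e + 13)) := by rw [← pow_add]
    _ ≤ 2 ^ (L / 2 + x + (2 * (5 * e + g + w + 39) - 46)) := pow_le_pow_right₀ (by norm_num) (by omega)
    _ = 2 ^ (L / 2) * 2 ^ x * 2 ^ (2 * (5 * e + g + w + 39) - 46) := by rw [pow_add, pow_add]
    _ ≤ (2 ^ 46 * (κ:ℝ) ^ 2) * 2 ^ x * 2 ^ (2 * (5 * e + g + w + 39) - 46) := by gcongr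
    _ = (κ:ℝ) ^ 2 * 2 ^ x * 2 ^ (46 + (2 * (5 * e + g + w + 39) - 46)) := by rw [pow_add]; ring
    _ = (κ:ℝ) ^ 2 * 2 ^ x * 2 ^ ((5 * e + g + w + 39) * 2) := by congr 2; omega
    _ = _ := by rw [pow_mul]

open Classical in
lemma value_prob {Lam L e v3 : ℕ} (hP : Par Lam L e v3) {c : Cd}
    (hd : 2 ^ v3 ≤ c.1) {A : ℝ} (hA : (2:ℝ) ^ (L / 2 - e) / 2 ≤ A)
    {η ℓ1 ℓ2 : ℝ} (hη : η ≤ 1 / 2) (h : Reg (fun j => ((j:ℝ) + 1) * (ab c j : ℝ) / A) e v3 η ℓ1 ℓ2)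
    {x : ℕ} (hx1 : x ≤ v3) (hex : e ≤ x) :
    1 / 24 ≤ Ex c.1 (fun T => if ((2 ^ x : ℕ):ℝ) ≤ Sk (fun j => (ab c j : ℝ)) T c.1 (2 ^ x) then (1:ℝ) else 0) := by
  obtain ⟨e1, e2⟩ := hP.exps
  have e3 := hP.e_big
  have hA0 : 0 < A := lt_of_lt_of_le (by positivity) hA
  set K : ℕ := 2 ^ x with hK
  have hK0 : 0 < K := by rw [hK]; positivity
  have hKr : (0:ℝ) < K := by exact_mod_cast hK0
  have hKr2 : (K:ℝ) = 2 ^ x := by rw [hK]; push_cast; rfl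
  have hKv : K ≤ 2 ^ v3 := Nat.pow_le_pow_right (by norm_num) hx1
  apply Ex_value _ _ _ hK0
  have hf := flat_lower hA0 h hη (p := 0) (p' := K) (dvd_zero _) (Nat.pow_dvd_pow 2 hex) (Nat.zero_le _) hKv
  rw [Nat.sub_zero] at hf
  have h3 : ∑ j ∈ Ico 0 K, (((j:ℝ) + 1) * (ab c j : ℝ)) ^ 2 ≤
      ∑ j ∈ range c.1, (((min (j + 1) K : ℕ):ℝ) * (ab c j : ℝ)) ^ 2 := by
    calc ∑ j ∈ Ico 0 K, (((j:ℝ) + 1) * (ab c j : ℝ)) ^ 2 = ∑ j ∈ Ico 0 K, (((min (j + 1) K : ℕ):ℝ) * (ab c j : ℝ)) ^ 2 := by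
          refine Finset.sum_congr rfl fun j hj => ?_
          have := (Finset.mem_Ico.1 hj).2
          rw [Nat.min_eq_left (by omega)]
          push_cast; rfl
      _ ≤ _ := by
          apply Finset.sum_le_sum_of_subset_of_nonneg
          · intro j hj
            rw [Finset.mem_Ico] at hj
            rw [Finset.mem_range]; omega
          · intro _ _ _; positivity
  refine le_trans ?_ h3
  refine le_trans ?_ hf
  have h4 : 4 * (K:ℝ) ≤ A ^ 2 := by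
    have h5 : ((2:ℝ) ^ (L / 2 - e) / 2) ^ 2 ≤ A ^ 2 := pow_le_pow_left₀ (by positivity) hA 2
    refine le_trans ?_ h5
    rw [div_pow, ← pow_mul, le_div_iff₀ (by positivity), hKr2]
    calc 4 * (2:ℝ) ^ x * 2 ^ 2 = 2 ^ (x + 4) := by rw [pow_add]; ring
      _ ≤ _ := pow_le_pow_right₀ (by norm_num) (by omega)
  nlinarith

end Pool.Agent.Lib.GraphPart
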