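import Pool.Agent.Lib.GraphPart.Lower5

/-!
Lower bound for one code.
-/

namespace Pool.Agent.Lib.GraphPart

open Finset

open Classical in
/-- one window for a regular code -/
lemma window_prob {Lam L e v3 : ℕ} (hP : Par Lam L e v3) {c : Cd}
    (hd : 2 ^ v3 ≤ c.1) {A : ℝ} (hA : (2:ℝ) ^ (L / 2 - e) / 2 ≤ A)
    (h : Reg (fun j => ((j:ℝ) + 1) * (ab c j : ℝ) / A) e v3 (1 / 2 ^ (e / 4)) ((L:ℝ) ^ 2 + 2) (2 ^ (2 * e)))
    {g w t : ℕ} (ht : 8 * e + 3 * g + (t + 1) * w ≤ v3) {s δ : ℝ} (hs : 0 < s) (hδ : 1 / 2 ^ e ≤ δ) :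
    pwin g w δ s e L ≤ Ex c.1 (fun T => if ∀ k : ℕ, 2 ^ (4 * e + 2 * g + t * w) ≤ k → k < 2 ^ (4 * e + 2 * g + (t + 1) * w) →
      (k:ℝ) ≤ Sk (fun j => (ab c j : ℝ)) T c.1 k then (1:ℝ) else 0) := by
  obtain ⟨e1, e2⟩ := hP.exps
  have e3 := hP.e_big
  have hA0 : 0 < A := lt_of_lt_of_le (by positivity) hA
  have hη := hP.eta
  have hR : 0 < 2 ^ g := by positivity
  have tw : (t + 1) * w = t * w + w := by ring
  rw [tw] at ht
  have hδ0 : 0 < δ := lt_of_lt_of_le (by positivity) hδ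
  have p1 : pos (4 * e + t * w) (2 ^ g) (g * 2 ^ g) = 2 ^ (4 * e + 2 * g + t * w) := by
    rw [pos_mul _ hR, ← pow_add]; congr 1; omega
  have p2 : pos (4 * e + t * w) (2 ^ g) ((g + w) * 2 ^ g) = 2 ^ (4 * e + 2 * g + (t + 1) * w) := by
    rw [pos_mul _ hR, ← pow_add]; congr 1; rw [tw]; omega
  have p3 : (pos (4 * e + t * w) (2 ^ g) ((w + 2 * g) * 2 ^ g) : ℝ) * (2 ^ (2 * e)) ^ 2 ≤ 2 ^ v3 := by
    rw [pos_mul _ hR]
    push_cast
    rw [← pow_add, ← pow_mul, ← pow_add]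
    exact pow_le_pow_right₀ (by norm_num) (by omega)
  have p4 : 2 * Real.sqrt (pos (4 * e + t * w) (2 ^ g) ((g + w) * 2 ^ g)) ≤ δ * A := by
    rw [p2]
    have h5 : (2:ℝ) ^ (L / 2 - e) / 2 * (1 / 2 ^ e) ≤ δ * A := by
      rw [mul_comm δ A]
      exact mul_le_mul hA hδ (by positivity) hA0.le
    refine le_trans ?_ h5
    refine le_of_pow_le_pow_left₀ (two_ne_zero) (by positivity) ?_
    rw [mul_pow, Real.sq_sqrt (by positivity), mul_pow, div_pow, div_pow, ← pow_mul, ← pow_mul, one_pow]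
    push_cast
    rw [div_mul_div_comm, mul_one, le_div_iff₀ (by positivity)]
    calc (2:ℝ) ^ 2 * 2 ^ (4 * e + 2 * g + (t + 1) * w) * (2 ^ 2 * 2 ^ (e * 2))
        = 2 ^ (2 + (4 * e + 2 * g + (t + 1) * w) + (2 + e * 2)) := by rw [← pow_add, ← pow_add, ← pow_add]
      _ ≤ 2 ^ ((L / 2 - e) * 2) := pow_le_pow_right₀ (by norm_num) (by rw [tw]; omega)
  have key := lower_window h (by linarith) (by positivity) (by positivity) (one_le_pow₀ (by norm_num))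
    (v := 4 * e) (v0 := 4 * e + t * w) (g := g) (w := w) (d := c.1) (by omega) (by omega) (by omega) p3 hd hs hδ0 hA0 p4
  unfold pwin
  refine key.trans (Ex_mono fun T _ => ?_)
  rw [p1, p2]
  by_cases c1 : ∀ k : ℕ, 2 ^ (4 * e + 2 * g + t * w) ≤ k → k < 2 ^ (4 * e + 2 * g + (t + 1) * w) →
      (k:ℝ) / A ≤ Sk (fun j => (((j:ℝ) + 1) * (ab c j : ℝ) / A) / ((j:ℝ) + 1)) T c.1 k
  · rw [if_pos c1, if_pos]
    intro k hk1 hk2
    have h6 := c1 k hk1 hk2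
    rw [Sk_scale] at h6
    exact (div_le_div_iff_of_pos_right hA0).1 h6
  · rw [if_neg c1]; exact ind_nonneg _

open Classical in
/-- **Lower bound for one code.** -/
theorem code_lower {Lam L e v3 N : ℕ} (hP : Par Lam L e v3) (h2 : N < 2 ^ (L + 1)) (h1 : 2 ^ L ≤ N)
    {c : Cd} (hc : c ∈ allCodes N) {D1 D2 κ : ℕ} (hG : Gd N D1 D2 κ c) (hκ : 1 ≤ κ)
    (hκ2 : 128 * (2 ^ 25 * κ ^ 2) ≤ D2 - D1) (hD1 : Nat.sqrt N ≤ 1024 * (D1 + 1))
    (hκL : 2 ^ (L / 2) ≤ 2 ^ 46 * κ ^ 2) (hRC : RC L e v3 c) {g w B : ℕ}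
    (hB1 : 8 * e + 3 * g + B * w ≤ v3) (hB2 : v3 ≤ 8 * e + 3 * g + B * w + w)
    {s δ : ℝ} (hs : 0 < s) (hδ : 1 / 2 ^ e ≤ δ) (hp : 0 ≤ pwin g w δ s e L) :
    1 / 2 ^ (8 * e + 2 * g + w + 67) * (pwin g w δ s e L) ^ B ≤ cprob c := by
  obtain ⟨e1, e2⟩ := hP.exps
  have e3 := hP.e_big
  obtain ⟨hd, A, hA, h⟩ := hRC
  have hA0 : 0 < A := lt_of_lt_of_le (by positivity) hA
  have hη := hP.eta
  have hsum : ∑ j ∈ range N, (ab c j : ℝ) ^ 2 ≤ 2048 * (N:ℝ) := by exact_mod_cast hG.2.1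
  obtain ⟨n, m, hm, hnD, hm0, k1, k2, k3⟩ := good_split hc hG hκ hκ2 hD1
  set q : ℕ → ℕ := fun t => 2 ^ (4 * e + 2 * g + t * w) with hq
  have hq0 : q 0 = 2 ^ (4 * e + 2 * g) := by simp [hq]
  have hqB : q B ≤ n := by
    refine le_trans ?_ hnD
    have h3 : q B ≤ 2 ^ (L / 2 - 11) := Nat.pow_le_pow_right (by norm_num) (by omega)
    have h4 : 2 ^ (L / 2) ≤ Nat.sqrt N := by
      rw [Nat.le_sqrt, ← pow_add]
      exact le_trans (Nat.pow_le_pow_right (by norm_num) (by omega)) h1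
    have h5 : 2 ^ (L / 2) = 2048 * 2 ^ (L / 2 - 11) := by
      have : (2048:ℕ) = 2 ^ 11 := by norm_num
      rw [this, ← pow_add]; congr 1; omega
    have h6 : 1 ≤ 2 ^ (L / 2 - 11) := Nat.one_le_two_pow
    omega
  have hcomb := combine (fun j => (ab c j : ℝ)) (fun j => Nat.cast_nonneg _) c.1 n q B (by omega)
  have f1 := low_prob hP h2 hc hsum hd hA hη h (g := g) (by omega)
  have fw : ∀ t ∈ range B, pwin g w δ s e L ≤ Ex c.1 (fun T => if ∀ k, q t ≤ k → k < q (t + 1) →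
      (k:ℝ) ≤ Sk (fun j => (ab c j : ℝ)) T c.1 k then (1:ℝ) else 0) := by
    intro t ht
    have ht' := Finset.mem_range.1 ht
    have h3 : (t + 1) * w ≤ B * w := Nat.mul_le_mul_right _ (by omega)
    exact window_prob hP hd hA h (le_trans (Nat.add_le_add_left h3 _) hB1) hs hδ
  have f2 := high_prob hP h2 hc hsum hd hA hη h (n := n) (m := m) (κ := κ) (x := 4 * e + 2 * g + B * w) (g := g) (w := w)
    hm (by omega) (by omega) (by omega) hqB hκ hκL k1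
  have f3 := value_prob hP hd hA hη h (x := 4 * e + 2 * g + B * w) (by omega) (by omega)
  have f4 := Ex_top (fun j => ab c j) n m (t := 2 * (κ:ℝ)) (by positivity) hm0 (by nlinarith) k3
  rw [← hm] at f4
  have fprod : (pwin g w δ s e L) ^ B ≤ ∏ t ∈ range B, Ex c.1 (fun T => if ∀ k, q t ≤ k → k < q (t + 1) →
      (k:ℝ) ≤ Sk (fun j => (ab c j : ℝ)) T c.1 k then (1:ℝ) else 0) := by
    calc (pwin g w δ s e L) ^ B = ∏ t ∈ range B, pwin g w δ s e L := by rw [Finset.prod_const, Finset.card_range]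
      _ ≤ _ := Finset.prod_le_prod (fun _ _ => hp) fw
  unfold cprob
  refine le_trans ?_ hcomb
  rw [hq0]
  have g34 : (1:ℝ) / 24 * (1 / 48) ≤ _ := mul_le_mul f3 f4 (by norm_num) (le_trans (by norm_num) f3)
  have g234 := mul_le_mul f2 g34 (by norm_num) (le_trans (by positivity) f2)
  have gw := mul_le_mul fprod g234 (by positivity) (le_trans (by positivity) fprod)
  have gall := mul_le_mul f1 gw (by positivity) (le_trans (by positivity) f1)
  refine le_trans ?_ gall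
  have hnum : (1:ℝ) / 2 ^ 12 ≤ 1 / 24 * (1 / 48) := by norm_num
  have hpB : 0 ≤ (pwin g w δ s e L) ^ B := pow_nonneg hp _
  calc 1 / 2 ^ (8 * e + 2 * g + w + 67) * (pwin g w δ s e L) ^ B =
      1 / 2 ^ (3 * e + g + 16) * ((pwin g w δ s e L) ^ B * (1 / 2 ^ (5 * e + g + w + 39) * (1 / 2 ^ 12))) := by
        have : (2:ℝ) ^ (8 * e + 2 * g + w + 67) = 2 ^ (3 * e + g + 16) * (2 ^ (5 * e + g + w + 39) * 2 ^ 12) := by
          rw [← pow_add, ← pow_add]; congr 1; omega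
        rw [this]; field_simp
    _ ≤ _ := by gcongr

end Pool.Agent.Lib.GraphPart
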