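import Pool.Agent.Lib.GraphPart.Lower6

/-!
Upper and lower bounds for the proportion of graphical partitions.
-/

namespace Pool.Agent.Lib.GraphPart

open Finset

open Classical in
/-- the proportion of the codes with the dominance property -/
noncomputable def gp (N : ℕ) : ℝ := (∑ c ∈ allCodes N, if DomCond c then (1:ℝ) else 0) / pp N

open Classical in
lemma sum_cprob (N : ℕ) : ∑ c ∈ allCodes N, cprob c = ∑ c ∈ allCodes N, (if DomCond c then (1:ℝ) else 0) := by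
  rw [← sum_avg]
  refine Finset.sum_congr rfl fun c _ => ?_
  have h := sum_sw_eq c
  unfold cprob Ex
  rw [← h]
  ring

lemma gp_eq (N : ℕ) : gp N = (∑ c ∈ allCodes N, cprob c) / pp N := by
  unfold gp
  rw [sum_cprob]

lemma cprob_nonneg (c : Cd) : 0 ≤ cprob c := by
  unfold cprob
  exact Ex_nonneg fun T _ => by split_ifs <;> norm_num

lemma cprob_le_one (c : Cd) : cprob c ≤ 1 := by
  unfold cprob
  refine le_trans (Ex_mono (G := fun _ => (1:ℝ)) fun T _ => ?_) (le_of_eq (Ex_const c.1 1))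
  split_ifs <;> norm_num

open Classical in
lemma code_upper {Lam L e v3 : ℕ} (hP : Par Lam L e v3) {c : Cd} (hRC : RC L e v3 c) {g w B : ℕ}
    (hB : 8 * e + B * (w + 2 * g) + g ≤ v3) {s δ : ℝ} (hs : 0 < s) (hδ : 0 ≤ δ) :
    cprob c ≤ B * (w * 2 ^ g) * (2 * Real.exp (-(δ ^ 2 * 2 ^ g / 22))) +
      (Qg g w (-δ) + ((w + 2 * g) * 2 ^ g : ℕ) * kb (4 * e) (1 / 2 ^ (e / 4)) ((L:ℝ) ^ 2 + 2) s) ^ B := by
  obtain ⟨e1, e2⟩ := hP.exps
  obtain ⟨hd, A, hA, h⟩ := hRC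
  have hA0 : 0 < A := lt_of_lt_of_le (by positivity) hA
  have hη := hP.eta
  have hv : (2:ℝ) ^ (4 * e + B * (w + 2 * g)) * 2 ^ g * (2 ^ (2 * e)) ^ 2 ≤ 2 ^ v3 := by
    rw [← pow_add, ← pow_mul, ← pow_add]
    exact pow_le_pow_right₀ (by norm_num) (by omega)
  have key := upper_windows h (by linarith) (by positivity) (by positivity) (one_le_pow₀ (by norm_num))
    (v := 4 * e) (g := g) (w := w) (B := B) (d := c.1) (by omega) (by omega) hv hd hs hδ
  refine le_trans ?_ key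
  unfold cprob
  refine Ex_mono fun T _ => ?_
  by_cases c1 : ∀ k : ℕ, 1 ≤ k → k ≤ c.1 → (k:ℝ) ≤ Sk (fun j => (ab c j : ℝ)) T c.1 k
  · rw [if_pos c1]
    split_ifs with c2
    · exact le_rfl
    · refine absurd ?_ c2
      intro k hk1 hk2
      rw [Sk_scale]
      exact div_nonneg (le_trans (Nat.cast_nonneg _) (c1 k hk1 hk2)) hA0.le
  · rw [if_neg c1]; split_ifs <;> norm_num

open Classical in
theorem gp_upper {Lam L e v3 N : ℕ} (hP : Par Lam L e v3) (h1 : 2 ^ L ≤ N) (h2 : N < 2 ^ (L + 1)) {g w B : ℕ}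
    (hB : 8 * e + B * (w + 2 * g) + g ≤ v3) {s δ : ℝ} (hs : 0 < s) (hδ : 0 ≤ δ)
    (hnn : 0 ≤ kb (4 * e) (1 / 2 ^ (e / 4)) ((L:ℝ) ^ 2 + 2) s) :
    gp N ≤ 5 / 2 ^ L + (B * (w * 2 ^ g) * (2 * Real.exp (-(δ ^ 2 * 2 ^ g / 22))) +
      (Qg g w (-δ) + ((w + 2 * g) * 2 ^ g : ℕ) * kb (4 * e) (1 / 2 ^ (e / 4)) ((L:ℝ) ^ 2 + 2) s) ^ B) := by
  set X : ℝ := B * (w * 2 ^ g) * (2 * Real.exp (-(δ ^ 2 * 2 ^ g / 22))) +
      (Qg g w (-δ) + ((w + 2 * g) * 2 ^ g : ℕ) * kb (4 * e) (1 / 2 ^ (e / 4)) ((L:ℝ) ^ 2 + 2) s) ^ B with hX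
  have hX0 : 0 ≤ X := by
    have := Qg_nonneg g w (-δ)
    rw [hX]; positivity
  have hp : (0:ℝ) < pp N := by exact_mod_cast pp_pos N
  rw [gp_eq, div_le_iff₀ hp]
  have hirr := irregular_card hP h1 h2
  calc ∑ c ∈ allCodes N, cprob c = ∑ c ∈ (allCodes N).filter (fun c => RC L e v3 c), cprob c +
        ∑ c ∈ (allCodes N).filter (fun c => ¬ RC L e v3 c), cprob c := by
          rw [Finset.sum_filter_add_sum_filter_not]
    _ ≤ ∑ c ∈ (allCodes N).filter (fun c => RC L e v3 c), X +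
        ∑ c ∈ (allCodes N).filter (fun c => ¬ RC L e v3 c), 1 := by
          gcongr with c hc c hc
          · exact code_upper hP (Finset.mem_filter.1 hc).2 hB hs hδ
          · exact cprob_le_one c
    _ = (((allCodes N).filter (fun c => RC L e v3 c)).card : ℝ) * X +
        (((allCodes N).filter (fun c => ¬ RC L e v3 c)).card : ℝ) := by
          rw [Finset.sum_const, Finset.sum_const, nsmul_eq_mul, nsmul_eq_mul, mul_one]
    _ ≤ (pp N : ℝ) * X + 5 / 2 ^ L * pp N := by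
          gcongr
          rw [← card_allCodes]
          exact Finset.card_filter_le _ _
    _ = _ := by ring

/-- choice of the parameters of a good code -/
lemma good_params (N : ℕ) (hs : 2 ^ 152 ≤ Nat.sqrt N) : ∃ D1 D2 κ h : ℕ, D1 < D2 ∧ 512 * D2 ≤ Nat.sqrt N ∧
    2 * h ≤ (D1 + 1) * (κ + 1) ∧ 4096 * Nat.sqrt N * N ^ 2 ≤ h ^ 4 ∧ 0 < h ∧ 1 ≤ κ ∧
    128 * (2 ^ 25 * κ ^ 2) ≤ D2 - D1 ∧ Nat.sqrt N ≤ 1024 * (D1 + 1) ∧ Nat.sqrt N ≤ 2 ^ 46 * κ ^ 2 := by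
  set s := Nat.sqrt N with hsdef
  have hss : s * s ≤ N := Nat.sqrt_le N
  have hs2 : N < (s + 1) * (s + 1) := Nat.lt_succ_sqrt N
  have hspos : 1 ≤ s := le_trans (Nat.one_le_two_pow) hs
  have hNpos : 0 < N := by nlinarith
  have hN4 : N ≤ 4 * s ^ 2 := by nlinarith
  set κ := Nat.sqrt (s / 2 ^ 44) with hκ
  have hκ1 : κ * κ ≤ s / 2 ^ 44 := Nat.sqrt_le _
  have hκ2 : s / 2 ^ 44 < (κ + 1) * (κ + 1) := Nat.lt_succ_sqrt _
  have hκpos : 1 ≤ κ := by
    rw [hκ, Nat.le_sqrt]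
    omega
  have hκs : κ ^ 2 ≤ s / 2 ^ 44 := by rw [sq]; exact hκ1
  have hκs2 : s < 2 ^ 44 * ((κ + 1) * (κ + 1)) := by omega
  set D1 := s / 1024 with hD1
  set D2 := s / 512 with hD2
  have hDD : D1 < D2 := by omega
  have hκκ : 128 * (2 ^ 25 * κ ^ 2) ≤ D2 - D1 := by omega
  have hD1s : s ≤ 1024 * (D1 + 1) := by omega
  set x := (D1 + 1) * (κ + 1) with hx
  have hx2 : 2 ≤ x := by nlinarith
  have hh : 2 * (x / 2) ≤ x := by omega
  have hhp : 0 < x / 2 := by omega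
  have hbig : 4096 * s * N ^ 2 ≤ (x / 2) ^ 4 := by
    have h1 : x ≤ 4 * (x / 2) := by omega
    have h2 : s ^ 6 ≤ 2 ^ 136 * (x / 2) ^ 4 := by
      calc s ^ 6 = s ^ 4 * s ^ 2 := by ring
        _ ≤ (1024 * (D1 + 1)) ^ 4 * (2 ^ 44 * ((κ + 1) * (κ + 1))) ^ 2 := by
            gcongr
        _ = 2 ^ 128 * x ^ 4 := by rw [hx]; ring
        _ ≤ 2 ^ 128 * (4 * (x / 2)) ^ 4 := by gcongr
        _ = 2 ^ 136 * (x / 2) ^ 4 := by ring
    have h3 : 2 ^ 136 * (4096 * s * N ^ 2) ≤ 2 ^ 136 * (x / 2) ^ 4 := by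
      refine le_trans ?_ h2
      calc 2 ^ 136 * (4096 * s * N ^ 2) ≤ 2 ^ 136 * (4096 * s * (4 * s ^ 2) ^ 2) := by gcongr
        _ = 2 ^ 152 * s ^ 5 := by ring
        _ ≤ s * s ^ 5 := Nat.mul_le_mul_right _ hs
        _ = s ^ 6 := by ring
    exact Nat.le_of_mul_le_mul_left h3 (by positivity)
  have h5 : (κ + 1) * (κ + 1) ≤ 4 * κ ^ 2 := by nlinarith
  exact ⟨D1, D2, κ, x / 2, hDD, by omega, hh, hbig, hhp, hκpos, hκκ, hD1s, by omega⟩

open Classical in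
theorem gp_lower {Lam L e v3 N : ℕ} (hP : Par Lam L e v3) (h1 : 2 ^ L ≤ N) (h2 : N < 2 ^ (L + 1)) (hL : 304 ≤ L)
    {g w B : ℕ} (hB1 : 8 * e + 3 * g + B * w ≤ v3) (hB2 : v3 ≤ 8 * e + 3 * g + B * w + w)
    {s δ : ℝ} (hs : 0 < s) (hδ : 1 / 2 ^ e ≤ δ) (hp : 0 ≤ pwin g w δ s e L) :
    1 / 2 ^ (8 * e + 2 * g + w + 76) * (pwin g w δ s e L) ^ B ≤ gp N := by
  have hsq : 2 ^ (L / 2) ≤ Nat.sqrt N := by
    rw [Nat.le_sqrt, ← pow_add]
    exact le_trans (Nat.pow_le_pow_right (by norm_num) (by omega)) h1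
  have hs152 : 2 ^ 152 ≤ Nat.sqrt N := le_trans (Nat.pow_le_pow_right (by norm_num) (by omega)) hsq
  obtain ⟨D1, D2, κ, h, a1, a2, a3, a4, a5, a6, a7, a8, a9⟩ := good_params N hs152
  have hN : 0 < N := lt_of_lt_of_le (by positivity) h1
  have hmg := many_good N D1 D2 κ h a1 a2 hN a3 a4 a5
  have hirr := irregular_card hP h1 h2
  have hpp : (0:ℝ) < pp N := by exact_mod_cast pp_pos N
  set G := (allCodes N).filter (fun c => Gd N D1 D2 κ c) with hG
  set I := (allCodes N).filter (fun c => ¬ RC L e v3 c) with hI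
  set J := (allCodes N).filter (fun c => Gd N D1 D2 κ c ∧ RC L e v3 c) with hJ
  have hcard : G.card ≤ J.card + I.card := by
    have : G ⊆ J ∪ I := by
      intro c hc
      rw [hG, Finset.mem_filter] at hc
      rw [Finset.mem_union, hJ, hI, Finset.mem_filter, Finset.mem_filter]
      by_cases h3 : RC L e v3 c
      · exact Or.inl ⟨hc.1, hc.2, h3⟩
      · exact Or.inr ⟨hc.1, h3⟩
    exact (Finset.card_le_card this).trans (Finset.card_union_le _ _)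
  have hJc : (pp N : ℝ) / 512 ≤ J.card := by
    have h3 : (G.card : ℝ) ≤ J.card + I.card := by exact_mod_cast hcard
    have h4 : (pp N : ℝ) ≤ 256 * G.card := by exact_mod_cast hmg
    have h5 : (5:ℝ) / 2 ^ L * pp N ≤ 1 / 512 * pp N := by
      apply mul_le_mul_of_nonneg_right _ hpp.le
      rw [div_le_div_iff₀ (by positivity) (by norm_num)]
      have h6 : (2:ℝ) ^ 12 ≤ 2 ^ L := pow_le_pow_right₀ (by norm_num) (by omega)
      have h7 : (2:ℝ) ^ 12 = 4096 := by norm_num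
      linarith
    linarith
  set Y := 1 / 2 ^ (8 * e + 2 * g + w + 67) * (pwin g w δ s e L) ^ B with hY
  have hY0 : 0 ≤ Y := by rw [hY]; positivity
  rw [gp_eq, le_div_iff₀ hpp]
  calc 1 / 2 ^ (8 * e + 2 * g + w + 76) * (pwin g w δ s e L) ^ B * pp N = ((pp N : ℝ) / 512) * Y := by
        rw [hY]
        have : (2:ℝ) ^ (8 * e + 2 * g + w + 76) = 512 * 2 ^ (8 * e + 2 * g + w + 67) := by
          have h9 : (512:ℝ) = 2 ^ 9 := by norm_num
          rw [h9, ← pow_add]; congr 1; omega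
        rw [this]; field_simp
    _ ≤ J.card * Y := by gcongr
    _ = ∑ _c ∈ J, Y := by rw [Finset.sum_const, nsmul_eq_mul]
    _ ≤ ∑ c ∈ J, cprob c := by
        refine Finset.sum_le_sum fun c hc => ?_
        rw [hJ, Finset.mem_filter] at hc
        exact code_lower hP h2 h1 hc.1 hc.2.1 a6 a7 a8 (hsq.trans a9) hc.2.2 hB1 hB2 hs hδ hp
    _ ≤ _ := by
        apply Finset.sum_le_sum_of_subset_of_nonneg (Finset.filter_subset _ _)
        intro c _ _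
        exact cprob_nonneg c

end Pool.Agent.Lib.GraphPart
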