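import Pool.Agent.Lib.GraphPart.Small
import Pool.Agent.Lib.GraphPart.Grid

/-!
Choice of the parameters and the counting estimates for vectors of given weight.
-/

namespace Pool.Agent.Lib.GraphPart

open Finset

/-- the basic parameters: `L` is the binary logarithm of `N` -/
structure Par (Lam L e v3 : ℕ) : Prop where
  hLam : 100 ≤ Lam
  he : e = L / Lam
  hv3 : v3 = L / 2 - 4 * e
  big : 10 ^ 6 * (L + 3) ^ 5 ≤ 2 ^ (e / 4)
  bLam : 160 * Lam ≤ 2 ^ (e / 4)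
  hL : 2 * Lam + 2 ≤ L

lemma Par.e100 {Lam L e v3 : ℕ} (h : Par Lam L e v3) : 100 * e ≤ L := by
  have h1 := h.he
  have h2 : e * Lam ≤ L := by rw [h1]; exact Nat.div_mul_le_self _ _
  have h3 := h.hLam
  nlinarith

lemma Par.L_lt {Lam L e v3 : ℕ} (h : Par Lam L e v3) : L < Lam * (e + 1) := by
  have h1 := h.he
  have h3 := h.hLam
  rw [h1]
  have := Nat.lt_div_mul_add (a := L) (show 0 < Lam by omega)
  rw [Nat.mul_add, Nat.mul_one, Nat.mul_comm]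
  exact this

lemma Par.e_big {Lam L e v3 : ℕ} (h : Par Lam L e v3) : 80 ≤ e := by
  have h1 := h.big
  have h2 : (3:ℕ) ^ 5 ≤ (L + 3) ^ 5 := Nat.pow_le_pow_left (by omega) 5
  have h3 : 2 ^ 20 < 2 ^ (e / 4) := by
    calc (2:ℕ) ^ 20 < 10 ^ 6 * 3 ^ 5 := by norm_num
      _ ≤ 10 ^ 6 * (L + 3) ^ 5 := Nat.mul_le_mul_left _ h2
      _ ≤ _ := h1
  have := (Nat.pow_lt_pow_iff_right (show 1 < 2 by norm_num)).1 h3
  omega

lemma Par.exps {Lam L e v3 : ℕ} (h : Par Lam L e v3) : v3 + 4 * e = L / 2 ∧ 40 * e ≤ v3 := by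
  have h1 := h.e100
  have h2 := h.hv3
  omega

/-- polynomial bounds -/
lemma Par.poly {Lam L e v3 : ℕ} (h : Par Lam L e v3) {m : ℕ} (hm : m ≤ 10 ^ 6 * (L + 3) ^ 5) {a : ℕ} (ha : e / 4 ≤ a) :
    m ≤ 2 ^ a :=
  hm.trans (h.big.trans (Nat.pow_le_pow_right (by norm_num) ha))

/-- minimal weight of the low part -/
def smin (L e v3 : ℕ) : ℕ := 2 ^ (v3 + L / 2 - e)

/-- bound for the admissible decrease of the weight -/
def bmax (e v3 s : ℕ) : ℕ := 2 ^ (2 * e) * s / 2 ^ (v3 + 1)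

/-- truncation of the entries -/
def Mone (L v3 s : ℕ) : ℕ := L ^ 2 * s / 2 ^ (v3 + 1) + 1

/-- truncation of the entries -/
def Lf (L v3 s : ℕ) (i : Fin (2 ^ v3)) : ℕ := Mone L v3 s / wt1 (2 ^ v3) i + 1

lemma wt1_mul_Lf (L v3 s : ℕ) (i : Fin (2 ^ v3)) :
    Mone L v3 s ≤ wt1 (2 ^ v3) i * Lf L v3 s i ∧ wt1 (2 ^ v3) i * Lf L v3 s i ≤ Mone L v3 s + 2 ^ v3 := by
  unfold Lf
  set M := Mone L v3 s
  set w := wt1 (2 ^ v3) i with hw
  have hw0 : 0 < w := by rw [hw]; unfold wt1; omega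
  have hw1 : w ≤ 2 ^ v3 := (WT1 (K := 2 ^ v3) (by positivity)).le i
  have h1 := Nat.div_add_mod M w
  have h2 := Nat.mod_lt M hw0
  have h3 : w * (M / w + 1) = w * (M / w) + w := by ring
  constructor <;> omega

lemma Par.SZ {Lam L e v3 : ℕ} (h : Par Lam L e v3) {s : ℕ} (hs : smin L e v3 ≤ s) :
    SZ (wt1 (2 ^ v3)) (2 ^ v3) s (bmax e v3 s) := by
  obtain ⟨h1, h2⟩ := h.exps
  have h3 := h.e_big
  have hcard : Fintype.card (Fin (2 ^ v3)) = 2 ^ v3 := Fintype.card_fin _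
  have hs' : ∀ a, a ≤ v3 + L / 2 - e → 2 ^ a ≤ s := fun a ha =>
    (Nat.pow_le_pow_right (by norm_num) ha).trans hs
  refine ⟨WT1 (by positivity), ?_, ?_, ?_, ?_⟩
  · rw [hcard]
    calc 2 * (2 * 2 ^ v3) * 2 ^ v3 = 2 ^ (v3 + v3 + 2) := by ring
      _ ≤ s := hs' _ (by omega)
  · unfold bmax
    have h4 : 4 * (2 ^ (2 * e) * s / 2 ^ (v3 + 1)) ≤ 4 * (2 ^ (2 * e) * s) / 2 ^ (v3 + 1) := Nat.mul_div_le_mul_div_assoc _ _ _
    refine h4.trans ?_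
    apply Nat.div_le_of_le_mul
    calc 4 * (2 ^ (2 * e) * s) = 2 ^ (2 * e + 2) * s := by ring
      _ ≤ 2 ^ (v3 + 1) * s := Nat.mul_le_mul_right _ (Nat.pow_le_pow_right (by norm_num) (by omega))
  · calc 4 * 2 ^ v3 = 2 ^ (v3 + 2) := by ring
      _ ≤ s := hs' _ (by omega)
  · rw [hcard]
    unfold bmax
    calc 3 * (2 * 2 ^ v3) ^ 2 * 2 ^ v3 * (2 ^ (2 * e) * s / 2 ^ (v3 + 1)) ≤
        (3 * (2 * 2 ^ v3) ^ 2 * 2 ^ v3 * (2 ^ (2 * e) * s)) / 2 ^ (v3 + 1) := Nat.mul_div_le_mul_div_assoc _ _ _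
      _ ≤ s ^ 2 := by
          apply Nat.div_le_of_le_mul
          have h5 : 2 ^ (2 * v3 + 2 * e + 3) ≤ s := hs' _ (by omega)
          calc 3 * (2 * 2 ^ v3) ^ 2 * 2 ^ v3 * (2 ^ (2 * e) * s) ≤ 4 * (2 * 2 ^ v3) ^ 2 * 2 ^ v3 * (2 ^ (2 * e) * s) := by
                gcongr; norm_num
            _ = 2 ^ (v3 + 1) * (2 ^ (2 * v3 + 2 * e + 3) * s) := by ring
            _ ≤ 2 ^ (v3 + 1) * (s * s) := by gcongr
            _ = 2 ^ (v3 + 1) * s ^ 2 := by ring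

/-- the group `t` -/
def grp (e v3 t : ℕ) : Finset (Fin (2 ^ v3)) := univ.filter fun i => t * 2 ^ e ≤ (i : ℕ) ∧ (i : ℕ) < (t + 1) * 2 ^ e

lemma sum_grp {e v3 t : ℕ} (ht : (t + 1) * 2 ^ e ≤ 2 ^ v3) (F : ℕ → ℝ) :
    ∑ i ∈ grp e v3 t, F i = ∑ j ∈ range (2 ^ e), F (t * 2 ^ e + j) := by
  unfold grp
  rw [Finset.sum_filter, ← Finset.sum_range (fun j => if t * 2 ^ e ≤ j ∧ j < (t + 1) * 2 ^ e then F j else 0),
    ← Finset.sum_filter]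
  have h1 : (range (2 ^ v3)).filter (fun j => t * 2 ^ e ≤ j ∧ j < (t + 1) * 2 ^ e) = Ico (t * 2 ^ e) ((t + 1) * 2 ^ e) := by
    ext j
    rw [Finset.mem_filter, Finset.mem_range, Finset.mem_Ico]
    constructor
    · exact fun h => h.2
    · intro h; exact ⟨by omega, h⟩
  rw [h1, sum_Ico_group]

lemma card_grp {e v3 t : ℕ} (ht : (t + 1) * 2 ^ e ≤ 2 ^ v3) : (grp e v3 t).card = 2 ^ e := by
  have := sum_grp ht (fun _ => 1)
  simp only [Finset.sum_const, Finset.card_range, nsmul_eq_mul, mul_one] at this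
  exact_mod_cast this

/-- `tau` and related real bounds -/
lemma Par.tau_eq {v3 s : ℕ} : tau (Fin (2 ^ v3)) s = 2 ^ (v3 + 1) / s := by
  unfold tau
  rw [Fintype.card_fin]
  push_cast
  rw [pow_succ]; ring

lemma Mone_bounds {L e v3 s Lam : ℕ} (h : Par Lam L e v3) (hs : smin L e v3 ≤ s) :
    (L:ℝ) ^ 2 ≤ tau (Fin (2 ^ v3)) s * Mone L v3 s ∧
    tau (Fin (2 ^ v3)) s * (Mone L v3 s + 2 ^ v3 : ℕ) ≤ (L:ℝ) ^ 2 + 2 := by
  obtain ⟨h1, h2⟩ := h.exps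
  have h3 := h.e_big
  have hspos : 0 < s := lt_of_lt_of_le (by unfold smin; positivity) hs
  have hsr : (0:ℝ) < s := by exact_mod_cast hspos
  have hs' : ∀ a, a ≤ v3 + L / 2 - e → (2:ℝ) ^ a ≤ s := fun a ha => by
    have : 2 ^ a ≤ s := (Nat.pow_le_pow_right (by norm_num) ha).trans hs
    exact_mod_cast this
  have hdiv : ((L ^ 2 * s / 2 ^ (v3 + 1) : ℕ) : ℝ) ≤ (L:ℝ) ^ 2 * s / 2 ^ (v3 + 1) := by
    have := Nat.cast_div_le (α := ℝ) (m := L ^ 2 * s) (n := 2 ^ (v3 + 1))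
    push_cast at this
    exact this
  have hdiv2 : (L:ℝ) ^ 2 * s / 2 ^ (v3 + 1) ≤ ((L ^ 2 * s / 2 ^ (v3 + 1) : ℕ) : ℝ) + 1 := by
    rw [div_le_iff₀ (by positivity)]
    have h4 := Nat.lt_div_mul_add (a := L ^ 2 * s) (show 0 < 2 ^ (v3 + 1) by positivity)
    have h5 : ((L ^ 2 * s : ℕ) : ℝ) < ((L ^ 2 * s / 2 ^ (v3 + 1) * 2 ^ (v3 + 1) + 2 ^ (v3 + 1) : ℕ) : ℝ) := by exact_mod_cast h4
    push_cast at h5 ⊢
    nlinarith
  rw [Par.tau_eq]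
  unfold Mone
  constructor
  · rw [div_mul_eq_mul_div, le_div_iff₀ hsr]
    push_cast at hdiv2 ⊢
    rw [div_le_iff₀ (by positivity)] at hdiv2
    linarith
  · rw [div_mul_eq_mul_div, div_le_iff₀ hsr]
    push_cast at hdiv ⊢
    rw [le_div_iff₀ (by positivity)] at hdiv
    have h6 : (2:ℝ) ^ (v3 + 1) ≤ s := hs' _ (by omega)
    have h7 : (2:ℝ) ^ (v3 + 1) * 2 ^ v3 ≤ s := by
      rw [← pow_add]; exact hs' _ (by omega)
    nlinarith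

end Pool.Agent.Lib.GraphPart
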