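import Pool.Agent.Lib.GraphPart.Params

/-!
Counting of irregular vectors of given weight.
-/

namespace Pool.Agent.Lib.GraphPart

open Finset

lemma two_pow_le_exp (n : ℕ) : (2:ℝ) ^ n ≤ Real.exp n := by
  have h1 : (2:ℝ) ≤ Real.exp 1 := by
    have := Real.add_one_le_exp (1:ℝ)
    linarith
  calc (2:ℝ) ^ n ≤ (Real.exp 1) ^ n := by gcongr
    _ = Real.exp n := by rw [← Real.exp_nat_mul]; simp

lemma Par.TR {Lam L e v3 : ℕ} (h : Par Lam L e v3) {s N t : ℕ} (hs : smin L e v3 ≤ s) (hsN : s ≤ N)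
    (ht : (t + 1) * 2 ^ e ≤ 2 ^ v3) : TR (wt1 (2 ^ v3)) s (grp e v3 t) N := by
  obtain ⟨h1, h2⟩ := h.exps
  have h3 := h.e_big
  have hspos : 0 < s := lt_of_lt_of_le (by unfold smin; positivity) hs
  have hsr : (0:ℝ) < s := by exact_mod_cast hspos
  set X := (e + 3) * s / 2 ^ (v3 + 1) with hX
  have hXm : X * 2 ^ (v3 + 1) ≤ (e + 3) * s := Nat.div_mul_le_self _ _
  refine ⟨⟨fun i => (X + 1) / wt1 (2 ^ v3) i + 1, ?_, ?_⟩⟩
  · -- total length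
    have hb : ∀ i ∈ grp e v3 t, wt1 (2 ^ v3) i * (2 * ((X + 1) / wt1 (2 ^ v3) i + 1)) ≤ 2 * (X + 1 + 2 ^ v3) := by
      intro i _
      have hw1 : wt1 (2 ^ v3) i ≤ 2 ^ v3 := (WT1 (K := 2 ^ v3) (by positivity)).le i
      have h5 := Nat.div_mul_le_self (X + 1) (wt1 (2 ^ v3) i)
      calc wt1 (2 ^ v3) i * (2 * ((X + 1) / wt1 (2 ^ v3) i + 1)) =
          2 * ((X + 1) / wt1 (2 ^ v3) i * wt1 (2 ^ v3) i + wt1 (2 ^ v3) i) := by ring
        _ ≤ _ := Nat.mul_le_mul_left _ (Nat.add_le_add h5 hw1)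
    have hs' : ∀ a, a ≤ v3 + L / 2 - e → 2 ^ a ≤ s := fun a ha => by
      exact (Nat.pow_le_pow_right (by norm_num) ha).trans hs
    have hX2 : 2 ^ (e + 3) * X ≤ s := by
      have e1 : e + 3 ≤ 2 ^ e := by
        have : e + 3 ≤ 2 ^ e := by
          have h4 : e < 2 ^ e := Nat.lt_two_pow_self
          obtain ⟨f, rfl⟩ : ∃ f, e = f + 3 := ⟨e - 3, by omega⟩
          have h5 : f < 2 ^ f := Nat.lt_two_pow_self
          rw [pow_add]; omega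
        exact this
      have e2 : 2 ^ e * (2 ^ (e + 3) * X) ≤ 2 ^ e * s := by
        calc 2 ^ e * (2 ^ (e + 3) * X) = X * 2 ^ (2 * e + 3) := by ring
          _ ≤ X * 2 ^ (v3 + 1) := Nat.mul_le_mul_left _ (Nat.pow_le_pow_right (by norm_num) (by omega))
          _ ≤ (e + 3) * s := hXm
          _ ≤ 2 ^ e * s := Nat.mul_le_mul_right _ e1
      exact Nat.le_of_mul_le_mul_left e2 (by positivity)
    have e3 : 2 ^ (e + 3) ≤ s := hs' _ (by omega)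
    have e4 : 2 ^ (v3 + e + 3) ≤ s := hs' _ (by omega)
    calc ∑ i ∈ grp e v3 t, wt1 (2 ^ v3) i * (2 * ((X + 1) / wt1 (2 ^ v3) i + 1)) ≤
        ∑ _i ∈ grp e v3 t, 2 * (X + 1 + 2 ^ v3) := Finset.sum_le_sum hb
      _ = 2 ^ e * (2 * (X + 1 + 2 ^ v3)) := by rw [Finset.sum_const, card_grp ht, smul_eq_mul]
      _ ≤ s := by
          have f1 : 2 ^ e * (2 * (X + 1 + 2 ^ v3)) * 4 = 2 ^ (e + 3) * X + 2 ^ (e + 3) + 2 ^ (v3 + e + 3) := by ring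
          omega
      _ ≤ N := hsN
  · intro i _
    rw [card_grp ht, qq_eq, ← Real.exp_nat_mul]
    have hτ : 0 < tau (Fin (2 ^ v3)) s := tau_pos (h.SZ hs)
    have hw0 : 0 < wt1 (2 ^ v3) i := (WT1 (K := 2 ^ v3) (by positivity)).pos i
    have e1 : X + 1 ≤ wt1 (2 ^ v3) i * ((X + 1) / wt1 (2 ^ v3) i + 1) := by
      have f1 := Nat.div_add_mod (X + 1) (wt1 (2 ^ v3) i)
      have f2 := Nat.mod_lt (X + 1) hw0
      have f3 : wt1 (2 ^ v3) i * ((X + 1) / wt1 (2 ^ v3) i + 1) = wt1 (2 ^ v3) i * ((X + 1) / wt1 (2 ^ v3) i) + wt1 (2 ^ v3) i := by ring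
      omega
    have e2 : ((e:ℝ) + 3) ≤ tau (Fin (2 ^ v3)) s * (X + 1) := by
      rw [Par.tau_eq, div_mul_eq_mul_div, le_div_iff₀ hsr]
      have f1 := Nat.lt_div_mul_add (a := (e + 3) * s) (show 0 < 2 ^ (v3 + 1) by positivity)
      rw [← hX] at f1
      have f2 : (((e + 3) * s : ℕ) : ℝ) ≤ ((X * 2 ^ (v3 + 1) + 2 ^ (v3 + 1) : ℕ) : ℝ) := by exact_mod_cast f1.le
      push_cast at f2
      linarith
    have e3 : ((e:ℝ) + 3) ≤ (((X + 1) / wt1 (2 ^ v3) i + 1 : ℕ) : ℝ) * (tau (Fin (2 ^ v3)) s * wt1 (2 ^ v3) i) := by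
      have f1 : ((X:ℝ) + 1) ≤ wt1 (2 ^ v3) i * (((X + 1) / wt1 (2 ^ v3) i + 1 : ℕ) : ℝ) := by exact_mod_cast e1
      calc ((e:ℝ) + 3) ≤ tau (Fin (2 ^ v3)) s * (X + 1) := e2
        _ ≤ tau (Fin (2 ^ v3)) s * (wt1 (2 ^ v3) i * (((X + 1) / wt1 (2 ^ v3) i + 1 : ℕ) : ℝ)) := by gcongr
        _ = _ := by ring
    have e4 : (((X + 1) / wt1 (2 ^ v3) i + 1 : ℕ) : ℝ) * -(tau (Fin (2 ^ v3)) s * wt1 (2 ^ v3) i) ≤ -((e:ℝ) + 3) := by
      linarith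
    have e5 := two_pow_le_exp (e + 2)
    have e6 : Real.exp ((e + 2 : ℕ) : ℝ) * Real.exp (-((e:ℝ) + 3)) ≤ 1 := by
      rw [← Real.exp_add]
      apply Real.exp_le_one_iff.2
      push_cast; linarith
    calc 4 * ((2 ^ e : ℕ) : ℝ) * Real.exp ((((X + 1) / wt1 (2 ^ v3) i + 1 : ℕ) : ℝ) * -(tau (Fin (2 ^ v3)) s * wt1 (2 ^ v3) i)) ≤
        4 * ((2 ^ e : ℕ) : ℝ) * Real.exp (-((e:ℝ) + 3)) := by
          gcongr
      _ = (2:ℝ) ^ (e + 2) * Real.exp (-((e:ℝ) + 3)) := by push_cast; ring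
      _ ≤ Real.exp ((e + 2 : ℕ) : ℝ) * Real.exp (-((e:ℝ) + 3)) := by gcongr
      _ ≤ 1 := e6

lemma Par.box_le {Lam L e v3 : ℕ} (h : Par Lam L e v3) {s : ℕ} (hs : smin L e v3 ≤ s) :
    2 ^ e * (2 * (Mone L v3 s + 2 ^ v3)) ≤ bmax e v3 s := by
  obtain ⟨h1, h2⟩ := h.exps
  have h3 := h.e_big
  have hs' : ∀ a, a ≤ v3 + L / 2 - e → 2 ^ a ≤ s := fun a ha => by
    exact (Nat.pow_le_pow_right (by norm_num) ha).trans hs
  unfold bmax
  rw [Nat.le_div_iff_mul_le (by positivity)]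
  unfold Mone
  have e1 : L ^ 2 * s / 2 ^ (v3 + 1) * 2 ^ (v3 + 1) ≤ L ^ 2 * s := Nat.div_mul_le_self _ _
  have e2 : 2 ^ (v3 + 1) ≤ s := hs' _ (by omega)
  have e3 : 2 ^ (2 * v3 + 1) ≤ s := hs' _ (by omega)
  have e4 : 2 * (L ^ 2 + 2) ≤ 2 ^ e := h.poly (by nlinarith [pow_pos (show 0 < L + 3 by omega) 3, pow_pos (show 0 < L + 3 by omega) 2]) (by omega)
  calc 2 ^ e * (2 * (L ^ 2 * s / 2 ^ (v3 + 1) + 1 + 2 ^ v3)) * 2 ^ (v3 + 1) =
      2 ^ e * (2 * (L ^ 2 * s / 2 ^ (v3 + 1) * 2 ^ (v3 + 1) + 2 ^ (v3 + 1) + 2 ^ (2 * v3 + 1))) := by ring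
    _ ≤ 2 ^ e * (2 * (L ^ 2 * s + s + s)) := by gcongr
    _ = 2 ^ e * (2 * (L ^ 2 + 2)) * s := by ring
    _ ≤ 2 ^ e * 2 ^ e * s := by gcongr
    _ = 2 ^ (2 * e) * s := by ring

/-- irregular vectors -/
def badx (L e v3 s : ℕ) (x : Fin (2 ^ v3) → ℕ × ℕ) : Prop :=
  (∃ i, Lf L v3 s i ≤ (x i).1 ∨ Lf L v3 s i ≤ (x i).2) ∨
  ∃ t, (t + 1) * 2 ^ e ≤ 2 ^ v3 ∧ (∀ i ∈ grp e v3 t, (x i).1 < Lf L v3 s i ∧ (x i).2 < Lf L v3 s i) ∧
    2 * (1 / 2 ^ (e / 4) : ℝ) * (grp e v3 t).card ≤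
      |∑ i ∈ grp e v3 t, gst (wt1 (2 ^ v3)) s i (x i) - 2 * (grp e v3 t).card|

open Classical in
theorem badx_card {Lam L e v3 : ℕ} (h : Par Lam L e v3) {s N : ℕ} (hs : smin L e v3 ≤ s) (hsN : s ≤ N)
    (hN : N < 2 ^ (L + 1)) :
    (((XS (wt1 (2 ^ v3)) s).filter (badx L e v3 s)).card : ℝ) ≤ (2 / 2 ^ L) * rr (wt1 (2 ^ v3)) s := by
  obtain ⟨h1, h2⟩ := h.exps
  have h3 := h.e_big
  have hSZ := h.SZ hs
  obtain ⟨m1, m2⟩ := Mone_bounds h hs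
  have hτ : 0 < tau (Fin (2 ^ v3)) s := tau_pos hSZ
  have hspos : 0 < s := lt_of_lt_of_le (by unfold smin; positivity) hs
  have hsr : (0:ℝ) < s := by exact_mod_cast hspos
  have hrr : (0:ℝ) ≤ rr (wt1 (2 ^ v3)) s := Nat.cast_nonneg _
  have hL1 : 200 ≤ L := by have := h.hLam; have := h.hL; omega
  -- part 1
  have p1 : (((XS (wt1 (2 ^ v3)) s).filter (fun x => ∃ i, Lf L v3 s i ≤ (x i).1 ∨ Lf L v3 s i ≤ (x i).2)).card : ℝ) ≤
      (1 / 2 ^ L) * rr (wt1 (2 ^ v3)) s := by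
    have hb := big_card hSZ (Lf L v3 s) (Lam := (L:ℝ) ^ 2) (by
      intro i
      have := (wt1_mul_Lf L v3 s i).2
      have hb := h.box_le hs
      have h4 : 1 ≤ 2 ^ e := Nat.one_le_two_pow
      calc Lf L v3 s i * wt1 (2 ^ v3) i = wt1 (2 ^ v3) i * Lf L v3 s i := Nat.mul_comm _ _
        _ ≤ Mone L v3 s + 2 ^ v3 := this
        _ ≤ 1 * (2 * (Mone L v3 s + 2 ^ v3)) := by omega
        _ ≤ 2 ^ e * (2 * (Mone L v3 s + 2 ^ v3)) := Nat.mul_le_mul_right _ h4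
        _ ≤ _ := hb) (by
      intro i
      have := (wt1_mul_Lf L v3 s i).1
      have h5 : (Mone L v3 s : ℝ) ≤ (Lf L v3 s i * wt1 (2 ^ v3) i : ℝ) := by
        have : Mone L v3 s ≤ Lf L v3 s i * wt1 (2 ^ v3) i := by rw [Nat.mul_comm]; exact this
        exact_mod_cast this
      exact m1.trans (mul_le_mul_of_nonneg_left h5 hτ.le))
    refine le_trans (le_of_eq (by congr)) (hb.trans ?_)
    apply mul_le_mul_of_nonneg_right _ hrr
    rw [Fintype.card_fin]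
    have e1 : Real.exp (-(L:ℝ) ^ 2) ≤ 1 / 2 ^ (4 * L) := by
      have f1 := two_pow_le_exp (4 * L)
      have f2 : Real.exp ((4 * L : ℕ) : ℝ) ≤ Real.exp ((L:ℝ) ^ 2) := by
        apply Real.exp_le_exp.2
        push_cast
        have : (200:ℝ) ≤ L := by exact_mod_cast hL1
        nlinarith
      rw [Real.exp_neg, ← one_div]
      exact one_div_le_one_div_of_le (by positivity) (f1.trans f2)
    calc 32 * ((2 ^ v3 : ℕ) : ℝ) * Real.exp (-(L:ℝ) ^ 2) ≤ 32 * ((2 ^ v3 : ℕ) : ℝ) * (1 / 2 ^ (4 * L)) := by gcongr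
      _ = (2:ℝ) ^ (v3 + 5) / 2 ^ (4 * L) := by push_cast; ring
      _ ≤ 1 / 2 ^ L := by
          rw [div_le_div_iff₀ (by positivity) (by positivity), ← pow_add, one_mul]
          exact pow_le_pow_right₀ (by norm_num) (by omega)
  -- part 2
  set η : ℝ := 1 / 2 ^ (e / 4) with hη
  have hη0 : 0 < η := by positivity
  have hη1 : η ≤ 1 := by
    rw [hη, div_le_one (by positivity)]
    exact one_le_pow₀ (by norm_num)
  set lam : ℝ := η / (1536 * ((L:ℝ) ^ 2 + 3) ^ 2) with hlam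
  have hlam0 : 0 < lam := by positivity
  have p2 : ∀ t ∈ (range (2 ^ v3)).filter (fun t => (t + 1) * 2 ^ e ≤ 2 ^ v3),
      (((XS (wt1 (2 ^ v3)) s).filter (fun x => (∀ i ∈ grp e v3 t, (x i).1 < Lf L v3 s i ∧ (x i).2 < Lf L v3 s i) ∧
        2 * η * (grp e v3 t).card ≤ |∑ i ∈ grp e v3 t, gst (wt1 (2 ^ v3)) s i (x i) - 2 * (grp e v3 t).card|)).card : ℝ) ≤
      (1 / 2 ^ (L + v3)) * rr (wt1 (2 ^ v3)) s := by
    intro t ht
    have ht' := (Finset.mem_filter.1 ht).2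
    have hbx := h.box_le hs
    have hτL : ∀ i, tau (Fin (2 ^ v3)) s * wt1 (2 ^ v3) i * Lf L v3 s i ≤ (L:ℝ) ^ 2 + 2 := by
      intro i
      refine le_trans ?_ m2
      rw [mul_assoc]
      apply mul_le_mul_of_nonneg_left _ hτ.le
      exact_mod_cast (wt1_mul_Lf L v3 s i).2
    have hf := flat_card hSZ (h.TR hs hsN ht') (Lf L v3 s) (by
      calc ∑ i ∈ grp e v3 t, wt1 (2 ^ v3) i * (2 * Lf L v3 s i) ≤ ∑ _i ∈ grp e v3 t, 2 * (Mone L v3 s + 2 ^ v3) := by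
            refine Finset.sum_le_sum fun i _ => ?_
            have := (wt1_mul_Lf L v3 s i).2
            calc wt1 (2 ^ v3) i * (2 * Lf L v3 s i) = 2 * (wt1 (2 ^ v3) i * Lf L v3 s i) := by ring
              _ ≤ _ := Nat.mul_le_mul_left _ this
        _ = 2 ^ e * (2 * (Mone L v3 s + 2 ^ v3)) := by rw [Finset.sum_const, card_grp ht', smul_eq_mul]
        _ ≤ _ := hbx) hlam0 (by
      rw [hlam, mul_div_assoc', div_le_iff₀ (by positivity)]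
      have : (1:ℝ) ≤ ((L:ℝ) ^ 2 + 3) ^ 2 := by
        apply one_le_pow₀
        have : (0:ℝ) ≤ (L:ℝ) ^ 2 := by positivity
        linarith
      nlinarith) hη1 (by
      intro i _
      have hw1 : wt1 (2 ^ v3) i ≤ 2 ^ v3 := (WT1 (K := 2 ^ v3) (by positivity)).le i
      have hw1r : (wt1 (2 ^ v3) i : ℝ) ≤ 2 ^ v3 := by exact_mod_cast hw1
      rw [Par.tau_eq, hη, div_mul_eq_mul_div, mul_div_assoc', div_le_div_iff₀ hsr (by positivity), one_mul]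
      have f1 : 2 ^ (2 * v3 + e + 3) ≤ s := by
        refine le_trans (Nat.pow_le_pow_right (by norm_num) ?_) hs
        omega
      have f1r : (2:ℝ) ^ (2 * v3 + e + 3) ≤ s := by exact_mod_cast f1
      calc 4 * ((2:ℝ) ^ (v3 + 1) * wt1 (2 ^ v3) i) * 2 ^ (e / 4) ≤ 4 * ((2:ℝ) ^ (v3 + 1) * 2 ^ v3) * 2 ^ e := by
            gcongr
            · norm_num
            · omega
        _ = (2:ℝ) ^ (2 * v3 + e + 3) := by ring
        _ ≤ s := f1r) (by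
      intro i _
      have f1 := hτL i
      have f0 : 0 ≤ tau (Fin (2 ^ v3)) s * wt1 (2 ^ v3) i * Lf L v3 s i := by positivity
      have f2 : (tau (Fin (2 ^ v3)) s * wt1 (2 ^ v3) i * Lf L v3 s i) ^ 2 ≤ ((L:ℝ) ^ 2 + 3) ^ 2 := by
        apply pow_le_pow_left₀ f0
        linarith
      calc lam * (tau (Fin (2 ^ v3)) s * wt1 (2 ^ v3) i * Lf L v3 s i) ^ 2 ≤ lam * ((L:ℝ) ^ 2 + 3) ^ 2 := by gcongr
        _ = η / 1536 := by rw [hlam]; field_simp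
        _ ≤ 1 := by linarith)
    refine le_trans (le_of_eq (by congr)) (hf.trans ?_)
    rw [card_grp ht']
    have hexp : (4 * L + 10 : ℝ) ≤ lam * η * ((2 ^ e : ℕ) : ℝ) := by
      have f1 : (1536 * (L ^ 2 + 3) ^ 2) * (4 * L + 10) ≤ 2 ^ (e / 4) := by
        apply h.poly _ le_rfl
        have g1 : L ^ 2 + 3 ≤ (L + 3) ^ 2 := by nlinarith
        have g2 : 4 * L + 10 ≤ 4 * (L + 3) := by omega
        calc (1536 * (L ^ 2 + 3) ^ 2) * (4 * L + 10) ≤ (1536 * ((L + 3) ^ 2) ^ 2) * (4 * (L + 3)) := by gcongr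
          _ = 6144 * (L + 3) ^ 5 := by ring
          _ ≤ _ := Nat.mul_le_mul_right _ (by norm_num)
      have f1r : (1536 * ((L:ℝ) ^ 2 + 3) ^ 2) * (4 * L + 10) ≤ 2 ^ (e / 4) := by exact_mod_cast f1
      have f2 : lam * η * ((2 ^ e : ℕ) : ℝ) = (2:ℝ) ^ e / (2 ^ (e / 4) * 2 ^ (e / 4)) / (1536 * ((L:ℝ) ^ 2 + 3) ^ 2) := by
        rw [hlam, hη]; push_cast
        field_simp
      rw [f2, le_div_iff₀ (by positivity), le_div_iff₀ (by positivity)]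
      have f3 : (2:ℝ) ^ (e / 4) * (2 ^ (e / 4) * 2 ^ (e / 4)) ≤ 2 ^ e := by
        rw [← pow_add, ← pow_add]
        exact pow_le_pow_right₀ (by norm_num) (by omega)
      calc (4 * (L:ℝ) + 10) * (1536 * ((L:ℝ) ^ 2 + 3) ^ 2) * (2 ^ (e / 4) * 2 ^ (e / 4)) =
          ((1536 * ((L:ℝ) ^ 2 + 3) ^ 2) * (4 * L + 10)) * (2 ^ (e / 4) * 2 ^ (e / 4)) := by ring
        _ ≤ 2 ^ (e / 4) * (2 ^ (e / 4) * 2 ^ (e / 4)) := by gcongr
        _ ≤ _ := f3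
    have hexp2 : Real.exp (-(lam * η * ((2 ^ e : ℕ) : ℝ))) ≤ 1 / 2 ^ (4 * L + 10) := by
      have f1 := two_pow_le_exp (4 * L + 10)
      rw [Real.exp_neg, ← one_div]
      apply one_div_le_one_div_of_le (by positivity)
      refine f1.trans (Real.exp_le_exp.2 ?_)
      push_cast at hexp ⊢
      exact hexp
    have hN1 : ((N:ℝ) + 1) ≤ 2 ^ (L + 1) := by
      have : N + 1 ≤ 2 ^ (L + 1) := hN
      exact_mod_cast this
    calc 64 * ((N:ℝ) + 1) * rr (wt1 (2 ^ v3)) s * Real.exp (-(lam * η * ((2 ^ e : ℕ) : ℝ))) ≤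
        64 * 2 ^ (L + 1) * rr (wt1 (2 ^ v3)) s * (1 / 2 ^ (4 * L + 10)) := by gcongr
      _ = ((2:ℝ) ^ (L + 7) / 2 ^ (4 * L + 10)) * rr (wt1 (2 ^ v3)) s := by ring
      _ ≤ (1 / 2 ^ (L + v3)) * rr (wt1 (2 ^ v3)) s := by
          apply mul_le_mul_of_nonneg_right _ hrr
          rw [div_le_div_iff₀ (by positivity) (by positivity), ← pow_add, one_mul]
          exact pow_le_pow_right₀ (by norm_num) (by omega)
  -- union
  have hsub : ((XS (wt1 (2 ^ v3)) s).filter (badx L e v3 s)) ⊆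
      ((XS (wt1 (2 ^ v3)) s).filter (fun x => ∃ i, Lf L v3 s i ≤ (x i).1 ∨ Lf L v3 s i ≤ (x i).2)) ∪
      ((range (2 ^ v3)).filter (fun t => (t + 1) * 2 ^ e ≤ 2 ^ v3)).biUnion fun t =>
        (XS (wt1 (2 ^ v3)) s).filter (fun x => (∀ i ∈ grp e v3 t, (x i).1 < Lf L v3 s i ∧ (x i).2 < Lf L v3 s i) ∧
        2 * η * (grp e v3 t).card ≤ |∑ i ∈ grp e v3 t, gst (wt1 (2 ^ v3)) s i (x i) - 2 * (grp e v3 t).card|) := by
    intro x hx
    rw [Finset.mem_filter] at hx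
    obtain ⟨hx1, hx2⟩ := hx
    rw [Finset.mem_union, Finset.mem_filter, Finset.mem_biUnion]
    rcases hx2 with hx2 | ⟨t, ht1, ht2⟩
    · exact Or.inl ⟨hx1, hx2⟩
    · right
      refine ⟨t, ?_, ?_⟩
      · rw [Finset.mem_filter, Finset.mem_range]
        refine ⟨?_, ht1⟩
        have : 1 ≤ 2 ^ e := Nat.one_le_two_pow
        nlinarith
      · rw [Finset.mem_filter]
        exact ⟨hx1, ht2⟩
  have hcard := (Finset.card_le_card hsub).trans ((Finset.card_union_le _ _).trans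
    (Nat.add_le_add_left Finset.card_biUnion_le _))
  have hcardr : (((XS (wt1 (2 ^ v3)) s).filter (badx L e v3 s)).card : ℝ) ≤
      (((XS (wt1 (2 ^ v3)) s).filter (fun x => ∃ i, Lf L v3 s i ≤ (x i).1 ∨ Lf L v3 s i ≤ (x i).2)).card : ℝ) +
      ∑ t ∈ (range (2 ^ v3)).filter (fun t => (t + 1) * 2 ^ e ≤ 2 ^ v3),
        (((XS (wt1 (2 ^ v3)) s).filter (fun x => (∀ i ∈ grp e v3 t, (x i).1 < Lf L v3 s i ∧ (x i).2 < Lf L v3 s i) ∧
        2 * η * (grp e v3 t).card ≤ |∑ i ∈ grp e v3 t, gst (wt1 (2 ^ v3)) s i (x i) - 2 * (grp e v3 t).card|)).card : ℝ) := by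
    exact_mod_cast hcard
  have hsum := Finset.sum_le_sum p2
  rw [Finset.sum_const, nsmul_eq_mul] at hsum
  have hn : ((((range (2 ^ v3)).filter (fun t => (t + 1) * 2 ^ e ≤ 2 ^ v3)).card : ℕ) : ℝ) ≤ 2 ^ v3 := by
    have : ((range (2 ^ v3)).filter (fun t => (t + 1) * 2 ^ e ≤ 2 ^ v3)).card ≤ 2 ^ v3 := by
      refine (Finset.card_filter_le _ _).trans ?_
      rw [Finset.card_range]
    exact_mod_cast this
  have hlast : ((((range (2 ^ v3)).filter (fun t => (t + 1) * 2 ^ e ≤ 2 ^ v3)).card : ℕ) : ℝ) *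
      ((1 / 2 ^ (L + v3)) * rr (wt1 (2 ^ v3)) s) ≤ (1 / 2 ^ L) * rr (wt1 (2 ^ v3)) s := by
    calc _ ≤ (2:ℝ) ^ v3 * ((1 / 2 ^ (L + v3)) * rr (wt1 (2 ^ v3)) s) := by gcongr
      _ = (1 / 2 ^ L) * rr (wt1 (2 ^ v3)) s := by
          rw [pow_add]; field_simp
  have e9 : (2 / (2:ℝ) ^ L) * rr (wt1 (2 ^ v3)) s = (1 / 2 ^ L) * rr (wt1 (2 ^ v3)) s + (1 / 2 ^ L) * rr (wt1 (2 ^ v3)) s := by
    ring
  rw [e9]
  linarith

end Pool.Agent.Lib.GraphPart
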