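import Mathlib

/-!
A sufficient condition of Erdos-Gallai type for the existence of a simple graph
with given degrees.
-/

namespace Pool.Agent.Lib.GraphPart

open Finset

open Classical in
/-- `D` is the degree function of a simple graph on `V`. -/
def Realizable {V : Type} [Fintype V] (D : V → ℕ) : Prop :=
  ∃ G : SimpleGraph V, ∀ v, (univ.filter fun w => G.Adj v w).card = D v

open Classical in
/-- Moving one unit of degree from a vertex to a vertex of smaller degree. -/
lemma transfer {V : Type} [Fintype V] (D : V → ℕ) (u v : V) (huv : u ≠ v)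
    (h : D v + 2 ≤ D u) (hR : Realizable D) (D' : V → ℕ) (hu : D' u + 1 = D u)
    (hv : D' v = D v + 1) (hx : ∀ x, x ≠ u → x ≠ v → D' x = D x) : Realizable D' := by
  obtain ⟨G, hG⟩ := hR
  -- find the neighbour to move
  have hw : ∃ w, G.Adj u w ∧ ¬ G.Adj v w ∧ w ≠ v := by
    by_contra hcon
    push Not at hcon
    have hsub : ((univ.filter fun w => G.Adj u w).erase v) ⊆ (univ.filter fun w => G.Adj v w) := by
      intro w hw
      rw [Finset.mem_erase, Finset.mem_filter] at hw
      rw [Finset.mem_filter]
      refine ⟨Finset.mem_univ _, ?_⟩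
      by_contra h1
      exact hw.1 (hcon w hw.2.2 h1)
    have h1 := Finset.card_le_card hsub
    have h2 : (univ.filter fun w => G.Adj u w).card - 1 ≤ ((univ.filter fun w => G.Adj u w).erase v).card :=
      Finset.pred_card_le_card_erase
    rw [hG v] at h1
    rw [hG u] at h2
    omega
  obtain ⟨w, huw, hvw, hwv⟩ := hw
  have hwu : w ≠ u := (G.ne_of_adj huw).symm
  have hsymm : ∀ x y, ((G.Adj x y ∧ ¬ (x = u ∧ y = w) ∧ ¬ (x = w ∧ y = u)) ∨
      (x = v ∧ y = w) ∨ (x = w ∧ y = v)) → ((G.Adj y x ∧ ¬ (y = u ∧ x = w) ∧ ¬ (y = w ∧ x = u)) ∨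
      (y = v ∧ x = w) ∨ (y = w ∧ x = v)) := by
    intro x y hxy
    rcases hxy with ⟨h1, h2, h3⟩ | ⟨h1, h2⟩ | ⟨h1, h2⟩
    · exact Or.inl ⟨h1.symm, fun h4 => h3 ⟨h4.2, h4.1⟩, fun h4 => h2 ⟨h4.2, h4.1⟩⟩
    · exact Or.inr (Or.inr ⟨h2, h1⟩)
    · exact Or.inr (Or.inl ⟨h2, h1⟩)
  have hirr : ∀ x, ¬ ((G.Adj x x ∧ ¬ (x = u ∧ x = w) ∧ ¬ (x = w ∧ x = u)) ∨
      (x = v ∧ x = w) ∨ (x = w ∧ x = v)) := by
    rintro x (⟨h1, _⟩ | ⟨h1, h2⟩ | ⟨h1, h2⟩)
    · exact G.loopless.irrefl x h1
    · exact hwv (h2.symm.trans h1)
    · exact hwv (h1.symm.trans h2)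
  obtain ⟨G', hadj⟩ : ∃ G' : SimpleGraph V, ∀ x y, G'.Adj x y ↔
      ((G.Adj x y ∧ ¬ (x = u ∧ y = w) ∧ ¬ (x = w ∧ y = u)) ∨
        (x = v ∧ y = w) ∨ (x = w ∧ y = v)) :=
    ⟨{ Adj := fun x y => (G.Adj x y ∧ ¬ (x = u ∧ y = w) ∧ ¬ (x = w ∧ y = u)) ∨
        (x = v ∧ y = w) ∨ (x = w ∧ y = v)
       symm := ⟨hsymm⟩
       loopless := ⟨hirr⟩ }, fun _ _ => Iff.rfl⟩
  refine ⟨G', fun x => ?_⟩
  by_cases hxu : x = u
  · have h0 : (univ.filter fun y => G'.Adj x y) = (univ.filter fun y => G.Adj x y).erase w := by
      ext y
      rw [Finset.mem_filter, Finset.mem_erase, Finset.mem_filter, hadj]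
      constructor
      · rintro ⟨_, ⟨h1, h2, _⟩ | ⟨h1, _⟩ | ⟨h1, _⟩⟩
        · exact ⟨fun h3 => h2 ⟨hxu, h3⟩, Finset.mem_univ _, h1⟩
        · exact absurd (hxu.symm.trans h1) huv
        · exact absurd (h1.symm.trans hxu) hwu
      · rintro ⟨h1, _, h2⟩
        exact ⟨Finset.mem_univ _, Or.inl ⟨h2, fun h3 => h1 h3.2, fun h3 => hwu (h3.1.symm.trans hxu)⟩⟩
    rw [h0, Finset.card_erase_of_mem (by rw [hxu]; simp [huw]), hG x, hxu]
    omega
  by_cases hxv : x = v
  · have h0 : (univ.filter fun y => G'.Adj x y) = insert w (univ.filter fun y => G.Adj x y) := by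
      ext y
      rw [Finset.mem_filter, Finset.mem_insert, Finset.mem_filter, hadj]
      constructor
      · rintro ⟨_, ⟨h1, h2, _⟩ | ⟨_, h1⟩ | ⟨h1, _⟩⟩
        · exact Or.inr ⟨Finset.mem_univ _, h1⟩
        · exact Or.inl h1
        · exact absurd (h1.symm.trans hxv) hwv
      · rintro (h1 | ⟨_, h1⟩)
        · exact ⟨Finset.mem_univ _, Or.inr (Or.inl ⟨hxv, h1⟩)⟩
        · exact ⟨Finset.mem_univ _, Or.inl ⟨h1, fun h3 => hxu h3.1, fun h3 => hwv (h3.1.symm.trans hxv)⟩⟩
    rw [h0, Finset.card_insert_of_notMem (by rw [hxv]; simp [hvw]), hG x, hxv, hv]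
  rw [hx x hxu hxv, ← hG x]
  by_cases hxw : x = w
  · have h0 : (univ.filter fun y => G'.Adj x y) = insert v ((univ.filter fun y => G.Adj x y).erase u) := by
      ext y
      rw [Finset.mem_filter, Finset.mem_insert, Finset.mem_erase, Finset.mem_filter, hadj]
      constructor
      · rintro ⟨_, ⟨h1, h2, h3⟩ | ⟨h1, _⟩ | ⟨_, h1⟩⟩
        · exact Or.inr ⟨fun h4 => h3 ⟨hxw, h4⟩, Finset.mem_univ _, h1⟩
        · exact absurd h1 hxv
        · exact Or.inl h1
      · rintro (h1 | ⟨h1, _, h2⟩)
        · exact ⟨Finset.mem_univ _, Or.inr (Or.inr ⟨hxw, h1⟩)⟩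
        · exact ⟨Finset.mem_univ _, Or.inl ⟨h2, fun h3 => hxu h3.1, fun h3 => h1 h3.2⟩⟩
    have hmem : u ∈ (univ.filter fun y => G.Adj x y) := by
      rw [hxw]; simp [huw.symm]
    rw [h0, Finset.card_insert_of_notMem, Finset.card_erase_of_mem hmem]
    · have : 0 < (univ.filter fun y => G.Adj x y).card :=
        Finset.card_pos.2 ⟨u, hmem⟩
      omega
    · rw [Finset.mem_erase, Finset.mem_filter]
      rintro ⟨_, _, h2⟩
      rw [hxw] at h2
      exact hvw h2.symm
  · congr 1
    ext y
    rw [Finset.mem_filter, Finset.mem_filter, hadj]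
    constructor
    · rintro ⟨_, ⟨h1, _⟩ | ⟨h1, _⟩ | ⟨h1, _⟩⟩
      · exact ⟨Finset.mem_univ _, h1⟩
      · exact absurd h1 hxv
      · exact absurd h1 hxw
    · rintro ⟨_, h1⟩
      exact ⟨Finset.mem_univ _, Or.inl ⟨h1, fun h2 => hxu h2.1, fun h2 => hxw h2.1⟩⟩

/-- The number of `x` with `i < b x`. -/
def cb {W : Type} [Fintype W] (b : W → ℕ) (i : ℕ) : ℕ := (univ.filter fun x => i < b x).card

/-- partial sums of `cb b i - r i` -/
def Dl {W : Type} [Fintype W] (r : ℕ → ℕ) (b : W → ℕ) (k : ℕ) : ℤ :=
  ∑ i ∈ range k, ((cb b i : ℤ) - r i)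

lemma Dl_zero {W : Type} [Fintype W] (r : ℕ → ℕ) (b : W → ℕ) : Dl r b 0 = 0 := by simp [Dl]

lemma Dl_succ {W : Type} [Fintype W] (r : ℕ → ℕ) (b : W → ℕ) (k : ℕ) :
    Dl r b (k + 1) = Dl r b k + ((cb b k : ℤ) - r k) := by
  unfold Dl
  rw [Finset.sum_range_succ]

lemma cb_anti {W : Type} [Fintype W] (b : W → ℕ) : Antitone (cb b) := by
  intro i j hij
  unfold cb
  apply Finset.card_le_card
  intro x hx
  simp only [Finset.mem_filter, Finset.mem_univ, true_and] at hx ⊢
  omega

/-- the degree function on top and bottom vertices -/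
def degF {W : Type} (d : ℕ) (r : ℕ → ℕ) (b : W → ℕ) : Fin d ⊕ W → ℕ :=
  Sum.elim (fun i => (d - 1) + r i) b

open Classical in
lemma base_real {W : Type} [Fintype W] (d : ℕ) (r : ℕ → ℕ) (b : W → ℕ) (hb : ∀ x, b x ≤ d)
    (h : ∀ i, i < d → r i = cb b i) : Realizable (degF d r b) := by
  obtain ⟨G, hll, hlr, hrl, hrr⟩ : ∃ G : SimpleGraph (Fin d ⊕ W),
      (∀ i j : Fin d, G.Adj (Sum.inl i) (Sum.inl j) ↔ i ≠ j) ∧
      (∀ (i : Fin d) (x : W), G.Adj (Sum.inl i) (Sum.inr x) ↔ (i : ℕ) < b x) ∧
      (∀ (i : Fin d) (x : W), G.Adj (Sum.inr x) (Sum.inl i) ↔ (i : ℕ) < b x) ∧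
      (∀ x y : W, ¬ G.Adj (Sum.inr x) (Sum.inr y)) :=
    ⟨{ Adj := fun x y => match x, y with
        | Sum.inl i, Sum.inl j => i ≠ j
        | Sum.inl i, Sum.inr x => (i : ℕ) < b x
        | Sum.inr x, Sum.inl i => (i : ℕ) < b x
        | Sum.inr _, Sum.inr _ => False
       symm := ⟨by
        rintro (i | x) (j | y) hxy
        · exact hxy.symm
        · exact hxy
        · exact hxy
        · exact hxy⟩
       loopless := ⟨by
        rintro (i | x) hxy
        · exact hxy rfl
        · exact hxy⟩ }, fun _ _ => Iff.rfl, fun _ _ => Iff.rfl, fun _ _ => Iff.rfl, fun _ _ h => h⟩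
  refine ⟨G, ?_⟩
  rintro (i | x)
  · rw [Finset.card_filter, Fintype.sum_sum_type]
    simp only [hll, hlr]
    have e1 : ∑ j : Fin d, (if i ≠ j then 1 else 0) = d - 1 := by
      have : ∑ j : Fin d, (if i ≠ j then 1 else 0) =
          ∑ j : Fin d, (if j ≠ i then 1 else 0) := by
        refine Finset.sum_congr rfl fun j _ => ?_
        congr 1
        rw [eq_iff_iff]
        exact ne_comm
      rw [this, ← Finset.card_filter, Finset.filter_ne', Finset.card_erase_of_mem (Finset.mem_univ _)]
      simp
    have e2 : ∑ x : W, (if (i : ℕ) < b x then 1 else 0) = cb b i := by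
      rw [← Finset.card_filter]
      rfl
    rw [e1, e2]
    simp [degF, h i i.2]
  · rw [Finset.card_filter, Fintype.sum_sum_type]
    simp only [hrl, hrr]
    have e1 : ∑ j : Fin d, (if (j : ℕ) < b x then 1 else 0) = b x := by
      rw [← Finset.card_filter]
      have : (univ.filter fun j : Fin d => (j : ℕ) < b x).card = (range (b x)).card := by
        apply Finset.card_bij (fun (j : Fin d) _ => (j : ℕ))
        · intro j hj
          simpa using hj
        · intro j _ k _ hjk
          exact Fin.ext hjk
        · intro k hk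
          have hk' := Finset.mem_range.1 hk
          exact ⟨⟨k, lt_of_lt_of_le hk' (hb x)⟩, by simpa using hk', rfl⟩
      rw [this, Finset.card_range]
    rw [e1]
    simp [degF]

lemma Dl_update_top {W : Type} [Fintype W] (r : ℕ → ℕ) (b : W → ℕ) (i : ℕ) (k : ℕ) :
    Dl (Function.update r i (r i + 1)) b k = Dl r b k - (if i < k then 1 else 0) := by
  induction k with
  | zero => simp [Dl_zero]
  | succ k ih =>
    rw [Dl_succ, Dl_succ, ih]
    by_cases h : k = i
    · subst h
      simp
      ring
    · rw [Function.update_of_ne h]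
      by_cases h2 : i < k
      · simp [h2, show i < k + 1 by omega]; ring
      · simp [h2, show ¬ i < k + 1 by omega]

lemma Dl_update_down {W : Type} [Fintype W] (r : ℕ → ℕ) (b : W → ℕ) (i : ℕ) (hi : 1 ≤ r i) (k : ℕ) :
    Dl (Function.update r i (r i - 1)) b k = Dl r b k + (if i < k then 1 else 0) := by
  induction k with
  | zero => simp [Dl_zero]
  | succ k ih =>
    rw [Dl_succ, Dl_succ, ih]
    by_cases h : k = i
    · subst h
      simp
      rw [Nat.cast_sub hi]
      push_cast
      ring
    · rw [Function.update_of_ne h]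
      by_cases h2 : i < k
      · simp [h2, show i < k + 1 by omega]; ring
      · simp [h2, show ¬ i < k + 1 by omega]

/-- balanced case -/
lemma real_balanced {W : Type} [Fintype W] (d : ℕ) (b : W → ℕ) (hb : ∀ x, b x ≤ d) :
    ∀ (s : ℕ) (r : ℕ → ℕ), Antitone r → (∀ i, d ≤ i → r i = 0) → (∀ k, k ≤ d → 0 ≤ Dl r b k) →
      Dl r b d = 0 → ∑ k ∈ range (d + 1), Dl r b k = s → Realizable (degF d r b) := by
  intro s
  induction s using Nat.strong_induction_on with
  | _ s ih =>
    intro r hr hr0 hD hDd hs
    by_cases hall : ∀ k, k ≤ d → Dl r b k = 0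
    · apply base_real d r b hb
      intro i hi
      have h1 := hall i hi.le
      have h2 := hall (i + 1) hi
      rw [Dl_succ, h1] at h2
      omega
    · push Not at hall
      classical
      -- first positive index
      set k1 := Nat.find hall with hk1
      have hk1s : k1 ≤ d ∧ Dl r b k1 ≠ 0 := Nat.find_spec hall
      have hk1m : ∀ k, k < k1 → Dl r b k = 0 := by
        intro k hk
        have := Nat.find_min hall hk
        push Not at this
        exact this (by omega)
      have hk1pos : 0 < Dl r b k1 := lt_of_le_of_ne (hD k1 hk1s.1) (Ne.symm hk1s.2)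
      have hk1ge : 1 ≤ k1 := by
        rcases Nat.eq_zero_or_pos k1 with h | h
        · rw [h, Dl_zero] at hk1pos; omega
        · exact h
      have hex : ∃ k, k1 < k ∧ k ≤ d ∧ Dl r b k = 0 := by
        refine ⟨d, ?_, le_rfl, hDd⟩
        rcases Nat.lt_or_ge k1 d with h | h
        · exact h
        · have : k1 = d := by omega
          rw [this, hDd] at hk1pos; omega
      set l1 := Nat.find hex with hl1
      have hl1s : k1 < l1 ∧ l1 ≤ d ∧ Dl r b l1 = 0 := Nat.find_spec hex
      have hl1m : ∀ k, k1 ≤ k → k < l1 → 1 ≤ Dl r b k := by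
        intro k hk hkl
        rcases Nat.lt_or_ge k1 k with h | h
        · have h2 := Nat.find_min hex hkl
          push Not at h2
          have h3 := h2 h (by omega)
          have h4 := hD k (by omega)
          omega
        · have : k = k1 := by omega
          rw [this]; omega
      obtain ⟨i, hi⟩ : ∃ i, k1 = i + 1 := ⟨k1 - 1, by omega⟩
      obtain ⟨l, hl⟩ : ∃ l, l1 = l + 1 := ⟨l1 - 1, by omega⟩
      have hil : i < l := by omega
      have hld : l < d := by omega
      have hDi : Dl r b i = 0 := hk1m i (by omega)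
      have hri : r i + 1 ≤ cb b i := by
        have := hk1pos
        rw [hi, Dl_succ, hDi] at this
        omega
      have hDl : 1 ≤ Dl r b l := hl1m l (by omega) (by omega)
      have hrl : cb b l + 1 ≤ r l := by
        have := hl1s.2.2
        rw [hl, Dl_succ] at this
        omega
      -- the raised sequence
      set r1 := Function.update r i (r i + 1) with hr1
      set r2 := Function.update r1 l (r1 l - 1) with hr2
      have hr1l : r1 l = r l := by rw [hr1, Function.update_of_ne (by omega)]
      have hr2i : r2 i = r i + 1 := by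
        rw [hr2, Function.update_of_ne (by omega), hr1, Function.update_self]
      have hr2l : r2 l = r l - 1 := by
        rw [hr2, Function.update_self, hr1l]
      have hr2o : ∀ x, x ≠ i → x ≠ l → r2 x = r x := by
        intro x h1 h2
        rw [hr2, Function.update_of_ne h2, hr1, Function.update_of_ne h1]
      have hD2 : ∀ k, Dl r2 b k = Dl r b k - (if i < k then 1 else 0) + (if l < k then 1 else 0) := by
        intro k
        rw [hr2, Dl_update_down r1 b l (by rw [hr1l]; omega), hr1, Dl_update_top]
      have hanti : Antitone r2 := by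
        apply antitone_nat_of_succ_le
        intro x
        by_cases h1 : x = i
        · subst h1
          rw [hr2i]
          by_cases h2 : x + 1 = l
          · rw [h2, hr2l]
            have := hr (show x ≤ l by omega)
            omega
          · rw [hr2o _ (by omega) h2]
            have := hr (show x ≤ x + 1 by omega)
            omega
        · by_cases h2 : x = l
          · subst h2
            rw [hr2l, hr2o _ (by omega) (by omega)]
            rcases Nat.lt_or_ge (x + 1) d with h3 | h3
            · have h4 := hD (x + 2) (by omega)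
              have h5 := hl1s.2.2
              rw [hl] at h5
              rw [Dl_succ, h5] at h4
              have h6 := cb_anti b (show x ≤ x + 1 by omega)
              omega
            · rw [hr0 _ h3]; omega
          · rw [hr2o x h1 h2]
            by_cases h3 : x + 1 = i
            · rw [h3, hr2i]
              have h4 := hk1m x (by omega)
              have h5 := hk1m (x + 1) (by omega)
              rw [Dl_succ, h4] at h5
              have h6 := cb_anti b (show x ≤ i by omega)
              omega
            · by_cases h4 : x + 1 = l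
              · rw [h4, hr2l]
                have := hr (show x ≤ l by omega)
                omega
              · rw [hr2o _ h3 h4]
                exact hr (by omega)
      have hzero : ∀ x, d ≤ x → r2 x = 0 := by
        intro x hx
        rw [hr2o x (by omega) (by omega)]
        exact hr0 x hx
      have hnn : ∀ k, k ≤ d → 0 ≤ Dl r2 b k := by
        intro k hk
        rw [hD2]
        have h1 := hD k hk
        by_cases h2 : i < k
        · by_cases h3 : l < k
          · simp [h2, h3, h1]
          · have := hl1m k (by omega) (by omega)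
            simp [h2, h3, this]
        · simp [h2, show ¬ l < k by omega, h1]
      have hdd : Dl r2 b d = 0 := by
        rw [hD2, hDd]
        simp [show i < d by omega, hld]
      -- the sum decreases
      have hsum : ∑ k ∈ range (d + 1), Dl r2 b k < s := by
        rw [← hs]
        apply Finset.sum_lt_sum
        · intro k _
          rw [hD2]
          split_ifs <;> omega
        · refine ⟨k1, Finset.mem_range.2 (by omega), ?_⟩
          rw [hD2]
          simp [show i < k1 by omega, show ¬ l < k1 by omega]
      have hsumnn : 0 ≤ ∑ k ∈ range (d + 1), Dl r2 b k :=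
        Finset.sum_nonneg fun k hk => hnn k (by have := Finset.mem_range.1 hk; omega)
      obtain ⟨s', hs'⟩ := Int.eq_ofNat_of_zero_le hsumnn
      have hreal := ih s' (by rw [hs'] at hsum; exact_mod_cast hsum) r2 hanti hzero hnn hdd hs'
      refine transfer (degF d r2 b) (Sum.inl ⟨i, by omega⟩) (Sum.inl ⟨l, hld⟩) ?_ ?_ hreal
        (degF d r b) ?_ ?_ ?_
      · intro h
        rw [Sum.inl.injEq, Fin.mk.injEq] at h
        omega
      · simp only [degF, Sum.elim_inl]
        rw [hr2i, hr2l]
        have := hr (show i ≤ l by omega)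
        omega
      · simp only [degF, Sum.elim_inl]
        rw [hr2i]; omega
      · simp only [degF, Sum.elim_inl]
        rw [hr2l]; omega
      · rintro (x | x) h1 h2
        · simp only [degF, Sum.elim_inl]
          rw [hr2o]
          · intro h3; exact h1 (by rw [Sum.inl.injEq]; exact Fin.ext h3)
          · intro h3; exact h2 (by rw [Sum.inl.injEq]; exact Fin.ext h3)
        · simp [degF]

lemma cb_update {W : Type} [Fintype W] [DecidableEq W] (b : W → ℕ) (x : W) (hx : 1 ≤ b x) (i : ℕ) :
    (cb (Function.update b x (b x - 1)) i : ℤ) = cb b i - (if i = b x - 1 then 1 else 0) := by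
  unfold cb
  by_cases h : i = b x - 1
  · have : (univ.filter fun y => i < Function.update b x (b x - 1) y) =
        (univ.filter fun y => i < b y).erase x := by
      ext y
      simp only [Finset.mem_filter, Finset.mem_univ, true_and, Finset.mem_erase]
      by_cases hy : y = x
      · subst hy
        simp [h]
      · rw [Function.update_of_ne hy]; simp [hy]
    rw [this, Finset.card_erase_of_mem (by simp; omega), if_pos h]
    have : 0 < (univ.filter fun y => i < b y).card := Finset.card_pos.2 ⟨x, by simp; omega⟩
    omega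
  · rw [if_neg h, sub_zero]
    congr 2
    ext y
    simp only [Finset.mem_filter, Finset.mem_univ, true_and]
    by_cases hy : y = x
    · subst hy
      rw [Function.update_self]
      omega
    · rw [Function.update_of_ne hy]

lemma Dl_update_bot {W : Type} [Fintype W] [DecidableEq W] (r : ℕ → ℕ) (b : W → ℕ) (x : W) (hx : 1 ≤ b x) (k : ℕ) :
    Dl r (Function.update b x (b x - 1)) k = Dl r b k - (if b x ≤ k then 1 else 0) := by
  induction k with
  | zero =>
    rw [Dl_zero, Dl_zero, if_neg (by omega)]; rfl
  | succ k ih =>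
    have h1 : (cb (Function.update b x (b x - 1)) k : ℤ) = cb b k - (if k = b x - 1 then 1 else 0) :=
      cb_update b x hx k
    rw [Dl_succ, Dl_succ, ih, h1]
    by_cases h : k = b x - 1
    · rw [if_neg (by omega), if_pos h, if_pos (by omega)]; ring
    · rw [if_neg h]
      by_cases h2 : b x ≤ k
      · rw [if_pos h2, if_pos (by omega)]; ring
      · rw [if_neg h2, if_neg (by omega)]; ring

/-- **Sufficient condition.** Top vertices `i < d` of degree `d - 1 + r i`, bottom vertices `x`
of degree `b x ≤ d`. -/
theorem real_of_cond {W : Type} [Fintype W] (d : ℕ) :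
    ∀ (e : ℕ) (r : ℕ → ℕ) (b : W → ℕ), (∀ x, b x ≤ d) → Antitone r → (∀ i, d ≤ i → r i = 0) →
      (∀ i, i < d → 1 ≤ r i) → (∀ k, k ≤ d → 0 ≤ Dl r b k) → Dl r b d = 2 * e →
      Realizable (degF d r b) := by
  classical
  intro e
  induction e with
  | zero =>
    intro r b hb hr hr0 _ hD hDd
    have hnn : 0 ≤ ∑ k ∈ range (d + 1), Dl r b k :=
      Finset.sum_nonneg fun k hk => hD k (by have := Finset.mem_range.1 hk; omega)
    obtain ⟨s, hs⟩ := Int.eq_ofNat_of_zero_le hnn
    exact real_balanced d b hb s r hr hr0 hD (by simpa using hDd) hs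
  | succ e ih =>
    intro r b hb hr hr0 hr1 hD hDd
    have hDd2 : 2 ≤ Dl r b d := by rw [hDd]; push_cast; omega
    -- last zero
    have hexz : ∃ k, k ≤ d ∧ Dl r b k = 0 := ⟨0, by omega, Dl_zero r b⟩
    set P : ℕ → Prop := fun k => Dl r b k = 0 with hP
    set i := Nat.findGreatest P d with hi
    have hPi : Dl r b i = 0 := Nat.findGreatest_spec (P := P) (Nat.zero_le d) (Dl_zero r b)
    have hid : i ≤ d := Nat.findGreatest_le d
    have higt : ∀ k, i < k → k ≤ d → 1 ≤ Dl r b k := by
      intro k hk hkd
      have h1 := Nat.findGreatest_is_greatest hk hkd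
      have h2 := hD k hkd
      have h3 : Dl r b k ≠ 0 := h1
      omega
    have hild : i < d := by
      rcases Nat.lt_or_ge i d with h | h
      · exact h
      · have : i = d := by omega
        rw [this] at hPi
        omega
    -- largest bottom vertex
    have hne : ∃ x, 1 ≤ b x := by
      by_contra hcon
      push Not at hcon
      have : ∀ j, cb b j = 0 := by
        intro j
        unfold cb
        rw [Finset.card_eq_zero, Finset.filter_eq_empty_iff]
        intro x _
        have := hcon x
        omega
      have h1 : Dl r b d ≤ 0 := by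
        unfold Dl
        apply Finset.sum_nonpos
        intro j _
        rw [this j]
        simp
      omega
    obtain ⟨x0, hx0⟩ := hne
    obtain ⟨x, _, hxmax⟩ := Finset.exists_max_image univ b ⟨x0, Finset.mem_univ _⟩
    have hx1 : 1 ≤ b x := hx0.trans (hxmax x0 (Finset.mem_univ _))
    have hcb0 : ∀ j, b x ≤ j → cb b j = 0 := by
      intro j hj
      unfold cb
      rw [Finset.card_eq_zero, Finset.filter_eq_empty_iff]
      intro y _
      have := hxmax y (Finset.mem_univ _)
      omega
    have hbig : ∀ n k, k + n = d → b x ≤ k → 2 ≤ Dl r b k := by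
      intro n
      induction n with
      | zero => intro k hk _; have : k = d := by omega
                rw [this]; exact hDd2
      | succ n ihn =>
        intro k hk hbk
        have h1 := ihn (k + 1) (by omega) (by omega)
        rw [Dl_succ, hcb0 k hbk] at h1
        have := hr1 k (by omega)
        push_cast at h1
        omega
    have hbig' : ∀ k, k ≤ d → b x ≤ k → 2 ≤ Dl r b k := fun k hk hbk => hbig (d - k) k (by omega) hbk
    set r' := Function.update r i (r i + 1) with hr'
    set b' := Function.update b x (b x - 1) with hb'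
    have hDl' : ∀ k, Dl r' b' k = Dl r b k - (if i < k then 1 else 0) - (if b x ≤ k then 1 else 0) := by
      intro k
      rw [hb', Dl_update_bot r' b x hx1, hr', Dl_update_top]
    have hr'i : r' i = r i + 1 := by rw [hr', Function.update_self]
    have hr'o : ∀ j, j ≠ i → r' j = r j := by
      intro j hj; rw [hr', Function.update_of_ne hj]
    have hcbi : r i + 1 ≤ cb b i := by
      have := higt (i + 1) (by omega) (by omega)
      rw [Dl_succ, hPi] at this
      omega
    have hreal := ih r' b' ?_ ?_ ?_ ?_ ?_ ?_
    · refine transfer (degF d r' b') (Sum.inl ⟨i, hild⟩) (Sum.inr x) (by simp) ?_ hreal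
        (degF d r b) ?_ ?_ ?_
      · simp only [degF, Sum.elim_inl, Sum.elim_inr]
        rw [hr'i, hb', Function.update_self]
        have := hb x
        have := hr1 i hild
        omega
      · simp only [degF, Sum.elim_inl]
        rw [hr'i]; omega
      · simp only [degF, Sum.elim_inr]
        rw [hb', Function.update_self]; omega
      · rintro (y | y) h1 h2
        · simp only [degF, Sum.elim_inl]
          rw [hr'o]
          intro h3; exact h1 (by rw [Sum.inl.injEq]; exact Fin.ext h3)
        · simp only [degF, Sum.elim_inr]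
          rw [hb', Function.update_of_ne]
          intro h3; exact h2 (by rw [h3])
    · intro y
      by_cases hy : y = x
      · rw [hy, hb', Function.update_self]; have := hb x; omega
      · rw [hb', Function.update_of_ne hy]; exact hb y
    · apply antitone_nat_of_succ_le
      intro j
      by_cases h1 : j = i
      · rw [h1, hr'i, hr'o _ (by omega)]
        have := hr (show i ≤ i + 1 by omega)
        omega
      · rw [hr'o j h1]
        by_cases h2 : j + 1 = i
        · rw [h2, hr'i]
          have h3 := hD j (by omega)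
          have h4 := hPi
          rw [← h2, Dl_succ] at h4
          have h5 := cb_anti b (show j ≤ i by omega)
          omega
        · rw [hr'o _ h2]
          exact hr (by omega)
    · intro j hj
      rw [hr'o j (by omega)]
      exact hr0 j hj
    · intro j hj
      by_cases h1 : j = i
      · rw [h1, hr'i]; omega
      · rw [hr'o j h1]; exact hr1 j hj
    · intro k hk
      rw [hDl']
      have h1 := hD k hk
      by_cases h2 : b x ≤ k
      · have := hbig' k hk h2
        rw [if_pos h2]
        split_ifs <;> omega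
      · rw [if_neg h2]
        by_cases h3 : i < k
        · have := higt k h3 hk
          rw [if_pos h3]; omega
        · rw [if_neg h3]; omega
    · rw [hDl', if_pos hild, if_pos (hb x), hDd]
      push_cast; ring

end Pool.Agent.Lib.GraphPart
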