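import Mathlib

/-!
Random sign sums, written as sums over subsets of `range d`.
-/

namespace Pool.Agent.Lib.GraphPart

open Finset

/-- The sign of the index `j` in the pattern `T`. -/
noncomputable def sg (T : Finset ℕ) (j : ℕ) : ℝ := if j ∈ T then 1 else -1

lemma sg_sq (T : Finset ℕ) (j : ℕ) : sg T j * sg T j = 1 := by
  unfold sg; split_ifs <;> norm_num

lemma sg_mono {T T' : Finset ℕ} (h : T ⊆ T') (j : ℕ) : sg T j ≤ sg T' j := by
  unfold sg
  by_cases h1 : j ∈ T
  · simp [h1, h h1]
  · by_cases h2 : j ∈ T'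
    · simp [h1, h2]
    · simp [h1, h2]

lemma sum_powerset_range_succ (d : ℕ) (F : Finset ℕ → ℝ) :
    ∑ T ∈ (range (d + 1)).powerset, F T =
      ∑ T ∈ (range d).powerset, F T + ∑ T ∈ (range d).powerset, F (insert d T) := by
  rw [Finset.range_add_one, Finset.sum_powerset_insert (by simp)]

lemma card_powerset_range (d : ℕ) : ∑ _T ∈ (range d).powerset, (1 : ℝ) = 2 ^ d := by
  simp

/-- Harris inequality on the discrete cube. -/
lemma harris (d : ℕ) : ∀ (F G : Finset ℕ → ℝ), Monotone F → Monotone G →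
    (∑ T ∈ (range d).powerset, F T) * (∑ T ∈ (range d).powerset, G T) ≤
      2 ^ d * ∑ T ∈ (range d).powerset, F T * G T := by
  induction d with
  | zero => intro F G _ _; simp
  | succ d ih =>
    intro F G hF hG
    rw [sum_powerset_range_succ, sum_powerset_range_succ, sum_powerset_range_succ]
    have hi : Monotone (fun T : Finset ℕ => insert d T) := fun A B h => Finset.insert_subset_insert d h
    have h0 := ih F G hF hG
    have h1 := ih (fun T => F (insert d T)) (fun T => G (insert d T)) (hF.comp hi) (hG.comp hi)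
    have hF' : ∑ T ∈ (range d).powerset, F T ≤ ∑ T ∈ (range d).powerset, F (insert d T) :=
      Finset.sum_le_sum fun T _ => hF (Finset.subset_insert d T)
    have hG' : ∑ T ∈ (range d).powerset, G T ≤ ∑ T ∈ (range d).powerset, G (insert d T) :=
      Finset.sum_le_sum fun T _ => hG (Finset.subset_insert d T)
    rw [pow_succ]
    nlinarith [mul_nonneg (sub_nonneg.2 hF') (sub_nonneg.2 hG')]

lemma sg_of_subset_range {d : ℕ} {T : Finset ℕ} (hT : T ∈ (range d).powerset) : sg T d = -1 := by
  unfold sg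
  rw [if_neg]
  intro h
  have := Finset.mem_powerset.1 hT h
  simp at this

lemma sg_insert_self (d : ℕ) (T : Finset ℕ) : sg (insert d T) d = 1 := by
  unfold sg; simp

lemma sg_insert_of_ne {d j : ℕ} (h : j ≠ d) (T : Finset ℕ) : sg (insert d T) j = sg T j := by
  unfold sg; simp [h]

/-- Signed sum of the `a j` with `i ≤ j < n`. -/
noncomputable def wk (a : ℕ → ℝ) (T : Finset ℕ) (i n : ℕ) : ℝ := ∑ j ∈ Ico i n, sg T j * a j

lemma wk_succ (a : ℕ → ℝ) (T : Finset ℕ) {i n : ℕ} (h : i ≤ n) :
    wk a T i (n + 1) = wk a T i n + sg T n * a n := by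
  unfold wk; rw [Finset.sum_Ico_succ_top h]

lemma wk_insert (a : ℕ → ℝ) (T : Finset ℕ) (i n : ℕ) : wk a (insert n T) i n = wk a T i n := by
  unfold wk
  refine Finset.sum_congr rfl fun j hj => ?_
  rw [sg_insert_of_ne]
  have := (Finset.mem_Ico.1 hj).2
  omega

/-- Persistence: the signed walk started at `x` which successively adds
`± a (n-1), ..., ± a 0` stays positive with probability at least `x / (2 L)`. -/
lemma persist_aux (a : ℕ → ℝ) (L : ℝ) (hL : 0 < L) :
    ∀ (n : ℕ) (x : ℝ), 0 < x → ∑ j ∈ range n, a j ^ 2 ≤ L ^ 2 →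
      2 ^ n * (x * (3 * L ^ 2 - x ^ 2 - 3 * ∑ j ∈ range n, a j ^ 2)) ≤
        2 * L ^ 3 * ∑ T ∈ (range n).powerset,
          (if ∀ i, i < n → 0 < x + wk a T i n then (1 : ℝ) else 0) := by
  intro n
  induction n with
  | zero =>
    intro x hx _
    simp
    nlinarith [mul_nonneg (sq_nonneg (x - L)) (by linarith : (0:ℝ) ≤ x + 2 * L)]
  | succ n ih =>
    intro x hx hv
    rw [sum_powerset_range_succ]
    rw [Finset.sum_range_succ] at hv ⊢
    set v := ∑ j ∈ range n, a j ^ 2 with hvdef
    have hv0 : 0 ≤ v := Finset.sum_nonneg fun _ _ => sq_nonneg _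
    have hvn : v ≤ L ^ 2 := by nlinarith [sq_nonneg (a n)]
    -- general branch
    have branch : ∀ (y : ℝ), (y = x + a n ∨ y = x - a n) →
        2 ^ n * (y * (3 * L ^ 2 - y ^ 2 - 3 * v)) ≤
          2 * L ^ 3 * ∑ T ∈ (range n).powerset,
            (if 0 < y ∧ ∀ i, i < n → 0 < y + wk a T i n then (1 : ℝ) else 0) := by
      intro y hy
      by_cases hy0 : 0 < y
      · have := ih y hy0 hvn
        simpa [hy0] using this
      · have hyle : y ≤ 0 := not_lt.1 hy0
        have hsq : y ^ 2 ≤ a n ^ 2 := by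
          rcases hy with rfl | rfl
          · nlinarith
          · nlinarith
        have h1 : 0 ≤ 3 * L ^ 2 - y ^ 2 - 3 * v := by nlinarith [sq_nonneg (a n)]
        have h2 : (2:ℝ) ^ n * (y * (3 * L ^ 2 - y ^ 2 - 3 * v)) ≤ 0 :=
          mul_nonpos_of_nonneg_of_nonpos (by positivity) (mul_nonpos_of_nonpos_of_nonneg hyle h1)
        refine h2.trans ?_
        apply mul_nonneg (by positivity)
        exact Finset.sum_nonneg fun _ _ => by split_ifs <;> norm_num
    have e1 : ∑ T ∈ (range n).powerset,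
        (if ∀ i, i < n + 1 → 0 < x + wk a T i (n + 1) then (1 : ℝ) else 0) =
        ∑ T ∈ (range n).powerset,
        (if 0 < (x - a n) ∧ ∀ i, i < n → 0 < (x - a n) + wk a T i n then (1 : ℝ) else 0) := by
      refine Finset.sum_congr rfl fun T hT => ?_
      congr 1
      rw [eq_iff_iff]
      constructor
      · intro h
        refine ⟨?_, fun i hi => ?_⟩
        · have := h n (by omega)
          rw [wk_succ a T le_rfl, sg_of_subset_range hT] at this
          simp [wk] at this
          linarith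
        · have := h i (by omega)
          rw [wk_succ a T (by omega), sg_of_subset_range hT] at this
          linarith
      · rintro ⟨h0, h⟩ i hi
        rw [wk_succ a T (by omega), sg_of_subset_range hT]
        rcases Nat.lt_or_ge i n with h3 | h3
        · have := h i h3
          linarith
        · have : i = n := by omega
          subst this
          simp [wk]
          linarith
    have e2 : ∑ T ∈ (range n).powerset,
        (if ∀ i, i < n + 1 → 0 < x + wk a (insert n T) i (n + 1) then (1 : ℝ) else 0) =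
        ∑ T ∈ (range n).powerset,
        (if 0 < (x + a n) ∧ ∀ i, i < n → 0 < (x + a n) + wk a T i n then (1 : ℝ) else 0) := by
      refine Finset.sum_congr rfl fun T hT => ?_
      congr 1
      rw [eq_iff_iff]
      constructor
      · intro h
        refine ⟨?_, fun i hi => ?_⟩
        · have := h n (by omega)
          rw [wk_succ a _ le_rfl, sg_insert_self] at this
          simp [wk] at this
          linarith
        · have := h i (by omega)
          rw [wk_succ a _ (by omega), sg_insert_self, wk_insert] at this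
          linarith
      · rintro ⟨h0, h⟩ i hi
        rw [wk_succ a _ (by omega), sg_insert_self, wk_insert]
        rcases Nat.lt_or_ge i n with h3 | h3
        · have := h i h3
          linarith
        · have : i = n := by omega
          subst this
          simp [wk]
          linarith
    rw [e1, e2]
    have b1 := branch (x - a n) (Or.inr rfl)
    have b2 := branch (x + a n) (Or.inl rfl)
    have hid : (2:ℝ) ^ (n + 1) * (x * (3 * L ^ 2 - x ^ 2 - 3 * (v + a n ^ 2))) =
        2 ^ n * ((x - a n) * (3 * L ^ 2 - (x - a n) ^ 2 - 3 * v)) +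
        2 ^ n * ((x + a n) * (3 * L ^ 2 - (x + a n) ^ 2 - 3 * v)) := by
      rw [pow_succ]; ring
    rw [hid]
    linarith

lemma persist (a : ℕ → ℝ) {L : ℝ} (hL : 0 < L) (n : ℕ) {x : ℝ} (hx : 0 < x)
    (hv : ∑ j ∈ range n, a j ^ 2 ≤ L ^ 2 / 2) (hxL : x ^ 2 ≤ L ^ 2 / 2) :
    2 ^ n * (x / (2 * L)) ≤ ∑ T ∈ (range n).powerset,
          (if ∀ i, i < n → 0 < x + wk a T i n then (1 : ℝ) else 0) := by
  have h := persist_aux a L hL n x hx (by nlinarith [sq_nonneg L])
  have h2 : (2:ℝ) ^ n * (x * L ^ 2) ≤ 2 ^ n * (x * (3 * L ^ 2 - x ^ 2 - 3 * ∑ j ∈ range n, a j ^ 2)) := by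
    gcongr
    nlinarith
  set S := ∑ T ∈ (range n).powerset,
          (if ∀ i, i < n → 0 < x + wk a T i n then (1 : ℝ) else 0) with hS
  have h3 : (2:ℝ) ^ n * (x * L ^ 2) ≤ 2 * L ^ 3 * S := h2.trans h
  have h4 : (2:ℝ) ^ n * (x / (2 * L)) = (2 ^ n * (x * L ^ 2)) / (2 * L ^ 3) := by
    field_simp
  rw [h4, div_le_iff₀ (by positivity)]
  linarith

/-- Kolmogorov's maximal inequality for signed sums. -/
lemma maximal (a : ℕ → ℝ) {t : ℝ} (ht : 0 < t) :
    ∀ (n : ℕ) (x : ℝ),
      t ^ 2 * ∑ T ∈ (range n).powerset,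
          (if ∃ i, i < n ∧ t ≤ |x + wk a T i n| then (1 : ℝ) else 0) ≤
      2 ^ n * (x ^ 2 + ∑ j ∈ range n, a j ^ 2) := by
  intro n
  induction n with
  | zero => intro x; simp; positivity
  | succ n ih =>
    intro x
    rw [sum_powerset_range_succ, Finset.sum_range_succ]
    set v := ∑ j ∈ range n, a j ^ 2 with hvdef
    have hv0 : 0 ≤ v := Finset.sum_nonneg fun _ _ => sq_nonneg _
    have branch : ∀ (y : ℝ),
          t ^ 2 * ∑ T ∈ (range n).powerset,
            (if t ≤ |y| ∨ ∃ i, i < n ∧ t ≤ |y + wk a T i n| then (1 : ℝ) else 0) ≤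
          2 ^ n * (y ^ 2 + v) := by
      intro y
      by_cases hy0 : t ≤ |y|
      · simp only [hy0, true_or, if_true]
        rw [card_powerset_range]
        have : t ^ 2 ≤ y ^ 2 := by
          rw [← sq_abs y]
          gcongr
        have h2 : (0:ℝ) < 2 ^ n := by positivity
        nlinarith
      · have := ih y
        simpa [hy0] using this
    have e1 : ∑ T ∈ (range n).powerset,
        (if ∃ i, i < n + 1 ∧ t ≤ |x + wk a T i (n + 1)| then (1 : ℝ) else 0) =
        ∑ T ∈ (range n).powerset,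
        (if t ≤ |x - a n| ∨ ∃ i, i < n ∧ t ≤ |(x - a n) + wk a T i n| then (1 : ℝ) else 0) := by
      refine Finset.sum_congr rfl fun T hT => ?_
      congr 1
      rw [eq_iff_iff]
      have key : ∀ i, i ≤ n → x + wk a T i (n + 1) = (x - a n) + wk a T i n := by
        intro i hi
        rw [wk_succ a T hi, sg_of_subset_range hT]; ring
      constructor
      · rintro ⟨i, hi, h⟩
        rw [key i (by omega)] at h
        rcases Nat.lt_or_ge i n with h3 | h3
        · exact Or.inr ⟨i, h3, h⟩
        · have : i = n := by omega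
          subst this
          simp [wk] at h
          exact Or.inl h
      · rintro (h | ⟨i, hi, h⟩)
        · refine ⟨n, by omega, ?_⟩
          rw [key n le_rfl]
          simpa [wk] using h
        · refine ⟨i, by omega, ?_⟩
          rw [key i (by omega)]; exact h
    have e2 : ∑ T ∈ (range n).powerset,
        (if ∃ i, i < n + 1 ∧ t ≤ |x + wk a (insert n T) i (n + 1)| then (1 : ℝ) else 0) =
        ∑ T ∈ (range n).powerset,
        (if t ≤ |x + a n| ∨ ∃ i, i < n ∧ t ≤ |(x + a n) + wk a T i n| then (1 : ℝ) else 0) := by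
      refine Finset.sum_congr rfl fun T hT => ?_
      congr 1
      rw [eq_iff_iff]
      have key : ∀ i, i ≤ n → x + wk a (insert n T) i (n + 1) = (x + a n) + wk a T i n := by
        intro i hi
        rw [wk_succ a _ hi, sg_insert_self, wk_insert]; ring
      constructor
      · rintro ⟨i, hi, h⟩
        rw [key i (by omega)] at h
        rcases Nat.lt_or_ge i n with h3 | h3
        · exact Or.inr ⟨i, h3, h⟩
        · have : i = n := by omega
          subst this
          simp [wk] at h
          exact Or.inl h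
      · rintro (h | ⟨i, hi, h⟩)
        · refine ⟨n, by omega, ?_⟩
          rw [key n le_rfl]
          simpa [wk] using h
        · refine ⟨i, by omega, ?_⟩
          rw [key i (by omega)]; exact h
    rw [e1, e2]
    have b1 := branch (x - a n)
    have b2 := branch (x + a n)
    have hid : (2:ℝ) ^ (n + 1) * (x ^ 2 + (v + a n ^ 2)) =
        2 ^ n * ((x - a n) ^ 2 + v) + 2 ^ n * ((x + a n) ^ 2 + v) := by
      rw [pow_succ]; ring
    rw [hid]
    linarith

/-- second moment -/
lemma second_moment (a : ℕ → ℝ) (n : ℕ) :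
    ∑ T ∈ (range n).powerset, (wk a T 0 n) ^ 2 = 2 ^ n * ∑ j ∈ range n, a j ^ 2 := by
  induction n with
  | zero => simp [wk]
  | succ n ih =>
    rw [sum_powerset_range_succ, Finset.sum_range_succ]
    have e1 : ∑ T ∈ (range n).powerset, (wk a T 0 (n + 1)) ^ 2 =
        ∑ T ∈ (range n).powerset, ((wk a T 0 n) ^ 2 - 2 * a n * wk a T 0 n + a n ^ 2) := by
      refine Finset.sum_congr rfl fun T hT => ?_
      rw [wk_succ a T (by omega), sg_of_subset_range hT]; ring
    have e2 : ∑ T ∈ (range n).powerset, (wk a (insert n T) 0 (n + 1)) ^ 2 =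
        ∑ T ∈ (range n).powerset, ((wk a T 0 n) ^ 2 + 2 * a n * wk a T 0 n + a n ^ 2) := by
      refine Finset.sum_congr rfl fun T hT => ?_
      rw [wk_succ a _ (by omega), sg_insert_self, wk_insert]; ring
    rw [e1, e2, ← Finset.sum_add_distrib]
    have e3 : ∑ T ∈ (range n).powerset, ((wk a T 0 n ^ 2 - 2 * a n * wk a T 0 n + a n ^ 2) +
        (wk a T 0 n ^ 2 + 2 * a n * wk a T 0 n + a n ^ 2)) =
        2 * ∑ T ∈ (range n).powerset, (wk a T 0 n) ^ 2 + 2 * a n ^ 2 * ∑ _T ∈ (range n).powerset, (1:ℝ) := by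
      rw [Finset.mul_sum, Finset.mul_sum, ← Finset.sum_add_distrib]
      refine Finset.sum_congr rfl fun T _ => by ring
    rw [e3, ih, card_powerset_range, pow_succ]; ring

lemma fourth_moment (a : ℕ → ℝ) (n : ℕ) :
    ∑ T ∈ (range n).powerset, (wk a T 0 n) ^ 4 ≤ 2 ^ n * (3 * (∑ j ∈ range n, a j ^ 2) ^ 2) := by
  induction n with
  | zero => simp [wk]
  | succ n ih =>
    rw [sum_powerset_range_succ, Finset.sum_range_succ]
    have e1 : ∑ T ∈ (range n).powerset, (wk a T 0 (n + 1)) ^ 4 =
        ∑ T ∈ (range n).powerset, (wk a T 0 n - a n) ^ 4 := by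
      refine Finset.sum_congr rfl fun T hT => ?_
      rw [wk_succ a T (by omega), sg_of_subset_range hT]; ring
    have e2 : ∑ T ∈ (range n).powerset, (wk a (insert n T) 0 (n + 1)) ^ 4 =
        ∑ T ∈ (range n).powerset, (wk a T 0 n + a n) ^ 4 := by
      refine Finset.sum_congr rfl fun T hT => ?_
      rw [wk_succ a _ (by omega), sg_insert_self, wk_insert]; ring
    rw [e1, e2, ← Finset.sum_add_distrib]
    have e3 : ∑ T ∈ (range n).powerset, ((wk a T 0 n - a n) ^ 4 + (wk a T 0 n + a n) ^ 4) =
        2 * ∑ T ∈ (range n).powerset, (wk a T 0 n) ^ 4 +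
        12 * a n ^ 2 * ∑ T ∈ (range n).powerset, (wk a T 0 n) ^ 2 +
        2 * a n ^ 4 * ∑ _T ∈ (range n).powerset, (1:ℝ) := by
      rw [Finset.mul_sum, Finset.mul_sum, Finset.mul_sum, ← Finset.sum_add_distrib,
        ← Finset.sum_add_distrib]
      refine Finset.sum_congr rfl fun T _ => by ring
    rw [e3, second_moment, card_powerset_range, pow_succ (2:ℝ) n]
    set v := ∑ j ∈ range n, a j ^ 2 with hvdef
    have h2 : (0:ℝ) < 2 ^ n := by positivity
    have h3 : 0 ≤ (2:ℝ) ^ n * a n ^ 4 := by positivity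
    nlinarith

/-- complementing the pattern flips all signs -/
lemma sum_compl (n : ℕ) (F : Finset ℕ → ℝ) :
    ∑ T ∈ (range n).powerset, F (range n \ T) = ∑ T ∈ (range n).powerset, F T := by
  refine Finset.sum_nbij' (fun T => range n \ T) (fun T => range n \ T) ?_ ?_ ?_ ?_ ?_
  · intro T _; simp
  · intro T _; simp
  · intro T hT
    simp only [Finset.mem_powerset] at hT
    simp [Finset.inter_eq_right.2 hT]
  · intro T hT
    simp only [Finset.mem_powerset] at hT
    simp [Finset.inter_eq_right.2 hT]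
  · intro T _; rfl

lemma wk_compl (a : ℕ → ℝ) (T : Finset ℕ) (i n : ℕ) : wk a (range n \ T) i n = - wk a T i n := by
  unfold wk
  rw [← Finset.sum_neg_distrib]
  refine Finset.sum_congr rfl fun j hj => ?_
  have hj' := (Finset.mem_Ico.1 hj).2
  unfold sg
  by_cases h : j ∈ T
  · simp [h]
  · simp [h, hj']

/-- Paley-Zygmund for signed sums: one twenty-fourth of the sign patterns give a sum at
least the standard deviation divided by the square root of two. -/
lemma paley_zygmund (a : ℕ → ℝ) (n : ℕ) {θ : ℝ} (hθ : 0 < θ)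
    (h : 2 * θ ^ 2 ≤ ∑ j ∈ range n, a j ^ 2) :
    2 ^ n ≤ 24 * ∑ T ∈ (range n).powerset, (if θ ≤ wk a T 0 n then (1:ℝ) else 0) := by
  set v := ∑ j ∈ range n, a j ^ 2 with hv
  have hvpos : 0 < v := lt_of_lt_of_le (by positivity) h
  have h2 : (0:ℝ) < 2 ^ n := by positivity
  -- pointwise
  have hpt : ∀ T ∈ (range n).powerset, 12 * v * (wk a T 0 n) ^ 2 ≤
      6 * v ^ 2 + (wk a T 0 n) ^ 4 + 36 * v ^ 2 *
        ((if θ ≤ wk a T 0 n then (1:ℝ) else 0) + (if θ ≤ - wk a T 0 n then (1:ℝ) else 0)) := by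
    intro T _
    set X := wk a T 0 n with hX
    by_cases h1 : θ ≤ X
    · rw [if_pos h1]
      have : (0:ℝ) ≤ (if θ ≤ -X then (1:ℝ) else 0) := by split_ifs <;> norm_num
      nlinarith [sq_nonneg (X ^ 2 - 6 * v), sq_nonneg v, mul_nonneg (sq_nonneg v) this]
    · by_cases h3 : θ ≤ -X
      · rw [if_pos h3, if_neg h1]
        nlinarith [sq_nonneg (X ^ 2 - 6 * v), sq_nonneg v]
      · rw [if_neg h1, if_neg h3]
        have hX2 : X ^ 2 ≤ θ ^ 2 := by
          apply sq_le_sq'
          · linarith
          · linarith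
        nlinarith [sq_nonneg (X ^ 2)]
  have hsum := Finset.sum_le_sum hpt
  rw [← Finset.mul_sum, second_moment, Finset.sum_add_distrib, Finset.sum_add_distrib] at hsum
  have hms : ∑ T ∈ (range n).powerset, 36 * v ^ 2 *
        ((if θ ≤ wk a T 0 n then (1:ℝ) else 0) + (if θ ≤ - wk a T 0 n then (1:ℝ) else 0)) =
      36 * v ^ 2 * (∑ T ∈ (range n).powerset, (if θ ≤ wk a T 0 n then (1:ℝ) else 0) +
        ∑ T ∈ (range n).powerset, (if θ ≤ - wk a T 0 n then (1:ℝ) else 0)) := by
    rw [← Finset.sum_add_distrib, Finset.mul_sum]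
  rw [hms] at hsum
  have hsym : ∑ T ∈ (range n).powerset, (if θ ≤ - wk a T 0 n then (1:ℝ) else 0) =
      ∑ T ∈ (range n).powerset, (if θ ≤ wk a T 0 n then (1:ℝ) else 0) := by
    rw [← sum_compl n (fun T => if θ ≤ wk a T 0 n then (1:ℝ) else 0)]
    refine Finset.sum_congr rfl fun T _ => ?_
    simp only [wk_compl]
  rw [hsym] at hsum
  have hconst : ∑ _T ∈ (range n).powerset, 6 * v ^ 2 = 2 ^ n * (6 * v ^ 2) := by simp
  rw [hconst] at hsum
  have h4 := fourth_moment a n
  rw [← hv] at h4
  rw [← hv] at hsum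
  set P := ∑ T ∈ (range n).powerset, (if θ ≤ wk a T 0 n then (1:ℝ) else 0) with hP
  have : 12 * v * (2 ^ n * v) ≤ 2 ^ n * (6 * v ^ 2) + 2 ^ n * (3 * v ^ 2) + 36 * v ^ 2 * (P + P) := by
    linarith
  have hv2 : 0 < v ^ 2 := by positivity
  have h5 : v ^ 2 * (3 * 2 ^ n) ≤ v ^ 2 * (72 * P) := by nlinarith
  have h6 := le_of_mul_le_mul_left h5 hv2
  linarith

end Pool.Agent.Lib.GraphPart
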