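import Pool.Agent.Lib.GraphPart.Decay

/-!
Codes whose low part has small weight are rare.
-/

namespace Pool.Agent.Lib.GraphPart

open Finset

lemma Cd_ext {c c' : Cd} (h1 : c.1 = c'.1) (hm : ∀ j, mm c j = mm c' j) (hu : ∀ j, uu c j = uu c' j) : c = c' := by
  obtain ⟨d, f⟩ := c
  obtain ⟨d', f'⟩ := c'
  simp only at h1
  subst h1
  congr 1
  funext i
  have h2 := hm i
  have h3 := hu i
  unfold mm at h2
  unfold uu at h3
  simp only [i.2, dif_pos] at h2 h3
  exact Prod.ext h2 h3

/-- add `τ` to the multiplicities -/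
def addm (c : Cd) (τ : ℕ → ℕ) : Cd := ⟨c.1, fun i => ((c.2 i).1 + τ i, (c.2 i).2)⟩

lemma mm_addm (c : Cd) (τ : ℕ → ℕ) (j : ℕ) : mm (addm c τ) j = if j < c.1 then mm c j + τ j else 0 := by
  unfold mm addm
  by_cases h : j < c.1
  · simp [h]
  · simp [h]

lemma uu_addm (c : Cd) (τ : ℕ → ℕ) (j : ℕ) : uu (addm c τ) j = uu c j := by
  unfold uu addm
  by_cases h : j < c.1
  · simp [h]
  · simp [h]

lemma addm_mem {N : ℕ} {c : Cd} (hc : c ∈ allCodes N) (τ : ℕ → ℕ) :
    addm c τ ∈ allCodes (N + ∑ j ∈ range c.1, (j + 1) * τ j) := by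
  rw [mem_allCodes'] at hc ⊢
  have h1 : (addm c τ).1 = c.1 := rfl
  rw [h1, ← hc, add_assoc, ← Finset.sum_add_distrib]
  congr 1
  refine Finset.sum_congr rfl fun j hj => ?_
  rw [mm_addm, uu_addm, if_pos (Finset.mem_range.1 hj)]
  ring

open Classical in
lemma small_group {N K a h0 T y D : ℕ} (hy : 1 ≤ y) (hJ : a + h0 ≤ K)
    (hD : h0 * (T * (y + K)) ≤ D) (hD2 : 4 * D ^ 2 ≤ N) (hN : 0 < N) :
    ((allCodes N).filter fun c => K ≤ c.1 ∧ ∀ j, a ≤ j → j < a + h0 → (j + 1) * mm c j < y).card * T ^ h0 ≤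
      (D + 1) * (28 * pp N) := by
  set Z := (allCodes N).filter fun c => K ≤ c.1 ∧ ∀ j, a ≤ j → j < a + h0 → (j + 1) * mm c j < y with hZ
  set ms : ℕ → ℕ := fun j => (y - 1) / (j + 1) + 1 with hms
  set tt : (Fin h0 → ℕ) → ℕ → ℕ := fun f j => if h : a ≤ j ∧ j < a + h0 then f ⟨j - a, by omega⟩ * ms j else 0 with htt
  set FF : Finset (Fin h0 → ℕ) := Fintype.piFinset fun _ => range T with hFF
  have hms1 : ∀ j, (j + 1) * ms j ≤ y + j := by
    intro j
    simp only [hms]
    have := Nat.div_mul_le_self (y - 1) (j + 1)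
    calc (j + 1) * ((y - 1) / (j + 1) + 1) = (y - 1) / (j + 1) * (j + 1) + (j + 1) := by ring
      _ ≤ y + j := by omega
  have hlt : ∀ c ∈ Z, ∀ j, a ≤ j → j < a + h0 → mm c j < ms j := by
    intro c hc j h1 h2
    have h3 := (Finset.mem_filter.1 hc).2.2 j h1 h2
    simp only [hms]
    have : mm c j ≤ (y - 1) / (j + 1) := by
      rw [Nat.le_div_iff_mul_le (by omega)]
      have : mm c j * (j + 1) = (j + 1) * mm c j := Nat.mul_comm _ _
      omega
    omega
  -- added weight
  have hadd : ∀ c ∈ Z, ∀ f ∈ FF, ∑ j ∈ range c.1, (j + 1) * tt f j ≤ D := by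
    intro c hc f hf
    have hK := (Finset.mem_filter.1 hc).2.1
    have e1 : ∑ j ∈ range c.1, (j + 1) * tt f j = ∑ j ∈ Ico a (a + h0), (j + 1) * tt f j := by
      symm
      apply Finset.sum_subset
      · intro j hj
        rw [Finset.mem_Ico] at hj
        rw [Finset.mem_range]; omega
      · intro j _ hj
        rw [Finset.mem_Ico] at hj
        simp only [htt]
        rw [dif_neg hj, Nat.mul_zero]
    rw [e1]
    calc ∑ j ∈ Ico a (a + h0), (j + 1) * tt f j ≤ ∑ _j ∈ Ico a (a + h0), T * (y + K) := by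
          refine Finset.sum_le_sum fun j hj => ?_
          have hj' := Finset.mem_Ico.1 hj
          simp only [htt]
          rw [dif_pos hj']
          have h1 : f ⟨j - a, by omega⟩ < T := by
            have := (Fintype.mem_piFinset.1 hf) ⟨j - a, by omega⟩
            exact Finset.mem_range.1 this
          calc (j + 1) * (f ⟨j - a, by omega⟩ * ms j) = f ⟨j - a, by omega⟩ * ((j + 1) * ms j) := by ring
            _ ≤ T * (y + K) := Nat.mul_le_mul h1.le ((hms1 j).trans (by omega))
      _ = h0 * (T * (y + K)) := by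
          rw [Finset.sum_const, Nat.card_Ico, smul_eq_mul, Nat.add_sub_cancel_left]
      _ ≤ D := hD
  have hcardFF : FF.card = T ^ h0 := by
    rw [hFF, Fintype.card_piFinset]
    simp
  rw [← hcardFF, ← Finset.card_product]
  have hinj : Set.InjOn (fun p : Cd × (Fin h0 → ℕ) => addm p.1 (tt p.2)) (Z ×ˢ FF : Finset (Cd × (Fin h0 → ℕ))) := by
    intro p hp p' hp' heq
    rw [Finset.mem_coe, Finset.mem_product] at hp hp'
    simp only at heq
    have hK := (Finset.mem_filter.1 hp.1).2.1
    have h1' := congrArg (fun c : Cd => c.1) heq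
    have h1 : p.1.1 = p'.1.1 := h1'
    have hm : ∀ j, mm (addm p.1 (tt p.2)) j = mm (addm p'.1 (tt p'.2)) j := fun j => by rw [heq]
    have hu : ∀ j, uu (addm p.1 (tt p.2)) j = uu (addm p'.1 (tt p'.2)) j := fun j => by rw [heq]
    have key : ∀ j (h : a ≤ j ∧ j < a + h0), mm p.1 j = mm p'.1 j ∧ p.2 ⟨j - a, by omega⟩ = p'.2 ⟨j - a, by omega⟩ := by
      intro j h
      have h2 := hm j
      rw [mm_addm, mm_addm, if_pos (by omega), if_pos (by omega)] at h2
      simp only [htt] at h2
      rw [dif_pos h, dif_pos h] at h2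
      have h3 := hlt p.1 hp.1 j h.1 h.2
      have h4 := hlt p'.1 hp'.1 j h.1 h.2
      have h5 : (mm p.1 j + p.2 ⟨j - a, by omega⟩ * ms j) % ms j = (mm p'.1 j + p'.2 ⟨j - a, by omega⟩ * ms j) % ms j := by
        rw [h2]
      rw [Nat.add_mul_mod_self_right, Nat.add_mul_mod_self_right, Nat.mod_eq_of_lt h3, Nat.mod_eq_of_lt h4] at h5
      refine ⟨h5, ?_⟩
      rw [h5] at h2
      have h6 : p.2 ⟨j - a, by omega⟩ * ms j = p'.2 ⟨j - a, by omega⟩ * ms j := by omega
      exact Nat.eq_of_mul_eq_mul_right (by omega) h6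
    have hmm : ∀ j, mm p.1 j = mm p'.1 j := by
      intro j
      by_cases h : a ≤ j ∧ j < a + h0
      · exact (key j h).1
      · by_cases hj : j < p.1.1
        · have h2 := hm j
          rw [mm_addm, mm_addm, if_pos hj, if_pos (by omega)] at h2
          simp only [htt] at h2
          rw [dif_neg h, dif_neg h] at h2
          omega
        · unfold mm
          rw [dif_neg hj, dif_neg (by omega)]
    have huu : ∀ j, uu p.1 j = uu p'.1 j := by
      intro j
      have h2 := hu j
      rwa [uu_addm, uu_addm] at h2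
    have hc : p.1 = p'.1 := Cd_ext h1 hmm huu
    have hf : p.2 = p'.2 := by
      funext i
      have := (key (a + i) ⟨by omega, by have := i.2; omega⟩).2
      have e : (⟨a + i - a, by omega⟩ : Fin h0) = i := by ext; simp
      rw [e] at this
      exact this
    exact Prod.ext hc hf
  have hmaps : ∀ p ∈ (Z ×ˢ FF : Finset (Cd × (Fin h0 → ℕ))), addm p.1 (tt p.2) ∈
      (range (D + 1)).biUnion fun b => allCodes (N + b) := by
    intro p hp
    rw [Finset.mem_product] at hp
    rw [Finset.mem_biUnion]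
    have h1 := hadd p.1 hp.1 p.2 hp.2
    exact ⟨_, Finset.mem_range.2 (by omega), addm_mem (Finset.mem_filter.1 hp.1).1 (tt p.2)⟩
  have h1 := Finset.card_le_card_of_injOn _ hmaps hinj
  refine h1.trans (Finset.card_biUnion_le.trans ?_)
  have hrat : pp (N + D) ≤ 28 * pp N := by
    have := ratio_lower (N + D) D (by omega) (by omega)
    rwa [Nat.add_sub_cancel] at this
  calc ∑ b ∈ range (D + 1), (allCodes (N + b)).card ≤ ∑ _b ∈ range (D + 1), 28 * pp N := by
        refine Finset.sum_le_sum fun b hb => ?_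
        rw [card_allCodes]
        have := Finset.mem_range.1 hb
        exact (pp_mono (by omega)).trans hrat
    _ = _ := by rw [Finset.sum_const, Finset.card_range, smul_eq_mul]

open Classical in
/-- the low part has large weight -/
lemma small_mass {N K h0 T y D : ℕ} (hy : 1 ≤ y)
    (hD : h0 * (T * (y + K)) ≤ D) (hD2 : 4 * D ^ 2 ≤ N) (hN : 0 < N) :
    ((allCodes N).filter fun c => K ≤ c.1 ∧ mass (wt1 K) (lowp K c) < (K / h0) * y).card * T ^ h0 ≤
      K * ((D + 1) * (28 * pp N)) := by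
  have hsub : ((allCodes N).filter fun c => K ≤ c.1 ∧ mass (wt1 K) (lowp K c) < (K / h0) * y) ⊆
      (range (K / h0)).biUnion fun t => (allCodes N).filter fun c => K ≤ c.1 ∧
        ∀ j, t * h0 ≤ j → j < t * h0 + h0 → (j + 1) * mm c j < y := by
    intro c hc
    rw [Finset.mem_filter] at hc
    obtain ⟨hc1, hc2, hc3⟩ := hc
    by_contra hcon
    rw [Finset.mem_biUnion] at hcon
    push Not at hcon
    have h1 : ∀ t ∈ range (K / h0), y ≤ ∑ j ∈ Ico (t * h0) ((t + 1) * h0), (j + 1) * (mm c j + uu c j) := by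
      intro t ht
      have h2 := hcon t ht
      rw [Finset.mem_filter] at h2
      push Not at h2
      obtain ⟨j, hj1, hj2, hj3⟩ := h2 hc1 hc2
      have hj : j ∈ Ico (t * h0) ((t + 1) * h0) := by
        rw [Finset.mem_Ico, Nat.add_mul, Nat.one_mul]; exact ⟨hj1, hj2⟩
      calc y ≤ (j + 1) * mm c j := hj3
        _ ≤ (j + 1) * (mm c j + uu c j) := Nat.mul_le_mul_left _ (by omega)
        _ ≤ _ := Finset.single_le_sum (f := fun j => (j + 1) * (mm c j + uu c j)) (fun _ _ => Nat.zero_le _) hj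
    have h2 : ∀ n, ∑ t ∈ range n, ∑ j ∈ Ico (t * h0) ((t + 1) * h0), (j + 1) * (mm c j + uu c j) =
        ∑ j ∈ range (n * h0), (j + 1) * (mm c j + uu c j) := by
      intro n
      induction n with
      | zero => simp
      | succ n ih =>
        rw [Finset.sum_range_succ, ih, Finset.range_eq_Ico, Finset.sum_Ico_consecutive _ (Nat.zero_le _)
          (Nat.mul_le_mul_right _ (by omega)), Finset.range_eq_Ico]
    have h3 : (K / h0) * y ≤ mass (wt1 K) (lowp K c) := by
      rw [mass_lowp]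
      calc (K / h0) * y = ∑ _t ∈ range (K / h0), y := by rw [Finset.sum_const, Finset.card_range, smul_eq_mul]
        _ ≤ ∑ t ∈ range (K / h0), ∑ j ∈ Ico (t * h0) ((t + 1) * h0), (j + 1) * (mm c j + uu c j) :=
            Finset.sum_le_sum h1
        _ = ∑ j ∈ range ((K / h0) * h0), (j + 1) * (mm c j + uu c j) := h2 _
        _ ≤ _ := Finset.sum_le_sum_of_subset (Finset.range_mono (Nat.div_mul_le_self _ _))
    omega
  calc _ ≤ (∑ t ∈ range (K / h0), ((allCodes N).filter fun c => K ≤ c.1 ∧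
        ∀ j, t * h0 ≤ j → j < t * h0 + h0 → (j + 1) * mm c j < y).card) * T ^ h0 :=
        Nat.mul_le_mul_right _ ((Finset.card_le_card hsub).trans Finset.card_biUnion_le)
    _ ≤ ∑ _t ∈ range (K / h0), (D + 1) * (28 * pp N) := by
        rw [Finset.sum_mul]
        refine Finset.sum_le_sum fun t ht => ?_
        refine small_group hy ?_ hD hD2 hN
        have := Finset.mem_range.1 ht
        calc t * h0 + h0 = (t + 1) * h0 := by ring
          _ ≤ (K / h0) * h0 := Nat.mul_le_mul_right _ (by omega)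
          _ ≤ K := Nat.div_mul_le_self _ _
    _ ≤ _ := by
        rw [Finset.sum_const, Finset.card_range, smul_eq_mul]
        exact Nat.mul_le_mul_right _ (Nat.div_le_self _ _)

end Pool.Agent.Lib.GraphPart
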