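import Pool.Agent.Lib.GraphPart.Flat
import Pool.Agent.Lib.GraphPart.Final

/-!
Transfer of counting estimates to codes.
-/

namespace Pool.Agent.Lib.GraphPart

open Finset

/-- weights of the low part -/
def wt1 (K : ℕ) : Fin K → ℕ := fun i => (i : ℕ) + 1

lemma WT1 {K : ℕ} (hK : 0 < K) : WT (wt1 K) K where
  pos := fun i => by unfold wt1; omega
  le := fun i => by unfold wt1; have := i.2; omega
  one := ⟨⟨0, hK⟩, rfl⟩

/-- the low part of a code -/
def lowp (K : ℕ) (c : Cd) : Fin K → ℕ × ℕ := fun i => (mm c i, uu c i)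

/-- replace the low part -/
def replc (K : ℕ) (c : Cd) (x : Fin K → ℕ × ℕ) : Cd := ⟨c.1, fun i => if h : (i : ℕ) < K then x ⟨i, h⟩ else c.2 i⟩

lemma mm_replc {K : ℕ} {c : Cd} (hK : K ≤ c.1) (x : Fin K → ℕ × ℕ) (j : ℕ) :
    mm (replc K c x) j = if h : j < K then (x ⟨j, h⟩).1 else mm c j := by
  unfold mm replc
  by_cases h1 : j < K
  · have h2 : j < c.1 := by omega
    simp [h1, h2]
  · by_cases h2 : j < c.1
    · simp [h1, h2]
    · simp [h1, h2]

lemma uu_replc {K : ℕ} {c : Cd} (hK : K ≤ c.1) (x : Fin K → ℕ × ℕ) (j : ℕ) :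
    uu (replc K c x) j = if h : j < K then (x ⟨j, h⟩).2 else uu c j := by
  unfold uu replc
  by_cases h1 : j < K
  · have h2 : j < c.1 := by omega
    simp [h1, h2]
  · by_cases h2 : j < c.1
    · simp [h1, h2]
    · simp [h1, h2]

lemma lowp_replc {K : ℕ} {c : Cd} (hK : K ≤ c.1) (x : Fin K → ℕ × ℕ) : lowp K (replc K c x) = x := by
  funext i
  unfold lowp
  rw [mm_replc hK, uu_replc hK, dif_pos i.2, dif_pos i.2]

lemma replc_lowp {K : ℕ} {c : Cd} (hK : K ≤ c.1) (x : Fin K → ℕ × ℕ) : replc K (replc K c x) (lowp K c) = c := by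
  obtain ⟨d, f⟩ := c
  simp only [replc]
  congr 1
  funext i
  by_cases h : (i : ℕ) < K
  · rw [dif_pos h]
    unfold lowp mm uu
    simp
  · rw [dif_neg h, dif_neg h]

lemma mass_lowp {K : ℕ} (c : Cd) : mass (wt1 K) (lowp K c) = ∑ j ∈ range K, (j + 1) * (mm c j + uu c j) := by
  unfold mass wt1 lowp
  rw [Finset.sum_range]

lemma replc_mem {N K : ℕ} {c : Cd} (hc : c ∈ allCodes N) (hK : K ≤ c.1) {x : Fin K → ℕ × ℕ}
    (hx : mass (wt1 K) x = mass (wt1 K) (lowp K c)) : replc K c x ∈ allCodes N := by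
  rw [mem_allCodes'] at hc ⊢
  have h1 : (replc K c x).1 = c.1 := rfl
  rw [h1, ← hc]
  congr 1
  rw [mass_lowp] at hx
  rw [Finset.range_eq_Ico, ← Finset.sum_Ico_consecutive _ (Nat.zero_le K) hK,
    ← Finset.sum_Ico_consecutive _ (Nat.zero_le K) hK, ← Finset.range_eq_Ico, ← hx]
  congr 1
  · unfold mass wt1
    rw [Finset.sum_range]
    refine Finset.sum_congr rfl fun i _ => ?_
    rw [mm_replc hK, uu_replc hK, dif_pos i.2, dif_pos i.2]
  · refine Finset.sum_congr rfl fun j hj => ?_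
    have := (Finset.mem_Ico.1 hj).1
    rw [mm_replc hK, uu_replc hK, dif_neg (by omega), dif_neg (by omega)]

open Classical in
/-- **Transfer.** -/
theorem transfer_codes (N K : ℕ) (hK : 0 < K) (bad : ℕ → (Fin K → ℕ × ℕ) → Prop) (smin : ℕ) {ε : ℝ} (hε : 0 ≤ ε)
    (h : ∀ s, smin ≤ s → s ≤ N → (((XS (wt1 K) s).filter (bad s)).card : ℝ) ≤ ε * rr (wt1 K) s) :
    (((allCodes N).filter fun c => K ≤ c.1 ∧ smin ≤ mass (wt1 K) (lowp K c) ∧
      bad (mass (wt1 K) (lowp K c)) (lowp K c)).card : ℝ) ≤ ε * pp N := by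
  have hW := WT1 hK
  set C := (allCodes N).filter fun c => K ≤ c.1 ∧ smin ≤ mass (wt1 K) (lowp K c) with hC
  have hrr : ∀ s, (0:ℝ) < rr (wt1 K) s := by
    intro s
    obtain ⟨i0, h0⟩ := hW.one
    exact_mod_cast rr_pos hW.pos h0 s
  have e1 : (((allCodes N).filter fun c => K ≤ c.1 ∧ smin ≤ mass (wt1 K) (lowp K c) ∧
      bad (mass (wt1 K) (lowp K c)) (lowp K c)).card : ℝ) =
      ∑ c ∈ C, (if bad (mass (wt1 K) (lowp K c)) (lowp K c) then (1:ℝ) else 0) := by
    rw [← Finset.sum_filter, Finset.sum_const, nsmul_eq_mul, mul_one, hC, Finset.filter_filter]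
    congr 2
    ext c
    simp only [Finset.mem_filter]
    tauto
  have e2 : ∑ c ∈ C, (if bad (mass (wt1 K) (lowp K c)) (lowp K c) then (1:ℝ) else 0) =
      ∑ p ∈ C.sigma (fun c => XS (wt1 K) (mass (wt1 K) (lowp K c))),
        (1 / (rr (wt1 K) (mass (wt1 K) (lowp K p.1)) : ℝ)) *
          (if bad (mass (wt1 K) (lowp K p.1)) (lowp K p.1) then (1:ℝ) else 0) := by
    rw [Finset.sum_sigma]
    refine Finset.sum_congr rfl fun c _ => ?_
    have h1 := hrr (mass (wt1 K) (lowp K c))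
    have h2 : ((XS (wt1 K) (mass (wt1 K) (lowp K c))).card : ℝ) = rr (wt1 K) (mass (wt1 K) (lowp K c)) := rfl
    have h3 : ∑ _x ∈ XS (wt1 K) (mass (wt1 K) (lowp K c)), (1 / (rr (wt1 K) (mass (wt1 K) (lowp K c)) : ℝ)) *
          (if bad (mass (wt1 K) (lowp K c)) (lowp K c) then (1:ℝ) else 0) =
        (if bad (mass (wt1 K) (lowp K c)) (lowp K c) then (1:ℝ) else 0) := by
      rw [Finset.sum_const, nsmul_eq_mul, h2]
      field_simp
    exact h3.symm
  have e3 : ∑ p ∈ C.sigma (fun c => XS (wt1 K) (mass (wt1 K) (lowp K c))),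
        (1 / (rr (wt1 K) (mass (wt1 K) (lowp K p.1)) : ℝ)) *
          (if bad (mass (wt1 K) (lowp K p.1)) (lowp K p.1) then (1:ℝ) else 0) =
      ∑ p ∈ C.sigma (fun c => XS (wt1 K) (mass (wt1 K) (lowp K c))),
        (1 / (rr (wt1 K) (mass (wt1 K) (lowp K p.1)) : ℝ)) *
          (if bad (mass (wt1 K) (lowp K p.1)) p.2 then (1:ℝ) else 0) := by
    have key : ∀ p ∈ C.sigma (fun c => XS (wt1 K) (mass (wt1 K) (lowp K c))),
        K ≤ p.1.1 ∧ mass (wt1 K) p.2 = mass (wt1 K) (lowp K p.1) ∧ p.1 ∈ allCodes N ∧ smin ≤ mass (wt1 K) (lowp K p.1) := by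
      intro p hp
      rw [Finset.mem_sigma, hC, Finset.mem_filter, mem_XS hW.pos] at hp
      exact ⟨hp.1.2.1, hp.2, hp.1.1, hp.1.2.2⟩
    have hmem : ∀ p ∈ C.sigma (fun c => XS (wt1 K) (mass (wt1 K) (lowp K c))),
        (⟨replc K p.1 p.2, lowp K p.1⟩ : Σ _ : Cd, (Fin K → ℕ × ℕ)) ∈
          C.sigma (fun c => XS (wt1 K) (mass (wt1 K) (lowp K c))) := by
      intro p hp
      obtain ⟨k1, k2, k3, k4⟩ := key p hp
      rw [Finset.mem_sigma, hC, Finset.mem_filter, mem_XS hW.pos]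
      simp only
      rw [lowp_replc k1, k2]
      exact ⟨⟨replc_mem k3 k1 k2, k1, k4⟩, rfl⟩
    have hinv : ∀ p ∈ C.sigma (fun c => XS (wt1 K) (mass (wt1 K) (lowp K c))),
        (⟨replc K (replc K p.1 p.2) (lowp K p.1), lowp K (replc K p.1 p.2)⟩ : Σ _ : Cd, (Fin K → ℕ × ℕ)) = p := by
      intro p hp
      obtain ⟨k1, k2, k3, k4⟩ := key p hp
      rw [replc_lowp k1, lowp_replc k1]
    refine Finset.sum_nbij' (fun p => ⟨replc K p.1 p.2, lowp K p.1⟩) (fun p => ⟨replc K p.1 p.2, lowp K p.1⟩)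
      hmem hmem hinv hinv ?_
    intro p hp
    obtain ⟨k1, k2, k3, k4⟩ := key p hp
    simp only
    rw [lowp_replc k1, k2]
  rw [e1, e2, e3, Finset.sum_sigma]
  have hcard : (C.card : ℝ) ≤ pp N := by
    have : C.card ≤ pp N := by
      rw [← card_allCodes]
      exact Finset.card_filter_le _ _
    exact_mod_cast this
  have hb : ∀ c ∈ C, ∑ x ∈ XS (wt1 K) (mass (wt1 K) (lowp K c)), (1 / (rr (wt1 K) (mass (wt1 K) (lowp K c)) : ℝ)) *
          (if bad (mass (wt1 K) (lowp K c)) x then (1:ℝ) else 0) ≤ ε := by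
    intro c hc
    rw [hC, Finset.mem_filter] at hc
    have hsN : mass (wt1 K) (lowp K c) ≤ N := by
      have h1 := hc.1
      rw [mem_allCodes'] at h1
      rw [mass_lowp, ← h1]
      refine le_trans ?_ (Nat.le_add_left _ _)
      exact Finset.sum_le_sum_of_subset (Finset.range_mono hc.2.1)
    have h2 := h _ hc.2.2 hsN
    rw [← Finset.mul_sum, ← Finset.sum_filter, Finset.sum_const, nsmul_eq_mul, mul_one]
    rw [one_div, inv_mul_le_iff₀ (hrr _)]
    linarith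
  calc _ ≤ ∑ _c ∈ C, ε := Finset.sum_le_sum hb
    _ = C.card * ε := by rw [Finset.sum_const, nsmul_eq_mul]
    _ ≤ pp N * ε := mul_le_mul_of_nonneg_right hcard hε
    _ = _ := by ring

end Pool.Agent.Lib.GraphPart
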