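import Pool.Agent.Lib.GraphPart.Grid

/-!
The error made when the sums `Sk` at grid points are replaced by linear forms in block sums.
-/

namespace Pool.Agent.Lib.GraphPart

open Finset

/-- coefficients of the linear forms -/
noncomputable def cf (R l u : ℕ) : ℝ :=
  min 1 ((kap R l : ℝ) / kap R u) * Real.sqrt (bl R u) / Real.sqrt (kap R l)

lemma cf_nonneg (R l u : ℕ) : 0 ≤ cf R l u := by
  unfold cf; positivity

/-- positions -/
def pos (v0 R u : ℕ) : ℕ := 2 ^ v0 * kap R u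

lemma pos_strictMono (v0 : ℕ) {R : ℕ} (hR : 0 < R) : StrictMono (pos v0 R) := by
  intro a b h
  unfold pos
  exact (Nat.mul_lt_mul_left (by positivity)).2 (kap_strictMono hR h)

lemma pos_succ (v0 : ℕ) {R : ℕ} (hR : 0 < R) (u : ℕ) : pos v0 R (u + 1) = pos v0 R u + 2 ^ v0 * bl R u := by
  unfold pos
  rw [kap_succ hR, Nat.mul_add]

lemma pos_pos (v0 : ℕ) {R : ℕ} (hR : 0 < R) (u : ℕ) : 0 < pos v0 R u := by
  unfold pos
  have := kap_pos hR u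
  positivity

lemma pos_mul (v0 : ℕ) {R : ℕ} (hR : 0 < R) (q : ℕ) : pos v0 R (q * R) = 2 ^ (v0 + q) * R := by
  unfold pos
  rw [kap_mul hR, pow_add]; ring

lemma pos_zero (v0 : ℕ) {R : ℕ} (hR : 0 < R) : pos v0 R 0 = 2 ^ v0 * R := by
  unfold pos
  rw [kap_zero hR]

lemma dvd_pos {e v0 : ℕ} (h : e ≤ v0) (R u : ℕ) : 2 ^ e ∣ pos v0 R u := by
  unfold pos
  exact Dvd.dvd.mul_right (Nat.pow_dvd_pow 2 h) _

/-- normalised block sums -/
noncomputable def XX (v0 R : ℕ) (α : ℕ → ℝ) (u : ℕ) (T : Finset ℕ) : ℝ :=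
  (1 / Real.sqrt (2 ^ v0 * bl R u)) * wk α T (pos v0 R u) (pos v0 R (u + 1))

lemma exists_block (p : ℕ → ℕ) (j : ℕ) (h0 : p 0 ≤ j) : ∀ U, j < p U → ∃ u, u < U ∧ p u ≤ j ∧ j < p (u + 1) := by
  intro U
  induction U with
  | zero => intro h; omega
  | succ U ih =>
    intro h
    by_cases h1 : j < p U
    · obtain ⟨u, h2, h3⟩ := ih h1
      exact ⟨u, by omega, h3⟩
    · exact ⟨U, by omega, by omega, h⟩

/-- coefficients of the error form -/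
noncomputable def eb (v0 R U l : ℕ) (α : ℕ → ℝ) (j : ℕ) : ℝ :=
  (min (j + 1) (pos v0 R l) : ℕ) * (α j / (j + 1)) -
    ∑ u ∈ range U, if pos v0 R u ≤ j ∧ j < pos v0 R (u + 1) then min 1 ((kap R l : ℝ) / kap R u) * α j else 0

lemma wk_ind (α : ℕ → ℝ) (T : Finset ℕ) {p q d : ℕ} (c : ℝ) (hq : q ≤ d) :
    ∑ j ∈ range d, sg T j * (if p ≤ j ∧ j < q then c * α j else 0) = c * wk α T p q := by
  unfold wk
  rw [Finset.mul_sum]
  have h1 : Ico p q = (range d).filter (fun j => p ≤ j ∧ j < q) := by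
    ext j
    rw [Finset.mem_Ico, Finset.mem_filter, Finset.mem_range]
    constructor
    · intro h; exact ⟨by omega, h⟩
    · exact fun h => h.2
  rw [h1, Finset.sum_filter]
  refine Finset.sum_congr rfl fun j _ => ?_
  split_ifs <;> ring

lemma cf_XX {v0 R : ℕ} (hR : 0 < R) (α : ℕ → ℝ) (T : Finset ℕ) (l u : ℕ) :
    Real.sqrt (pos v0 R l) * (cf R l u * XX v0 R α u T) =
      min 1 ((kap R l : ℝ) / kap R u) * wk α T (pos v0 R u) (pos v0 R (u + 1)) := by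
  have h1 : (0:ℝ) < kap R l := by exact_mod_cast kap_pos hR l
  have h2 : (0:ℝ) < bl R u := by exact_mod_cast bl_pos R u
  have h3 : (0:ℝ) < 2 ^ v0 := by positivity
  have e1 : ((pos v0 R l : ℕ) : ℝ) = 2 ^ v0 * kap R l := by unfold pos; push_cast; ring
  have s1 : 0 < Real.sqrt (kap R l) := Real.sqrt_pos.2 h1
  have s2 : 0 < Real.sqrt (bl R u) := Real.sqrt_pos.2 h2
  have s3 : 0 < Real.sqrt ((2:ℝ) ^ v0) := Real.sqrt_pos.2 h3
  unfold XX cf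
  rw [e1, Real.sqrt_mul h3.le, Real.sqrt_mul h3.le]
  field_simp

lemma err_eq {v0 R : ℕ} (hR : 0 < R) (α : ℕ → ℝ) (T : Finset ℕ) {U d l : ℕ} (hU : pos v0 R U ≤ d) :
    Sk (fun j => α j / (j + 1)) T d (pos v0 R l) -
      Real.sqrt (pos v0 R l) * ∑ u ∈ range U, cf R l u * XX v0 R α u T = wk (eb v0 R U l α) T 0 d := by
  rw [Finset.mul_sum]
  simp only [cf_XX hR]
  have h1 : ∀ u ∈ range U, min 1 ((kap R l : ℝ) / kap R u) * wk α T (pos v0 R u) (pos v0 R (u + 1)) =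
      ∑ j ∈ range d, sg T j * (if pos v0 R u ≤ j ∧ j < pos v0 R (u + 1) then
        min 1 ((kap R l : ℝ) / kap R u) * α j else 0) := by
    intro u hu
    rw [wk_ind]
    refine le_trans ?_ hU
    exact (pos_strictMono v0 hR).monotone (by have := Finset.mem_range.1 hu; omega)
  rw [Finset.sum_congr rfl h1, Finset.sum_comm]
  unfold Sk wk
  rw [Nat.Ico_zero_eq_range, ← Finset.sum_sub_distrib]
  refine Finset.sum_congr rfl fun j _ => ?_
  unfold eb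
  rw [← Finset.mul_sum]
  ring

lemma eb_low {v0 R : ℕ} (hR : 0 < R) (U l : ℕ) (α : ℕ → ℝ) {j : ℕ} (hj : j < pos v0 R 0) :
    eb v0 R U l α j = α j := by
  unfold eb
  have hm := (pos_strictMono v0 hR).monotone
  have h1 : ∑ u ∈ range U, (if pos v0 R u ≤ j ∧ j < pos v0 R (u + 1) then min 1 ((kap R l : ℝ) / kap R u) * α j else 0) = 0 := by
    refine Finset.sum_eq_zero fun u _ => ?_
    rw [if_neg]
    rintro ⟨h2, _⟩
    have := hm (Nat.zero_le u)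
    omega
  rw [h1, sub_zero]
  have h3 : min (j + 1) (pos v0 R l) = j + 1 := by
    apply Nat.min_eq_left
    have := hm (Nat.zero_le l)
    omega
  rw [h3]
  push_cast
  field_simp

lemma eb_block {v0 R : ℕ} (hR : 0 < R) (U l : ℕ) (α : ℕ → ℝ) {j u0 : ℕ} (hu : u0 < U) (h1 : pos v0 R u0 ≤ j)
    (h2 : j < pos v0 R (u0 + 1)) :
    eb v0 R U l α j = (min (j + 1) (pos v0 R l) : ℕ) * (α j / (j + 1)) - min 1 ((kap R l : ℝ) / kap R u0) * α j := by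
  unfold eb
  congr 1
  rw [Finset.sum_eq_single u0]
  · rw [if_pos ⟨h1, h2⟩]
  · intro u _ hne
    rw [if_neg]
    rintro ⟨h3, h4⟩
    have hm := (pos_strictMono v0 hR)
    rcases Nat.lt_or_ge u u0 with h | h
    · have := hm.monotone (show u + 1 ≤ u0 by omega)
      omega
    · have h5 : u0 + 1 ≤ u := by omega
      have := hm.monotone h5
      omega
  · intro h; exact absurd (Finset.mem_range.2 hu) h

lemma eb_mid {v0 R : ℕ} (hR : 0 < R) (U l : ℕ) (hl : l ≤ U) (α : ℕ → ℝ) {j : ℕ} (h0 : pos v0 R 0 ≤ j)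
    (h1 : j < pos v0 R l) : eb v0 R U l α j = 0 := by
  obtain ⟨u, hu, h2, h3⟩ := exists_block (pos v0 R) j h0 l h1
  rw [eb_block hR U l α (by omega) h2 h3]
  have h4 : min (j + 1) (pos v0 R l) = j + 1 := Nat.min_eq_left (by omega)
  have h5 : (1:ℝ) ≤ (kap R l : ℝ) / kap R u := by
    have hk : (0:ℝ) < kap R u := by exact_mod_cast kap_pos hR u
    rw [one_le_div hk]
    exact_mod_cast (kap_strictMono hR).monotone hu.le
  rw [h4, min_eq_left h5]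
  push_cast
  field_simp
  ring

lemma eb_high {v0 R : ℕ} (hR : 0 < R) (U l : ℕ) (α : ℕ → ℝ) (hα : ∀ j, 0 ≤ α j) {j : ℕ}
    (h0 : pos v0 R l ≤ j) (h1 : j < pos v0 R U) :
    (eb v0 R U l α j) ^ 2 ≤ ((pos v0 R l : ℝ) / R) ^ 2 * (α j / (j + 1)) ^ 2 := by
  have hm := (pos_strictMono v0 hR).monotone
  obtain ⟨u, hu, h2, h3⟩ := exists_block (pos v0 R) j ((hm (Nat.zero_le l)).trans h0) U h1
  have hlu : l ≤ u := by
    by_contra hcon
    have := hm (show u + 1 ≤ l by omega)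
    omega
  rw [eb_block hR U l α hu h2 h3]
  have h4 : min (j + 1) (pos v0 R l) = pos v0 R l := Nat.min_eq_right (by omega)
  have hk : (0:ℝ) < kap R u := by exact_mod_cast kap_pos hR u
  have h5 : (kap R l : ℝ) / kap R u ≤ 1 := by
    rw [div_le_one hk]
    exact_mod_cast (kap_strictMono hR).monotone hlu
  rw [h4, min_eq_right h5]
  have hv : (0:ℝ) < 2 ^ v0 := by positivity
  have e1 : (kap R l : ℝ) / kap R u = (pos v0 R l : ℝ) / pos v0 R u := by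
    unfold pos; push_cast
    field_simp
  have hPu : (0:ℝ) < pos v0 R u := by exact_mod_cast pos_pos v0 hR u
  have hPl : (0:ℝ) < pos v0 R l := by exact_mod_cast pos_pos v0 hR l
  have hRr : (0:ℝ) < R := by exact_mod_cast hR
  have hj : (0:ℝ) < (j:ℝ) + 1 := by positivity
  rw [e1]
  have e2 : (pos v0 R l : ℝ) * (α j / (j + 1)) - (pos v0 R l : ℝ) / pos v0 R u * α j =
      -((pos v0 R l : ℝ) * (α j / (j + 1)) * (((j:ℝ) + 1 - pos v0 R u) / pos v0 R u)) := by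
    field_simp
    ring
  rw [e2, neg_sq]
  have e3 : 0 ≤ ((j:ℝ) + 1 - pos v0 R u) / pos v0 R u := by
    apply div_nonneg _ hPu.le
    have : (pos v0 R u : ℝ) ≤ j := by exact_mod_cast h2
    linarith
  have e4 : ((j:ℝ) + 1 - pos v0 R u) / pos v0 R u ≤ 1 / R := by
    rw [div_le_div_iff₀ hPu hRr]
    have h6 : j + 1 ≤ pos v0 R u + 2 ^ v0 * bl R u := by
      rw [← pos_succ v0 hR]; omega
    have h7 : R * (2 ^ v0 * bl R u) ≤ pos v0 R u := by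
      have := R_bl_le R u
      unfold pos
      calc R * (2 ^ v0 * bl R u) = 2 ^ v0 * (R * bl R u) := by ring
        _ ≤ _ := Nat.mul_le_mul_left _ this
    have h6r : (j:ℝ) + 1 ≤ pos v0 R u + 2 ^ v0 * bl R u := by exact_mod_cast h6
    have h7r : (R:ℝ) * (2 ^ v0 * bl R u) ≤ pos v0 R u := by exact_mod_cast h7
    nlinarith
  have e5 : 0 ≤ (pos v0 R l : ℝ) * (α j / (j + 1)) := mul_nonneg hPl.le (div_nonneg (hα j) hj.le)
  calc ((pos v0 R l : ℝ) * (α j / (j + 1)) * (((j:ℝ) + 1 - pos v0 R u) / pos v0 R u)) ^ 2 ≤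
      ((pos v0 R l : ℝ) * (α j / (j + 1)) * (1 / R)) ^ 2 := by
        gcongr
    _ = _ := by ring

lemma eb_top {v0 R : ℕ} (hR : 0 < R) (U l : ℕ) (hl : l ≤ U) (α : ℕ → ℝ) {j : ℕ} (h1 : pos v0 R U ≤ j) :
    eb v0 R U l α j = pos v0 R l * (α j / (j + 1)) := by
  unfold eb
  have hm := (pos_strictMono v0 hR).monotone
  have h2 : ∑ u ∈ range U, (if pos v0 R u ≤ j ∧ j < pos v0 R (u + 1) then min 1 ((kap R l : ℝ) / kap R u) * α j else 0) = 0 := by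
    refine Finset.sum_eq_zero fun u hu => ?_
    rw [if_neg]
    rintro ⟨_, h3⟩
    have := hm (show u + 1 ≤ U by have := Finset.mem_range.1 hu; omega)
    omega
  have h3 := hm hl
  rw [h2, sub_zero, Nat.min_eq_right (by omega)]

/-- variance of the error form -/
lemma eb_var {α : ℕ → ℝ} {e v3 : ℕ} {η ℓ1 ℓ2 : ℝ} (h : Reg α e v3 η ℓ1 ℓ2) (hη : η ≤ 1) (hℓ : 1 ≤ ℓ2)
    {v0 g w d l : ℕ} (he : e ≤ v0) (hv : (pos v0 (2 ^ g) ((w + 2 * g) * 2 ^ g) : ℝ) * ℓ2 ^ 2 ≤ 2 ^ v3)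
    (hev : e ≤ v3) (hd : 2 ^ v3 ≤ d) (hl1 : g * 2 ^ g ≤ l) (hl2 : l ≤ (g + w) * 2 ^ g) :
    ∑ j ∈ range d, (eb v0 (2 ^ g) ((w + 2 * g) * 2 ^ g) l α j) ^ 2 ≤ 11 * (pos v0 (2 ^ g) l) / 2 ^ g := by
  set R := 2 ^ g with hRdef
  have hR : 0 < R := by positivity
  set U := (w + 2 * g) * R with hU
  have hm := (pos_strictMono v0 hR).monotone
  have hlU : l ≤ U := hl2.trans (Nat.mul_le_mul_right _ (by omega))
  set P0 := pos v0 R 0 with hP0
  set Pl := pos v0 R l with hPl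
  set PU := pos v0 R U with hPU
  have h0l : P0 ≤ Pl := hm (Nat.zero_le l)
  have hlu : Pl ≤ PU := hm hlU
  have hP0p : 0 < P0 := pos_pos v0 hR 0
  have hPlr : (0:ℝ) < Pl := by exact_mod_cast pos_pos v0 hR l
  have hPUr : (0:ℝ) < PU := by exact_mod_cast pos_pos v0 hR U
  have hPUv : PU ≤ 2 ^ v3 := by
    have h1 : (PU:ℝ) * 1 ≤ (PU:ℝ) * ℓ2 ^ 2 := by
      apply mul_le_mul_of_nonneg_left _ hPUr.le
      nlinarith
    have : (PU:ℝ) ≤ ((2 ^ v3 : ℕ) : ℝ) := by push_cast; linarith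
    exact_mod_cast this
  have hUd : PU ≤ d := hPUv.trans hd
  rw [Finset.range_eq_Ico, ← Finset.sum_Ico_consecutive _ (Nat.zero_le Pl) (hlu.trans hUd),
    ← Finset.sum_Ico_consecutive _ (Nat.zero_le P0) h0l, ← Finset.sum_Ico_consecutive _ hlu hUd]
  -- ratio bounds
  have r1 : (P0:ℝ) * 2 ^ g ≤ Pl := by
    have h2 : pos v0 R (g * R) ≤ Pl := hm hl1
    rw [pos_mul v0 hR] at h2
    have h3 : P0 * 2 ^ g ≤ Pl := by
      rw [hP0, pos_zero v0 hR]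
      calc 2 ^ v0 * R * 2 ^ g = 2 ^ (v0 + g) * R := by ring
        _ ≤ Pl := h2
    exact_mod_cast h3
  have r2 : (Pl:ℝ) * 2 ^ g ≤ PU := by
    have h2 : Pl ≤ pos v0 R ((g + w) * R) := hm hl2
    rw [pos_mul v0 hR] at h2
    have h3 : Pl * 2 ^ g ≤ PU := by
      rw [hPU, hU, pos_mul v0 hR]
      calc Pl * 2 ^ g ≤ 2 ^ (v0 + (g + w)) * R * 2 ^ g := Nat.mul_le_mul_right _ h2
        _ = 2 ^ (v0 + (w + 2 * g)) * R := by ring
    exact_mod_cast h3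
  have h2g : (1:ℝ) ≤ 2 ^ g := one_le_pow₀ (by norm_num)
  -- part a
  have a1 : ∑ j ∈ Ico 0 P0, (eb v0 R U l α j) ^ 2 ≤ 2 * Pl / 2 ^ g := by
    have e1 : ∑ j ∈ Ico 0 P0, (eb v0 R U l α j) ^ 2 = ∑ j ∈ Ico 0 P0, (α j) ^ 2 := by
      refine Finset.sum_congr rfl fun j hj => ?_
      rw [eb_low hR U l α (Finset.mem_Ico.1 hj).2]
    rw [e1]
    refine (h.sum_aligned_le hη (dvd_zero _) (dvd_pos he R 0) (Nat.zero_le _) ((h0l.trans hlu).trans hPUv)).trans ?_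
    rw [Nat.sub_zero, le_div_iff₀ (by positivity)]
    linarith
  -- part b
  have b1 : ∑ j ∈ Ico P0 Pl, (eb v0 R U l α j) ^ 2 = 0 := by
    refine Finset.sum_eq_zero fun j hj => ?_
    rw [eb_mid hR U l hlU α (Finset.mem_Ico.1 hj).1 (Finset.mem_Ico.1 hj).2]
    norm_num
  -- part c
  have c1 : ∑ j ∈ Ico Pl PU, (eb v0 R U l α j) ^ 2 ≤ 4 * Pl / 2 ^ g := by
    calc ∑ j ∈ Ico Pl PU, (eb v0 R U l α j) ^ 2 ≤ ∑ j ∈ Ico Pl PU, ((Pl : ℝ) / R) ^ 2 * (α j / (j + 1)) ^ 2 :=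
          Finset.sum_le_sum fun j hj =>
            eb_high hR U l α h.nn (Finset.mem_Ico.1 hj).1 (Finset.mem_Ico.1 hj).2
      _ = ((Pl : ℝ) / R) ^ 2 * ∑ j ∈ Ico Pl PU, (α j / (j + 1)) ^ 2 := by rw [Finset.mul_sum]
      _ ≤ ((Pl : ℝ) / R) ^ 2 * (4 / Pl) := by
          gcongr
          exact h.tail_le hη (dvd_pos he R l) (dvd_pos he R U) (pos_pos v0 hR l) hlu hPUv
      _ ≤ 4 * Pl / 2 ^ g := by
          have e1 : (R:ℝ) = 2 ^ g := by rw [hRdef]; push_cast; ring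
          rw [e1]
          have e2 : ((Pl : ℝ) / 2 ^ g) ^ 2 * (4 / Pl) = (4 * Pl / 2 ^ g) / 2 ^ g := by
            field_simp
          rw [e2]
          exact div_le_self (by positivity) h2g
  -- part d
  have d1 : ∑ j ∈ Ico PU d, (eb v0 R U l α j) ^ 2 ≤ 5 * Pl / 2 ^ g := by
    calc ∑ j ∈ Ico PU d, (eb v0 R U l α j) ^ 2 = ∑ j ∈ Ico PU d, ((Pl : ℝ)) ^ 2 * (α j / (j + 1)) ^ 2 := by
          refine Finset.sum_congr rfl fun j hj => ?_
          rw [eb_top hR U l hlU α (Finset.mem_Ico.1 hj).1, mul_pow]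
      _ = (Pl : ℝ) ^ 2 * ∑ j ∈ Ico PU d, (α j / (j + 1)) ^ 2 := by rw [Finset.mul_sum]
      _ ≤ (Pl : ℝ) ^ 2 * (4 / PU + ℓ2 ^ 2 / 2 ^ v3) := by
          gcongr
          exact h.tail_all hη (dvd_pos he R U) (pos_pos v0 hR U) hPUv hev hd
      _ ≤ (Pl : ℝ) ^ 2 * (5 / PU) := by
          gcongr
          have : ℓ2 ^ 2 / 2 ^ v3 ≤ 1 / PU := by
            rw [div_le_div_iff₀ (by positivity) hPUr]
            linarith
          calc (4:ℝ) / PU + ℓ2 ^ 2 / 2 ^ v3 ≤ 4 / PU + 1 / PU := by gcongr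
            _ = 5 / PU := by ring
      _ ≤ 5 * Pl / 2 ^ g := by
          rw [← mul_div_assoc, div_le_div_iff₀ hPUr (by positivity)]
          nlinarith
  rw [b1]
  have e1 : 11 * (Pl : ℝ) / 2 ^ g = 2 * Pl / 2 ^ g + 0 + (4 * Pl / 2 ^ g + 5 * Pl / 2 ^ g) := by ring
  rw [e1]
  gcongr

open Classical in
/-- the error at a grid point is small with high probability -/
lemma err_prob {α : ℕ → ℝ} {e v3 : ℕ} {η ℓ1 ℓ2 : ℝ} (h : Reg α e v3 η ℓ1 ℓ2) (hη : η ≤ 1) (hℓ : 1 ≤ ℓ2)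
    {v0 g w d l : ℕ} (he : e ≤ v0) (hv : (pos v0 (2 ^ g) ((w + 2 * g) * 2 ^ g) : ℝ) * ℓ2 ^ 2 ≤ 2 ^ v3)
    (hev : e ≤ v3) (hd : 2 ^ v3 ≤ d) (hl1 : g * 2 ^ g ≤ l) (hl2 : l ≤ (g + w) * 2 ^ g) {δ : ℝ} (hδ : 0 ≤ δ) :
    Ex d (fun T => if δ * Real.sqrt (pos v0 (2 ^ g) l) ≤
      |Sk (fun j => α j / (j + 1)) T d (pos v0 (2 ^ g) l) - Real.sqrt (pos v0 (2 ^ g) l) *
        ∑ u ∈ range ((w + 2 * g) * 2 ^ g), cf (2 ^ g) l u * XX v0 (2 ^ g) α u T| then (1:ℝ) else 0) ≤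
      2 * Real.exp (-(δ ^ 2 * 2 ^ g / 22)) := by
  have hR : 0 < 2 ^ g := by positivity
  have hPlr : (0:ℝ) < pos v0 (2 ^ g) l := by exact_mod_cast pos_pos v0 hR l
  have hPUv : pos v0 (2 ^ g) ((w + 2 * g) * 2 ^ g) ≤ d := by
    refine le_trans ?_ hd
    have hPUr : (0:ℝ) < pos v0 (2 ^ g) ((w + 2 * g) * 2 ^ g) := by exact_mod_cast pos_pos v0 hR _
    have h1 : (pos v0 (2 ^ g) ((w + 2 * g) * 2 ^ g) : ℝ) * 1 ≤ (pos v0 (2 ^ g) ((w + 2 * g) * 2 ^ g) : ℝ) * ℓ2 ^ 2 := by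
      apply mul_le_mul_of_nonneg_left _ hPUr.le
      nlinarith
    have : (pos v0 (2 ^ g) ((w + 2 * g) * 2 ^ g) : ℝ) ≤ ((2 ^ v3 : ℕ) : ℝ) := by push_cast; linarith
    exact_mod_cast this
  have hvar := eb_var h hη hℓ he hv hev hd hl1 hl2
  simp only [err_eq hR α _ hPUv]
  have key := hoeffding (eb v0 (2 ^ g) ((w + 2 * g) * 2 ^ g) l α) d
    (x := δ * Real.sqrt (pos v0 (2 ^ g) l)) (V := 11 * (pos v0 (2 ^ g) l) / 2 ^ g) (by positivity) (by positivity) hvar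
  refine key.trans (le_of_eq ?_)
  congr 2
  rw [mul_pow, Real.sq_sqrt hPlr.le]
  field_simp
  ring

end Pool.Agent.Lib.GraphPart
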