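import Pool.Agent.Lib.GraphPart.Window

/-!
Upper and lower bounds for the persistence probability by windows.
-/

namespace Pool.Agent.Lib.GraphPart

open Finset MeasureTheory ProbabilityTheory

open Classical in
/-- the indicator function of the polyhedral region -/
noncomputable def cone (g w : ℕ) (δ : ℝ) (x : ℕ → ℝ) : ℝ :=
  if ∀ l, g * 2 ^ g ≤ l → l < (g + w) * 2 ^ g →
    δ ≤ ∑ u ∈ range ((w + 2 * g) * 2 ^ g), cf (2 ^ g) l u * x u then 1 else 0

lemma cone_MB (g w : ℕ) (δ : ℝ) : MB 1 (cone g w δ) where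
  mono := by
    intro x y hxy
    unfold cone
    by_cases h : ∀ l, g * 2 ^ g ≤ l → l < (g + w) * 2 ^ g →
        δ ≤ ∑ u ∈ range ((w + 2 * g) * 2 ^ g), cf (2 ^ g) l u * x u
    · rw [if_pos h, if_pos]
      intro l h1 h2
      refine (h l h1 h2).trans (Finset.sum_le_sum fun u _ => ?_)
      exact mul_le_mul_of_nonneg_left (hxy u) (cf_nonneg _ _ _)
    · rw [if_neg h]; split_ifs <;> norm_num
  nn := fun x => by unfold cone; split_ifs <;> norm_num
  le := fun x => by unfold cone; split_ifs <;> norm_num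

/-- Gaussian orthant probability -/
noncomputable def Qg (g w : ℕ) (δ : ℝ) : ℝ := GI ((w + 2 * g) * 2 ^ g) (cone g w δ) (fun _ => 0)

lemma Qg_nonneg (g w : ℕ) (δ : ℝ) : 0 ≤ Qg g w δ := GI_nonneg _ (cone_MB g w δ) _

lemma Qg_le_one (g w : ℕ) (δ : ℝ) : Qg g w δ ≤ 1 := GI_le _ (cone_MB g w δ) _

/-- the constant of the comparison theorem -/
noncomputable def Cm : ℝ := mono_cmp.choose

lemma Cm_pos : 0 < Cm := mono_cmp.choose_spec.1

lemma Cm_spec : ∀ (a : ℕ → ℝ) (n : ℕ) (s : ℝ), 0 < s → ∀ φ : ℝ → ℝ, Monotone φ →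
    (∀ x, 0 ≤ φ x) → (∀ x, φ x ≤ 1) →
    |Ex n (fun T => φ (wk a T 0 n)) - ∫ z, φ z ∂gam| ≤
      s + Cm * ((∑ j ∈ range n, |a j| ^ 3) / s ^ 3 + |∑ j ∈ range n, a j ^ 2 - 1| / s ^ 2) :=
  mono_cmp.choose_spec.2

/-- the error bound for one block -/
noncomputable def kb (v : ℕ) (η ℓ1 s : ℝ) : ℝ := s + Cm * (2 * ℓ1 / Real.sqrt (2 ^ v) / s ^ 3 + η / s ^ 2)

lemma wk_smul (ρ : ℝ) (a : ℕ → ℝ) (T : Finset ℕ) (i n : ℕ) : wk (fun j => ρ * a j) T i n = ρ * wk a T i n := by
  unfold wk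
  rw [Finset.mul_sum]
  exact Finset.sum_congr rfl fun j _ => by ring

/-- one block against the Gaussian variable -/
lemma block_cmp {α : ℕ → ℝ} {e v3 : ℕ} {η ℓ1 ℓ2 : ℝ} (h : Reg α e v3 η ℓ1 ℓ2) (hη : η ≤ 1) (hℓ1 : 0 ≤ ℓ1)
    {v v0 R u : ℕ} (hR : 0 < R) (he : e ≤ v0) (hvv : v ≤ v0) (hpos : pos v0 R (u + 1) ≤ 2 ^ v3) {s : ℝ} (hs : 0 < s)
    (φ : ℝ → ℝ) (hφ : Monotone φ) (h0 : ∀ x, 0 ≤ φ x) (h1 : ∀ x, φ x ≤ 1) :
    |Ex (2 ^ v0 * bl R u) (fun T => φ ((1 / Real.sqrt (2 ^ v0 * bl R u)) *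
      wk (fun j => α (pos v0 R u + j)) T 0 (2 ^ v0 * bl R u))) - ∫ z, φ z ∂gam| ≤ kb v η ℓ1 s := by
  set len : ℕ := 2 ^ v0 * bl R u with hlen
  have hlenr : ((2:ℝ) ^ v0 * bl R u) = (len : ℝ) := by rw [hlen]; push_cast; ring
  have hlenpos : (0:ℝ) < len := by
    have : 0 < len := by rw [hlen]; have := bl_pos R u; positivity
    exact_mod_cast this
  rw [hlenr]
  set ρ : ℝ := 1 / Real.sqrt len with hρ
  have hsq : 0 < Real.sqrt len := Real.sqrt_pos.2 hlenpos
  have hρpos : 0 < ρ := by positivity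
  have hρ2 : ρ ^ 2 * len = 1 := by
    rw [hρ, div_pow, Real.sq_sqrt hlenpos.le]; field_simp
  have hps : pos v0 R (u + 1) = pos v0 R u + len := pos_succ v0 hR u
  have key := Cm_spec (fun j => ρ * α (pos v0 R u + j)) len s hs φ hφ h0 h1
  simp only [wk_smul] at key
  refine key.trans ?_
  unfold kb
  have hC := Cm_pos
  -- sum of squares
  have hsum : ∑ j ∈ range len, (α (pos v0 R u + j)) ^ 2 = ∑ j ∈ Ico (pos v0 R u) (pos v0 R (u + 1)), α j ^ 2 := by
    rw [Finset.sum_Ico_eq_sum_range, hps, Nat.add_sub_cancel_left]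
  have hal := h.sum_aligned (dvd_pos he R u) (dvd_pos he R (u + 1)) (by omega) hpos
  rw [← hsum, hps, Nat.add_sub_cancel_left] at hal
  have g1 : |∑ j ∈ range len, (ρ * α (pos v0 R u + j)) ^ 2 - 1| ≤ η := by
    have e1 : ∑ j ∈ range len, (ρ * α (pos v0 R u + j)) ^ 2 - 1 =
        ρ ^ 2 * (∑ j ∈ range len, (α (pos v0 R u + j)) ^ 2 - len) := by
      rw [mul_sub, hρ2, Finset.mul_sum]
      congr 1
      exact Finset.sum_congr rfl fun j _ => by ring
    rw [e1, abs_mul, abs_of_nonneg (sq_nonneg ρ)]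
    calc ρ ^ 2 * |∑ j ∈ range len, (α (pos v0 R u + j)) ^ 2 - len| ≤ ρ ^ 2 * (η * len) := by gcongr
      _ = η * (ρ ^ 2 * len) := by ring
      _ = η := by rw [hρ2, mul_one]
  have hη0 : 0 ≤ η := le_trans (abs_nonneg _) g1
  have g2 : ∑ j ∈ range len, |ρ * α (pos v0 R u + j)| ^ 3 ≤ 2 * ℓ1 / Real.sqrt (2 ^ v) := by
    have e1 : ∀ j ∈ range len, |ρ * α (pos v0 R u + j)| ^ 3 ≤ (ρ ^ 3 * ℓ1) * (α (pos v0 R u + j)) ^ 2 := by
      intro j hj
      have hj' := Finset.mem_range.1 hj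
      have h2 : α (pos v0 R u + j) ≤ ℓ1 := h.bd1 _ (by omega)
      have h3 := h.nn (pos v0 R u + j)
      rw [abs_of_nonneg (mul_nonneg hρpos.le h3)]
      calc (ρ * α (pos v0 R u + j)) ^ 3 = ρ ^ 3 * α (pos v0 R u + j) * (α (pos v0 R u + j)) ^ 2 := by ring
        _ ≤ _ := by gcongr
    calc ∑ j ∈ range len, |ρ * α (pos v0 R u + j)| ^ 3 ≤ ∑ j ∈ range len, (ρ ^ 3 * ℓ1) * (α (pos v0 R u + j)) ^ 2 :=
          Finset.sum_le_sum e1
      _ = (ρ ^ 3 * ℓ1) * ∑ j ∈ range len, (α (pos v0 R u + j)) ^ 2 := by rw [Finset.mul_sum]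
      _ ≤ (ρ ^ 3 * ℓ1) * (2 * len) := by
          gcongr
          have := (abs_le.1 hal).2
          have h4 : η * (len:ℝ) ≤ 1 * len := mul_le_mul_of_nonneg_right hη hlenpos.le
          linarith
      _ = 2 * ℓ1 * ρ * (ρ ^ 2 * len) := by ring
      _ = 2 * ℓ1 * ρ := by rw [hρ2, mul_one]
      _ ≤ 2 * ℓ1 / Real.sqrt (2 ^ v) := by
          rw [hρ, mul_one_div]
          apply div_le_div_of_nonneg_left (by positivity) (by positivity)
          apply Real.sqrt_le_sqrt
          rw [hlen]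
          push_cast
          have h5 : (1:ℝ) ≤ bl R u := by exact_mod_cast bl_pos R u
          calc (2:ℝ) ^ v ≤ 2 ^ v0 := pow_le_pow_right₀ (by norm_num) hvv
            _ = 2 ^ v0 * 1 := by ring
            _ ≤ _ := by gcongr
  gcongr

/-- one window against the Gaussian orthant probability; `F` is a function of the block sums -/
lemma window_cmp {α : ℕ → ℝ} {e v3 : ℕ} {η ℓ1 ℓ2 : ℝ} (h : Reg α e v3 η ℓ1 ℓ2) (hη : η ≤ 1) (hℓ1 : 0 ≤ ℓ1)
    {v v0 R U : ℕ} (hR : 0 < R) (he : e ≤ v0) (hvv : v ≤ v0) (hpos : pos v0 R U ≤ 2 ^ v3) {s : ℝ} (hs : 0 < s)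
    {F : (ℕ → ℝ) → ℝ} (hF : MB 1 F) (hη0 : 0 ≤ η) :
    |Ex (pos v0 R U - pos v0 R 0) (fun T => F (bvec (fun u T => (1 / Real.sqrt (2 ^ v0 * bl R u)) *
        wk (fun j => α (pos v0 R 0 + j)) T (pos v0 R u - pos v0 R 0) (pos v0 R (u + 1) - pos v0 R 0)) U T
          (fun _ => 0))) - GI U F (fun _ => 0)| ≤ U * kb v η ℓ1 s := by
  classical
  have hm := (pos_strictMono v0 hR).monotone
  -- extend the bound on blocks beyond `U` by truncation
  set p : ℕ → ℕ := fun u => pos v0 R (min u U) - pos v0 R 0 with hp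
  have hpm : Monotone p := by
    intro a b hab
    simp only [hp]
    have := hm (show min a U ≤ min b U by omega)
    omega
  set κ : ℕ → ℝ := fun u => if u < U then kb v η ℓ1 s else 1 with hκ
  set ρ : ℕ → ℝ := fun u => 1 / Real.sqrt (2 ^ v0 * bl R u) with hρ
  have key := replace_blocks (fun j => α (pos v0 R 0 + j)) p ρ κ hpm (by
    intro u φ hφ h0 h1
    by_cases hu : u < U
    · simp only [hκ]
      rw [if_pos hu]
      have e1 : p u = pos v0 R u - pos v0 R 0 := by simp only [hp]; rw [Nat.min_eq_left hu.le]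
      have e2 : p (u + 1) = pos v0 R (u + 1) - pos v0 R 0 := by
        simp only [hp]; rw [Nat.min_eq_left (by omega)]
      have h0u := hm (Nat.zero_le u)
      have hs1 := pos_succ v0 hR u
      have e3 : p (u + 1) - p u = 2 ^ v0 * bl R u := by rw [e1, e2]; omega
      have e4 : ∀ j, pos v0 R 0 + (p u + j) = pos v0 R u + j := by intro j; rw [e1]; omega
      simp only [e3, e4, hρ]
      exact block_cmp h hη hℓ1 hR he hvv ((hm (show u + 1 ≤ U by omega)).trans hpos) hs φ hφ h0 h1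
    · simp only [hκ]
      rw [if_neg hu]
      have i1 : 0 ≤ Ex (p (u + 1) - p u) (fun T => φ (ρ u * wk (fun j => α (pos v0 R 0 + (p u + j))) T 0 (p (u + 1) - p u))) :=
        Ex_nonneg fun T _ => h0 _
      have i2 : Ex (p (u + 1) - p u) (fun T => φ (ρ u * wk (fun j => α (pos v0 R 0 + (p u + j))) T 0 (p (u + 1) - p u))) ≤ 1 := by
        refine le_trans (Ex_mono (G := fun _ => 1) fun T _ => h1 _) (Ex_const _ 1).le
      have i3 : 0 ≤ ∫ z, φ z ∂gam := integral_nonneg h0
      have i4 : ∫ z, φ z ∂gam ≤ 1 := by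
        calc ∫ z, φ z ∂gam ≤ ∫ _z : ℝ, 1 ∂gam :=
              integral_mono (integrable_mono_bdd hφ h0 h1) (integrable_const 1) h1
          _ = 1 := by simp
      rw [abs_le]
      constructor <;> linarith) U F hF (fun _ => 0)
  have e5 : p U = pos v0 R U - pos v0 R 0 := by simp only [hp]; rw [Nat.min_self]
  rw [e5] at key
  have e6 : ∀ T, bvec (fun u T => ρ u * wk (fun j => α (pos v0 R 0 + j)) T (p u) (p (u + 1))) U T (fun _ => 0) =
      bvec (fun u T => (1 / Real.sqrt (2 ^ v0 * bl R u)) *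
        wk (fun j => α (pos v0 R 0 + j)) T (pos v0 R u - pos v0 R 0) (pos v0 R (u + 1) - pos v0 R 0)) U T
          (fun _ => 0) := by
    intro T
    funext u
    unfold bvec
    by_cases hu : u < U
    · rw [if_pos hu, if_pos hu]
      have e1 : p u = pos v0 R u - pos v0 R 0 := by simp only [hp]; rw [Nat.min_eq_left hu.le]
      have e2 : p (u + 1) = pos v0 R (u + 1) - pos v0 R 0 := by
        simp only [hp]; rw [Nat.min_eq_left (by omega)]
      simp only [e1, e2, hρ]
    · rw [if_neg hu, if_neg hu]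
  simp only [e6] at key
  refine key.trans (le_of_eq ?_)
  have e7 : ∀ u ∈ range U, κ u = kb v η ℓ1 s := by
    intro u hu
    simp only [hκ]
    rw [if_pos (Finset.mem_range.1 hu)]
  rw [Finset.sum_congr rfl e7, Finset.sum_const, Finset.card_range, nsmul_eq_mul]

/-- block sums after a shift -/
lemma bvec_shift {v0 R : ℕ} (hR : 0 < R) (α : ℕ → ℝ) (U : ℕ) {T0 : Finset ℕ}
    (h0 : T0 ∈ (range (pos v0 R 0)).powerset) (T1 : Finset ℕ) :
    bvec (XX v0 R α) U (T0 ∪ shift (pos v0 R 0) T1) (fun _ => 0) =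
      bvec (fun u T => (1 / Real.sqrt (2 ^ v0 * bl R u)) *
        wk (fun j => α (pos v0 R 0 + j)) T (pos v0 R u - pos v0 R 0) (pos v0 R (u + 1) - pos v0 R 0)) U T1
          (fun _ => 0) := by
  have hm := (pos_strictMono v0 hR).monotone
  funext u
  unfold bvec
  by_cases hu : u < U
  · rw [if_pos hu, if_pos hu]
    unfold XX
    congr 1
    have h1 := hm (Nat.zero_le u)
    have h2 := hm (Nat.zero_le (u + 1))
    have := wk_union_high α (pos v0 R 0) (pos v0 R u - pos v0 R 0) (pos v0 R (u + 1) - pos v0 R 0) h0 T1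
    rw [show pos v0 R 0 + (pos v0 R u - pos v0 R 0) = pos v0 R u by omega,
      show pos v0 R 0 + (pos v0 R (u + 1) - pos v0 R 0) = pos v0 R (u + 1) by omega] at this
    exact this
  · rw [if_neg hu, if_neg hu]

/-- block sums do not see the high part -/
lemma bvec_low {v0 R : ℕ} (hR : 0 < R) (α : ℕ → ℝ) {U n : ℕ} (hn : pos v0 R U ≤ n) (T0 T1 : Finset ℕ) :
    bvec (XX v0 R α) U (T0 ∪ shift n T1) (fun _ => 0) = bvec (XX v0 R α) U T0 (fun _ => 0) := by
  have hm := (pos_strictMono v0 hR).monotone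
  funext u
  unfold bvec
  by_cases hu : u < U
  · rw [if_pos hu, if_pos hu]
    unfold XX wk
    congr 1
    refine Finset.sum_congr rfl fun j hj => ?_
    rw [sg_union_low]
    have h1 := (Finset.mem_Ico.1 hj).2
    have h2 := hm (show u + 1 ≤ U by omega)
    omega
  · rw [if_neg hu, if_neg hu]

/-- products over disjoint windows -/
lemma Ex_prod_windows (q : ℕ → ℕ) (hq : Monotone q) (F f : ℕ → Finset ℕ → ℝ)
    (h1 : ∀ b, ∀ T0 ∈ (range (q b)).powerset, ∀ T1, F b (T0 ∪ shift (q b) T1) = f b T1)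
    (h2 : ∀ b c, c < b → ∀ T0 T1, F c (T0 ∪ shift (q b) T1) = F c T0) :
    ∀ B, Ex (q B) (fun T => ∏ b ∈ range B, F b T) = ∏ b ∈ range B, Ex (q (b + 1) - q b) (f b) := by
  intro B
  induction B with
  | zero => simp [Ex_const]
  | succ B ih =>
    obtain ⟨m, hm⟩ : ∃ m, q (B + 1) = q B + m := ⟨q (B + 1) - q B, by have := hq (show B ≤ B + 1 by omega); omega⟩
    rw [Finset.prod_range_succ, ← ih, hm, Ex_split, Nat.add_sub_cancel_left, ← Ex_mul_right]
    refine Ex_congr fun T0 hT0 => ?_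
    rw [← Ex_mul_left]
    refine Ex_congr fun T1 _ => ?_
    rw [Finset.prod_range_succ, h1 B T0 hT0 T1]
    congr 1
    refine Finset.prod_congr rfl fun c hc => ?_
    exact h2 B c (Finset.mem_range.1 hc) T0 T1

open Classical in
/-- **Upper bound.** -/
theorem upper_windows {α : ℕ → ℝ} {e v3 : ℕ} {η ℓ1 ℓ2 : ℝ} (h : Reg α e v3 η ℓ1 ℓ2) (hη : η ≤ 1) (hη0 : 0 ≤ η)
    (hℓ1 : 0 ≤ ℓ1) (hℓ : 1 ≤ ℓ2) {v g w B d : ℕ} (he : e ≤ v) (hev : e ≤ v3)
    (hv : (2:ℝ) ^ (v + B * (w + 2 * g)) * 2 ^ g * ℓ2 ^ 2 ≤ 2 ^ v3) (hd : 2 ^ v3 ≤ d)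
    {s δ : ℝ} (hs : 0 < s) (hδ : 0 ≤ δ) :
    Ex d (fun T => if ∀ k, 1 ≤ k → k ≤ d → 0 ≤ Sk (fun j => α j / (j + 1)) T d k then (1:ℝ) else 0) ≤
      B * (w * 2 ^ g) * (2 * Real.exp (-(δ ^ 2 * 2 ^ g / 22))) +
        (Qg g w (-δ) + ((w + 2 * g) * 2 ^ g : ℕ) * kb v η ℓ1 s) ^ B := by
  set R := 2 ^ g with hR
  have hRpos : 0 < R := by positivity
  set W := w + 2 * g with hW
  set U := W * R with hU
  set q : ℕ → ℕ := fun b => 2 ^ (v + b * W) * R with hq
  have hqm : Monotone q := by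
    intro a b hab
    simp only [hq]
    exact Nat.mul_le_mul_right _ (Nat.pow_le_pow_right (by norm_num) (by
      have := Nat.mul_le_mul_right W hab; omega))
  have hq0 : ∀ b, pos (v + b * W) R 0 = q b := fun b => pos_zero _ hRpos
  have hqU : ∀ b, pos (v + b * W) R U = q (b + 1) := by
    intro b
    rw [hU, pos_mul _ hRpos]
    simp only [hq]
    congr 2
    ring
  set F : ℕ → Finset ℕ → ℝ := fun b T => cone g w (-δ) (bvec (XX (v + b * W) R α) U T (fun _ => 0)) with hF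
  set f : ℕ → Finset ℕ → ℝ := fun b T => cone g w (-δ) (bvec (fun u T => (1 / Real.sqrt (2 ^ (v + b * W) * bl R u)) *
        wk (fun j => α (pos (v + b * W) R 0 + j)) T (pos (v + b * W) R u - pos (v + b * W) R 0)
          (pos (v + b * W) R (u + 1) - pos (v + b * W) R 0)) U T (fun _ => 0)) with hf
  have hqBv : q B ≤ 2 ^ v3 := by
    have h1 : (0:ℝ) < (2:ℝ) ^ (v + B * W) * 2 ^ g := by positivity
    have h2 : (2:ℝ) ^ (v + B * W) * 2 ^ g * 1 ≤ (2:ℝ) ^ (v + B * W) * 2 ^ g * ℓ2 ^ 2 := by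
      apply mul_le_mul_of_nonneg_left _ h1.le
      nlinarith
    have h3 : ((q B : ℕ) : ℝ) ≤ ((2 ^ v3 : ℕ) : ℝ) := by
      simp only [hq, hR]
      push_cast
      linarith
    exact_mod_cast h3
  -- pointwise bound
  have hpt : ∀ T ∈ (range d).powerset,
      (if ∀ k, 1 ≤ k → k ≤ d → 0 ≤ Sk (fun j => α j / (j + 1)) T d k then (1:ℝ) else 0) ≤
      ∑ b ∈ range B, ∑ l ∈ Ico (g * R) ((g + w) * R),
        (if δ * Real.sqrt (pos (v + b * W) R l) ≤
          |Sk (fun j => α j / (j + 1)) T d (pos (v + b * W) R l) - Real.sqrt (pos (v + b * W) R l) *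
            ∑ u ∈ range U, cf R l u * XX (v + b * W) R α u T| then (1:ℝ) else 0) +
        ∏ b ∈ range B, F b T := by
    intro T _
    have hFnn : 0 ≤ ∏ b ∈ range B, F b T := Finset.prod_nonneg fun b _ => (cone_MB g w (-δ)).nn _
    have hSnn : 0 ≤ ∑ b ∈ range B, ∑ l ∈ Ico (g * R) ((g + w) * R),
        (if δ * Real.sqrt (pos (v + b * W) R l) ≤
          |Sk (fun j => α j / (j + 1)) T d (pos (v + b * W) R l) - Real.sqrt (pos (v + b * W) R l) *
            ∑ u ∈ range U, cf R l u * XX (v + b * W) R α u T| then (1:ℝ) else 0) :=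
      Finset.sum_nonneg fun b _ => Finset.sum_nonneg fun l _ => by split_ifs <;> norm_num
    by_cases c1 : ∀ k, 1 ≤ k → k ≤ d → 0 ≤ Sk (fun j => α j / (j + 1)) T d k
    swap
    · rw [if_neg c1]; linarith
    rw [if_pos c1]
    by_cases c2 : ∃ b ∈ range B, ∃ l ∈ Ico (g * R) ((g + w) * R), δ * Real.sqrt (pos (v + b * W) R l) ≤
          |Sk (fun j => α j / (j + 1)) T d (pos (v + b * W) R l) - Real.sqrt (pos (v + b * W) R l) *
            ∑ u ∈ range U, cf R l u * XX (v + b * W) R α u T|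
    · obtain ⟨b, hb, l, hl, hbl⟩ := c2
      have h1 : (1:ℝ) ≤ ∑ b ∈ range B, ∑ l ∈ Ico (g * R) ((g + w) * R),
        (if δ * Real.sqrt (pos (v + b * W) R l) ≤
          |Sk (fun j => α j / (j + 1)) T d (pos (v + b * W) R l) - Real.sqrt (pos (v + b * W) R l) *
            ∑ u ∈ range U, cf R l u * XX (v + b * W) R α u T| then (1:ℝ) else 0) := by
        refine le_trans ?_ (Finset.single_le_sum (fun b _ => Finset.sum_nonneg fun l _ => by split_ifs <;> norm_num) hb)
        refine le_trans ?_ (Finset.single_le_sum (fun l _ => by split_ifs <;> norm_num) hl)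
        rw [if_pos hbl]
      linarith
    · push Not at c2
      have h1 : ∏ b ∈ range B, F b T = 1 := by
        refine Finset.prod_eq_one fun b hb => ?_
        simp only [hF]
        unfold cone
        rw [if_pos]
        intro l hl1 hl2
        have h2 := c2 b hb l (Finset.mem_Ico.2 ⟨hl1, hl2⟩)
        have hb' := Finset.mem_range.1 hb
        have hposd : pos (v + b * W) R l ≤ d := by
          have h3 : pos (v + b * W) R l ≤ pos (v + b * W) R U :=
            (pos_strictMono _ hRpos).monotone (hl2.le.trans (Nat.mul_le_mul_right _ (by omega)))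
          rw [hqU] at h3
          exact h3.trans ((hqm (show b + 1 ≤ B by omega)).trans (hqBv.trans hd))
        have hposp : 1 ≤ pos (v + b * W) R l := pos_pos _ hRpos l
        have h4 := c1 _ hposp hposd
        have hsq : 0 < Real.sqrt (pos (v + b * W) R l) := Real.sqrt_pos.2 (by exact_mod_cast pos_pos _ hRpos l)
        have e1 : ∑ u ∈ range ((w + 2 * g) * 2 ^ g), cf (2 ^ g) l u *
            bvec (XX (v + b * W) R α) U T (fun _ => 0) u = ∑ u ∈ range U, cf R l u * XX (v + b * W) R α u T := by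
          refine Finset.sum_congr rfl fun u hu => ?_
          unfold bvec
          rw [if_pos (Finset.mem_range.1 hu)]
        rw [e1]
        have h5 := (abs_lt.1 h2).2
        have h6 : -δ * Real.sqrt (pos (v + b * W) R l) <
            Real.sqrt (pos (v + b * W) R l) * ∑ u ∈ range U, cf R l u * XX (v + b * W) R α u T := by linarith
        have h7 : Real.sqrt (pos (v + b * W) R l) * (-δ) ≤
            Real.sqrt (pos (v + b * W) R l) * ∑ u ∈ range U, cf R l u * XX (v + b * W) R α u T := by linarith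
        exact le_of_mul_le_mul_left h7 hsq
      rw [h1]; linarith
  refine (Ex_mono hpt).trans ?_
  rw [Ex_add, Ex_sum]
  apply add_le_add
  · -- exceptional events
    have h1 : ∀ b ∈ range B, Ex d (fun T => ∑ l ∈ Ico (g * R) ((g + w) * R),
        (if δ * Real.sqrt (pos (v + b * W) R l) ≤
          |Sk (fun j => α j / (j + 1)) T d (pos (v + b * W) R l) - Real.sqrt (pos (v + b * W) R l) *
            ∑ u ∈ range U, cf R l u * XX (v + b * W) R α u T| then (1:ℝ) else 0)) ≤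
        (w * 2 ^ g) * (2 * Real.exp (-(δ ^ 2 * 2 ^ g / 22))) := by
      intro b hb
      have hb' := Finset.mem_range.1 hb
      rw [Ex_sum]
      have hposU : (pos (v + b * W) R U : ℝ) * ℓ2 ^ 2 ≤ 2 ^ v3 := by
        rw [hqU]
        refine le_trans ?_ hv
        have h2 := hqm (show b + 1 ≤ B by omega)
        have h3 : ((q (b + 1) : ℕ) : ℝ) ≤ ((q B : ℕ) : ℝ) := by exact_mod_cast h2
        have h4 : ((q B : ℕ) : ℝ) = (2:ℝ) ^ (v + B * (w + 2 * g)) * 2 ^ g := by
          simp only [hq, hR, hW]; push_cast; ring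
        rw [← h4]
        gcongr
      calc ∑ l ∈ Ico (g * R) ((g + w) * R), Ex d (fun T =>
            (if δ * Real.sqrt (pos (v + b * W) R l) ≤
            |Sk (fun j => α j / (j + 1)) T d (pos (v + b * W) R l) - Real.sqrt (pos (v + b * W) R l) *
              ∑ u ∈ range U, cf R l u * XX (v + b * W) R α u T| then (1:ℝ) else 0)) ≤
          ∑ _l ∈ Ico (g * R) ((g + w) * R), 2 * Real.exp (-(δ ^ 2 * 2 ^ g / 22)) := by
            refine Finset.sum_le_sum fun l hl => ?_
            have hl' := Finset.mem_Ico.1 hl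
            exact err_prob h hη hℓ (he.trans (Nat.le_add_right v (b * W))) hposU hev hd hl'.1 hl'.2.le hδ
        _ = _ := by
            rw [Finset.sum_const, Nat.card_Ico, nsmul_eq_mul]
            have : (g + w) * R - g * R = w * R := by rw [Nat.add_mul, Nat.add_sub_cancel_left]
            rw [this, hR]
            push_cast
            ring
    calc _ ≤ ∑ _b ∈ range B, ((w:ℝ) * 2 ^ g) * (2 * Real.exp (-(δ ^ 2 * 2 ^ g / 22))) := Finset.sum_le_sum h1
      _ = _ := by rw [Finset.sum_const, Finset.card_range, nsmul_eq_mul]; ring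
  · -- the product
    have e1 : Ex d (fun T => ∏ b ∈ range B, F b T) = Ex (q B) (fun T => ∏ b ∈ range B, F b T) := by
      obtain ⟨r, hr⟩ : ∃ r, d = q B + r := ⟨d - q B, by have := hqBv.trans hd; omega⟩
      rw [hr, Ex_split]
      refine Ex_congr fun T0 _ => ?_
      rw [← Ex_const r (∏ b ∈ range B, F b T0)]
      refine Ex_congr fun T1 _ => ?_
      refine Finset.prod_congr rfl fun b hb => ?_
      simp only [hF]
      rw [bvec_low hRpos α _ T0 T1]
      rw [hqU]
      exact hqm (show b + 1 ≤ B by have := Finset.mem_range.1 hb; omega)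
    rw [e1, Ex_prod_windows q hqm F f]
    · have h1 : ∀ b ∈ range B, Ex (q (b + 1) - q b) (f b) ≤
          Qg g w (-δ) + ((w + 2 * g) * 2 ^ g : ℕ) * kb v η ℓ1 s := by
        intro b hb
        have hb' := Finset.mem_range.1 hb
        have := window_cmp h hη hℓ1 hRpos (he.trans (Nat.le_add_right v (b * W))) (Nat.le_add_right v (b * W))
          (U := U) (by rw [hqU]; exact (hqm (show b + 1 ≤ B by omega)).trans hqBv) hs (cone_MB g w (-δ)) hη0
        rw [hqU] at this
        have h5 := (abs_le.1 this).2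
        have h6 : Ex (q (b + 1) - pos (v + b * W) R 0) (f b) = Ex (q (b + 1) - q b) (f b) := by rw [hq0]
        have h7 : GI U (cone g w (-δ)) (fun _ => 0) = Qg g w (-δ) := rfl
        rw [h7] at h5
        have h8 : ((U : ℕ) : ℝ) = (((w + 2 * g) * 2 ^ g : ℕ) : ℝ) := rfl
        rw [← h8, ← h6]
        linarith
      calc ∏ b ∈ range B, Ex (q (b + 1) - q b) (f b) ≤
          ∏ _b ∈ range B, (Qg g w (-δ) + ((w + 2 * g) * 2 ^ g : ℕ) * kb v η ℓ1 s) :=
            Finset.prod_le_prod (fun b _ => Ex_nonneg fun T _ => (cone_MB g w (-δ)).nn _) h1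
        _ = _ := by rw [Finset.prod_const, Finset.card_range]
    · intro b T0 hT0 T1
      simp only [hF, hf]
      rw [← hq0] at hT0
      rw [← hq0, bvec_shift hRpos α U hT0 T1]
    · intro b c hcb T0 T1
      simp only [hF]
      rw [bvec_low hRpos α _ T0 T1]
      rw [hqU]
      exact hqm (show c + 1 ≤ b by omega)

end Pool.Agent.Lib.GraphPart
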